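import Pool.Agent.Q239.RN.Defs

set_option autoImplicit false

open Finset

namespace Q239.RN

theorem sigma_prime_pow {p k : ℕ} (hp : p.Prime) :
    (ArithmeticFunction.sigma 1 (p ^ k) : ℝ) = (p : ℝ) ^ k * ((1 - 1 / (p : ℝ) ^ (k + 1)) / (1 - 1 / p)) := by
  have h1 := prime_gt hp
  rw [ArithmeticFunction.sigma_one_apply_prime_pow hp]
  push_cast
  rw [geom_sum_eq h1.ne']
  have h2 : (p : ℝ) - 1 ≠ 0 := by linarith
  have h3 : (p : ℝ) ≠ 0 := by linarith
  have h4 : (1 - 1 / (p : ℝ)) ≠ 0 := by
    have : 1 - 1 / (p : ℝ) = (p - 1) / p := by field_simp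
    rw [this]
    positivity
  have h5 : (p : ℝ) ^ (k + 1) ≠ 0 := by positivity
  field_simp
  ring

theorem one_sub_pow_pos {p k : ℕ} (hp : p.Prime) : 0 < 1 - 1 / (p : ℝ) ^ (k + 1) := by
  have h1 := prime_gt hp
  have : 1 < (p : ℝ) ^ (k + 1) := one_lt_pow₀ h1 (by omega)
  rw [sub_pos, div_lt_one (by linarith)]
  exact this

/-- `log (σ n / n)` -/
theorem log_sigma (n : ℕ) (hn : n ≠ 0) :
    Real.log (ArithmeticFunction.sigma 1 n : ℝ) - Real.log n =
      ∑ p ∈ n.primeFactors, (ell p + Real.log (1 - 1 / (p : ℝ) ^ (n.factorization p + 1))) := by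
  have h1 : (ArithmeticFunction.sigma 1 n : ℝ) =
      ∏ p ∈ n.primeFactors, ((p : ℝ) ^ (n.factorization p) *
        ((1 - 1 / (p : ℝ) ^ (n.factorization p + 1)) / (1 - 1 / p))) := by
    have h2 := (ArithmeticFunction.isMultiplicative_sigma (k := 1)).multiplicative_factorization _ hn
    rw [h2, Finsupp.prod, Nat.support_factorization]
    push_cast
    refine Finset.prod_congr rfl fun p hp => ?_
    have hp' := Nat.prime_of_mem_primeFactors hp
    exact sigma_prime_pow hp'
  have h3 : (n : ℝ) = ∏ p ∈ n.primeFactors, (p : ℝ) ^ (n.factorization p) := by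
    have h4 := Nat.prod_factorization_pow_eq_self hn
    rw [Finsupp.prod, Nat.support_factorization] at h4
    conv_lhs => rw [← h4]
    push_cast
    rfl
  have e1 : ∀ p ∈ n.primeFactors, (p : ℝ) ^ (n.factorization p) ≠ 0 := fun p hp => by
    have := prime_gt (Nat.prime_of_mem_primeFactors hp)
    positivity
  have e2 : ∀ p ∈ n.primeFactors, ((1 - 1 / (p : ℝ) ^ (n.factorization p + 1)) / (1 - 1 / (p:ℝ))) ≠ 0 := by
    intro p hp
    have a1 := prime_gt (Nat.prime_of_mem_primeFactors hp)
    have a2 := one_sub_pow_pos (k := n.factorization p) (Nat.prime_of_mem_primeFactors hp)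
    have a3 : 0 < 1 - 1 / (p : ℝ) := by
      rw [sub_pos, div_lt_one (by linarith)]
      exact a1
    positivity
  have h5 : Real.log (n : ℝ) = ∑ p ∈ n.primeFactors, Real.log ((p : ℝ) ^ (n.factorization p)) := by
    conv_lhs => rw [h3]
    exact Real.log_prod e1
  rw [h1, Real.log_prod (fun p hp => mul_ne_zero (e1 p hp) (e2 p hp)), h5, ← Finset.sum_sub_distrib]
  refine Finset.sum_congr rfl fun p hp => ?_
  have a1 := prime_gt (Nat.prime_of_mem_primeFactors hp)
  have a2 := one_sub_pow_pos (k := n.factorization p) (Nat.prime_of_mem_primeFactors hp)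
  have a3 : 0 < 1 - 1 / (p : ℝ) := by
    rw [sub_pos, div_lt_one (by linarith)]
    exact a1
  rw [Real.log_mul (e1 p hp) (e2 p hp), Real.log_div a2.ne' a3.ne']
  unfold ell
  ring

theorem sigma_pos {n : ℕ} (hn : n ≠ 0) : (0 : ℝ) < (ArithmeticFunction.sigma 1 n : ℝ) := by
  have : 0 < ArithmeticFunction.sigma 1 n := by
    rw [ArithmeticFunction.sigma_one_apply]
    exact Finset.sum_pos (fun d hd => Nat.pos_of_mem_divisors hd) ⟨1, Nat.one_mem_divisors.2 hn⟩
  exact_mod_cast this

/-- logarithmic form -/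
theorem robEx_iff {n : ℕ} (hn : 3 ≤ n) : RobEx n ↔
    Real.eulerMascheroniConstant + Real.log (Real.log (Real.log n)) ≤
      ∑ p ∈ n.primeFactors, (ell p + Real.log (1 - 1 / (p : ℝ) ^ (n.factorization p + 1))) := by
  have hn0 : (0 : ℝ) < n := by exact_mod_cast (by omega : 0 < n)
  have hl := log_gt_one hn
  have hll : 0 < Real.log (Real.log n) := Real.log_pos hl
  have hs := sigma_pos (n := n) (by omega)
  rw [← log_sigma n (by omega)]
  unfold RobEx
  constructor
  · rintro ⟨-, h⟩
    have h1 := Real.log_le_log (by positivity) h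
    rw [Real.log_mul (by positivity) hll.ne', Real.log_mul (by positivity) hn0.ne', Real.log_exp] at h1
    linarith
  · intro h
    refine ⟨hn, ?_⟩
    have h1 : Real.log (Real.exp Real.eulerMascheroniConstant * (n : ℝ) *
        Real.log (Real.log n)) ≤ Real.log (ArithmeticFunction.sigma 1 n : ℝ) := by
      rw [Real.log_mul (by positivity) hll.ne', Real.log_mul (by positivity) hn0.ne', Real.log_exp]
      linarith
    exact (Real.log_le_log_iff (by positivity) hs).1 h1

theorem nicEx_of_robEx {n : ℕ} (h : RobEx n) : NicEx n := by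
  have hn := h.1
  rw [robEx_iff hn] at h
  rw [nicEx_iff hn]
  refine h.trans_lt (Finset.sum_lt_sum_of_nonempty (Nat.nonempty_primeFactors.2 (by omega)) fun p hp => ?_)
  have a2 := one_sub_pow_pos (k := n.factorization p) (Nat.prime_of_mem_primeFactors hp)
  have a1 := prime_gt (Nat.prime_of_mem_primeFactors hp)
  have : Real.log (1 - 1 / (p : ℝ) ^ (n.factorization p + 1)) < 0 := by
    refine Real.log_neg a2 ?_
    have : 0 < 1 / (p : ℝ) ^ (n.factorization p + 1) := by positivity
    linarith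
  linarith

end Q239.RN
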