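import Pool.Agent.Q239.RN.Fin1
import Pool.Agent.Q239.RN.Sig
import Pool.Agent.H332R2.FL.ZeroExists

set_option autoImplicit false

/-! # The law for the number of exceptions -/

open Filter Topology MeasureTheory Set

namespace Q239.RN

noncomputable section

/-- the supremum of the real parts of the zeros -/
theorem exists_sup : ∃ Θ : ℝ, IsLUB {x : ℝ | ∃ s : ℂ, riemannZeta s = 0 ∧ 0 < s.re ∧ x = s.re} Θ ∧
    1 / 2 ≤ Θ ∧ Θ ≤ 1 ∧ (∀ s : ℂ, Θ < s.re → riemannZeta s ≠ 0) ∧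
    (∀ β : ℝ, β < Θ → ∃ ρ : ℂ, riemannZeta ρ = 0 ∧ β < ρ.re) := by
  obtain ⟨ρ, h1, h2, h3, -, -⟩ := H332.FL.exists_zero_re_ge_half 0
  have hne : {x : ℝ | ∃ s : ℂ, riemannZeta s = 0 ∧ 0 < s.re ∧ x = s.re}.Nonempty :=
    ⟨ρ.re, ρ, h1, by linarith, rfl⟩
  have hub : ∀ x ∈ {x : ℝ | ∃ s : ℂ, riemannZeta s = 0 ∧ 0 < s.re ∧ x = s.re}, x ≤ 1 := by
    rintro x ⟨s, hs, -, rfl⟩
    by_contra h
    exact riemannZeta_ne_zero_of_one_le_re (not_le.1 h).le hs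
  have hlub := isLUB_csSup hne ⟨1, fun x hx => hub x hx⟩
  refine ⟨_, hlub, ?_, hlub.2 (fun x hx => hub x hx), fun s hs h0 => ?_, fun β hβ => ?_⟩
  · exact h2.trans (hlub.1 ⟨ρ, h1, by linarith, rfl⟩)
  · have h4 : 1 / 2 ≤ sSup {x : ℝ | ∃ s : ℂ, riemannZeta s = 0 ∧ 0 < s.re ∧ x = s.re} :=
      h2.trans (hlub.1 ⟨ρ, h1, by linarith, rfl⟩)
    have h5 := hlub.1 ⟨s, h0, by linarith, rfl⟩
    linarith
  · obtain ⟨x, ⟨s, hs, hs0, hs1⟩, hx⟩ := exists_lt_of_lt_csSup hne hβ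
    exact ⟨s, hs, hs1 ▸ hx⟩

/-- `log log (cnt) / log log x → κ` from two-sided bounds -/
theorem tendsto_of_bounds {P : ℕ → Prop} {κ : ℝ}
    (h1 : ∀ ε : ℝ, 0 < ε → ∀ᶠ x : ℝ in atTop, (cnt P x : ℝ) ≤ Real.exp (Real.log x ^ (κ + ε)))
    (h2 : ∀ ε : ℝ, 0 < ε → ∀ᶠ x : ℝ in atTop, Real.exp (Real.log x ^ (κ - ε)) ≤ cnt P x) :
    Tendsto (fun x : ℝ => Real.log (Real.log (cnt P x)) / Real.log (Real.log x)) atTop (𝓝 κ) := by
  have hll : Tendsto (fun x : ℝ => Real.log (Real.log x)) atTop atTop :=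
    Real.tendsto_log_atTop.comp Real.tendsto_log_atTop
  rw [Metric.tendsto_atTop']
  intro ε hε
  have key : ∀ᶠ x : ℝ in atTop, dist (Real.log (Real.log (cnt P x)) / Real.log (Real.log x)) κ < ε := by
    filter_upwards [h1 (ε / 2) (by linarith), h2 (ε / 2) (by linarith), hll.eventually_ge_atTop 1,
      Real.tendsto_log_atTop.eventually_ge_atTop 1] with x a1 a2 a3 a4
    have hx0 : 0 < Real.log x := by linarith
    have b0 : (0 : ℝ) < cnt P x := (Real.exp_pos _).trans_le a2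
    have b1 : Real.log x ^ (κ - ε / 2) ≤ Real.log (cnt P x) := by
      rw [Real.le_log_iff_exp_le b0]
      exact a2
    have b2 : Real.log (cnt P x) ≤ Real.log x ^ (κ + ε / 2) := by
      rw [Real.log_le_iff_le_exp b0]
      exact a1
    have b3 : 0 < Real.log x ^ (κ - ε / 2) := Real.rpow_pos_of_pos hx0 _
    have b4 : 0 < Real.log (cnt P x) := b3.trans_le b1
    have b5 : (κ - ε / 2) * Real.log (Real.log x) ≤ Real.log (Real.log (cnt P x)) := by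
      rw [← Real.log_rpow hx0]
      exact Real.log_le_log b3 b1
    have b6 : Real.log (Real.log (cnt P x)) ≤ (κ + ε / 2) * Real.log (Real.log x) := by
      rw [← Real.log_rpow hx0]
      exact Real.log_le_log b4 b2
    have b7 : 0 < Real.log (Real.log x) := by linarith
    rw [Real.dist_eq, abs_lt]
    constructor
    · have : κ - ε / 2 ≤ Real.log (Real.log (cnt P x)) / Real.log (Real.log x) := by
        rw [le_div_iff₀ b7]
        exact b5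
      linarith
    · have : Real.log (Real.log (cnt P x)) / Real.log (Real.log x) ≤ κ + ε / 2 := by
        rw [div_le_iff₀ b7]
        exact b6
      linarith
  obtain ⟨N, hN⟩ := eventually_atTop.1 key
  exact ⟨N, fun n hn => hN n hn.le⟩

/-- upper bound, any supremum -/
theorem nic_upper {Θ : ℝ} (h1 : 1 / 2 ≤ Θ) (h2 : Θ ≤ 1) (hz : ∀ s : ℂ, Θ < s.re → riemannZeta s ≠ 0)
    {ε : ℝ} (hε : 0 < ε) : ∀ᶠ x : ℝ in atTop, (cnt NicEx x : ℝ) ≤ Real.exp (Real.log x ^ ((1 + Θ) / 2 + ε)) := by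
  rcases eq_or_lt_of_le h2 with h | h
  · filter_upwards [upper_all 0, eventually_ge_atTop 3] with x a1 a2
    refine a1.trans (Real.exp_le_exp.2 ?_)
    have : 1 ≤ Real.log x := by
      rw [Real.le_log_iff_exp_le (by linarith)]
      linarith [Real.exp_one_lt_d9]
    rw [pow_zero, div_one]
    calc Real.log x = Real.log x ^ (1 : ℝ) := (Real.rpow_one _).symm
      _ ≤ _ := Real.rpow_le_rpow_of_exponent_le this (by rw [h]; linarith)
  · exact upper_free h1 h hz hε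

/-- lower bound for the exceptions to the inequality of Robin -/
theorem rob_lower {Θ : ℝ} (h1 : 1 / 2 < Θ) (h2 : Θ ≤ 1) (hz : ∀ s : ℂ, Θ < s.re → riemannZeta s ≠ 0)
    (hs : ∀ β : ℝ, β < Θ → ∃ ρ : ℂ, riemannZeta ρ = 0 ∧ β < ρ.re) {ε : ℝ} (hε : 0 < ε) :
    ∀ᶠ x : ℝ in atTop, Real.exp (Real.log x ^ ((1 + Θ) / 2 - ε)) ≤ cnt RobEx x := by
  rcases eq_or_lt_of_le h2 with h | h
  · have := rob_lower2 (fun β _ hβ => hs β (by rw [h]; exact hβ)) hε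
    rw [h]
    have e : ((1 : ℝ) + 1) / 2 - ε = 1 - ε := by ring
    rw [e]
    exact this
  · exact rob_lower1 h1 h hz (fun β _ hβ => hs β hβ) hε

/-- lower bound for the exceptions to the inequality of Nicolas -/
theorem nic_lower {Θ : ℝ} (h1 : 1 / 2 ≤ Θ) (h2 : Θ ≤ 1) (hz : ∀ s : ℂ, Θ < s.re → riemannZeta s ≠ 0)
    (hs : ∀ β : ℝ, β < Θ → ∃ ρ : ℂ, riemannZeta ρ = 0 ∧ β < ρ.re) {ε : ℝ} (hε : 0 < ε) :
    ∀ᶠ x : ℝ in atTop, Real.exp (Real.log x ^ ((1 + Θ) / 2 - ε)) ≤ cnt NicEx x := by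
  rcases eq_or_lt_of_le h2 with h | h
  · filter_upwards [rob_lower (by linarith) h2 hz hs hε] with x a1
    exact a1.trans (by exact_mod_cast cnt_mono (fun n => nicEx_of_robEx) x)
  · exact nic_lower1 h1 h hz (fun β _ hβ => hs β hβ) hε

/-- the law for the inequality of Nicolas -/
theorem nic_law {Θ : ℝ} (h1 : 1 / 2 ≤ Θ) (h2 : Θ ≤ 1) (hz : ∀ s : ℂ, Θ < s.re → riemannZeta s ≠ 0)
    (hs : ∀ β : ℝ, β < Θ → ∃ ρ : ℂ, riemannZeta ρ = 0 ∧ β < ρ.re) :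
    Tendsto (fun x : ℝ => Real.log (Real.log (cnt NicEx x)) / Real.log (Real.log x)) atTop
      (𝓝 ((1 + Θ) / 2)) :=
  tendsto_of_bounds (fun _ hε => nic_upper h1 h2 hz hε) (fun _ hε => nic_lower h1 h2 hz hs hε)

/-- the law for the inequality of Robin -/
theorem rob_law {Θ : ℝ} (h1 : 1 / 2 < Θ) (h2 : Θ ≤ 1) (hz : ∀ s : ℂ, Θ < s.re → riemannZeta s ≠ 0)
    (hs : ∀ β : ℝ, β < Θ → ∃ ρ : ℂ, riemannZeta ρ = 0 ∧ β < ρ.re) :
    Tendsto (fun x : ℝ => Real.log (Real.log (cnt RobEx x)) / Real.log (Real.log x)) atTop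
      (𝓝 ((1 + Θ) / 2)) :=
  tendsto_of_bounds (fun ε hε => by
    filter_upwards [nic_upper h1.le h2 hz hε] with x a1
    exact le_trans (by exact_mod_cast cnt_mono (fun n => nicEx_of_robEx) x) a1)
    (fun _ hε => rob_lower h1 h2 hz hs hε)

/-- two incompatible bounds -/
theorem incompat {P : ℕ → Prop} {κ κ' : ℝ} (h : κ < κ')
    (h1 : ∃ᶠ x : ℝ in atTop, (cnt P x : ℝ) ≤ Real.exp (Real.log x ^ κ))
    (h2 : ∀ᶠ x : ℝ in atTop, Real.exp (Real.log x ^ κ') ≤ cnt P x) : False := by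
  obtain ⟨x, a1, a2, a3⟩ := (h1.and_eventually (h2.and (Real.tendsto_log_atTop.eventually_ge_atTop 2))).exists
  have h3 := Real.exp_le_exp.1 (a2.trans a1)
  have h4 := Real.rpow_lt_rpow_of_exponent_lt (show 1 < Real.log x by linarith) h
  linarith

/-- the equivalence, from the bound for the inequality of Robin -/
theorem free_of_rob {Θ : ℝ} (h2 : Θ ≤ 1) (hz : ∀ s : ℂ, Θ < s.re → riemannZeta s ≠ 0)
    (hs : ∀ β : ℝ, β < Θ → ∃ ρ : ℂ, riemannZeta ρ = 0 ∧ β < ρ.re) {θ : ℝ} (h3 : 1 / 2 ≤ θ)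
    (hb : ∀ ε : ℝ, 0 < ε → ∃ᶠ x : ℝ in atTop, (cnt RobEx x : ℝ) ≤ Real.exp (Real.log x ^ ((1 + θ) / 2 + ε))) :
    ∀ s : ℂ, θ < s.re → riemannZeta s ≠ 0 := by
  intro s hs1 hs2
  have h4 : θ < Θ := by
    by_contra hcon
    push Not at hcon
    exact hz s (by linarith) hs2
  refine incompat (κ := (1 + θ) / 2 + (Θ - θ) / 8) (κ' := (1 + Θ) / 2 - (Θ - θ) / 8) (by linarith)
    (hb _ (by linarith)) (rob_lower (by linarith) h2 hz hs (by linarith))

end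

end Q239.RN
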