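import Pool.Agent.Q239.RN.Swap

set_option autoImplicit false

/-! # Lower bounds for the counting function: criteria -/

open Finset Filter Topology

namespace Q239.RN

theorem loglog_up {t Δ : ℝ} (ht : 1 < t) (hΔ : 0 ≤ Δ) :
    Real.log (Real.log (t + Δ)) ≤ Real.log (Real.log t) + Δ / (t * Real.log t) := by
  have hl : 0 < Real.log t := Real.log_pos ht
  have ht0 : 0 < t := by linarith
  have h1 : Real.log (t + Δ) ≤ Real.log t + Δ / t := by
    have h := Real.log_le_sub_one_of_pos (show 0 < (t + Δ) / t by positivity)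
    rw [Real.log_div (by linarith) ht0.ne'] at h
    have e : (t + Δ) / t - 1 = Δ / t := by field_simp; ring
    linarith
  have h2 : 0 < Real.log (t + Δ) := Real.log_pos (by linarith)
  have h3 : Real.log (Real.log (t + Δ)) ≤ Real.log (Real.log t + Δ / t) := Real.log_le_log h2 h1
  have h4 : 0 < Real.log t + Δ / t := by positivity
  have h := Real.log_le_sub_one_of_pos (show 0 < (Real.log t + Δ / t) / Real.log t by positivity)
  rw [Real.log_div h4.ne' hl.ne'] at h
  have e : (Real.log t + Δ / t) / Real.log t - 1 = Δ / (t * Real.log t) := by field_simp; ring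
  linarith

theorem nic_of {n : ℕ} (hn : 3 ≤ n) {t Δ : ℝ} (ht : 1 < t) (hΔ : 0 ≤ Δ) (h1 : Real.log n ≤ t + Δ)
    (h2 : Real.eulerMascheroniConstant + Real.log (Real.log t) + Δ / (t * Real.log t) <
      ∑ p ∈ n.primeFactors, ell p) : NicEx n := by
  rw [nicEx_iff hn]
  have h3 := log_gt_one hn
  have h4 : Real.log (Real.log (Real.log n)) ≤ Real.log (Real.log (t + Δ)) :=
    Real.log_le_log (Real.log_pos h3) (Real.log_le_log (by linarith) h1)
  have h5 := loglog_up ht hΔ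
  linarith

theorem rob_of {n : ℕ} (hn : 3 ≤ n) {t Δ lam : ℝ} (ht : 1 < t) (hΔ : 0 ≤ Δ) (h1 : Real.log n ≤ t + Δ)
    (hl : -lam ≤ ∑ p ∈ n.primeFactors, Real.log (1 - 1 / (p : ℝ) ^ (n.factorization p + 1)))
    (h2 : Real.eulerMascheroniConstant + Real.log (Real.log t) + Δ / (t * Real.log t) + lam <
      ∑ p ∈ n.primeFactors, ell p) : RobEx n := by
  rw [robEx_iff hn]
  have h3 := log_gt_one hn
  have h4 : Real.log (Real.log (Real.log n)) ≤ Real.log (Real.log (t + Δ)) :=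
    Real.log_le_log (Real.log_pos h3) (Real.log_le_log (by linarith) h1)
  have h5 := loglog_up ht hΔ
  rw [Finset.sum_add_distrib]
  linarith

theorem neg_log_le {x : ℝ} (h0 : 0 ≤ x) (h1 : x ≤ 1 / 2) : -(2 * x) ≤ Real.log (1 - x) := by
  have h := Real.one_sub_inv_le_log_of_pos (show 0 < 1 - x by linarith)
  have : 1 - (1 - x)⁻¹ = -(x / (1 - x)) := by
    have : 1 - x ≠ 0 := by linarith
    field_simp
    ring
  rw [this] at h
  have h2 : x / (1 - x) ≤ 2 * x := by
    rw [div_le_iff₀ (by linarith)]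
    nlinarith
  linarith

/-- the multiplier for Robin's inequality -/
def QR (j : ℕ) : ℕ := (∏ p ∈ PS (Nat.sqrt j), p) ^ Nat.log 2 j

theorem QR_ne (j : ℕ) : QR j ≠ 0 :=
  pow_ne_zero _ (Finset.prod_ne_zero_iff.2 fun p hp => (mem_PS.1 hp).1.ne_zero)

theorem QR_factors (j : ℕ) : (QR j).primeFactors ⊆ PS (Nat.sqrt j) := by
  unfold QR
  rcases Nat.eq_zero_or_pos (Nat.log 2 j) with h | h
  · rw [h, pow_zero]
    simp
  · rw [Nat.primeFactors_pow _ (by omega), Nat.primeFactors_prod fun p hp => (mem_PS.1 hp).1]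

theorem log_QR {j : ℕ} (hj : 1 ≤ j) : Real.log (QR j) ≤ 2 * Real.sqrt j * Real.log j := by
  have hj' : (1 : ℝ) ≤ j := by exact_mod_cast hj
  unfold QR
  push_cast
  rw [Real.log_pow, Real.log_prod (fun p hp => by
      have := prime_gt (mem_PS.1 hp).1
      linarith), ← theta_PS]
  have h1 := Chebyshev.theta_le_log4_mul_x (Nat.cast_nonneg (α := ℝ) (Nat.sqrt j))
  have h2 : (Nat.sqrt j : ℝ) ≤ Real.sqrt j := Real.nat_sqrt_le_real_sqrt
  have h3 : (Nat.log 2 j : ℝ) * Real.log 2 ≤ Real.log j := by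
    have h4 : 2 ^ Nat.log 2 j ≤ j := Nat.pow_log_le_self 2 (by omega)
    have h5 : ((2 : ℝ)) ^ Nat.log 2 j ≤ j := by exact_mod_cast h4
    have h6 := Real.log_le_log (by positivity) h5
    rwa [Real.log_pow] at h6
  have hlog4 : Real.log 4 = 2 * Real.log 2 := by
    have : (4 : ℝ) = 2 ^ 2 := by norm_num
    rw [this, Real.log_pow]
    norm_num
  have hl2 : 0 < Real.log 2 := Real.log_pos (by norm_num)
  calc (Nat.log 2 j : ℝ) * Chebyshev.theta (Nat.sqrt j : ℕ) ≤
        (Nat.log 2 j : ℝ) * (Real.log 4 * Real.sqrt j) := by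
        gcongr
        exact h1.trans (by gcongr)
    _ = 2 * Real.sqrt j * ((Nat.log 2 j : ℝ) * Real.log 2) := by rw [hlog4]; ring
    _ ≤ _ := by gcongr

theorem QR_fact {j p : ℕ} (hp : p ∈ PS (Nat.sqrt j)) : Nat.log 2 j ≤ (QR j).factorization p := by
  have hpp := (mem_PS.1 hp).1
  rw [← hpp.pow_dvd_iff_le_factorization (QR_ne j)]
  unfold QR
  exact pow_dvd_pow_of_dvd (Finset.dvd_prod_of_mem (fun p => p) hp) _

/-- the loss in Robin's inequality -/
theorem rob_loss {n j N : ℕ} (hj : 100 ≤ j) (hn : n ≠ 0) (hN : n.primeFactors ⊆ PS N)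
    (hv : ∀ p ∈ PS (Nat.sqrt j), Nat.log 2 j ≤ n.factorization p) :
    -(6 / Real.sqrt j) ≤ ∑ p ∈ n.primeFactors, Real.log (1 - 1 / (p : ℝ) ^ (n.factorization p + 1)) := by
  have hj' : (100 : ℝ) ≤ j := by exact_mod_cast hj
  have hj0 : (0 : ℝ) < j := by linarith
  set z := Nat.sqrt j with hz
  have hs : Real.sqrt j * Real.sqrt j = j := Real.mul_self_sqrt hj0.le
  have hs0 : 0 < Real.sqrt j := Real.sqrt_pos.2 hj0
  have hs10 : 10 ≤ Real.sqrt j := by
    rw [show (10 : ℝ) = Real.sqrt (10 ^ 2) by rw [Real.sqrt_sq (by norm_num)]]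
    exact Real.sqrt_le_sqrt (by linarith)
  have h2 : (z : ℝ) ≤ Real.sqrt j := Real.nat_sqrt_le_real_sqrt
  have h3 : Real.sqrt j < z + 1 := Real.real_sqrt_lt_nat_sqrt_succ
  have hz1 : 1 ≤ z := by
    have : (0 : ℝ) < z := by linarith
    exact_mod_cast this
  have hz0 : (0 : ℝ) < z := by exact_mod_cast hz1
  rw [← Finset.sum_filter_add_sum_filter_not n.primeFactors (fun p => p ≤ z)]
  have a1 : -(2 * z / (j : ℝ)) ≤ ∑ p ∈ n.primeFactors.filter (fun p => p ≤ z),
      Real.log (1 - 1 / (p : ℝ) ^ (n.factorization p + 1)) := by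
    have hc : (n.primeFactors.filter (fun p => p ≤ z)).card ≤ z := by
      have : n.primeFactors.filter (fun p => p ≤ z) ⊆ Finset.Icc 1 z := by
        intro p hp
        rw [mem_filter] at hp
        rw [Finset.mem_Icc]
        exact ⟨(Nat.prime_of_mem_primeFactors hp.1).one_le, hp.2⟩
      have := Finset.card_le_card this
      rwa [Nat.card_Icc, Nat.add_sub_cancel] at this
    have h5 : ∀ p ∈ n.primeFactors.filter (fun p => p ≤ z), -(2 / (j : ℝ)) ≤
        Real.log (1 - 1 / (p : ℝ) ^ (n.factorization p + 1)) := by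
      intro p hp
      rw [mem_filter] at hp
      have hpp := Nat.prime_of_mem_primeFactors hp.1
      have h6 := hv p (mem_PS.2 ⟨hpp, hp.2⟩)
      have h7 : j < 2 ^ (Nat.log 2 j + 1) := Nat.lt_pow_succ_log_self (by norm_num) j
      have h8 : (j : ℝ) ≤ (p : ℝ) ^ (n.factorization p + 1) := by
        calc (j : ℝ) ≤ (2 : ℝ) ^ (Nat.log 2 j + 1) := by exact_mod_cast h7.le
          _ ≤ (p : ℝ) ^ (Nat.log 2 j + 1) := by
            gcongr
            exact_mod_cast hpp.two_le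
          _ ≤ _ := pow_le_pow_right₀ (prime_gt hpp).le (by omega)
      have h9 : 1 / (p : ℝ) ^ (n.factorization p + 1) ≤ 1 / j := one_div_le_one_div_of_le hj0 h8
      have h10 : 1 / (j : ℝ) ≤ 1 / 100 := one_div_le_one_div_of_le (by norm_num) hj'
      have h11 := neg_log_le (x := 1 / (p : ℝ) ^ (n.factorization p + 1)) (by positivity) (by linarith)
      have h12 : 2 / (j : ℝ) = 2 * (1 / j) := by ring
      rw [h12]
      linarith
    have h6 := Finset.card_nsmul_le_sum _ _ _ h5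
    rw [nsmul_eq_mul] at h6
    refine le_trans ?_ h6
    have h7 : ((n.primeFactors.filter (fun p => p ≤ z)).card : ℝ) ≤ z := by exact_mod_cast hc
    have h8 : 0 ≤ 2 / (j : ℝ) := by positivity
    have h9 : 2 * z / (j : ℝ) = z * (2 / j) := by ring
    rw [h9]
    nlinarith
  have a2 : -(2 / (z : ℝ)) ≤ ∑ p ∈ n.primeFactors.filter (fun p => ¬ p ≤ z),
      Real.log (1 - 1 / (p : ℝ) ^ (n.factorization p + 1)) := by
    have hsub : n.primeFactors.filter (fun p => ¬ p ≤ z) ⊆ Finset.Ioc z (max z N) := by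
      intro p hp
      rw [mem_filter, not_le] at hp
      have := (mem_PS.1 (hN hp.1)).2
      rw [Finset.mem_Ioc]
      exact ⟨hp.2, this.trans (le_max_right _ _)⟩
    have h5 : ∑ p ∈ n.primeFactors.filter (fun p => ¬ p ≤ z), -(2 * (1 / ((p : ℝ) - 1) - 1 / p)) ≤
        ∑ p ∈ n.primeFactors.filter (fun p => ¬ p ≤ z),
          Real.log (1 - 1 / (p : ℝ) ^ (n.factorization p + 1)) := by
      refine Finset.sum_le_sum fun p hp => ?_
      rw [mem_filter, not_le] at hp
      have hpp := Nat.prime_of_mem_primeFactors hp.1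
      have hp1 := prime_gt hpp
      have hp2 : (2 : ℝ) ≤ p := by exact_mod_cast hpp.two_le
      have hv1 : 1 ≤ n.factorization p :=
        (hpp.dvd_iff_one_le_factorization hn).1 (Nat.dvd_of_mem_primeFactors hp.1)
      have h8 : (p : ℝ) ^ 2 ≤ (p : ℝ) ^ (n.factorization p + 1) := pow_le_pow_right₀ hp1.le (by omega)
      have h9 : 1 / (p : ℝ) ^ (n.factorization p + 1) ≤ 1 / (p : ℝ) ^ 2 :=
        one_div_le_one_div_of_le (by positivity) h8
      have h10 : 1 / (p : ℝ) ^ 2 ≤ 1 / 4 := one_div_le_one_div_of_le (by norm_num) (by nlinarith)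
      have h11 := neg_log_le (x := 1 / (p : ℝ) ^ (n.factorization p + 1)) (by positivity) (by linarith)
      have h12 : 1 / (p : ℝ) ^ 2 ≤ 1 / ((p : ℝ) - 1) - 1 / p := by
        have e : 1 / ((p : ℝ) - 1) - 1 / p = 1 / (p * (p - 1)) := by
          have : (p : ℝ) - 1 ≠ 0 := by linarith
          field_simp
          ring
        rw [e]
        refine one_div_le_one_div_of_le (by nlinarith) (by nlinarith)
      linarith
    refine le_trans ?_ h5
    rw [Finset.sum_neg_distrib, ← Finset.mul_sum, neg_le_neg_iff]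
    have h6 : ∑ p ∈ n.primeFactors.filter (fun p => ¬ p ≤ z), (1 / ((p : ℝ) - 1) - 1 / p) ≤
        ∑ p ∈ Finset.Ioc z (max z N), (1 / ((p : ℝ) - 1) - 1 / p) := by
      refine Finset.sum_le_sum_of_subset_of_nonneg hsub fun p hp _ => ?_
      rw [Finset.mem_Ioc] at hp
      have h7 : (2 : ℝ) ≤ p := by exact_mod_cast (by omega : 2 ≤ p)
      have : 1 / (p : ℝ) ≤ 1 / ((p : ℝ) - 1) := one_div_le_one_div_of_le (by linarith) (by linarith)
      linarith
    rw [tele z (max z N) hz1 (le_max_left _ _)] at h6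
    have h7 : (0 : ℝ) ≤ 1 / ((max z N : ℕ) : ℝ) := by positivity
    have h8 : 2 / (z : ℝ) = 2 * (1 / z) := by ring
    rw [h8]
    linarith
  have b1 : 2 * z / (j : ℝ) ≤ 2 / Real.sqrt j := by
    rw [div_le_div_iff₀ hj0 hs0]
    nlinarith
  have b2 : 2 / (z : ℝ) ≤ 4 / Real.sqrt j := by
    rw [div_le_div_iff₀ hz0 hs0]
    nlinarith
  have b3 : 6 / Real.sqrt j = 2 / Real.sqrt j + 4 / Real.sqrt j := by ring
  rw [b3]
  linarith

/-- lower bounds for `θ j` -/
def Good (j : ℕ) : Prop := 100 ≤ j ∧ (j : ℝ) / 2 ≤ Chebyshev.theta j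

theorem good_theta {j : ℕ} (hg : Good j) : 1 < Chebyshev.theta (j : ℝ) ∧ 1 < Real.log (Chebyshev.theta (j : ℝ)) ∧
    Real.log j / 2 ≤ Real.log (Chebyshev.theta (j : ℝ)) := by
  obtain ⟨h1, h2⟩ := hg
  have hj' : (100 : ℝ) ≤ j := by exact_mod_cast h1
  have h3 : 50 ≤ Chebyshev.theta (j : ℝ) := by linarith
  refine ⟨by linarith, ?_, ?_⟩
  · rw [Real.lt_log_iff_exp_lt (by linarith)]
    have := Real.exp_one_lt_d9
    linarith
  · have h4 : Real.sqrt j ≤ Chebyshev.theta (j : ℝ) := by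
      refine le_trans ?_ h2
      rw [Real.sqrt_le_iff]
      constructor
      · linarith
      · nlinarith
    have h5 := Real.log_le_log (Real.sqrt_pos.2 (by linarith)) h4
    rwa [Real.log_sqrt (by linarith)] at h5

theorem theta_le (j : ℕ) : Chebyshev.theta (j : ℝ) ≤ 1.39 * j := by
  have h5 := Chebyshev.theta_le_log4_mul_x (Nat.cast_nonneg (α := ℝ) j)
  have h6 : Real.log 4 ≤ 1.39 := by
    have : (4 : ℝ) = 2 ^ 2 := by norm_num
    rw [this, Real.log_pow]
    have := Real.log_two_lt_d9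
    push_cast
    linarith
  have : (0 : ℝ) ≤ j := Nat.cast_nonneg j
  nlinarith

theorem nU_ge {j h Q : ℕ} (hj : 100 ≤ j) (h4 : 4 * h ≤ j) (hQ0 : Q ≠ 0)
    (hQ : Q.primeFactors ⊆ PS (j - h)) {U : Finset ℕ} (hU : U ⊆ Win j h) :
    nU j h Q U ≠ 0 ∧ 3 ≤ nU j h Q U := by
  have hhj : h ≤ j := by omega
  have hn0 : nU j h Q U ≠ 0 := by
    unfold nU
    exact mul_ne_zero hQ0 (Finset.prod_ne_zero_iff.2 fun p hp => (prime_U hU hhj hp).ne_zero)
  refine ⟨hn0, ?_⟩
  have h3mem : 3 ∈ (nU j h Q U).primeFactors := by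
    rw [nU_factors hQ0 hQ hU hhj, mem_union, mem_PS]
    left
    exact ⟨Nat.prime_three, by omega⟩
  exact Nat.le_of_dvd (Nat.pos_of_ne_zero hn0) (Nat.dvd_of_mem_primeFactors h3mem)

theorem QR_Δ {j : ℕ} (hg : Good j) : Real.log (QR j) / (Chebyshev.theta (j : ℝ) *
    Real.log (Chebyshev.theta (j : ℝ))) ≤ 8 / Real.sqrt j := by
  obtain ⟨g1, g2, g3⟩ := good_theta hg
  obtain ⟨hj, hth⟩ := hg
  have hj' : (100 : ℝ) ≤ j := by exact_mod_cast hj
  have hs : Real.sqrt j * Real.sqrt j = j := Real.mul_self_sqrt (by linarith)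
  have hs0 : 0 < Real.sqrt j := Real.sqrt_pos.2 (by linarith)
  have hl : 2 ≤ Real.log j := (log_big hj).trans (Real.log_le_log (by linarith) (by linarith))
  have h1 := log_QR (j := j) (by omega)
  have h2 : (j : ℝ) / 2 * (Real.log j / 2) ≤ Chebyshev.theta (j : ℝ) * Real.log (Chebyshev.theta (j : ℝ)) := by
    gcongr
  calc Real.log (QR j) / (Chebyshev.theta (j : ℝ) * Real.log (Chebyshev.theta (j : ℝ))) ≤
        (2 * Real.sqrt j * Real.log j) / ((j : ℝ) / 2 * (Real.log j / 2)) := by gcongr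
    _ = 8 * Real.sqrt j / j := by field_simp; ring
    _ = 8 / Real.sqrt j := by
      rw [div_eq_div_iff (by linarith) hs0.ne']
      rw [mul_assoc, hs]

theorem nU_fact {j h Q : ℕ} (hQ0 : Q ≠ 0) {U : Finset ℕ} (hU : U ⊆ Win j h) (hhj : h ≤ j) (p : ℕ) :
    Q.factorization p ≤ (nU j h Q U).factorization p := by
  have h1 : (∏ p ∈ PS (j - h) ∪ U, p) ≠ 0 :=
    Finset.prod_ne_zero_iff.2 fun p hp => (prime_U hU hhj hp).ne_zero
  unfold nU
  rw [Nat.factorization_mul hQ0 h1, Finsupp.add_apply]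
  omega

/-- exchanging primes: Nicolas -/
theorem swap_nic {j h m : ℕ} (hg : Good j) (h4 : 4 * h ≤ j)
    (hF : Real.eulerMascheroniConstant + Real.log (Real.log (Chebyshev.theta (j : ℝ))) +
      10 * (h : ℝ) ^ 2 / (j : ℝ) ^ 2 < SL j)
    (hm1 : m ≤ (PS j \ PS (j - h)).card) (hm2 : m ≤ (PS (j + h) \ PS j).card) :
    2 ^ m ≤ cnt NicEx (Real.exp (2 * j)) := by
  obtain ⟨g1, g2, g3⟩ := good_theta hg
  obtain ⟨hj, hth⟩ := hg
  have hj' : (100 : ℝ) ≤ j := by exact_mod_cast hj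
  have hhj : h ≤ j := by omega
  have h4' : 4 * (h : ℝ) ≤ j := by exact_mod_cast h4
  have hh0 : (0 : ℝ) ≤ h := Nat.cast_nonneg h
  have hQ : (1 : ℕ).primeFactors ⊆ PS (j - h) := by simp
  refine cnt_ge one_ne_zero hQ h4 NicEx _ (fun U hU hc => ?_) hm1 hm2
  obtain ⟨s1, s2⟩ := log_nU_le (Q := 1) one_ne_zero hj h4 hU hc
  have s3 := ell_nU hj h4 hU hc
  rw [← nU_factors (Q := 1) one_ne_zero hQ hU hhj] at s3
  set n := nU j h 1 U with hn
  rw [Nat.cast_one, Real.log_one, zero_add] at s1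
  have hsub : ((j - h : ℕ) : ℝ) = j - h := by push_cast [Nat.cast_sub hhj]; ring
  have hn0 : n ≠ 0 := by
    rw [hn]
    unfold nU
    rw [one_mul]
    exact Finset.prod_ne_zero_iff.2 fun p hp => (prime_U hU hhj hp).ne_zero
  have hnp : (0 : ℝ) < n := by exact_mod_cast Nat.pos_of_ne_zero hn0
  have hn3 : 3 ≤ n := by
    have h3mem : 3 ∈ n.primeFactors := by
      rw [hn, nU_factors (Q := 1) one_ne_zero hQ hU hhj, mem_union, mem_PS]
      left
      exact ⟨Nat.prime_three, by omega⟩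
    exact Nat.le_of_dvd (Nat.pos_of_ne_zero hn0) (Nat.dvd_of_mem_primeFactors h3mem)
  have hΔ : 3 * (h : ℝ) ^ 2 / j / (Chebyshev.theta (j : ℝ) * Real.log (Chebyshev.theta (j : ℝ))) ≤
      6 * (h : ℝ) ^ 2 / (j : ℝ) ^ 2 := by
    have h5 : (j : ℝ) / 2 ≤ Chebyshev.theta (j : ℝ) * Real.log (Chebyshev.theta (j : ℝ)) := by nlinarith
    calc 3 * (h : ℝ) ^ 2 / j / (Chebyshev.theta (j : ℝ) * Real.log (Chebyshev.theta (j : ℝ))) ≤
          3 * (h : ℝ) ^ 2 / j / ((j : ℝ) / 2) := by gcongr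
      _ = _ := by field_simp; ring
  constructor
  · refine nic_of hn3 g1 (Δ := 3 * (h : ℝ) ^ 2 / j) (by positivity) s1 ?_
    have e : 10 * (h : ℝ) ^ 2 / (j : ℝ) ^ 2 = 6 * (h : ℝ) ^ 2 / (j : ℝ) ^ 2 + 4 * (h : ℝ) ^ 2 / (j : ℝ) ^ 2 := by
      ring
    rw [e] at hF
    linarith
  · refine (Real.log_le_iff_le_exp hnp).1 (s1.trans ?_)
    have h5 := theta_le j
    have h7 : 3 * (h : ℝ) ^ 2 / j ≤ 3 / 16 * j := by
      rw [div_le_iff₀ (by linarith)]
      nlinarith
    linarith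

/-- exchanging primes: Robin -/
theorem swap_rob {j h m : ℕ} (hg : Good j) (hj4 : 10000 ≤ j) (hlog : 20 * Real.log j ≤ Real.sqrt j)
    (h4 : 4 * h ≤ j)
    (hF : Real.eulerMascheroniConstant + Real.log (Real.log (Chebyshev.theta (j : ℝ))) +
      10 * (h : ℝ) ^ 2 / (j : ℝ) ^ 2 + 14 / Real.sqrt j < SL j)
    (hm1 : m ≤ (PS j \ PS (j - h)).card) (hm2 : m ≤ (PS (j + h) \ PS j).card) :
    2 ^ m ≤ cnt RobEx (Real.exp (2 * j)) := by
  have hgg := hg
  obtain ⟨g1, g2, g3⟩ := good_theta hg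
  obtain ⟨hj, hth⟩ := hg
  have hj' : (10000 : ℝ) ≤ j := by exact_mod_cast hj4
  have hhj : h ≤ j := by omega
  have h4' : 4 * (h : ℝ) ≤ j := by exact_mod_cast h4
  have hh0 : (0 : ℝ) ≤ h := Nat.cast_nonneg h
  have hs : Real.sqrt j * Real.sqrt j = j := Real.mul_self_sqrt (by linarith)
  have hs0 : 0 < Real.sqrt j := Real.sqrt_pos.2 (by linarith)
  have hzle : Nat.sqrt j ≤ j - h := by
    have h1 : 2 * Nat.sqrt j ≤ j := by
      have h2 := Nat.sqrt_le' j
      have h3 : 2 ≤ Nat.sqrt j := by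
        rw [Nat.le_sqrt]
        omega
      nlinarith
    omega
  have hQ : (QR j).primeFactors ⊆ PS (j - h) := (QR_factors j).trans (PS_mono hzle)
  have hQ0 := QR_ne j
  refine cnt_ge hQ0 hQ h4 RobEx _ (fun U hU hc => ?_) hm1 hm2
  obtain ⟨s1, s2⟩ := log_nU_le (Q := QR j) hQ0 hj h4 hU hc
  have s3 := ell_nU hj h4 hU hc
  rw [← nU_factors (Q := QR j) hQ0 hQ hU hhj] at s3
  obtain ⟨hn0, hn3⟩ := nU_ge hj h4 hQ0 hQ hU
  have hfac : ∀ p ∈ PS (Nat.sqrt j), Nat.log 2 j ≤ (nU j h (QR j) U).factorization p := fun p hp =>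
    (QR_fact hp).trans (nU_fact hQ0 hU hhj p)
  have hsubN : (nU j h (QR j) U).primeFactors ⊆ PS (j + h) := by
    rw [nU_factors hQ0 hQ hU hhj]
    refine Finset.union_subset (PS_mono (by omega)) (hU.trans ?_)
    unfold Win
    exact Finset.sdiff_subset
  have hloss := rob_loss hj hn0 hsubN hfac
  set n := nU j h (QR j) U with hn
  have hnp : (0 : ℝ) < n := by exact_mod_cast Nat.pos_of_ne_zero hn0
  have hlQ0 : 0 ≤ Real.log (QR j) := Real.log_natCast_nonneg _
  have hΔ1 : 3 * (h : ℝ) ^ 2 / j / (Chebyshev.theta (j : ℝ) * Real.log (Chebyshev.theta (j : ℝ))) ≤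
      6 * (h : ℝ) ^ 2 / (j : ℝ) ^ 2 := by
    have h5 : (j : ℝ) / 2 ≤ Chebyshev.theta (j : ℝ) * Real.log (Chebyshev.theta (j : ℝ)) := by nlinarith
    calc 3 * (h : ℝ) ^ 2 / j / (Chebyshev.theta (j : ℝ) * Real.log (Chebyshev.theta (j : ℝ))) ≤
          3 * (h : ℝ) ^ 2 / j / ((j : ℝ) / 2) := by gcongr
      _ = _ := by field_simp; ring
  have hΔ2 := QR_Δ hgg
  constructor
  · refine rob_of hn3 g1 (Δ := Real.log (QR j) + 3 * (h : ℝ) ^ 2 / j) (lam := 6 / Real.sqrt j)
      (by positivity) (by linarith) hloss ?_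
    rw [add_div]
    have e : 10 * (h : ℝ) ^ 2 / (j : ℝ) ^ 2 = 6 * (h : ℝ) ^ 2 / (j : ℝ) ^ 2 + 4 * (h : ℝ) ^ 2 / (j : ℝ) ^ 2 := by
      ring
    have e2 : 14 / Real.sqrt j = 8 / Real.sqrt j + 6 / Real.sqrt j := by ring
    rw [e, e2] at hF
    linarith
  · refine (Real.log_le_iff_le_exp hnp).1 (s1.trans ?_)
    have h5 := theta_le j
    have h7 : 3 * (h : ℝ) ^ 2 / j ≤ 3 / 16 * j := by
      rw [div_le_iff₀ (by linarith)]
      nlinarith
    have h8 := log_QR (j := j) (by omega)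
    have h9 : 2 * Real.sqrt j * Real.log j ≤ j / 10 := by nlinarith
    linarith

/-- removing primes -/
theorem remove_rob {j k : ℕ} (hg : Good j) (hj4 : 10000 ≤ j) (hlog : 20 * Real.log j ≤ Real.sqrt j)
    (hF : Real.eulerMascheroniConstant + Real.log (Real.log (Chebyshev.theta (j : ℝ))) +
      2 * (k : ℝ) / (j : ℝ) + 14 / Real.sqrt j < SL j)
    (hk : k ≤ (PS j \ PS (j - j / 4)).card) :
    2 ^ k ≤ cnt RobEx (Real.exp (2 * j)) := by
  have hgg := hg
  obtain ⟨g1, g2, g3⟩ := good_theta hg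
  obtain ⟨hj, hth⟩ := hg
  have hj' : (10000 : ℝ) ≤ j := by exact_mod_cast hj4
  set h := j / 4 with hh
  have h4 : 4 * h ≤ j := by omega
  have hhj : h ≤ j := by omega
  have h4' : 4 * (h : ℝ) ≤ j := by exact_mod_cast h4
  have hh0 : (0 : ℝ) ≤ h := Nat.cast_nonneg h
  have hs : Real.sqrt j * Real.sqrt j = j := Real.mul_self_sqrt (by linarith)
  have hs0 : 0 < Real.sqrt j := Real.sqrt_pos.2 (by linarith)
  have hsub : ((j - h : ℕ) : ℝ) = j - h := by push_cast [Nat.cast_sub hhj]; ring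
  have hzle : Nat.sqrt j ≤ j - h := by
    have h1 : 2 * Nat.sqrt j ≤ j := by
      have h2 := Nat.sqrt_le' j
      have h3 : 2 ≤ Nat.sqrt j := by
        rw [Nat.le_sqrt]
        omega
      nlinarith
    omega
  have hQ : (QR j).primeFactors ⊆ PS (j - h) := (QR_factors j).trans (PS_mono hzle)
  have hQ0 := QR_ne j
  obtain ⟨K, hK1, hK2⟩ := Finset.exists_subset_card_eq hk
  have hKW : ∀ T ⊆ K, (PS j \ PS (j - h)) \ T ⊆ Win j h := by
    intro T _ p hp
    unfold Win
    rw [Finset.mem_sdiff] at hp ⊢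
    have h1 := hp.1
    rw [Finset.mem_sdiff] at h1
    exact ⟨PS_mono (by omega) h1.1, h1.2⟩
  have hgood : ∀ T ⊆ K, RobEx (nU j h (QR j) ((PS j \ PS (j - h)) \ T)) ∧
      ((nU j h (QR j) ((PS j \ PS (j - h)) \ T) : ℕ) : ℝ) ≤ Real.exp (2 * j) := by
    intro T hT
    have hU := hKW T hT
    set U := (PS j \ PS (j - h)) \ T with hUd
    have hTsub : T ⊆ PS j \ PS (j - h) := hT.trans hK1
    have hunion : PS (j - h) ∪ U = PS j \ T := by
      ext p
      rw [mem_union, hUd, Finset.mem_sdiff, Finset.mem_sdiff, Finset.mem_sdiff]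
      constructor
      · rintro (h1 | ⟨⟨h1, h2⟩, h3⟩)
        · refine ⟨PS_mono (Nat.sub_le j h) h1, fun h2 => ?_⟩
          exact (Finset.mem_sdiff.1 (hTsub h2)).2 h1
        · exact ⟨h1, h3⟩
      · rintro ⟨h1, h2⟩
        by_cases hc : p ∈ PS (j - h)
        · left; exact hc
        · right; exact ⟨⟨h1, hc⟩, h2⟩
    obtain ⟨hn0, hn3⟩ := nU_ge hj h4 hQ0 hQ hU
    have hTPS : T ⊆ PS j := hTsub.trans Finset.sdiff_subset
    -- size
    have s1 : Real.log (nU j h (QR j) U) ≤ Real.log (QR j) + Chebyshev.theta j := by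
      rw [log_nU hQ0 hU hhj, ← Finset.sum_union (disj_U hU hhj), hunion, theta_PS]
      refine add_le_add_right ?_ _
      exact Finset.sum_le_sum_of_subset_of_nonneg Finset.sdiff_subset fun p _ _ => Real.log_natCast_nonneg p
    have s3 : SL j - 2 * (k : ℝ) / j ≤ ∑ p ∈ (nU j h (QR j) U).primeFactors, ell p := by
      rw [nU_factors hQ0 hQ hU hhj, hunion]
      have h1 : ∑ p ∈ PS j \ T, ell (p : ℝ) + ∑ p ∈ T, ell (p : ℝ) = SL j := by
        unfold SL
        exact Finset.sum_sdiff hTPS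
      have h2 : ∑ p ∈ T, ell (p : ℝ) ≤ T.card • (2 / (j : ℝ)) := by
        refine Finset.sum_le_card_nsmul _ _ _ fun p hp => ?_
        have h3 := hTsub hp
        rw [Finset.mem_sdiff, mem_PS, mem_PS] at h3
        have h5 : j - h < p := by
          by_contra h2
          exact h3.2 ⟨h3.1.1, not_lt.1 h2⟩
        have h6 : ((j - h : ℕ) : ℝ) ≤ p := by exact_mod_cast h5.le
        have h7 := ell_upper (prime_gt h3.1.1)
        refine h7.trans ?_
        rw [div_le_div_iff₀ (by linarith) (by linarith)]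
        linarith
      rw [nsmul_eq_mul] at h2
      have h3 : (T.card : ℝ) ≤ k := by
        have := Finset.card_le_card hT
        rw [hK2] at this
        exact_mod_cast this
      have h5 : (T.card : ℝ) * (2 / (j : ℝ)) ≤ k * (2 / j) := by gcongr
      have h6 : 2 * (k : ℝ) / j = k * (2 / j) := by ring
      rw [h6]
      linarith
    have hfac : ∀ p ∈ PS (Nat.sqrt j), Nat.log 2 j ≤ (nU j h (QR j) U).factorization p := fun p hp =>
      (QR_fact hp).trans (nU_fact hQ0 hU hhj p)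
    have hsubN : (nU j h (QR j) U).primeFactors ⊆ PS (j + h) := by
      rw [nU_factors hQ0 hQ hU hhj]
      refine Finset.union_subset (PS_mono (by omega)) (hU.trans ?_)
      unfold Win
      exact Finset.sdiff_subset
    have hloss := rob_loss hj hn0 hsubN hfac
    set n := nU j h (QR j) U with hn
    have hnp : (0 : ℝ) < n := by exact_mod_cast Nat.pos_of_ne_zero hn0
    have hlQ0 : 0 ≤ Real.log (QR j) := Real.log_natCast_nonneg _
    have hΔ2 := QR_Δ hgg
    constructor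
    · refine rob_of hn3 g1 (Δ := Real.log (QR j)) (lam := 6 / Real.sqrt j)
        hlQ0 (by linarith) hloss ?_
      have e2 : 14 / Real.sqrt j = 8 / Real.sqrt j + 6 / Real.sqrt j := by ring
      rw [e2] at hF
      linarith
    · refine (Real.log_le_iff_le_exp hnp).1 (s1.trans ?_)
      have h5 := theta_le j
      have h8 := log_QR (j := j) (by omega)
      have h9 : 2 * Real.sqrt j * Real.log j ≤ j / 10 := by nlinarith
      linarith
  have h2k : 2 ^ k = (K.powerset).card := by rw [Finset.card_powerset, hK2]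
  rw [h2k]
  unfold cnt
  rw [← Set.ncard_coe_finset]
  refine Set.ncard_le_ncard_of_injOn (fun T => nU j h (QR j) ((PS j \ PS (j - h)) \ T)) ?_ ?_
    (cnt_finite RobEx _)
  · intro T hT
    rw [Finset.mem_coe, Finset.mem_powerset] at hT
    obtain ⟨h5, h6⟩ := hgood T hT
    exact ⟨h6, h5⟩
  · intro T hT T' hT' hTT
    rw [Finset.mem_coe, Finset.mem_powerset] at hT hT'
    simp only at hTT
    have e1 := nU_factors hQ0 hQ (hKW T hT) hhj
    have e2 := nU_factors hQ0 hQ (hKW T' hT') hhj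
    rw [hTT, e2] at e1
    have key : ∀ p, p ∈ PS j \ PS (j - h) → (p ∈ T ↔ p ∈ T') := by
      intro p hp
      have h1 : p ∈ PS (j - h) ∪ ((PS j \ PS (j - h)) \ T') ↔ p ∈ PS (j - h) ∪ ((PS j \ PS (j - h)) \ T) := by
        rw [e1]
      have hp2 : p ∉ PS (j - h) := (Finset.mem_sdiff.1 hp).2
      rw [mem_union, mem_union, Finset.mem_sdiff (t := T), Finset.mem_sdiff (t := T')] at h1
      tauto
    ext p
    constructor
    · intro hp
      exact (key p (hK1 (hT hp))).1 hp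
    · intro hp
      exact (key p (hK1 (hT' hp))).2 hp

end Q239.RN
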