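import Pool.Agent.Q239.RN.LB

set_option autoImplicit false

/-! # Lower bounds for the counting function from the tail integral -/

open Finset Filter Topology

namespace Q239.RN

theorem exp_dom {α β : ℝ} (h : α < β) (K : ℝ) :
    ∀ᶠ u : ℝ in atTop, K * ((u + 1) * Real.exp (α * u)) ≤ Real.exp (β * u) := by
  set δ := β - α with hδ
  have hδ0 : 0 < δ := by linarith
  have h1 : Tendsto (fun u : ℝ => Real.exp (δ / 2 * u)) atTop atTop :=
    Real.tendsto_exp_atTop.comp (tendsto_id.const_mul_atTop (by linarith))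
  filter_upwards [h1.eventually_ge_atTop (|K| * (2 / δ + 1)), eventually_ge_atTop 0] with u h2 h3
  have e1 : Real.exp (β * u) = Real.exp (δ / 2 * u) * (Real.exp (δ / 2 * u) * Real.exp (α * u)) := by
    rw [← Real.exp_add, ← Real.exp_add]; congr 1; rw [hδ]; ring
  have h4 : u + 1 ≤ (2 / δ + 1) * Real.exp (δ / 2 * u) := by
    have h5 := Real.add_one_le_exp (δ / 2 * u)
    have h6 : u ≤ 2 / δ * Real.exp (δ / 2 * u) := by
      have : u = 2 / δ * (δ / 2 * u) := by field_simp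
      have h7 : 0 ≤ 2 / δ := by positivity
      calc u = 2 / δ * (δ / 2 * u) := this
        _ ≤ 2 / δ * Real.exp (δ / 2 * u) := by gcongr; linarith
    have h7 : 1 ≤ Real.exp (δ / 2 * u) := Real.one_le_exp (by positivity)
    linarith
  have hp := Real.exp_pos (α * u)
  have hp2 := Real.exp_pos (δ / 2 * u)
  calc K * ((u + 1) * Real.exp (α * u)) ≤ |K| * ((u + 1) * Real.exp (α * u)) := by
        gcongr; exact le_abs_self K
    _ ≤ |K| * (((2 / δ + 1) * Real.exp (δ / 2 * u)) * Real.exp (α * u)) := by gcongr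
    _ = (|K| * (2 / δ + 1)) * (Real.exp (δ / 2 * u) * Real.exp (α * u)) := by ring
    _ ≤ Real.exp (δ / 2 * u) * (Real.exp (δ / 2 * u) * Real.exp (α * u)) := by gcongr
    _ = _ := e1.symm

theorem exp_dom' {α β : ℝ} (h : α < β) (K : ℝ) :
    ∀ᶠ u : ℝ in atTop, K * Real.exp (α * u) ≤ Real.exp (β * u) := by
  filter_upwards [exp_dom h |K|, eventually_ge_atTop 0] with u h1 h2
  refine le_trans ?_ h1
  have hp := Real.exp_pos (α * u)
  calc K * Real.exp (α * u) ≤ |K| * Real.exp (α * u) := by gcongr; exact le_abs_self K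
    _ = |K| * (1 * Real.exp (α * u)) := by ring
    _ ≤ _ := by gcongr; linarith

/-- counting primes by `θ` -/
theorem card_theta {a b : ℕ} (hab : a ≤ b) :
    Chebyshev.theta (b : ℝ) - Chebyshev.theta (a : ℝ) ≤ (PS b \ PS a).card * Real.log b := by
  rw [theta_PS, theta_PS, ← Finset.sum_sdiff (PS_mono hab), add_sub_cancel_right, ← nsmul_eq_mul]
  refine Finset.sum_le_card_nsmul _ _ _ fun p hp => ?_
  rw [Finset.mem_sdiff, mem_PS, mem_PS] at hp
  have := prime_gt hp.1.1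
  refine Real.log_le_log (by linarith) ?_
  exact_mod_cast hp.1.2

theorem theta_of_eT {C θ' : ℝ} (h : ∀ v : ℝ, 0 ≤ v → |eT v| ≤ C * Real.exp ((θ' - 1) * v)) {j : ℕ}
    (hj : 1 ≤ j) : |Chebyshev.theta (j : ℝ) - j| ≤ C * (j : ℝ) ^ θ' := by
  have hNp : (0 : ℝ) < j := by exact_mod_cast hj
  have hl : 0 ≤ Real.log j := Real.log_natCast_nonneg j
  rw [theta_eq_eT hj, abs_mul, abs_of_pos hNp]
  have h1 := h _ hl
  have e : (j : ℝ) * (C * Real.exp ((θ' - 1) * Real.log j)) = C * (j : ℝ) ^ θ' := by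
    rw [Real.rpow_def_of_pos hNp]
    have : Real.log j * θ' = Real.log j + (θ' - 1) * Real.log j := by ring
    rw [this, Real.exp_add, Real.exp_log hNp]
    ring
  rw [← e]
  gcongr

theorem floor_facts {u : ℝ} (hu : 5 ≤ u) : (⌊Real.exp u⌋₊ : ℝ) ≤ Real.exp u ∧
    0.99 * Real.exp u ≤ ⌊Real.exp u⌋₊ ∧ 100 ≤ ⌊Real.exp u⌋₊ ∧ Real.log ⌊Real.exp u⌋₊ ≤ u := by
  have h1 : (⌊Real.exp u⌋₊ : ℝ) ≤ Real.exp u := Nat.floor_le (Real.exp_pos _).le
  have h2 : Real.exp u < ⌊Real.exp u⌋₊ + 1 := Nat.lt_floor_add_one _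
  have h3 : 140 ≤ Real.exp u := by
    have h4 : Real.exp 5 ≤ Real.exp u := Real.exp_le_exp.2 hu
    have h5 : Real.exp 5 = Real.exp 1 * Real.exp 1 * (Real.exp 1 * Real.exp 1) * Real.exp 1 := by
      rw [← Real.exp_add, ← Real.exp_add, ← Real.exp_add]; norm_num
    have h6 := Real.exp_one_gt_d9
    have h7 : 7.38 ≤ Real.exp 1 * Real.exp 1 := by nlinarith
    have h8 : 54 ≤ Real.exp 1 * Real.exp 1 * (Real.exp 1 * Real.exp 1) := by nlinarith
    nlinarith
  refine ⟨h1, by linarith, Nat.le_floor (by norm_num; linarith), ?_⟩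
  have h9 : (0 : ℝ) < ⌊Real.exp u⌋₊ := by linarith
  exact (Real.log_le_iff_le_exp h9).2 h1

/-- the data at one point -/
theorem point_F {u : ℝ} (hu : 5 ≤ u) (hg : Good ⌊Real.exp u⌋₊) :
    Real.eulerMascheroniConstant + Real.log (Real.log (Chebyshev.theta (⌊Real.exp u⌋₊ : ℝ))) + kT u -
      2 * Real.exp (-u) ≤ SL ⌊Real.exp u⌋₊ := by
  have h1 := (good_theta hg).1
  have h2 := Chebyshev.theta_eq_theta_coe_floor (Real.exp u)
  rw [← h2] at h1 ⊢
  exact SL_ge_theta (by linarith) h1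

theorem good_eventually : ∀ᶠ u : ℝ in atTop, Good ⌊Real.exp u⌋₊ := by
  obtain ⟨C, hC, h⟩ := eT_pnt 1
  filter_upwards [eventually_ge_atTop 5, eventually_ge_atTop (5 * C)] with u h1 h2
  obtain ⟨f1, f2, f3, f4⟩ := floor_facts h1
  refine ⟨f3, ?_⟩
  have h3 := h u (by linarith)
  rw [pow_one] at h3
  have h4 : C / u ≤ 1 / 5 := by
    rw [div_le_div_iff₀ (by linarith) (by norm_num)]
    linarith
  have h5 := (abs_le.1 (h3.trans h4)).1
  rw [← Chebyshev.theta_eq_theta_coe_floor]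
  have h6 : Chebyshev.theta (Real.exp u) = (eT u + 1) * Real.exp u := by
    unfold eT
    rw [sub_add_cancel, mul_assoc, ← Real.exp_add]
    simp
  rw [h6]
  have hp := Real.exp_pos u
  nlinarith

theorem cnt_mono_x (P : ℕ → Prop) {x y : ℝ} (h : x ≤ y) : cnt P x ≤ cnt P y :=
  Set.ncard_le_ncard (fun n hn => ⟨hn.1.trans h, hn.2⟩) (cnt_finite P y)

/-- the two prime counts for the exchange -/
theorem counts {C θ' κ ε : ℝ} (hC : 0 < C) (h0 : 0 ≤ θ') (hκ : θ' < κ) (hκ1 : κ < 1) (hε : 0 < ε)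
    (hb : ∀ v : ℝ, 0 ≤ v → |eT v| ≤ C * Real.exp ((θ' - 1) * v)) :
    ∀ᶠ u : ℝ in atTop, 4 * ⌊Real.exp (κ * u) / 8⌋₊ ≤ ⌊Real.exp u⌋₊ ∧
      ⌊Real.exp ((κ - ε) * u)⌋₊ ≤
        (PS ⌊Real.exp u⌋₊ \ PS (⌊Real.exp u⌋₊ - ⌊Real.exp (κ * u) / 8⌋₊)).card ∧
      ⌊Real.exp ((κ - ε) * u)⌋₊ ≤
        (PS (⌊Real.exp u⌋₊ + ⌊Real.exp (κ * u) / 8⌋₊) \ PS ⌊Real.exp u⌋₊).card := by
  filter_upwards [eventually_ge_atTop 5, exp_dom' hκ1 1, exp_dom (show κ - ε < κ by linarith) 40,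
    exp_dom' hκ (100 * C), exp_dom' (lt_of_le_of_lt h0 hκ) 40] with u h1 h2 h3 h4 h40
  obtain ⟨f1, f2, f3, f4⟩ := floor_facts h1
  set j := ⌊Real.exp u⌋₊ with hj
  set h := ⌊Real.exp (κ * u) / 8⌋₊ with hh
  have hE := Real.exp_pos (κ * u)
  have hh1 : (h : ℝ) ≤ Real.exp (κ * u) / 8 := Nat.floor_le (by positivity)
  have hh2 : Real.exp (κ * u) / 8 < h + 1 := Nat.lt_floor_add_one _
  have hj' : (100 : ℝ) ≤ j := by exact_mod_cast f3
  rw [one_mul, one_mul] at h2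
  have h4h : 4 * h ≤ j := by
    have : (4 * (h : ℝ)) ≤ j := by linarith
    exact_mod_cast this
  have hhj : h ≤ j := by omega
  have hhj' : (h : ℝ) ≤ j := by exact_mod_cast hhj
  have hpow : ∀ n : ℕ, 1 ≤ n → (n : ℝ) ≤ 2 * Real.exp u →
      |Chebyshev.theta (n : ℝ) - n| ≤ 2 * C * Real.exp (θ' * u) := by
    intro n hn1 hn2
    refine (theta_of_eT hb hn1).trans ?_
    have hn0 : (0 : ℝ) ≤ n := Nat.cast_nonneg n
    have e1 : (n : ℝ) ^ θ' ≤ (2 * Real.exp u) ^ θ' := by gcongr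
    have e2 : (2 * Real.exp u) ^ θ' = 2 ^ θ' * Real.exp (θ' * u) := by
      rw [Real.mul_rpow (by norm_num) (Real.exp_pos _).le, ← Real.exp_mul, mul_comm u θ']
    have e3 : (2 : ℝ) ^ θ' ≤ 2 := by
      calc (2 : ℝ) ^ θ' ≤ 2 ^ (1 : ℝ) := Real.rpow_le_rpow_of_exponent_le (by norm_num) (by linarith)
        _ = 2 := Real.rpow_one 2
    have e4 := Real.exp_pos (θ' * u)
    calc C * (n : ℝ) ^ θ' ≤ C * (2 ^ θ' * Real.exp (θ' * u)) := by rw [← e2]; gcongr
      _ ≤ C * (2 * Real.exp (θ' * u)) := by gcongr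
      _ = _ := by ring
  have hm1 : (⌊Real.exp ((κ - ε) * u)⌋₊ : ℝ) ≤ Real.exp ((κ - ε) * u) := Nat.floor_le (Real.exp_pos _).le
  have hE2 := Real.exp_pos ((κ - ε) * u)
  have hE3 : 1 ≤ Real.exp (κ * u) / 40 := by
    rw [zero_mul, Real.exp_zero] at h40
    linarith
  refine ⟨h4h, ?_, ?_⟩
  · have hcard := card_theta (a := j - h) (b := j) (Nat.sub_le _ _)
    have t1 := hpow j (by omega) (by linarith)
    have t2 := hpow (j - h) (by omega) (by rw [Nat.cast_sub hhj]; linarith [(Nat.cast_nonneg h : (0:ℝ) ≤ h)])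
    rw [Nat.cast_sub hhj] at t2 hcard
    have t3 := (abs_le.1 t1).1
    have t4 := (abs_le.1 t2).2
    have t5 : (h : ℝ) - 4 * C * Real.exp (θ' * u) ≤ (PS j \ PS (j - h)).card * u := by
      have : ((PS j \ PS (j - h)).card : ℝ) * Real.log j ≤ (PS j \ PS (j - h)).card * u := by gcongr
      linarith
    have t6 : (⌊Real.exp ((κ - ε) * u)⌋₊ : ℝ) * u ≤ (PS j \ PS (j - h)).card * u := by
      have : (⌊Real.exp ((κ - ε) * u)⌋₊ : ℝ) * u ≤ Real.exp ((κ - ε) * u) * (u + 1) := by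
        gcongr
        linarith
      nlinarith
    have t7 := le_of_mul_le_mul_right t6 (by linarith)
    exact_mod_cast t7
  · have hcard := card_theta (a := j) (b := j + h) (Nat.le_add_right _ _)
    have hjh : ((j + h : ℕ) : ℝ) ≤ 2 * Real.exp u := by push_cast; linarith
    have t1 := hpow (j + h) (by omega) hjh
    have t2 := hpow j (by omega) (by linarith)
    have t8 : Real.log ((j + h : ℕ) : ℝ) ≤ u + 1 := by
      have h5 : (0 : ℝ) < ((j + h : ℕ) : ℝ) := by push_cast; linarith [(Nat.cast_nonneg h : (0:ℝ) ≤ h)]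
      rw [Real.log_le_iff_le_exp h5, Real.exp_add]
      have := Real.exp_one_gt_d9
      have := Real.exp_pos u
      nlinarith
    have t3 := (abs_le.1 t1).1
    have t4 := (abs_le.1 t2).2
    have t5 : (h : ℝ) - 4 * C * Real.exp (θ' * u) ≤ (PS (j + h) \ PS j).card * (u + 1) := by
      have : ((PS (j + h) \ PS j).card : ℝ) * Real.log ((j + h : ℕ) : ℝ) ≤
        (PS (j + h) \ PS j).card * (u + 1) := by gcongr
      have e : ((j + h : ℕ) : ℝ) = (j : ℝ) + h := Nat.cast_add j h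
      have t9 := hcard.trans this
      rw [e] at t3 t9
      linarith
    have t6 : (⌊Real.exp ((κ - ε) * u)⌋₊ : ℝ) * (u + 1) ≤ (PS (j + h) \ PS j).card * (u + 1) := by
      have : (⌊Real.exp ((κ - ε) * u)⌋₊ : ℝ) * (u + 1) ≤ Real.exp ((κ - ε) * u) * (u + 1) := by
        gcongr
      nlinarith
    have t7 := le_of_mul_le_mul_right t6 (by linarith)
    exact_mod_cast t7

end Q239.RN
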