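import Mathlib

set_option autoImplicit false

/-! # Gaussian averages -/

open Filter Topology MeasureTheory Set Complex

namespace Q239.RN

noncomputable section

/-- the Gaussian weight -/
def wt (U S u : ℝ) : ℝ := Real.exp (-((u - U) ^ 2 / (2 * S)))

/-- its transform -/
def WW (U S : ℝ) (z : ℂ) : ℂ := (Real.sqrt (2 * Real.pi * S) : ℂ) * cexp (z * U + S * z ^ 2 / 2)

theorem wt_pos (U S u : ℝ) : 0 < wt U S u := Real.exp_pos _

theorem wt_cont (U S : ℝ) : Continuous (wt U S) := by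
  unfold wt
  fun_prop

theorem wt_le_one {U S u : ℝ} (hS : 0 < S) : wt U S u ≤ 1 := by
  unfold wt
  refine Real.exp_le_one_iff.2 ?_
  have : 0 ≤ (u - U) ^ 2 / (2 * S) := by positivity
  linarith

theorem WW_norm (U S x y : ℝ) : ‖WW U S ((x : ℂ) + y * I)‖ =
    Real.sqrt (2 * Real.pi * S) * Real.exp (x * U + S * (x ^ 2 - y ^ 2) / 2) := by
  unfold WW
  rw [norm_mul, Complex.norm_real, Real.norm_of_nonneg (Real.sqrt_nonneg _), Complex.norm_exp]
  congr 2
  have h1 : ((x : ℂ) + y * I) * U + S * ((x : ℂ) + y * I) ^ 2 / 2 =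
      ((x * U + S * (x ^ 2 - y ^ 2) / 2 : ℝ) : ℂ) + ((y * U + S * x * y : ℝ) : ℂ) * I := by
    push_cast
    linear_combination (S * (y:ℂ) ^ 2 / 2) * Complex.I_sq
  rw [h1, Complex.add_re, Complex.ofReal_re, Complex.re_ofReal_mul, Complex.I_re, mul_zero, add_zero]

theorem WW_quad (U S c u t : ℝ) : WW U S ((c : ℂ) + t * I) * cexp (-(((c : ℂ) + t * I) * u)) =
    (Real.sqrt (2 * Real.pi * S) : ℂ) * cexp (((-(S / 2) : ℝ) : ℂ) * t ^ 2 +
      (((U - u + S * c : ℝ) : ℂ) * I) * t + ((c * (U - u) + S * c ^ 2 / 2 : ℝ) : ℂ)) := by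
  unfold WW
  rw [mul_assoc, ← Complex.exp_add]
  congr 2
  push_cast
  linear_combination (S * (t:ℂ) ^ 2 / 2) * Complex.I_sq

theorem gauss_rep {S : ℝ} (hS : 0 < S) (U c u : ℝ) :
    ∫ t : ℝ, WW U S ((c : ℂ) + t * I) * cexp (-(((c : ℂ) + t * I) * u)) = 2 * Real.pi * (wt U S u : ℂ) := by
  simp only [WW_quad]
  rw [integral_const_mul, integral_cexp_quadratic (by
    rw [Complex.ofReal_re]
    linarith)]
  have e1 : (Real.pi / -((-(S / 2) : ℝ) : ℂ)) ^ (1 / 2 : ℂ) = (Real.sqrt (2 * Real.pi / S) : ℂ) := by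
    have h1 : (Real.pi / -((-(S / 2) : ℝ) : ℂ)) = ((2 * Real.pi / S : ℝ) : ℂ) := by
      push_cast
      field_simp
    rw [h1, Real.sqrt_eq_rpow, Complex.ofReal_cpow (by positivity)]
    norm_num
  rw [e1]
  have e2 : ((c * (U - u) + S * c ^ 2 / 2 : ℝ) : ℂ) -
      (((U - u + S * c : ℝ) : ℂ) * I) ^ 2 / (4 * ((-(S / 2) : ℝ) : ℂ)) = ((-((u - U) ^ 2 / (2 * S)) : ℝ) : ℂ) := by
    have hS' : (S : ℂ) ≠ 0 := by exact_mod_cast hS.ne'
    push_cast
    rw [mul_pow, Complex.I_sq]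
    field_simp
    ring
  rw [e2]
  unfold wt
  rw [← mul_assoc]
  have e3 : (Real.sqrt (2 * Real.pi * S) : ℂ) * (Real.sqrt (2 * Real.pi / S) : ℂ) = 2 * Real.pi := by
    rw [← Complex.ofReal_mul, ← Real.sqrt_mul (by positivity)]
    have : 2 * Real.pi * S * (2 * Real.pi / S) = (2 * Real.pi) ^ 2 := by field_simp
    rw [this, Real.sqrt_sq (by positivity)]
    push_cast
    ring
  rw [e3]
  push_cast
  rfl

theorem WW_int {S : ℝ} (hS : 0 < S) (U c : ℝ) : Integrable (fun t : ℝ => WW U S ((c : ℂ) + t * I)) := by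
  have h : (fun t : ℝ => WW U S ((c : ℂ) + t * I)) = fun t : ℝ =>
      (Real.sqrt (2 * Real.pi * S) : ℂ) * cexp (((-(S / 2) : ℝ) : ℂ) * t ^ 2 +
      (((U - 0 + S * c : ℝ) : ℂ) * I) * t + ((c * (U - 0) + S * c ^ 2 / 2 : ℝ) : ℂ)) := by
    funext t
    rw [← WW_quad]
    rw [Complex.ofReal_zero, mul_zero, neg_zero, Complex.exp_zero, mul_one]
  rw [h]
  refine Integrable.const_mul ?_ _
  refine integrable_cexp_quadratic' ?_ _ _
  rw [Complex.ofReal_re]
  linarith

/-- the transform of a Gaussian average -/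
theorem parseval {q : ℝ → ℂ} {S : ℝ} (hS : 0 < S) (U c : ℝ)
    (hq : IntegrableOn (fun u : ℝ => q u * cexp (-((c : ℂ) * u))) (Ioi 0)) :
    Integrable (fun t : ℝ => WW U S ((c : ℂ) + t * I) *
      (∫ u in Ioi (0:ℝ), q u * cexp (-(((c : ℂ) + t * I) * u)))) ∧
    ∫ u in Ioi (0:ℝ), q u * (wt U S u : ℂ) = (1 / (2 * Real.pi)) *
      ∫ t : ℝ, WW U S ((c : ℂ) + t * I) * (∫ u in Ioi (0:ℝ), q u * cexp (-(((c : ℂ) + t * I) * u))) := by
  set H : ℝ → ℝ → ℂ := fun t u => WW U S ((c : ℂ) + t * I) * (q u * cexp (-(((c : ℂ) + t * I) * u))) with hH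
  have e1 : ∀ t u : ℝ, H t u = (WW U S ((c : ℂ) + t * I) * (q u * cexp (-((c : ℂ) * u)))) *
      cexp (((-(t * u) : ℝ) : ℂ) * I) := by
    intro t u
    simp only [hH]
    have : cexp (-(((c : ℂ) + t * I) * u)) = cexp (-((c : ℂ) * u)) * cexp (((-(t * u) : ℝ) : ℂ) * I) := by
      rw [← Complex.exp_add]
      congr 1
      push_cast
      ring
    rw [this]
    ring
  have hint : Integrable (Function.uncurry H) (volume.prod (volume.restrict (Ioi (0:ℝ)))) := by
    have h1 := Integrable.mul_prod (WW_int hS U c) hq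
    have h2 : Function.uncurry H = fun p : ℝ × ℝ => (WW U S ((c : ℂ) + p.1 * I) *
        (q p.2 * cexp (-((c : ℂ) * p.2)))) * cexp (((-(p.1 * p.2) : ℝ) : ℂ) * I) := by
      funext p
      exact e1 p.1 p.2
    rw [h2]
    refine h1.mul_bdd (c := 1) ?_ ?_
    · exact Continuous.aestronglyMeasurable (by fun_prop)
    · refine Eventually.of_forall fun p => ?_
      rw [Complex.norm_exp_ofReal_mul_I]
  have hswap := integral_integral_swap hint
  have hfun : (fun t : ℝ => WW U S ((c : ℂ) + t * I) *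
      (∫ u in Ioi (0:ℝ), q u * cexp (-(((c : ℂ) + t * I) * u)))) = fun t : ℝ => ∫ u in Ioi (0:ℝ), H t u := by
    funext t
    simp only [hH]
    rw [integral_const_mul]
  refine ⟨by rw [hfun]; exact hint.integral_prod_left, ?_⟩
  have h3 : ∫ t : ℝ, WW U S ((c : ℂ) + t * I) * (∫ u in Ioi (0:ℝ), q u * cexp (-(((c : ℂ) + t * I) * u))) =
      ∫ t : ℝ, ∫ u in Ioi (0:ℝ), H t u := by
    refine integral_congr_ae (Eventually.of_forall fun t => ?_)
    simp only [hH]
    rw [integral_const_mul]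
  rw [h3, hswap, ← integral_const_mul]
  refine setIntegral_congr_fun measurableSet_Ioi fun u _ => ?_
  have h4 : ∫ t : ℝ, H t u = q u * ∫ t : ℝ, WW U S ((c : ℂ) + t * I) * cexp (-(((c : ℂ) + t * I) * u)) := by
    rw [← integral_const_mul]
    refine integral_congr_ae (Eventually.of_forall fun t => ?_)
    simp only [hH]
    ring
  rw [h4, gauss_rep hS]
  have hpi : (Real.pi : ℂ) ≠ 0 := by exact_mod_cast Real.pi_ne_zero
  field_simp

end

end Q239.RN
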