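import Pool.Agent.Q239.RN.Rho
import Pool.Agent.Q239.RN.Gauss

set_option autoImplicit false

/-! # Gaussian averages of the tail integral are small -/

open Filter Topology MeasureTheory Set Complex

namespace Q239.RN

noncomputable section

/-- the main part of the tail integral -/
def qq (u : ℝ) : ℂ := ∫ v in Ioi u, gr v

theorem int_of_re {c : ℝ} (hic : IntegrableOn (fun v : ℝ => (eP v : ℂ) * cexp (-((c : ℂ) * v))) (Ioi 0))
    {z : ℂ} (hz : c ≤ z.re) : IntegrableOn (fun v : ℝ => (eP v : ℂ) * cexp (-(z * v))) (Ioi 0) := by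
  refine Integrable.mono' hic.norm (term_meas z).aestronglyMeasurable ?_
  refine (ae_restrict_iff' measurableSet_Ioi).2 (Eventually.of_forall fun v hv => ?_)
  have hv0 : 0 < v := hv
  rw [norm_term, norm_term, Complex.ofReal_re]
  have : Real.exp (-(z.re * v)) ≤ Real.exp (-(c * v)) := Real.exp_le_exp.2 (by nlinarith)
  have := abs_nonneg (eP v)
  gcongr

/-- bound of the transform on a vertical line -/
theorem Lam1_bound {c : ℝ} (hic : IntegrableOn (fun v : ℝ => (eP v : ℂ) * cexp (-((c : ℂ) * v))) (Ioi 0))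
    {z : ℂ} (hz : c ≤ z.re) : ‖Lam1 z‖ ≤ ∫ v in Ioi (0:ℝ), 2 * ‖(eP v : ℂ) * cexp (-((c : ℂ) * v))‖ := by
  refine norm_integral_le_of_norm_le (hic.norm.const_mul 2) ?_
  refine (ae_restrict_iff' measurableSet_Ioi).2 (Eventually.of_forall fun v hv => ?_)
  have hv0 : 0 < v := hv
  have h1 : ‖gr v‖ ≤ 2 * |eP v| := by
    unfold gr
    rw [Complex.norm_real, Real.norm_eq_abs, abs_mul, abs_of_nonneg (rho_nonneg hv0.le)]
    have := rho_le hv0.le
    have := abs_nonneg (eP v)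
    nlinarith
  rw [norm_mul, norm_term, Complex.ofReal_re, Complex.norm_exp]
  have e1 : (-(z * (v:ℂ))).re = -(z.re * v) := by simp
  rw [e1]
  have h2 : Real.exp (-(z.re * v)) ≤ Real.exp (-(c * v)) := Real.exp_le_exp.2 (by nlinarith)
  have h3 := abs_nonneg (eP v)
  calc ‖gr v‖ * Real.exp (-(z.re * v)) ≤ (2 * |eP v|) * Real.exp (-(c * v)) := by gcongr
    _ = _ := by ring

theorem Lam1_eq_Lamc {c : ℝ} (hic : IntegrableOn (fun v : ℝ => (eP v : ℂ) * cexp (-((c : ℂ) * v))) (Ioi 0))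
    (hG : ∀ z : ℂ, c < z.re → LT z = Gh z) {z : ℂ} (hz : c ≤ z.re) : Lam1 z = Lamc z := by
  rw [Lam1_eq (int_of_re hic hz)]
  unfold Lamc
  rw [intervalIntegral.integral_of_le zero_le_one, intervalIntegral.integral_of_le zero_le_one]
  refine setIntegral_congr_fun measurableSet_Ioc fun α hα => ?_
  rw [hG]
  simp only [add_re, ofReal_re]
  linarith [hα.1]

theorem mono_quad {U S x c : ℝ} (hSU : S ≤ U) (hS : 0 ≤ S) (hx : -1 ≤ x) (hxc : x ≤ c) :
    x * U + S * x ^ 2 / 2 ≤ c * U + S * c ^ 2 / 2 := by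
  nlinarith [mul_nonneg hS (sub_nonneg.2 hxc), mul_nonneg (sub_nonneg.2 hxc) (sub_nonneg.2 hSU),
    mul_nonneg (mul_nonneg hS (sub_nonneg.2 hxc)) (by linarith : 0 ≤ x + c + 2)]

/-- the Gaussian averages of the main part -/
theorem B_bound {c h0 : ℝ} (hc0 : c ≠ 0) (hc1 : -(3 / 4) < c) (hc2 : c < 1) (hh0 : 0 < h0) (hh1 : h0 ≤ 1)
    (hnear : ∀ z : ℂ, -(3 / 4) - h0 < z.re → z.re < 3 → |z.im| < 2 * h0 → DifferentiableAt ℂ Gh z)
    (hi0 : IntegrableOn (fun v : ℝ => (eP v : ℂ) * cexp (-(((0:ℝ) : ℂ) * v))) (Ioi 0))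
    (hic : IntegrableOn (fun v : ℝ => (eP v : ℂ) * cexp (-((c : ℂ) * v))) (Ioi 0))
    (hG : ∀ z : ℂ, c < z.re → LT z = Gh z) :
    ∃ K : ℝ, 0 < K ∧ ∀ U S : ℝ, 1 ≤ S → S ≤ U →
      ‖∫ u in Ioi (0:ℝ), qq u * (wt U S u : ℂ)‖ ≤ K * Real.sqrt S *
        (Real.exp (c * U + S * c ^ 2 / 2 - S * h0 ^ 2 / 4) + Real.exp (-(3 / 4) * U + S * (9 / 32))) := by
  -- the transform
  set M0 := ∫ v in Ioi (0:ℝ), 2 * ‖(eP v : ℂ) * cexp (-(((0:ℝ) : ℂ) * v))‖ with hM0
  set Mc := ∫ v in Ioi (0:ℝ), 2 * ‖(eP v : ℂ) * cexp (-((c : ℂ) * v))‖ with hMc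
  have hM00 : 0 ≤ M0 := integral_nonneg fun v => by positivity
  have hMc0 : 0 ≤ Mc := integral_nonneg fun v => by positivity
  have hgr0 : IntegrableOn gr (Ioi 0) := by
    have := gr_int hi0
    refine this.congr (Eventually.of_forall fun v => ?_)
    simp
  have hL0 : (∫ v in Ioi (0:ℝ), gr v) = Lam1 0 := by
    unfold Lam1
    refine setIntegral_congr_fun measurableSet_Ioi fun v _ => ?_
    simp
  have hL0' : Lam1 0 = Lamc 0 := by
    have h1 : ∀ z : ℂ, (0:ℝ) < z.re → LT z = Gh z := fun z hz => LT_eq_Gh_right hz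
    have := Lam1_eq_Lamc (c := 0) (by simpa using hi0) h1 (z := 0) (by simp)
    exact this
  have htr : ∀ t : ℝ, ∫ u in Ioi (0:ℝ), qq u * cexp (-(((c : ℂ) + t * I) * u)) =
      (Lam1 0 - Lam1 ((c : ℂ) + t * I)) / ((c : ℂ) + t * I) := by
    intro t
    have hre : ((c : ℂ) + t * I).re = c := by simp
    have h1 := tailQ gr_meas hgr0 (z := (c : ℂ) + t * I) (by rw [hre]; exact hc0)
      (gr_int (int_of_re hic (by rw [hre])))
    rw [hL0] at h1
    exact h1.2
  have hqi : IntegrableOn (fun u : ℝ => qq u * cexp (-((c : ℂ) * u))) (Ioi 0) :=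
    (tailQ gr_meas hgr0 (z := (c : ℂ)) (by simpa using hc0) (gr_int hic)).1
  have hQb : ∀ t : ℝ, h0 ≤ |t| → ‖(Lam1 0 - Lam1 ((c : ℂ) + t * I)) / ((c : ℂ) + t * I)‖ ≤ (M0 + Mc) / h0 := by
    intro t ht
    have h1 : ‖Lam1 0‖ ≤ M0 := Lam1_bound (c := 0) hi0 (by simp)
    have h2 : ‖Lam1 ((c : ℂ) + t * I)‖ ≤ Mc := Lam1_bound hic (by simp)
    have h3 : h0 ≤ ‖(c : ℂ) + t * I‖ := by
      have := Complex.abs_im_le_norm ((c : ℂ) + t * I)
      simp at this
      linarith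
    rw [norm_div]
    gcongr
    exact (norm_sub_le _ _).trans (add_le_add h1 h2)
  -- the continuation
  set V : Set ℂ := {z | -(3 / 4) - h0 < z.re} ∩ {z | z.re < 3} ∩ {z | |z.im| < 2 * h0} with hV
  have hVo : IsOpen V := ((isOpen_lt continuous_const Complex.continuous_re).inter
    (isOpen_lt Complex.continuous_re continuous_const)).inter
    (isOpen_lt (continuous_abs.comp Complex.continuous_im) continuous_const)
  have hVG : DifferentiableOn ℂ Gh V := fun z hz =>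
    (hnear z hz.1.1 hz.1.2 hz.2).differentiableWithinAt
  set V2 : Set ℂ := {z | -(3 / 4) - h0 < z.re} ∩ {z | z.re < 2} ∩ {z | |z.im| < 2 * h0} with hV2
  have hV2o : IsOpen V2 := ((isOpen_lt continuous_const Complex.continuous_re).inter
    (isOpen_lt Complex.continuous_re continuous_const)).inter
    (isOpen_lt (continuous_abs.comp Complex.continuous_im) continuous_const)
  have hLc : DifferentiableOn ℂ Lamc V2 := fun z hz => by
    refine (Lamc_diff hVo hVG fun α hα => ?_).differentiableWithinAt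
    obtain ⟨⟨h1, h2⟩, h3⟩ := hz
    simp only [mem_ofPred_eq] at h1 h2 h3
    refine ⟨⟨?_, ?_⟩, ?_⟩
    · simp only [mem_ofPred_eq, add_re, ofReal_re]; linarith [hα.1]
    · simp only [mem_ofPred_eq, add_re, ofReal_re]; linarith [hα.2]
    · simp only [mem_ofPred_eq, add_im, ofReal_im, zero_add]; exact h3
  have h0V2 : (0 : ℂ) ∈ V2 := by
    refine ⟨⟨?_, ?_⟩, ?_⟩
    · simp only [mem_ofPred_eq, zero_re]; linarith
    · simp only [mem_ofPred_eq, zero_re]; norm_num
    · simp only [mem_ofPred_eq, zero_im, abs_zero]; linarith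
  have hds : DifferentiableOn ℂ (dslope Lamc 0) V2 :=
    (Complex.differentiableOn_dslope (hV2o.mem_nhds h0V2)).2 hLc
  have hRsub : Icc (-(3 / 4)) c ×ℂ Icc (-h0) h0 ⊆ V2 := by
    intro z hz
    rw [mem_reProdIm] at hz
    obtain ⟨⟨a1, a2⟩, a3, a4⟩ := hz
    refine ⟨⟨?_, ?_⟩, ?_⟩
    · simp only [mem_ofPred_eq]; linarith
    · simp only [mem_ofPred_eq]; linarith
    · simp only [mem_ofPred_eq]
      have : |z.im| ≤ h0 := abs_le.2 ⟨a3, a4⟩
      linarith
  obtain ⟨M3, hM3⟩ := (isCompact_Icc.reProdIm isCompact_Icc :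
    IsCompact (Icc (-(3 / 4)) c ×ℂ Icc (-h0) h0)).exists_bound_of_continuousOn (hds.continuousOn.mono hRsub)
  have hM30 : 0 ≤ M3 := (norm_nonneg _).trans (hM3 (((-(3 / 4) : ℝ)) : ℂ) (by
    rw [mem_reProdIm, Complex.ofReal_re, Complex.ofReal_im]
    exact ⟨⟨le_rfl, hc1.le⟩, by linarith, hh0.le⟩))
  have hpi := Real.pi_pos
  set K1 := 10 * ((M0 + Mc) / h0) with hK1
  have hK10 : 0 ≤ K1 := by positivity
  set K2 := Real.sqrt (2 * Real.pi) * M3 * (2 * h0) with hK2
  have hK20 : 0 ≤ K2 := by positivity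
  set K3 := Real.sqrt (2 * Real.pi) * M3 * (2 * (c + 3 / 4)) with hK3
  have hK30 : 0 ≤ K3 := by
    have : 0 ≤ c + 3 / 4 := by linarith
    positivity
  refine ⟨K1 + K2 + K3 + 1, by positivity, fun U S hS1 hSU => ?_⟩
  have hS : 0 < S := by linarith
  obtain ⟨hFi, hB⟩ := parseval hS U c hqi
  simp only [htr] at hFi hB
  rw [hB]
  set F : ℝ → ℂ := fun t => WW U S ((c : ℂ) + t * I) *
    ((Lam1 0 - Lam1 ((c : ℂ) + t * I)) / ((c : ℂ) + t * I)) with hF
  have hFi' : Integrable F := hFi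
  have hsplit : ∫ t : ℝ, F t = (∫ t in Ioc (-h0) h0, F t) + ∫ t in (Ioc (-h0) h0)ᶜ, F t :=
    (integral_add_compl measurableSet_Ioc hFi').symm
  set E1 := Real.exp (c * U + S * c ^ 2 / 2 - S * h0 ^ 2 / 4) with hE1
  set E2 := Real.exp (-(3 / 4) * U + S * (9 / 32)) with hE2
  have hE10 : 0 < E1 := Real.exp_pos _
  have hE20 : 0 < E2 := Real.exp_pos _
  have hsq : Real.sqrt (2 * Real.pi * S) = Real.sqrt (2 * Real.pi) * Real.sqrt S :=
    Real.sqrt_mul (by positivity) S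
  have hsS : 1 ≤ Real.sqrt S := Real.one_le_sqrt.2 hS1
  -- far part
  have hfar : ‖∫ t in (Ioc (-h0) h0)ᶜ, F t‖ ≤ K1 * E1 := by
    have hg : Integrable (fun t : ℝ => (Real.sqrt (2 * Real.pi * S) * E1 * ((M0 + Mc) / h0)) *
        Real.exp (-(S / 4) * t ^ 2)) := (integrable_exp_neg_mul_sq (by positivity)).const_mul _
    have h1 : ‖∫ t in (Ioc (-h0) h0)ᶜ, F t‖ ≤ ∫ t in (Ioc (-h0) h0)ᶜ,
        (Real.sqrt (2 * Real.pi * S) * E1 * ((M0 + Mc) / h0)) * Real.exp (-(S / 4) * t ^ 2) := by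
      refine norm_integral_le_of_norm_le hg.integrableOn ?_
      have hnull : ∀ᵐ y : ℝ ∂(volume.restrict (Ioc (-h0) h0)ᶜ), y ≠ -h0 :=
        ae_restrict_of_ae (by
          have : ({(-h0)} : Set ℝ)ᶜ ∈ ae (volume : Measure ℝ) := compl_mem_ae_iff.2 (by simp)
          filter_upwards [this] with y hy
          simpa using hy)
      filter_upwards [hnull, ae_restrict_mem measurableSet_Ioc.compl] with t ht1 ht2
      have ht3 : h0 ≤ |t| := by
        rw [mem_compl_iff, mem_Ioc, not_and, not_le] at ht2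
        rcases lt_or_gt_of_ne ht1 with h | h
        · rw [abs_of_neg (by linarith)]
          linarith
        · rw [abs_of_pos (by linarith [ht2 h])]
          exact (ht2 h).le
      simp only [hF]
      rw [norm_mul, WW_norm]
      have h2 := hQb t ht3
      have ht4 : h0 ^ 2 ≤ t ^ 2 := by
        rw [← sq_abs t]
        gcongr
      have h3 : Real.exp (c * U + S * (c ^ 2 - t ^ 2) / 2) ≤ E1 * Real.exp (-(S / 4) * t ^ 2) := by
        rw [hE1, ← Real.exp_add]
        refine Real.exp_le_exp.2 ?_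
        nlinarith
      calc Real.sqrt (2 * Real.pi * S) * Real.exp (c * U + S * (c ^ 2 - t ^ 2) / 2) *
            ‖(Lam1 0 - Lam1 ((c : ℂ) + t * I)) / ((c : ℂ) + t * I)‖ ≤
            Real.sqrt (2 * Real.pi * S) * (E1 * Real.exp (-(S / 4) * t ^ 2)) * ((M0 + Mc) / h0) := by gcongr
        _ = _ := by ring
    refine h1.trans ((setIntegral_le_integral hg (ae_of_all _ fun t => by positivity)).trans ?_)
    rw [integral_const_mul, integral_gaussian]
    have h4 : Real.sqrt (2 * Real.pi * S) * Real.sqrt (Real.pi / (S / 4)) ≤ 10 := by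
      rw [← Real.sqrt_mul (by positivity)]
      have e : 2 * Real.pi * S * (Real.pi / (S / 4)) = 8 * Real.pi ^ 2 := by field_simp; ring
      rw [e, Real.sqrt_le_left (by norm_num)]
      have h5 := Real.pi_lt_d2
      nlinarith
    have h6 : 0 ≤ E1 * ((M0 + Mc) / h0) := by positivity
    calc Real.sqrt (2 * Real.pi * S) * E1 * ((M0 + Mc) / h0) * Real.sqrt (Real.pi / (S / 4)) =
        (Real.sqrt (2 * Real.pi * S) * Real.sqrt (Real.pi / (S / 4))) * (E1 * ((M0 + Mc) / h0)) := by ring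
      _ ≤ 10 * (E1 * ((M0 + Mc) / h0)) := by gcongr
      _ = K1 * E1 := by rw [hK1]; ring
  -- near part
  set f : ℂ → ℂ := fun z => WW U S z * dslope Lamc 0 z with hf
  have hWd : Differentiable ℂ (WW U S) := by
    unfold WW
    fun_prop
  have hfd : DifferentiableOn ℂ f V2 := hWd.differentiableOn.mul hds
  have hnear1 : ∫ t in Ioc (-h0) h0, F t = -∫ t in (-h0)..h0, f ((c : ℂ) + t * I) := by
    rw [intervalIntegral.integral_of_le (by linarith), ← integral_neg]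
    refine setIntegral_congr_fun measurableSet_Ioc fun t _ => ?_
    have hz0 : (c : ℂ) + t * I ≠ 0 := by
      intro h
      have := congrArg Complex.re h
      simp at this
      exact hc0 this
    simp only [hF, hf]
    rw [dslope_of_ne _ hz0, slope_def_field, hL0', Lam1_eq_Lamc hic hG (z := (c : ℂ) + t * I) (by simp)]
    rw [sub_zero]
    ring
  have hrect := integral_boundary_rect_eq_zero_of_differentiableOn f (⟨-(3 / 4), -h0⟩ : ℂ) (⟨c, h0⟩ : ℂ)
    (hfd.mono (by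
      intro z hz
      rw [mem_reProdIm] at hz
      obtain ⟨h1, h2⟩ := hz
      simp only at h1 h2
      rw [uIcc_of_le hc1.le] at h1
      rw [uIcc_of_le (by linarith)] at h2
      exact hRsub (by rw [mem_reProdIm]; exact ⟨h1, h2⟩)))
  simp only at hrect
  set b0 := ∫ x in (-(3 / 4))..c, f ((x : ℂ) + ((-h0 : ℝ) : ℂ) * I) with hb0
  set b1 := ∫ x in (-(3 / 4))..c, f ((x : ℂ) + (h0 : ℂ) * I) with hb1
  set v1 := ∫ y in (-h0)..h0, f ((c : ℂ) + y * I) with hv1
  set v0 := ∫ y in (-h0)..h0, f (((-(3 / 4) : ℝ) : ℂ) + y * I) with hv0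
  have hfn : ∀ x y : ℝ, -(3 / 4) ≤ x → x ≤ c → |y| ≤ h0 →
      ‖f ((x : ℂ) + y * I)‖ ≤ Real.sqrt (2 * Real.pi * S) * Real.exp (x * U + S * (x ^ 2 - y ^ 2) / 2) * M3 := by
    intro x y h1 h2 h3
    simp only [hf]
    rw [norm_mul, WW_norm]
    refine mul_le_mul_of_nonneg_left (hM3 _ ?_) (by positivity)
    rw [mem_reProdIm]
    simp only [add_re, ofReal_re, mul_re, I_re, mul_zero, ofReal_im, I_im, mul_one, sub_self, add_zero,
      add_im, mul_im, zero_add]
    exact ⟨⟨h1, h2⟩, (abs_le.1 h3).1, (abs_le.1 h3).2⟩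
  have e0 : ‖b0‖ ≤ (Real.sqrt (2 * Real.pi * S) * E1 * M3) * |c - -(3 / 4)| := by
    refine intervalIntegral.norm_integral_le_of_norm_le_const fun x hx' => ?_
    rw [uIoc_of_le hc1.le] at hx'
    refine (hfn x (-h0) hx'.1.le hx'.2 (by rw [abs_neg, abs_of_pos hh0])).trans ?_
    have h5 : Real.exp (x * U + S * (x ^ 2 - (-h0) ^ 2) / 2) ≤ E1 := by
      rw [hE1]
      refine Real.exp_le_exp.2 ?_
      have h6 := mono_quad hSU hS.le (by linarith [hx'.1] : -1 ≤ x) hx'.2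
      nlinarith [mul_nonneg hS.le (sq_nonneg h0)]
    gcongr
  have e1 : ‖b1‖ ≤ (Real.sqrt (2 * Real.pi * S) * E1 * M3) * |c - -(3 / 4)| := by
    refine intervalIntegral.norm_integral_le_of_norm_le_const fun x hx' => ?_
    rw [uIoc_of_le hc1.le] at hx'
    refine (hfn x h0 hx'.1.le hx'.2 (by rw [abs_of_pos hh0])).trans ?_
    have h5 : Real.exp (x * U + S * (x ^ 2 - h0 ^ 2) / 2) ≤ E1 := by
      rw [hE1]
      refine Real.exp_le_exp.2 ?_
      have h6 := mono_quad hSU hS.le (by linarith [hx'.1] : -1 ≤ x) hx'.2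
      nlinarith [mul_nonneg hS.le (sq_nonneg h0)]
    gcongr
  have e2 : ‖v0‖ ≤ (Real.sqrt (2 * Real.pi * S) * E2 * M3) * |h0 - -h0| := by
    refine intervalIntegral.norm_integral_le_of_norm_le_const fun y hy' => ?_
    rw [uIoc_of_le (by linarith)] at hy'
    refine (hfn (-(3 / 4)) y le_rfl hc1.le (abs_le.2 ⟨hy'.1.le, hy'.2⟩)).trans ?_
    have h5 : Real.exp (-(3 / 4) * U + S * ((-(3 / 4)) ^ 2 - y ^ 2) / 2) ≤ E2 := by
      rw [hE2]
      refine Real.exp_le_exp.2 ?_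
      nlinarith [mul_nonneg hS.le (sq_nonneg y)]
    gcongr
  rw [abs_of_nonneg (by linarith : 0 ≤ c - -(3 / 4))] at e0 e1
  rw [abs_of_nonneg (by linarith : (0:ℝ) ≤ h0 - -h0)] at e2
  have e3 : v1 = v0 + I * (b0 - b1) := by
    have hI : I * I = -1 := Complex.I_mul_I
    simp only [smul_eq_mul] at hrect
    have hI0 := Complex.I_ne_zero
    have : I * v1 = I * (v0 + I * (b0 - b1)) := by
      linear_combination hrect - (b0 - b1) * hI
    exact mul_left_cancel₀ hI0 this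
  have e4 : ‖v1‖ ≤ ‖v0‖ + (‖b0‖ + ‖b1‖) := by
    rw [e3]
    refine (norm_add_le _ _).trans (add_le_add_right ?_ _)
    rw [norm_mul, Complex.norm_I, one_mul]
    exact norm_sub_le _ _
  have e5 : ‖v1‖ ≤ K2 * Real.sqrt S * E2 + K3 * Real.sqrt S * E1 := by
    refine e4.trans ?_
    have g1 : (Real.sqrt (2 * Real.pi * S) * E2 * M3) * (h0 - -h0) = K2 * Real.sqrt S * E2 := by
      rw [hsq, hK2]; ring
    have g2 : (Real.sqrt (2 * Real.pi * S) * E1 * M3) * (c - -(3 / 4)) +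
        (Real.sqrt (2 * Real.pi * S) * E1 * M3) * (c - -(3 / 4)) = K3 * Real.sqrt S * E1 := by
      rw [hsq, hK3]; ring
    linarith
  -- conclusion
  rw [norm_mul, hsplit, hnear1]
  have e6 : ‖(1 / (2 * Real.pi) : ℂ)‖ ≤ 1 := by
    have : (1 / (2 * Real.pi) : ℂ) = ((1 / (2 * Real.pi) : ℝ) : ℂ) := by push_cast; ring
    rw [this, Complex.norm_real, Real.norm_of_nonneg (by positivity), div_le_one (by positivity)]
    have := Real.pi_gt_three
    linarith
  have e7 : ‖-v1 + ∫ t in (Ioc (-h0) h0)ᶜ, F t‖ ≤ ‖v1‖ + K1 * E1 := by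
    refine (norm_add_le _ _).trans ?_
    rw [norm_neg]
    linarith
  calc ‖(1 / (2 * Real.pi) : ℂ)‖ * ‖-v1 + ∫ t in (Ioc (-h0) h0)ᶜ, F t‖ ≤ 1 * (‖v1‖ + K1 * E1) := by gcongr
    _ ≤ K2 * Real.sqrt S * E2 + K3 * Real.sqrt S * E1 + K1 * Real.sqrt S * E1 := by
        have : K1 * E1 ≤ K1 * Real.sqrt S * E1 := by
          have : K1 * 1 * E1 ≤ K1 * Real.sqrt S * E1 := by gcongr
          linarith
        linarith
    _ ≤ (K1 + K2 + K3 + 1) * Real.sqrt S * (E1 + E2) := by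
        have a1 : 0 ≤ K1 * Real.sqrt S * E2 := by positivity
        have a2 : 0 ≤ K2 * Real.sqrt S * E1 := by positivity
        have a3 : 0 ≤ K3 * Real.sqrt S * E2 := by positivity
        have a4 : 0 ≤ Real.sqrt S * (E1 + E2) := by positivity
        nlinarith

end

end Q239.RN
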