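import Pool.Agent.Q239.RN.Sig

set_option autoImplicit false

/-! # Upper bound for the number of exceptions: the benefit method -/

open Finset

namespace Q239.RN

/-- the primes up to `j` -/
def PS (j : ℕ) : Finset ℕ := (Finset.Icc 1 j).filter Nat.Prime

theorem mem_PS {j p : ℕ} : p ∈ PS j ↔ p.Prime ∧ p ≤ j := by
  unfold PS
  rw [Finset.mem_filter, Finset.mem_Icc]
  constructor
  · rintro ⟨⟨-, h1⟩, h2⟩; exact ⟨h2, h1⟩
  · rintro ⟨h1, h2⟩; exact ⟨⟨h1.one_le, h2⟩, h1⟩

theorem theta_PS (j : ℕ) : Chebyshev.theta (j : ℝ) = ∑ p ∈ PS j, Real.log p := by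
  unfold Chebyshev.theta PS
  rw [Nat.floor_natCast]
  rfl

/-- the sum of `ell p` over the primes up to `j` -/
noncomputable def SL (j : ℕ) : ℝ := ∑ p ∈ PS j, ell p

/-- the cofactor of the radical -/
def cof (n : ℕ) : ℕ := n / ∏ p ∈ n.primeFactors, p

theorem cof_mul (n : ℕ) : (∏ p ∈ n.primeFactors, p) * cof n = n :=
  Nat.mul_div_cancel' (Nat.prod_primeFactors_dvd n)

theorem log_cof {n : ℕ} (hn : n ≠ 0) :
    Real.log n = ∑ p ∈ n.primeFactors, Real.log p + Real.log (cof n) := by
  have h1 := cof_mul n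
  have h2 : (∏ p ∈ n.primeFactors, p) ≠ 0 := by
    intro h; rw [h, zero_mul] at h1; exact hn h1.symm
  have h3 : cof n ≠ 0 := by
    intro h; rw [h, mul_zero] at h1; exact hn h1.symm
  have h4 : (n : ℝ) = (∏ p ∈ n.primeFactors, (p : ℝ)) * (cof n : ℝ) := by
    conv_lhs => rw [← h1]
    push_cast
    rfl
  have h5 : (∏ p ∈ n.primeFactors, (p : ℝ)) ≠ 0 := by
    have : ((∏ p ∈ n.primeFactors, p : ℕ) : ℝ) ≠ 0 := by exact_mod_cast h2
    push_cast at this
    exact this
  rw [h4, Real.log_mul h5 (by exact_mod_cast h3), Real.log_prod]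
  intro p hp
  have := prime_gt (Nat.prime_of_mem_primeFactors hp)
  positivity

theorem cof_pos {n : ℕ} (hn : n ≠ 0) : 1 ≤ cof n := by
  have h1 := cof_mul n
  rcases Nat.eq_zero_or_pos (cof n) with h | h
  · rw [h, mul_zero] at h1; exact absurd h1.symm hn
  · exact h

theorem log_big {j : ℕ} (hj : 100 ≤ j) : 2 ≤ Real.log ((j : ℝ) - 1) := by
  have h1 : (100 : ℝ) ≤ j := by exact_mod_cast hj
  rw [Real.le_log_iff_exp_le (by linarith)]
  have h2 := Real.exp_one_lt_d9
  have h3 : Real.exp 2 = Real.exp 1 * Real.exp 1 := by rw [← Real.exp_add]; norm_num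
  have h4 := Real.exp_pos 1
  rw [h3]
  nlinarith

theorem loglog_near {j : ℕ} (hj : 100 ≤ j) {L : ℝ} (h1 : (j : ℝ) - 1 < L) :
    Real.log (Real.log j) - Real.log (Real.log L) ≤ 1 / j := by
  have h100 : (100 : ℝ) ≤ j := by exact_mod_cast hj
  have hb := log_big hj
  have hL : 0 < L := by linarith
  have hlL : 2 ≤ Real.log L := hb.trans (Real.log_le_log (by linarith) h1.le)
  have hlj : 2 ≤ Real.log j := hb.trans (Real.log_le_log (by linarith) (by linarith))
  have e1 : Real.log j - Real.log L ≤ 1 / (j - 1) := by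
    rw [← Real.log_div (by positivity) hL.ne']
    have h2 := Real.log_le_sub_one_of_pos (show (0:ℝ) < j / L by positivity)
    have h3 : (j : ℝ) / L - 1 = (j - L) / L := by field_simp
    have h4 : ((j : ℝ) - L) / L ≤ 1 / (j - 1) := by
      rw [div_le_div_iff₀ hL (by linarith)]
      nlinarith
    linarith
  rw [← Real.log_div (by positivity) (by positivity)]
  have h2 := Real.log_le_sub_one_of_pos (show 0 < Real.log j / Real.log L by positivity)
  have h3 : Real.log j / Real.log L - 1 = (Real.log j - Real.log L) / Real.log L := by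
    have : Real.log L ≠ 0 := by linarith
    field_simp
  have h4 : (Real.log j - Real.log L) / Real.log L ≤ 1 / j := by
    rw [div_le_div_iff₀ (by linarith) (by linarith)]
    have h5 : 1 / ((j : ℝ) - 1) * j ≤ 2 := by
      rw [div_mul_eq_mul_div, div_le_iff₀ (by linarith)]
      linarith
    nlinarith
  linarith

/-- the benefit inequality -/
theorem benefit {n j : ℕ} {D : ℝ} (hn : NicEx n) (hj : 100 ≤ j) (h1 : (j : ℝ) - 1 < Real.log n)
    (h2 : Real.log n ≤ j) (hD : 1 / (j : ℝ) ≤ D)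
    (hM : SL j ≤ Real.eulerMascheroniConstant + Real.log (Real.log j) + D)
    (hT : |Chebyshev.theta (j : ℝ) - j| ≤ D * (j * Real.log j)) :
    ∑ p ∈ PS j \ n.primeFactors, (ell p - Real.log p / (j * Real.log j)) +
      ∑ p ∈ n.primeFactors \ PS j, (Real.log p / (j * Real.log j) - ell p) +
      Real.log (cof n) / (j * Real.log j) ≤ 3 * D := by
  have hn3 := hn.1
  rw [nicEx_iff hn3] at hn
  have h100 : (100 : ℝ) ≤ j := by exact_mod_cast hj
  have hlj : 2 ≤ Real.log j := (log_big hj).trans (Real.log_le_log (by linarith) (by linarith))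
  set lam : ℝ := 1 / (j * Real.log j) with hlam
  have hlam0 : 0 < lam := by rw [hlam]; positivity
  have e0 : ∀ x : ℝ, x / (j * Real.log j) = lam * x := by intro x; rw [hlam]; ring
  simp only [e0]
  have e1 := Finset.sum_sdiff_sub_sum_sdiff (s₁ := n.primeFactors) (s₂ := PS j) (f := fun p : ℕ => ell p)
  have e2 := Finset.sum_sdiff_sub_sum_sdiff (s₁ := n.primeFactors) (s₂ := PS j) (f := fun p : ℕ => Real.log p)
  rw [Finset.sum_sub_distrib, Finset.sum_sub_distrib, ← Finset.mul_sum, ← Finset.mul_sum]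
  have e3 := log_cof (n := n) (by omega)
  have e4 := theta_PS j
  have e5 : SL j = ∑ p ∈ PS j, ell p := rfl
  have e6 := loglog_near hj h1
  have e7 : lam * (Real.log n - Chebyshev.theta j) ≤ D := by
    have a1 := (abs_le.1 hT).1
    have a2 : Real.log n - Chebyshev.theta j ≤ D * (j * Real.log j) := by linarith
    calc lam * (Real.log n - Chebyshev.theta j) ≤ lam * (D * (j * Real.log j)) :=
          mul_le_mul_of_nonneg_left a2 hlam0.le
      _ = D := by rw [hlam]; field_simp
  have e8 : (∑ p ∈ PS j \ n.primeFactors, ell p - lam * ∑ p ∈ PS j \ n.primeFactors, Real.log p) +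
      (lam * ∑ p ∈ n.primeFactors \ PS j, Real.log p - ∑ p ∈ n.primeFactors \ PS j, ell p) +
      lam * Real.log (cof n) = (∑ p ∈ PS j, ell p - ∑ p ∈ n.primeFactors, ell p) +
        lam * (Real.log n - Chebyshev.theta j) := by
    rw [e4, e3, ← e1]
    have e9 : ∑ p ∈ n.primeFactors, Real.log (p : ℝ) = ∑ p ∈ PS j, Real.log (p : ℝ) -
      (∑ p ∈ PS j \ n.primeFactors, Real.log (p : ℝ) - ∑ p ∈ n.primeFactors \ PS j, Real.log (p : ℝ)) := by
      rw [e2]; ring
    rw [e9]
    ring
  rw [e8]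
  rw [e5] at hM
  linarith

end Q239.RN
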