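import Pool.Agent.Q239.RN.Count

set_option autoImplicit false

/-! # Upper bound for the number of exceptions on one level -/

open Finset

namespace Q239.RN

/-- number of small subsets -/
theorem card_small_subsets (N k : ℕ) :
    ((range N).powerset.filter (fun T => T.card ≤ k)).card ≤ (N + 1) ^ k := by
  have h1 : ((range N).powerset.filter (fun T => T.card ≤ k)).card =
      ∑ i ∈ range (k + 1), N.choose i := by
    rw [Finset.card_eq_sum_card_fiberwise (f := fun T : Finset ℕ => T.card) (t := range (k + 1))]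
    · refine Finset.sum_congr rfl fun i hi => ?_
      rw [← card_range N, ← Finset.card_powersetCard]
      congr 1
      ext T
      simp only [mem_filter, mem_powerset, mem_powersetCard, card_range]
      rw [mem_range] at hi
      constructor
      · rintro ⟨⟨a, b⟩, c⟩; exact ⟨a, c⟩
      · rintro ⟨a, c⟩; exact ⟨⟨a, by omega⟩, c⟩
    · intro T hT
      simp only [coe_filter, mem_powerset, Set.mem_ofPred_eq, coe_range, Set.mem_Iio] at hT ⊢
      omega
  rw [h1, add_pow]
  refine Finset.sum_le_sum fun i hi => ?_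
  rw [mem_range] at hi
  have h2 := Nat.choose_le_pow N i
  have h3 : 1 ≤ k.choose i := Nat.choose_pos (by omega)
  calc N.choose i ≤ N ^ i := h2
    _ ≤ N ^ i * 1 ^ (k - i) * k.choose i := by
      rw [one_pow, mul_one]
      exact Nat.le_mul_of_pos_right _ h3

theorem term_low {j p : ℕ} (hp : p.Prime) (hpj : p ≤ j) (hj : 100 ≤ j) :
    ((j : ℝ) - p) / (j * j) ≤ ell p - Real.log p / (j * Real.log j) := by
  have h100 : (100 : ℝ) ≤ j := by exact_mod_cast hj
  have hlj : 2 ≤ Real.log j := (log_big hj).trans (Real.log_le_log (by linarith) (by linarith))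
  have hp1 := prime_gt hp
  have hpj' : (p : ℝ) ≤ j := by exact_mod_cast hpj
  have h1 := ell_lower hp1
  have h2 : Real.log p / (j * Real.log j) ≤ 1 / j := by
    rw [div_le_div_iff₀ (by positivity) (by positivity)]
    have := Real.log_le_log (by linarith) hpj'
    nlinarith
  have h3 : ((j : ℝ) - p) / (j * j) ≤ 1 / p - 1 / j := by
    have h4 : 1 / (p : ℝ) - 1 / j = (j - p) / (p * j) := by
      field_simp
    rw [h4]
    exact div_le_div_of_nonneg_left (by linarith) (by positivity) (by nlinarith)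
  linarith

theorem term_high {j p : ℕ} (hp : p.Prime) (hpj : j < p) (hj : 100 ≤ j) :
    ((p : ℝ) - 1 - j) / (j * (p - 1)) ≤ Real.log p / (j * Real.log j) - ell p := by
  have h100 : (100 : ℝ) ≤ j := by exact_mod_cast hj
  have hlj : 2 ≤ Real.log j := (log_big hj).trans (Real.log_le_log (by linarith) (by linarith))
  have hp1 := prime_gt hp
  have hpj' : (j : ℝ) < p := by exact_mod_cast hpj
  have h1 := ell_upper hp1
  have h2 : 1 / (j : ℝ) ≤ Real.log p / (j * Real.log j) := by
    rw [div_le_div_iff₀ (by positivity) (by positivity)]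
    have := Real.log_le_log (by linarith) hpj'.le
    nlinarith
  have h3 : ((p : ℝ) - 1 - j) / (j * (p - 1)) = 1 / j - 1 / (p - 1) := by
    have : (p : ℝ) - 1 ≠ 0 := by linarith
    field_simp
  linarith

theorem term_huge {j p : ℕ} (hp : p.Prime) (hpj : 2 * j < p) (hj : 100 ≤ j) :
    Real.log p / (2 * j * Real.log j) ≤ Real.log p / (j * Real.log j) - ell p := by
  have h100 : (100 : ℝ) ≤ j := by exact_mod_cast hj
  have hlj : 2 ≤ Real.log j := (log_big hj).trans (Real.log_le_log (by linarith) (by linarith))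
  have hp1 := prime_gt hp
  have hpj' : (2 * j : ℝ) + 1 ≤ p := by exact_mod_cast hpj
  have h1 := ell_upper hp1
  have h2 : 1 / ((p : ℝ) - 1) ≤ 1 / (2 * j) := one_div_le_one_div_of_le (by positivity) (by linarith)
  have h3 : 1 / (2 * (j : ℝ)) ≤ Real.log p / (2 * j * Real.log j) := by
    rw [div_le_div_iff₀ (by positivity) (by positivity)]
    have := Real.log_le_log (by linarith) (by linarith : (j : ℝ) ≤ p)
    nlinarith
  have h4 : Real.log p / (j * Real.log j) = 2 * (Real.log p / (2 * j * Real.log j)) := by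
    field_simp
  linarith

/-- the wrong primes -/
noncomputable def Tn (j : ℕ) (H : ℝ) (n : ℕ) : Finset ℕ :=
  ((PS j \ n.primeFactors).filter fun p : ℕ => (p : ℝ) ≤ j - H) ∪
  ((n.primeFactors \ PS j).filter fun p : ℕ => (j : ℝ) + 1 + H ≤ p ∧ p ≤ 2 * j)

/-- the primes of the window -/
noncomputable def Wn (j : ℕ) (H : ℝ) (n : ℕ) : Finset ℕ :=
  n.primeFactors.filter fun p : ℕ => (j : ℝ) - H < p ∧ (p : ℝ) < j + 1 + H

/-- the product of the huge primes -/
def Mn (j n : ℕ) : ℕ := ∏ p ∈ n.primeFactors.filter (fun p => 2 * j < p), p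

theorem Mn_factors (j n : ℕ) : (Mn j n).primeFactors = n.primeFactors.filter (fun p => 2 * j < p) := by
  unfold Mn
  refine Nat.primeFactors_prod fun p hp => ?_
  exact Nat.prime_of_mem_primeFactors (Finset.mem_of_mem_filter p hp)

/-- the prime factors are determined by the data -/
theorem recover {j n : ℕ} {H : ℝ} (hH : 1 ≤ H) (hj : 100 ≤ j) :
    n.primeFactors = ((PS (2 * j)).filter fun p : ℕ => ((p : ℝ) ≤ j - H ∧ p ∉ Tn j H n) ∨
      ((j : ℝ) + 1 + H ≤ p ∧ p ∈ Tn j H n) ∨ p ∈ Wn j H n) ∪ (Mn j n).primeFactors := by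
  have h100 : (100 : ℝ) ≤ j := by exact_mod_cast hj
  rw [Mn_factors]
  ext p
  simp only [mem_union, mem_filter, mem_PS, Tn, Wn, mem_sdiff, Nat.mem_primeFactors]
  have hcast : (p ≤ j) ↔ ((p : ℝ) ≤ j) := by exact_mod_cast Iff.rfl
  have hcast2 : (p ≤ 2 * j) ↔ ((p : ℝ) ≤ 2 * j) := by exact_mod_cast Iff.rfl
  have hcast3 : (2 * j < p) ↔ (2 * (j : ℝ) < p) := by exact_mod_cast Iff.rfl
  rw [hcast, hcast2, hcast3]
  constructor
  · rintro ⟨h1, h2, h3⟩
    by_cases hc : 2 * (j : ℝ) < p
    · right; exact ⟨⟨h1, h2, h3⟩, hc⟩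
    · left
      rw [not_lt] at hc
      refine ⟨⟨h1, hc⟩, ?_⟩
      by_cases ha : (p : ℝ) ≤ j - H
      · left
        refine ⟨ha, ?_⟩
        rintro (⟨⟨-, hb⟩, -⟩ | ⟨-, hb, -⟩)
        · exact hb ⟨h1, h2, h3⟩
        · linarith
      · by_cases hb : (j : ℝ) + 1 + H ≤ p
        · right; left
          refine ⟨hb, Or.inr ⟨⟨⟨h1, h2, h3⟩, ?_⟩, hb, hc⟩⟩
          rintro ⟨-, h4⟩
          linarith
        · right; right
          exact ⟨⟨h1, h2, h3⟩, not_le.1 ha, not_le.1 hb⟩
  · rintro (⟨⟨h1, h2⟩, ⟨h3, h4⟩ | ⟨h3, h4⟩ | ⟨h3, -⟩⟩ | ⟨h3, -⟩)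
    · by_contra h5
      exact h4 (Or.inl ⟨⟨⟨h1, by linarith⟩, h5⟩, h3⟩)
    · rcases h4 with ⟨-, h5⟩ | ⟨⟨h5, -⟩, -⟩
      · exfalso; linarith
      · exact h5
    · exact h3
    · exact h3

theorem bounds {n j : ℕ} {D H : ℝ} (hn : NicEx n) (hj : 100 ≤ j) (h1 : (j : ℝ) - 1 < Real.log n)
    (h2 : Real.log n ≤ j) (hD : 1 / (j : ℝ) ≤ D)
    (hM : SL j ≤ Real.eulerMascheroniConstant + Real.log (Real.log j) + D)
    (hT : |Chebyshev.theta (j : ℝ) - j| ≤ D * (j * Real.log j)) (hH : 1 ≤ H) :
    ((Tn j H n).card : ℝ) ≤ 6 * D * (j * j) / H ∧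
    Real.log (Mn j n) ≤ 6 * D * (j * Real.log j) ∧
    Real.log (cof n) ≤ 3 * D * (j * Real.log j) := by
  have h100 : (100 : ℝ) ≤ j := by exact_mod_cast hj
  have hlj : 2 ≤ Real.log j := (log_big hj).trans (Real.log_le_log (by linarith) (by linarith))
  have hb := benefit hn hj h1 h2 hD hM hT
  have hn3 := hn.1
  have hcof : 0 ≤ Real.log (cof n) / (j * Real.log j) := by
    have : (1 : ℝ) ≤ cof n := by exact_mod_cast cof_pos (by omega)
    have := Real.log_nonneg this
    positivity
  have ha0 : ∀ p ∈ PS j \ n.primeFactors, 0 ≤ ell p - Real.log p / (j * Real.log j) := by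
    intro p hp
    rw [mem_sdiff, mem_PS] at hp
    have := term_low hp.1.1 hp.1.2 hj
    have h3 : (p : ℝ) ≤ j := by exact_mod_cast hp.1.2
    have : 0 ≤ ((j : ℝ) - p) / (j * j) := div_nonneg (by linarith) (by positivity)
    linarith
  have hgt : ∀ p ∈ n.primeFactors \ PS j, p.Prime ∧ j < p := by
    intro p hp
    rw [mem_sdiff, mem_PS] at hp
    have hp' := Nat.prime_of_mem_primeFactors hp.1
    refine ⟨hp', ?_⟩
    by_contra h
    exact hp.2 ⟨hp', not_lt.1 h⟩
  have hb0 : ∀ p ∈ n.primeFactors \ PS j, 0 ≤ Real.log p / (j * Real.log j) - ell p := by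
    intro p hp
    obtain ⟨hp1, hp2⟩ := hgt p hp
    have h3 := term_high hp1 hp2 hj
    have h4 : (j : ℝ) + 1 ≤ p := by exact_mod_cast hp2
    have : 0 ≤ ((p : ℝ) - 1 - j) / (j * (p - 1)) :=
      div_nonneg (by linarith) (mul_nonneg (by linarith) (by linarith))
    linarith
  have sa := Finset.sum_nonneg ha0
  have sb := Finset.sum_nonneg hb0
  refine ⟨?_, ?_, ?_⟩
  · set T1 := (PS j \ n.primeFactors).filter fun p : ℕ => (p : ℝ) ≤ j - H with hT1
    set T2 := (n.primeFactors \ PS j).filter fun p : ℕ => (j : ℝ) + 1 + H ≤ p ∧ p ≤ 2 * j with hT2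
    have c1 : (T1.card : ℝ) * (H / (2 * (j * j))) ≤ ∑ p ∈ PS j \ n.primeFactors,
        (ell p - Real.log p / (j * Real.log j)) := by
      have : ∑ p ∈ T1, (ell p - Real.log p / (j * Real.log j)) ≤ ∑ p ∈ PS j \ n.primeFactors,
        (ell p - Real.log p / (j * Real.log j)) :=
        Finset.sum_le_sum_of_subset_of_nonneg (Finset.filter_subset _ _) fun p hp _ => ha0 p hp
      refine le_trans ?_ this
      rw [← nsmul_eq_mul]
      refine Finset.card_nsmul_le_sum _ _ _ fun p hp => ?_
      rw [hT1, mem_filter, mem_sdiff, mem_PS] at hp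
      obtain ⟨⟨⟨hp1, hp2⟩, -⟩, hp4⟩ := hp
      refine le_trans ?_ (term_low hp1 hp2 hj)
      rw [div_le_div_iff₀ (by positivity) (by positivity)]
      have : 0 ≤ (j : ℝ) * j := by positivity
      nlinarith
    have c2 : (T2.card : ℝ) * (H / (2 * (j * j))) ≤ ∑ p ∈ n.primeFactors \ PS j,
        (Real.log p / (j * Real.log j) - ell p) := by
      have : ∑ p ∈ T2, (Real.log p / (j * Real.log j) - ell p) ≤ ∑ p ∈ n.primeFactors \ PS j,
        (Real.log p / (j * Real.log j) - ell p) :=
        Finset.sum_le_sum_of_subset_of_nonneg (Finset.filter_subset _ _) fun p hp _ => hb0 p hp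
      refine le_trans ?_ this
      rw [← nsmul_eq_mul]
      refine Finset.card_nsmul_le_sum _ _ _ fun p hp => ?_
      rw [hT2, mem_filter] at hp
      obtain ⟨hp1, hp3, hp4⟩ := hp
      obtain ⟨hp1, hp2⟩ := hgt p hp1
      refine le_trans ?_ (term_high hp1 hp2 hj)
      have hp4' : (p : ℝ) ≤ 2 * j := by exact_mod_cast hp4
      have h5 : 0 < (p : ℝ) - 1 := by linarith
      have e1 : H / (2 * ((j : ℝ) * j)) = H / (j * (2 * j)) := by ring
      rw [e1]
      exact div_le_div₀ (by linarith) (by linarith) (by positivity) (by nlinarith)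
    have c3' : (Tn j H n).card ≤ T1.card + T2.card := Finset.card_union_le _ _
    have c3 : ((Tn j H n).card : ℝ) ≤ T1.card + T2.card := by
      have : ((Tn j H n).card : ℝ) ≤ ((T1.card + T2.card : ℕ) : ℝ) := Nat.cast_le.2 c3'
      rwa [Nat.cast_add] at this
    have c4 : ((Tn j H n).card : ℝ) * (H / (2 * (j * j))) ≤ 3 * D := by
      have : 0 ≤ H / (2 * ((j : ℝ) * j)) := by positivity
      nlinarith
    rw [le_div_iff₀ (by linarith)]
    have e1 : ((Tn j H n).card : ℝ) * H = ((Tn j H n).card : ℝ) * (H / (2 * (j * j))) * (2 * (j * j)) := by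
      field_simp
    rw [e1]
    nlinarith [show (0:ℝ) ≤ 2 * ((j:ℝ) * j) by positivity]
  · have c1 : Real.log (Mn j n) = ∑ p ∈ n.primeFactors.filter (fun p => 2 * j < p), Real.log p := by
      unfold Mn
      push_cast
      rw [Real.log_prod]
      intro p hp
      have := prime_gt (Nat.prime_of_mem_primeFactors (Finset.mem_of_mem_filter p hp))
      positivity
    have hsub : n.primeFactors.filter (fun p => 2 * j < p) ⊆ n.primeFactors \ PS j := by
      intro p hp
      rw [mem_filter] at hp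
      rw [mem_sdiff, mem_PS]
      exact ⟨hp.1, fun h => by omega⟩
    have c2 : ∑ p ∈ n.primeFactors.filter (fun p => 2 * j < p), Real.log p / (2 * j * Real.log j) ≤
        ∑ p ∈ n.primeFactors \ PS j, (Real.log p / (j * Real.log j) - ell p) := by
      refine le_trans (Finset.sum_le_sum fun p hp => ?_)
        (Finset.sum_le_sum_of_subset_of_nonneg hsub fun p hp _ => hb0 p hp)
      rw [mem_filter] at hp
      exact term_huge (Nat.prime_of_mem_primeFactors hp.1) hp.2 hj
    rw [← Finset.sum_div, ← c1] at c2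
    have c3 : Real.log (Mn j n) / (2 * j * Real.log j) ≤ 3 * D := by linarith
    rw [div_le_iff₀ (by positivity)] at c3
    linarith
  · have c3 : Real.log (cof n) / (j * Real.log j) ≤ 3 * D := by linarith
    rwa [div_le_iff₀ (by positivity)] at c3

end Q239.RN
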