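import Pool.Agent.Q239.RN.Count2

set_option autoImplicit false

/-! # The count on one level -/

open Finset

namespace Q239.RN

open Classical in
/-- the exceptions on the level `j` -/
noncomputable def Lev (j : ℕ) : Finset ℕ :=
  (Finset.Icc 1 ⌊Real.exp j⌋₊).filter fun n => NicEx n ∧ (j : ℝ) - 1 < Real.log n

theorem mem_Lev {j n : ℕ} : n ∈ Lev j ↔ NicEx n ∧ (j : ℝ) - 1 < Real.log n ∧ Real.log n ≤ j := by
  classical
  unfold Lev
  rw [mem_filter, Finset.mem_Icc]
  constructor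
  · rintro ⟨⟨h1, h2⟩, h3, h4⟩
    refine ⟨h3, h4, ?_⟩
    have h5 : (0 : ℝ) < n := by exact_mod_cast h1
    have h6 : (n : ℝ) ≤ Real.exp j := (Nat.le_floor_iff (Real.exp_pos _).le).1 h2
    exact (Real.log_le_iff_le_exp h5).2 h6
  · rintro ⟨h1, h2, h3⟩
    have h0 := h1.1
    have h5 : (0 : ℝ) < n := by exact_mod_cast (by omega : 0 < n)
    refine ⟨⟨by omega, Nat.le_floor ((Real.log_le_iff_le_exp h5).1 h3)⟩, h1, h2⟩

theorem card_Lev_triv (j : ℕ) : ((Lev j).card : ℝ) ≤ Real.exp j := by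
  classical
  unfold Lev
  have h1 := Finset.card_filter_le (Finset.Icc 1 ⌊Real.exp (j:ℝ)⌋₊)
    (fun n => NicEx n ∧ (j : ℝ) - 1 < Real.log n)
  rw [Nat.card_Icc] at h1
  have h2 : (⌊Real.exp (j:ℝ)⌋₊ : ℝ) ≤ Real.exp j := Nat.floor_le (Real.exp_pos _).le
  refine le_trans ?_ h2
  exact_mod_cast h1

/-- the count by the encoding -/
theorem card_Lev_enc {j : ℕ} {D H : ℝ} (hj : 100 ≤ j) (hD : 1 / (j : ℝ) ≤ D)
    (hM : SL j ≤ Real.eulerMascheroniConstant + Real.log (Real.log j) + D)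
    (hT : |Chebyshev.theta (j : ℝ) - j| ≤ D * (j * Real.log j)) (hH : 1 ≤ H) (hHj : H ≤ j / 2) :
    ((Lev j).card : ℝ) ≤ Real.exp (6 * D * (j * j) / H * Real.log (2 * j + 2) + (2 * H + 2) +
      9 * D * (j * Real.log j)) := by
  classical
  have h100 : (100 : ℝ) ≤ j := by exact_mod_cast hj
  have hlj : 2 ≤ Real.log j := (log_big hj).trans (Real.log_le_log (by linarith) (by linarith))
  have hD0 : 0 < D := lt_of_lt_of_le (by positivity) hD
  set k := ⌊6 * D * (j * j) / H⌋₊ with hk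
  have hk0 : (0:ℝ) ≤ 6 * D * (j * j) / H := by positivity
  have hk1 : (k : ℝ) ≤ 6 * D * (j * j) / H := Nat.floor_le hk0
  set Wd : Finset ℕ := (Finset.range (2 * j + 2)).filter fun p : ℕ => (j : ℝ) - H < p ∧ (p : ℝ) < j + 1 + H
    with hWd
  set Am := ⌊Real.exp (6 * D * (j * Real.log j))⌋₊ with hAm
  set Ac := ⌊Real.exp (3 * D * (j * Real.log j))⌋₊ with hAc
  set Big : Finset (Finset ℕ × Finset ℕ × ℕ × ℕ) :=
    ((range (2 * j + 1)).powerset.filter (fun T => T.card ≤ k)) ×ˢ (Wd.powerset ×ˢ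
      (Finset.Icc 1 Am ×ˢ Finset.Icc 1 Ac)) with hBig
  -- the encoding
  have hcard : (Lev j).card ≤ Big.card := by
    refine Finset.card_le_card_of_injOn (fun n => (Tn j H n, Wn j H n, Mn j n, cof n)) ?_ ?_
    · intro n hn
      rw [Finset.mem_coe, mem_Lev] at hn
      obtain ⟨hn1, hn2, hn3⟩ := hn
      have hn0 : n ≠ 0 := by have := hn1.1; omega
      obtain ⟨b1, b2, b3⟩ := bounds hn1 hj hn2 hn3 hD hM hT hH
      rw [Finset.mem_coe, hBig, mem_product, mem_product, mem_product, mem_filter, mem_powerset,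
        mem_powerset, Finset.mem_Icc, Finset.mem_Icc]
      refine ⟨⟨?_, Nat.le_floor b1⟩, ?_, ⟨?_, ?_⟩, ⟨cof_pos hn0, ?_⟩⟩
      · intro p hp
        rw [mem_range]
        simp only [Tn, mem_union, mem_filter, mem_sdiff, mem_PS] at hp
        rcases hp with ⟨⟨⟨-, h⟩, -⟩, -⟩ | ⟨-, -, h⟩ <;> omega
      · intro p hp
        simp only [Wn, mem_filter] at hp
        rw [hWd, mem_filter, mem_range]
        refine ⟨?_, hp.2⟩
        have h1 := hp.2.2
        have h2 : (p : ℝ) < 2 * j + 2 := by linarith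
        exact_mod_cast h2
      · have : 0 < Mn j n := by
          unfold Mn
          exact Finset.prod_pos fun p hp => (Nat.prime_of_mem_primeFactors (Finset.mem_of_mem_filter p hp)).pos
        exact this
      · have h0 : 0 < Mn j n := by
          unfold Mn
          exact Finset.prod_pos fun p hp => (Nat.prime_of_mem_primeFactors (Finset.mem_of_mem_filter p hp)).pos
        have h1 : (0 : ℝ) < Mn j n := by exact_mod_cast h0
        exact Nat.le_floor ((Real.log_le_iff_le_exp h1).1 b2)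
      · have h1 : (0 : ℝ) < cof n := by exact_mod_cast cof_pos hn0
        exact Nat.le_floor ((Real.log_le_iff_le_exp h1).1 b3)
    · intro n hn m hm hnm
      simp only [Prod.mk.injEq] at hnm
      obtain ⟨e1, e2, e3, e4⟩ := hnm
      have hf : n.primeFactors = m.primeFactors := by
        rw [recover (n := n) hH hj, recover (n := m) hH hj, e1, e2, e3]
      rw [← cof_mul n, ← cof_mul m, hf, e4]
  have hBc : Big.card ≤ (2 * j + 2) ^ k * (2 ^ Wd.card * (Am * Ac)) := by
    rw [hBig, card_product, card_product, card_product, card_powerset, Nat.card_Icc, Nat.card_Icc]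
    have := card_small_subsets (2 * j + 1) k
    gcongr
    · omega
    · omega
  have hWc : (Wd.card : ℝ) ≤ 2 * H + 2 := by
    have hsub : Wd ⊆ Finset.Icc (⌊(j : ℝ) - H⌋₊ + 1) (⌈(j : ℝ) + 1 + H⌉₊ - 1) := by
      intro p hp
      rw [hWd, mem_filter] at hp
      rw [Finset.mem_Icc]
      constructor
      · have : ⌊(j : ℝ) - H⌋₊ < p := (Nat.floor_lt (by linarith)).2 hp.2.1
        omega
      · have : p < ⌈(j : ℝ) + 1 + H⌉₊ := Nat.lt_ceil.2 hp.2.2
        omega
    have h1 := Finset.card_le_card hsub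
    rw [Nat.card_Icc] at h1
    have h2 : (⌈(j : ℝ) + 1 + H⌉₊ : ℝ) < j + 1 + H + 1 := Nat.ceil_lt_add_one (by linarith)
    have h3 : (j : ℝ) - H < ⌊(j : ℝ) - H⌋₊ + 1 := Nat.lt_floor_add_one _
    have h4 : 1 ≤ ⌈(j : ℝ) + 1 + H⌉₊ := Nat.one_le_iff_ne_zero.2 (by
      have : 0 < ⌈(j : ℝ) + 1 + H⌉₊ := Nat.ceil_pos.2 (by linarith)
      omega)
    have h5 : Wd.card + (⌊(j : ℝ) - H⌋₊ + 1) ≤ max ⌈(j : ℝ) + 1 + H⌉₊ (⌊(j : ℝ) - H⌋₊ + 1) := by
      have : Wd.card ≤ ⌈(j : ℝ) + 1 + H⌉₊ - (⌊(j : ℝ) - H⌋₊ + 1) := by omega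
      rcases le_total (⌊(j : ℝ) - H⌋₊ + 1) ⌈(j : ℝ) + 1 + H⌉₊ with h | h
      · rw [max_eq_left h]; omega
      · rw [max_eq_right h]; omega
    have h6 : (Wd.card : ℝ) + (⌊(j : ℝ) - H⌋₊ + 1) ≤ max (⌈(j : ℝ) + 1 + H⌉₊ : ℝ) (⌊(j : ℝ) - H⌋₊ + 1) := by
      exact_mod_cast h5
    rcases le_total (⌊(j : ℝ) - H⌋₊ + 1 : ℝ) (⌈(j : ℝ) + 1 + H⌉₊ : ℝ) with h | h
    · rw [max_eq_left h] at h6; linarith
    · rw [max_eq_right h] at h6; linarith
  -- conclusion
  have c0 : ((Lev j).card : ℝ) ≤ ((2 * j + 2 : ℝ)) ^ k * (2 ^ Wd.card * (Am * Ac)) := by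
    have := hcard.trans hBc
    exact_mod_cast this
  have c1 : ((2 * j + 2 : ℝ)) ^ k ≤ Real.exp (6 * D * (j * j) / H * Real.log (2 * j + 2)) := by
    have h0 : (0 : ℝ) < 2 * j + 2 := by positivity
    have h1 : 0 ≤ Real.log (2 * j + 2) := Real.log_nonneg (by linarith)
    calc ((2 * j + 2 : ℝ)) ^ k = Real.exp (k * Real.log (2 * j + 2)) := by
          rw [Real.exp_nat_mul, Real.exp_log h0]
      _ ≤ _ := Real.exp_le_exp.2 (by gcongr)
  have c2 : (2 : ℝ) ^ Wd.card ≤ Real.exp (2 * H + 2) := by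
    have h1 : (2 : ℝ) ≤ Real.exp 1 := by
      have := Real.exp_one_gt_d9
      linarith
    calc (2 : ℝ) ^ Wd.card ≤ (Real.exp 1) ^ Wd.card := by gcongr
      _ = Real.exp (Wd.card) := by rw [← Real.exp_nat_mul, mul_one]
      _ ≤ _ := Real.exp_le_exp.2 hWc
  have c3 : (Am : ℝ) ≤ Real.exp (6 * D * (j * Real.log j)) := Nat.floor_le (Real.exp_pos _).le
  have c4 : (Ac : ℝ) ≤ Real.exp (3 * D * (j * Real.log j)) := Nat.floor_le (Real.exp_pos _).le
  calc ((Lev j).card : ℝ) ≤ ((2 * j + 2 : ℝ)) ^ k * (2 ^ Wd.card * (Am * Ac)) := c0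
    _ ≤ Real.exp (6 * D * (j * j) / H * Real.log (2 * j + 2)) * (Real.exp (2 * H + 2) *
        (Real.exp (6 * D * (j * Real.log j)) * Real.exp (3 * D * (j * Real.log j)))) := by gcongr
    _ = _ := by
      rw [← Real.exp_add, ← Real.exp_add, ← Real.exp_add]
      congr 1
      ring

/-- the count on one level -/
theorem card_Lev {j : ℕ} {D : ℝ} (hj : 100 ≤ j) (hD : 1 / (j : ℝ) ≤ D)
    (hM : SL j ≤ Real.eulerMascheroniConstant + Real.log (Real.log j) + D)
    (hT : |Chebyshev.theta (j : ℝ) - j| ≤ D * (j * Real.log j)) :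
    ((Lev j).card : ℝ) ≤ Real.exp (30 * (j * Real.sqrt (D * Real.log j))) := by
  have h100 : (100 : ℝ) ≤ j := by exact_mod_cast hj
  have hlj : 2 ≤ Real.log j := (log_big hj).trans (Real.log_le_log (by linarith) (by linarith))
  have hD0 : 0 < D := lt_of_lt_of_le (by positivity) hD
  set H := j * Real.sqrt (D * Real.log j) with hHd
  have hDl : 0 < D * Real.log j := by positivity
  have hsq : Real.sqrt (D * Real.log j) * Real.sqrt (D * Real.log j) = D * Real.log j :=
    Real.mul_self_sqrt hDl.le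
  have hs0 : 0 < Real.sqrt (D * Real.log j) := Real.sqrt_pos.2 hDl
  have hH0 : 0 < H := by positivity
  have hHH : H * H = j * j * (D * Real.log j) := by
    calc H * H = j * j * (Real.sqrt (D * Real.log j) * Real.sqrt (D * Real.log j)) := by rw [hHd]; ring
      _ = _ := by rw [hsq]
  have hDj : 1 ≤ D * j := by
    rw [div_le_iff₀ (by linarith)] at hD
    exact hD
  by_cases hc : H ≤ j / 2
  · have hH1 : 1 ≤ H := by
      by_contra h
      rw [not_le] at h
      have : H * H < 1 := by nlinarith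
      have h2 : 1 ≤ j * j * (D * Real.log j) := by
        have e : (j : ℝ) * j * (D * Real.log j) = (D * j) * (j * Real.log j) := by ring
        rw [e]
        nlinarith
      linarith
    refine (card_Lev_enc hj hD hM hT hH1 hc).trans (Real.exp_le_exp.2 ?_)
    have h1 : 6 * D * (j * j) / H * Real.log (2 * j + 2) ≤ 12 * H := by
      have h2 : Real.log (2 * j + 2) ≤ 2 * Real.log j := by
        have : 2 * Real.log (j : ℝ) = Real.log (j * j) := by
          rw [Real.log_mul (by linarith) (by linarith)]; ring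
        rw [this]
        exact Real.log_le_log (by linarith) (by nlinarith)
      have h3 : 6 * D * (j * j) / H * Real.log (2 * j + 2) ≤ 6 * D * (j * j) / H * (2 * Real.log j) := by
        gcongr
      have h4 : 6 * D * (j * j) / H * (2 * Real.log j) = 12 * (j * j * (D * Real.log j)) / H := by ring
      rw [h4, ← hHH] at h3
      have h5 : 12 * (H * H) / H = 12 * H := by field_simp
      linarith
    have h2 : 9 * D * (j * Real.log j) ≤ 9 / 2 * H := by
      have h3 : D * (j * Real.log j) * j = H * H := by rw [hHH]; ring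
      have h4 : D * (j * Real.log j) * j ≤ H * (j / 2) := by rw [h3]; gcongr
      have h5 : D * (j * Real.log j) ≤ H / 2 := by
        have : D * (j * Real.log j) * j ≤ H / 2 * j := by linarith
        exact le_of_mul_le_mul_right this (by linarith)
      linarith
    linarith
  · rw [not_le] at hc
    refine (card_Lev_triv j).trans (Real.exp_le_exp.2 ?_)
    linarith

end Q239.RN
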