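import Mathlib

set_option autoImplicit false

/-! # Exceptions to the inequalities of Nicolas and Robin: definitions and basic facts -/

open Finset

namespace Q239.RN

/-- `-log (1 - 1/t)` -/
noncomputable def ell (t : ℝ) : ℝ := -Real.log (1 - 1 / t)

/-- the integers `n ≥ 3` with `n / φ n > e^γ log log n` -/
def NicEx (n : ℕ) : Prop := 3 ≤ n ∧
  Real.exp Real.eulerMascheroniConstant * (Nat.totient n : ℝ) * Real.log (Real.log n) < n

/-- the integers `n ≥ 3` with `σ n ≥ e^γ n log log n` -/
def RobEx (n : ℕ) : Prop := 3 ≤ n ∧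
  Real.exp Real.eulerMascheroniConstant * (n : ℝ) * Real.log (Real.log n) ≤
    (ArithmeticFunction.sigma 1 n : ℝ)

theorem ell_lower {t : ℝ} (ht : 1 < t) : 1 / t ≤ ell t := by
  unfold ell
  have h0 : 0 < 1 - 1 / t := by
    rw [sub_pos, div_lt_one (by linarith)]
    exact ht
  have := Real.log_le_sub_one_of_pos h0
  linarith

theorem ell_upper {t : ℝ} (ht : 1 < t) : ell t ≤ 1 / (t - 1) := by
  unfold ell
  have h0 : 0 < 1 - 1 / t := by
    rw [sub_pos, div_lt_one (by linarith)]
    exact ht
  have h1 := Real.one_sub_inv_le_log_of_pos h0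
  have h2 : (1 - 1 / t)⁻¹ = t / (t - 1) := by
    have : t ≠ 0 := by linarith
    have : t - 1 ≠ 0 := by linarith
    field_simp
  rw [h2] at h1
  have h3 : t / (t - 1) = 1 + 1 / (t - 1) := by
    have : t - 1 ≠ 0 := by linarith
    field_simp
    ring
  rw [h3] at h1
  linarith

theorem ell_nonneg {t : ℝ} (ht : 1 < t) : 0 ≤ ell t :=
  (by positivity : (0:ℝ) ≤ 1 / t).trans (ell_lower ht)

theorem ell_anti {s t : ℝ} (hs : 1 < s) (hst : s ≤ t) : ell t ≤ ell s := by
  unfold ell
  have h0 : 0 < 1 - 1 / s := by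
    rw [sub_pos, div_lt_one (by linarith)]
    exact hs
  have h1 : 1 - 1 / s ≤ 1 - 1 / t := by
    have : 1 / t ≤ 1 / s := one_div_le_one_div_of_le (by linarith) hst
    linarith
  have := Real.log_le_log h0 h1
  linarith

theorem prime_gt {p : ℕ} (hp : p.Prime) : (1 : ℝ) < p := by exact_mod_cast hp.one_lt

theorem log_totient (n : ℕ) (hn : n ≠ 0) :
    Real.log n - Real.log (Nat.totient n) = ∑ p ∈ n.primeFactors, ell p := by
  have h1 : (Nat.totient n : ℝ) = n * ∏ p ∈ n.primeFactors, (1 - (p : ℝ)⁻¹) := by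
    have := Nat.totient_eq_mul_prod_factors n
    have h2 := congrArg (fun q : ℚ => (q : ℝ)) this
    push_cast at h2
    exact h2
  have hpos : ∀ p ∈ n.primeFactors, (1 - (p : ℝ)⁻¹) ≠ 0 := by
    intro p hp
    have h2 := prime_gt (Nat.prime_of_mem_primeFactors hp)
    have : (p : ℝ)⁻¹ < 1 := inv_lt_one_of_one_lt₀ h2
    linarith
  have hn0 : (n : ℝ) ≠ 0 := by exact_mod_cast hn
  rw [h1, Real.log_mul hn0 (Finset.prod_ne_zero_iff.2 hpos), Real.log_prod hpos]
  unfold ell
  rw [Finset.sum_neg_distrib]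
  simp only [one_div]
  ring

theorem log_gt_one {n : ℕ} (hn : 3 ≤ n) : 1 < Real.log n := by
  have h3 : (3 : ℝ) ≤ n := by exact_mod_cast hn
  rw [Real.lt_log_iff_exp_lt (by linarith)]
  have := Real.exp_one_lt_d9
  linarith

/-- logarithmic form -/
theorem nicEx_iff {n : ℕ} (hn : 3 ≤ n) : NicEx n ↔
    Real.eulerMascheroniConstant + Real.log (Real.log (Real.log n)) < ∑ p ∈ n.primeFactors, ell p := by
  have hn0 : (0 : ℝ) < n := by exact_mod_cast (by omega : 0 < n)
  have hφ : (0 : ℝ) < Nat.totient n := by exact_mod_cast Nat.totient_pos.2 (by omega)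
  have hl := log_gt_one hn
  have hll : 0 < Real.log (Real.log n) := Real.log_pos hl
  rw [← log_totient n (by omega)]
  unfold NicEx
  constructor
  · rintro ⟨-, h⟩
    have h1 := Real.log_lt_log (by positivity) h
    rw [Real.log_mul (by positivity) hll.ne', Real.log_mul (by positivity) hφ.ne', Real.log_exp] at h1
    linarith
  · intro h
    refine ⟨hn, ?_⟩
    have h1 : Real.log (Real.exp Real.eulerMascheroniConstant * (Nat.totient n : ℝ) *
        Real.log (Real.log n)) < Real.log n := by
      rw [Real.log_mul (by positivity) hll.ne', Real.log_mul (by positivity) hφ.ne', Real.log_exp]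
      linarith
    exact (Real.log_lt_log_iff (by positivity) hn0).1 h1

end Q239.RN
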