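import Pool.Agent.H442R2.EHI.PntErr
import Pool.Agent.TH888.R.VV
import Pool.Agent.W190.A17

set_option autoImplicit false

/-! # The error terms of the prime number theorem in the logarithmic scale -/

open Finset Filter Topology MeasureTheory

namespace Q239.RN

/-- relative error of `θ` -/
noncomputable def eT (v : ℝ) : ℝ := Chebyshev.theta (Real.exp v) * Real.exp (-v) - 1

/-- relative error of `ψ` -/
noncomputable def eP (v : ℝ) : ℝ := Chebyshev.psi (Real.exp v) * Real.exp (-v) - 1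

/-- the weight -/
noncomputable def om (v : ℝ) : ℝ := 1 / v + 1 / v ^ 2

/-- the tail integral for `θ` -/
noncomputable def kT (u : ℝ) : ℝ := -∫ v in Set.Ioi u, eT v * om v

/-- the tail integral for `ψ` -/
noncomputable def kP (u : ℝ) : ℝ := -∫ v in Set.Ioi u, eP v * om v

theorem eT_meas : Measurable eT := by
  unfold eT
  have h1 : Measurable fun v : ℝ => Chebyshev.theta (Real.exp v) :=
    (Chebyshev.theta_mono.comp Real.exp_monotone).measurable
  exact (h1.mul (by fun_prop)).sub_const 1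

theorem eP_meas : Measurable eP := by
  unfold eP
  have h1 : Measurable fun v : ℝ => Chebyshev.psi (Real.exp v) :=
    (Chebyshev.psi_mono.comp Real.exp_monotone).measurable
  exact (h1.mul (by fun_prop)).sub_const 1

theorem om_meas : Measurable om := by
  unfold om
  fun_prop

theorem om_pos {v : ℝ} (hv : 0 < v) : 0 < om v := by
  unfold om
  positivity

theorem om_le {v : ℝ} (hv : 1 ≤ v) : om v ≤ 2 / v := by
  unfold om
  have h0 : 0 < v := by linarith
  have : 1 / v ^ 2 ≤ 1 / v := by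
    apply one_div_le_one_div_of_le h0
    nlinarith
  have e : 2 / v = 1 / v + 1 / v := by ring
  linarith

theorem om_ge {v : ℝ} (hv : 0 < v) : 1 / v ≤ om v := by
  unfold om
  have : 0 < 1 / v ^ 2 := by positivity
  linarith

theorem diff_eq (v : ℝ) : eP v - eT v =
    (Chebyshev.psi (Real.exp v) - Chebyshev.theta (Real.exp v)) * Real.exp (-v) := by
  unfold eP eT
  ring

theorem diff_nonneg (v : ℝ) : 0 ≤ eP v - eT v := by
  rw [diff_eq]
  have := Chebyshev.theta_le_psi (Real.exp v)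
  have := Real.exp_pos (-v)
  exact mul_nonneg (by linarith) this.le

theorem diff_le : ∃ C : ℝ, 0 < C ∧ ∀ v : ℝ, eP v - eT v ≤ C * Real.exp (-(v / 2)) := by
  obtain ⟨C, hC⟩ := Chebyshev.psi_sub_theta_le_mul_sqrt
  refine ⟨|C| + 1, by positivity, fun v => ?_⟩
  rw [diff_eq]
  have h1 := hC (Real.exp v)
  have h2 : Real.sqrt (Real.exp v) = Real.exp (v / 2) := by
    rw [← Real.exp_half]
  rw [h2] at h1
  have h3 := Real.exp_pos (-v)
  have h4 : Real.exp (v / 2) * Real.exp (-v) = Real.exp (-(v / 2)) := by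
    rw [← Real.exp_add]; congr 1; ring
  calc (Chebyshev.psi (Real.exp v) - Chebyshev.theta (Real.exp v)) * Real.exp (-v)
      ≤ (C * Real.exp (v / 2)) * Real.exp (-v) := by gcongr
    _ = C * Real.exp (-(v / 2)) := by rw [mul_assoc, h4]
    _ ≤ _ := by
      have := le_abs_self C
      gcongr
      linarith

/-- lower bound for the prime powers -/
theorem diff_ge : ∃ c v0 : ℝ, 0 < c ∧ 1 ≤ v0 ∧ ∀ v : ℝ, v0 ≤ v → c * Real.exp (-(v / 2)) ≤ eP v - eT v := by
  refine ⟨1 / 4, 8, by norm_num, by norm_num, fun v hv => ?_⟩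
  rw [diff_eq]
  have h1 := Chebyshev.psi_sub_theta_ge_psi_add_psi_add_psi (Real.exp_pos v).le
  have h2 : Real.exp v ^ (2 : ℝ)⁻¹ = Real.exp (v / 2) := by
    rw [← Real.exp_mul]; congr 1
  rw [h2] at h1
  have h3 := Chebyshev.psi_nonneg (Real.exp v ^ (3 : ℝ)⁻¹)
  have h4 := Chebyshev.psi_nonneg (Real.exp v ^ (7 : ℝ)⁻¹)
  have h5 := Chebyshev.psi_ge' (Real.exp_pos (v / 2)).le
  set t := Real.exp (v / 2) with ht
  have hlog2 : 0.69 ≤ Real.log 2 := by
    have := Real.log_two_gt_d9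
    linarith
  have ht4 : 50 ≤ t := by
    have h6 : Real.exp 4 ≤ t := Real.exp_le_exp.2 (by linarith)
    have h7 : Real.exp 4 = Real.exp 1 * Real.exp 1 * (Real.exp 1 * Real.exp 1) := by
      rw [← Real.exp_add, ← Real.exp_add]; norm_num
    have h8 := Real.exp_one_gt_d9
    have h9 : 7.38 ≤ Real.exp 1 * Real.exp 1 := by nlinarith
    nlinarith
  have h10 : Real.log (t + 2) ≤ t / 4 := by
    have h11 : 0 < (t + 2) / 16 := by positivity
    have h12 := Real.log_le_sub_one_of_pos h11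
    have h13 : Real.log ((t + 2) / 16) = Real.log (t + 2) - 4 * Real.log 2 := by
      rw [Real.log_div (by positivity) (by norm_num)]
      have : (16 : ℝ) = 2 ^ 4 := by norm_num
      rw [this, Real.log_pow]
      norm_num
    have := Real.log_two_lt_d9
    linarith
  have h14 : 1 / 4 * t ≤ Chebyshev.psi t := by
    have h15 : (t - 1) * 0.69 ≤ (t - 1) * Real.log 2 := by gcongr; linarith
    linarith
  have h16 : Real.exp (-(v / 2)) = t * Real.exp (-v) := by
    rw [ht, ← Real.exp_add]; congr 1; ring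
  rw [h16, ← mul_assoc]
  have h17 := Real.exp_pos (-v)
  gcongr
  linarith

theorem pow_le_fact (U : ℕ) {v : ℝ} (hv : 0 ≤ v) : v ^ U ≤ (U.factorial : ℝ) * Real.exp v := by
  have h := Real.pow_div_factorial_le_exp v hv U
  rw [div_le_iff₀ (by positivity)] at h
  linarith

theorem exp_neg_le_pow (U : ℕ) {v : ℝ} (hv : 0 < v) : Real.exp (-v) ≤ (U.factorial : ℝ) / v ^ U := by
  rw [le_div_iff₀ (by positivity)]
  have h := pow_le_fact U hv.le
  have h2 : Real.exp v * Real.exp (-v) = 1 := by rw [← Real.exp_add]; simp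
  calc Real.exp (-v) * v ^ U ≤ Real.exp (-v) * ((U.factorial : ℝ) * Real.exp v) := by gcongr
    _ = U.factorial * (Real.exp v * Real.exp (-v)) := by ring
    _ = _ := by rw [h2, mul_one]

theorem eT_pnt (U : ℕ) : ∃ C : ℝ, 0 < C ∧ ∀ v : ℝ, 1 ≤ v → |eT v| ≤ C / v ^ U := by
  obtain ⟨C, hC, h⟩ := Pool.Agent.H442R2.EHI.PntErrAux.thetaU U
  refine ⟨C * (4:ℝ) ^ U + U.factorial, by positivity, fun v hv => ?_⟩
  have hv0 : 0 < v := by linarith
  set y := Real.exp v with hy
  have hy1 : 2.7 ≤ y := by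
    have h1 : Real.exp 1 ≤ y := Real.exp_le_exp.2 hv
    have := Real.exp_one_gt_d9
    linarith
  set N := ⌊y⌋₊ with hN
  have hN1 : (N : ℝ) ≤ y := Nat.floor_le (by linarith)
  have hN2 : y < N + 1 := Nat.lt_floor_add_one y
  have hN3 : 2 ≤ N := Nat.le_floor (by norm_num; linarith)
  have hN4 : (2 : ℝ) ≤ N := by exact_mod_cast hN3
  have hth : Chebyshev.theta y = Chebyshev.theta N := Chebyshev.theta_eq_theta_coe_floor y
  have h1 := h N hN3
  have hlogN : v / 4 ≤ Real.log N := by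
    have h2 : y / 2 ≤ N := by linarith
    have h3 : Real.log (y / 2) ≤ Real.log N := Real.log_le_log (by linarith) h2
    rw [Real.log_div (by linarith) (by norm_num), hy, Real.log_exp] at h3
    have := Real.log_two_lt_d9
    linarith
  have h2 : C * (N / Real.log N ^ U) ≤ C * (4:ℝ) ^ U / v ^ U * y := by
    have h3 : (v / 4) ^ U ≤ Real.log N ^ U := by gcongr
    calc C * (N / Real.log N ^ U) ≤ C * (y / (v / 4) ^ U) := by gcongr
      _ = _ := by rw [div_pow]; field_simp
  have h3 : |Chebyshev.theta y - y| ≤ C * (4:ℝ) ^ U / v ^ U * y + 1 := by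
    have e : Chebyshev.theta y - y = (Chebyshev.theta N - N) + ((N : ℝ) - y) := by rw [hth]; ring
    rw [e]
    refine (abs_add_le _ _).trans ?_
    have : |(N : ℝ) - y| ≤ 1 := abs_le.2 ⟨by linarith, by linarith⟩
    linarith
  have h4 : eT v = (Chebyshev.theta y - y) * Real.exp (-v) := by
    unfold eT
    have : y * Real.exp (-v) = 1 := by rw [hy, ← Real.exp_add]; simp
    linear_combination this
  rw [h4, abs_mul, abs_of_pos (Real.exp_pos _)]
  have h5 : y * Real.exp (-v) = 1 := by rw [hy, ← Real.exp_add]; simp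
  have h6 := exp_neg_le_pow U hv0
  calc |Chebyshev.theta y - y| * Real.exp (-v) ≤ (C * (4:ℝ) ^ U / v ^ U * y + 1) * Real.exp (-v) := by gcongr
    _ = C * (4:ℝ) ^ U / v ^ U * (y * Real.exp (-v)) + Real.exp (-v) := by ring
    _ ≤ C * (4:ℝ) ^ U / v ^ U * 1 + (U.factorial : ℝ) / v ^ U := by rw [h5]; gcongr
    _ = _ := by ring

theorem eP_pnt (U : ℕ) : ∃ C : ℝ, 0 < C ∧ ∀ v : ℝ, 1 ≤ v → |eP v| ≤ C / v ^ U := by
  obtain ⟨C, hC, h⟩ := eT_pnt U
  obtain ⟨C1, hC1, h1⟩ := diff_le
  refine ⟨C + C1 * (U.factorial * 2 ^ U), by positivity, fun v hv => ?_⟩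
  have hv0 : 0 < v := by linarith
  have e : eP v = eT v + (eP v - eT v) := by ring
  rw [e]
  refine (abs_add_le _ _).trans ?_
  rw [abs_of_nonneg (diff_nonneg v)]
  have h2 := exp_neg_le_pow U (v := v / 2) (by positivity)
  calc |eT v| + (eP v - eT v) ≤ C / v ^ U + C1 * ((U.factorial : ℝ) / (v / 2) ^ U) := by
        gcongr
        · exact h v hv
        · exact (h1 v).trans (by gcongr)
    _ = _ := by rw [div_pow]; field_simp

theorem eP_free {θ θ' : ℝ} (h0 : 1 / 2 ≤ θ) (hz : ∀ s : ℂ, θ < s.re → riemannZeta s ≠ 0)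
    (hθ' : θ < θ') (h1 : θ' ≤ 1) : ∃ C : ℝ, 0 < C ∧ ∀ v : ℝ, 0 ≤ v →
      |eP v| ≤ C * Real.exp ((θ' - 1) * v) := by
  obtain ⟨C, hC, h⟩ := Pool.Agent.W190.psi_of_free θ h0 hz θ' hθ' h1
  refine ⟨C, hC, fun v hv => ?_⟩
  have h2 := h (Real.exp v) (Real.one_le_exp hv)
  have h4 : eP v = (Chebyshev.psi (Real.exp v) - Real.exp v) * Real.exp (-v) := by
    unfold eP
    have : Real.exp v * Real.exp (-v) = 1 := by rw [← Real.exp_add]; simp
    linear_combination this
  rw [h4, abs_mul, abs_of_pos (Real.exp_pos _)]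
  calc |Chebyshev.psi (Real.exp v) - Real.exp v| * Real.exp (-v) ≤
        (C * Real.exp v ^ θ') * Real.exp (-v) := by gcongr
    _ = _ := by
      rw [← Real.exp_mul, mul_assoc, ← Real.exp_add]
      congr 2
      ring

theorem eT_free {θ θ' : ℝ} (h0 : 1 / 2 ≤ θ) (hz : ∀ s : ℂ, θ < s.re → riemannZeta s ≠ 0)
    (hθ' : θ < θ') (h1 : θ' ≤ 1) : ∃ C : ℝ, 0 < C ∧ ∀ v : ℝ, 0 ≤ v →
      |eT v| ≤ C * Real.exp ((θ' - 1) * v) := by
  obtain ⟨C, hC, h⟩ := eP_free h0 hz hθ' h1
  obtain ⟨C1, hC1, h2⟩ := diff_le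
  refine ⟨C + C1, by positivity, fun v hv => ?_⟩
  have e : eT v = eP v - (eP v - eT v) := by ring
  rw [e]
  refine (abs_sub _ _).trans ?_
  rw [abs_of_nonneg (diff_nonneg v)]
  have h3 : Real.exp (-(v / 2)) ≤ Real.exp ((θ' - 1) * v) := Real.exp_le_exp.2 (by nlinarith)
  calc |eP v| + (eP v - eT v) ≤ C * Real.exp ((θ' - 1) * v) + C1 * Real.exp ((θ' - 1) * v) := by
        gcongr
        · exact h v hv
        · exact (h2 v).trans (by gcongr)
    _ = _ := by ring

end Q239.RN
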