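import Pool.Agent.Q239.RN.LB2

set_option autoImplicit false

/-! # Lower bounds for the counting function from the tail integral, conclusion -/

open Finset Filter Topology

namespace Q239.RN

theorem two_pow_floor {κ ε : ℝ} (hε : 0 < ε) (hκ : 0 < κ - ε) :
    ∀ᶠ u : ℝ in atTop, Real.exp (Real.exp ((κ - ε) * u)) ≤ (2 : ℝ) ^ ⌊Real.exp ((κ - ε / 2) * u)⌋₊ := by
  filter_upwards [exp_dom' (show κ - ε < κ - ε / 2 by linarith) 4, exp_dom' (show 0 < κ - ε by linarith) 1,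
    eventually_ge_atTop 0] with u h1 h2 h3
  rw [zero_mul, Real.exp_zero] at h2
  have h4 : Real.exp ((κ - ε / 2) * u) < ⌊Real.exp ((κ - ε / 2) * u)⌋₊ + 1 := Nat.lt_floor_add_one _
  have h5 : (2 : ℝ) ^ ⌊Real.exp ((κ - ε / 2) * u)⌋₊ = Real.exp (⌊Real.exp ((κ - ε / 2) * u)⌋₊ * Real.log 2) := by
    rw [Real.exp_nat_mul, Real.exp_log (by norm_num)]
  rw [h5]
  refine Real.exp_le_exp.2 ?_
  have h6 := Real.log_two_gt_d9
  nlinarith

/-- the error terms at one point -/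
theorem errs {b : ℝ} (hb : b < 1) : ∀ᶠ u : ℝ in atTop, 2 * Real.exp (-u) ≤ 1 / 10 * Real.exp (-b * u) ∧
    10 * (⌊Real.exp ((1 - b / 2) * u) / 8⌋₊ : ℝ) ^ 2 / (⌊Real.exp u⌋₊ : ℝ) ^ 2 ≤
      1 / 5 * Real.exp (-b * u) := by
  filter_upwards [eventually_ge_atTop 5, exp_dom' (show -1 < -b by linarith) 20] with u h1 h2
  obtain ⟨f1, f2, f3, f4⟩ := floor_facts h1
  set j := ⌊Real.exp u⌋₊ with hj
  have hu := Real.exp_pos u
  have e1 : (-1 : ℝ) * u = -u := by ring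
  rw [e1] at h2
  refine ⟨by linarith, ?_⟩
  have hh1 : (⌊Real.exp ((1 - b / 2) * u) / 8⌋₊ : ℝ) ≤ Real.exp ((1 - b / 2) * u) / 8 :=
    Nat.floor_le (by positivity)
  have hj0 : (0 : ℝ) < j := by linarith
  rw [div_le_iff₀ (by positivity)]
  have e2 : Real.exp ((1 - b / 2) * u) * Real.exp ((1 - b / 2) * u) =
      Real.exp (-b * u) * (Real.exp u * Real.exp u) := by
    rw [← Real.exp_add, ← Real.exp_add, ← Real.exp_add]; congr 1; ring
  have hb0 := Real.exp_pos (-b * u)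
  calc 10 * (⌊Real.exp ((1 - b / 2) * u) / 8⌋₊ : ℝ) ^ 2 ≤ 10 * (Real.exp ((1 - b / 2) * u) / 8) ^ 2 := by
        gcongr
    _ = 10 / 64 * (Real.exp ((1 - b / 2) * u) * Real.exp ((1 - b / 2) * u)) := by ring
    _ = 10 / 64 * (Real.exp (-b * u) * (Real.exp u * Real.exp u)) := by rw [e2]
    _ ≤ 1 / 5 * (Real.exp (-b * u) * ((0.99 * Real.exp u) * (0.99 * Real.exp u))) := by
        have : 0 ≤ Real.exp (-b * u) * (Real.exp u * Real.exp u) := by positivity
        nlinarith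
    _ ≤ 1 / 5 * (Real.exp (-b * u) * ((j : ℝ) * j)) := by gcongr
    _ = _ := by ring

theorem errs_rob {b : ℝ} (hb : b < 1 / 2) : ∀ᶠ u : ℝ in atTop,
    14 / Real.sqrt (⌊Real.exp u⌋₊ : ℝ) ≤ 1 / 5 * Real.exp (-b * u) ∧
      10000 ≤ ⌊Real.exp u⌋₊ ∧ 20 * Real.log ⌊Real.exp u⌋₊ ≤ Real.sqrt ⌊Real.exp u⌋₊ := by
  filter_upwards [eventually_ge_atTop 5, exp_dom' (show -(1 / 2) < -b by linarith) 140,
    exp_dom (show (0 : ℝ) < 1 / 2 by norm_num) 40,
    Real.tendsto_exp_atTop.eventually_ge_atTop 20000] with u h1 h2 h3 h4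
  obtain ⟨f1, f2, f3, f4⟩ := floor_facts h1
  set j := ⌊Real.exp u⌋₊ with hj
  have hu := Real.exp_pos u
  have hj0 : (0 : ℝ) < j := by linarith
  have hs : Real.exp (1 / 2 * u) / 2 ≤ Real.sqrt j := by
    refine Real.le_sqrt_of_sq_le ?_
    have e : (Real.exp (1 / 2 * u) / 2) ^ 2 = Real.exp u / 4 := by
      rw [div_pow, sq, ← Real.exp_add]
      norm_num
      congr 1
      ring
    rw [e]
    linarith
  have he := Real.exp_pos (1 / 2 * u)
  refine ⟨?_, ?_, ?_⟩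
  · have e1 : Real.exp (-(1 / 2) * u) = 1 / Real.exp (1 / 2 * u) := by
      rw [eq_div_iff he.ne', ← Real.exp_add]
      have : -(1 / 2) * u + 1 / 2 * u = 0 := by ring
      rw [this, Real.exp_zero]
    calc 14 / Real.sqrt j ≤ 14 / (Real.exp (1 / 2 * u) / 2) := by gcongr
      _ = 1 / 5 * (140 * Real.exp (-(1 / 2) * u)) := by rw [e1]; field_simp; norm_num
      _ ≤ _ := by gcongr
  · have : (10000 : ℝ) ≤ j := by linarith
    exact_mod_cast this
  · rw [zero_mul, Real.exp_zero, mul_one] at h3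
    linarith

/-- the lower bound for Nicolas -/
theorem lower_nic {b C θ' ε : ℝ} (hb0 : 0 < b) (hb1 : b < 1) (hC : 0 < C) (h0 : 0 ≤ θ')
    (hθ : θ' < 1 - b / 2) (hε : 0 < ε) (hε1 : ε < 1 - b / 2)
    (hb : ∀ v : ℝ, 0 ≤ v → |eT v| ≤ C * Real.exp ((θ' - 1) * v)) :
    ∀ᶠ u : ℝ in atTop, Real.exp (-b * u) < kT u →
      Real.exp (Real.exp ((1 - b / 2 - ε) * u)) ≤ cnt NicEx (Real.exp (2 * Real.exp u)) := by
  filter_upwards [eventually_ge_atTop 5, good_eventually, errs hb1,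
    counts hC h0 hθ (by linarith) (show 0 < ε / 2 by linarith) hb,
    two_pow_floor hε (κ := 1 - b / 2) (by linarith)] with u h1 h2 h3 h4 h5 hk
  obtain ⟨f1, f2, f3, f4⟩ := floor_facts h1
  obtain ⟨e1, e2⟩ := h3
  obtain ⟨c1, c2, c3⟩ := h4
  have hF := point_F h1 h2
  have hp := Real.exp_pos (-b * u)
  have key := swap_nic h2 c1 (by linarith) c2 c3
  refine h5.trans ?_
  have h6 : ((2 ^ ⌊Real.exp ((1 - b / 2 - ε / 2) * u)⌋₊ : ℕ) : ℝ) ≤
      (cnt NicEx (Real.exp (2 * Real.exp u)) : ℝ) := by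
    refine Nat.cast_le.2 (key.trans (cnt_mono_x _ ?_))
    exact Real.exp_le_exp.2 (by linarith)
  push_cast at h6
  exact h6

/-- the lower bound for Robin -/
theorem lower_rob {b C θ' ε : ℝ} (hb0 : 0 < b) (hb1 : b < 1 / 2) (hC : 0 < C) (h0 : 0 ≤ θ')
    (hθ : θ' < 1 - b / 2) (hε : 0 < ε) (hε1 : ε < 1 - b / 2)
    (hb : ∀ v : ℝ, 0 ≤ v → |eT v| ≤ C * Real.exp ((θ' - 1) * v)) :
    ∀ᶠ u : ℝ in atTop, Real.exp (-b * u) < kT u →
      Real.exp (Real.exp ((1 - b / 2 - ε) * u)) ≤ cnt RobEx (Real.exp (2 * Real.exp u)) := by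
  filter_upwards [eventually_ge_atTop 5, good_eventually, errs (b := b) (by linarith), errs_rob hb1,
    counts hC h0 hθ (by linarith) (show 0 < ε / 2 by linarith) hb,
    two_pow_floor hε (κ := 1 - b / 2) (by linarith)] with u h1 h2 h3 h3' h4 h5 hk
  obtain ⟨f1, f2, f3, f4⟩ := floor_facts h1
  obtain ⟨e1, e2⟩ := h3
  obtain ⟨e3, e4, e5⟩ := h3'
  obtain ⟨c1, c2, c3⟩ := h4
  have hF := point_F h1 h2
  have hp := Real.exp_pos (-b * u)
  have key := swap_rob h2 e4 e5 c1 (by linarith) c2 c3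
  refine h5.trans ?_
  have h6 : ((2 ^ ⌊Real.exp ((1 - b / 2 - ε / 2) * u)⌋₊ : ℕ) : ℝ) ≤
      (cnt RobEx (Real.exp (2 * Real.exp u)) : ℝ) := by
    refine Nat.cast_le.2 (key.trans (cnt_mono_x _ ?_))
    exact Real.exp_le_exp.2 (by linarith)
  push_cast at h6
  exact h6

/-- primes in the last quarter -/
theorem quarter {κ : ℝ} (hκ : κ < 1) : ∀ᶠ u : ℝ in atTop, ⌊Real.exp (κ * u) / 8⌋₊ ≤
    (PS ⌊Real.exp u⌋₊ \ PS (⌊Real.exp u⌋₊ - ⌊Real.exp u⌋₊ / 4)).card := by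
  obtain ⟨C, hC, h⟩ := eT_pnt 1
  filter_upwards [eventually_ge_atTop 10, eventually_ge_atTop (400 * C),
    exp_dom hκ 4] with u h1 h2 h3
  obtain ⟨f1, f2, f3, f4⟩ := floor_facts (show 5 ≤ u by linarith)
  set j := ⌊Real.exp u⌋₊ with hj
  have hj' : (100 : ℝ) ≤ j := by exact_mod_cast f3
  set h4 := j / 4 with hh4
  have hhj : h4 ≤ j := Nat.div_le_self j 4
  have hup : (h4 : ℝ) ≤ j / 4 := by
    have : 4 * h4 ≤ j := by omega
    have : 4 * (h4 : ℝ) ≤ j := by exact_mod_cast this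
    linarith
  have hlow : (j : ℝ) / 4 - 1 ≤ h4 := by
    have : j ≤ 4 * h4 + 4 := by omega
    have : (j : ℝ) ≤ 4 * h4 + 4 := by exact_mod_cast this
    linarith
  have hth : ∀ n : ℕ, (j : ℝ) / 2 ≤ n → (n : ℝ) ≤ j → |Chebyshev.theta (n : ℝ) - n| ≤ 1 / 100 * j := by
    intro n hn1 hn2
    have hn0 : (50 : ℝ) ≤ n := by linarith
    have hn1' : 1 ≤ n := by
      have : (1 : ℝ) ≤ n := by linarith
      exact_mod_cast this
    have hl : u / 2 ≤ Real.log n := by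
      have h5 : Real.exp (u / 2) ≤ n := by
        have h6 : Real.exp (u / 2) * Real.exp (u / 2) = Real.exp u := by
          rw [← Real.exp_add]; congr 1; ring
        have h7 : 5 ≤ Real.exp (u / 2) := by
          have := Real.add_one_le_exp (u / 2)
          linarith
        nlinarith
      exact (Real.le_log_iff_exp_le (by linarith)).2 h5
    rw [theta_eq_eT hn1', abs_mul, abs_of_pos (by linarith)]
    have h5 := h (Real.log n) (by linarith)
    rw [pow_one] at h5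
    have h6 : C / Real.log n ≤ 1 / 100 := by
      rw [div_le_div_iff₀ (by linarith) (by norm_num)]
      linarith
    have h7 := h5.trans h6
    calc (n : ℝ) * |eT (Real.log n)| ≤ j * (1 / 100) := by gcongr
      _ = _ := by ring
  have t1 := (abs_le.1 (hth j (by linarith) le_rfl)).1
  have t2 := (abs_le.1 (hth (j - h4) (by rw [Nat.cast_sub hhj]; linarith)
    (by rw [Nat.cast_sub hhj]; linarith [(Nat.cast_nonneg h4 : (0:ℝ) ≤ h4)]))).2
  have hcard := card_theta (a := j - h4) (b := j) (Nat.sub_le _ _)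
  rw [Nat.cast_sub hhj] at t2 hcard
  have t3 : (j : ℝ) / 5 ≤ (PS j \ PS (j - h4)).card * u := by
    have : ((PS j \ PS (j - h4)).card : ℝ) * Real.log j ≤ (PS j \ PS (j - h4)).card * u := by gcongr
    linarith
  have hm : (⌊Real.exp (κ * u) / 8⌋₊ : ℝ) ≤ Real.exp (κ * u) / 8 := Nat.floor_le (by positivity)
  have hp := Real.exp_pos (κ * u)
  have t6 : (⌊Real.exp (κ * u) / 8⌋₊ : ℝ) * u ≤ (PS j \ PS (j - h4)).card * u := by
    have : (⌊Real.exp (κ * u) / 8⌋₊ : ℝ) * u ≤ Real.exp (κ * u) / 8 * u := by gcongr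
    rw [one_mul] at h3
    nlinarith
  have t7 := le_of_mul_le_mul_right t6 (by linarith)
  exact_mod_cast t7

/-- the lower bound by removing primes -/
theorem lower_rem {b ε : ℝ} (hb0 : 0 < b) (hb1 : b < 1 / 2) (hε : 0 < ε) (hε1 : ε < 1 - b) :
    ∀ᶠ u : ℝ in atTop, Real.exp (-b * u) < kT u →
      Real.exp (Real.exp ((1 - b - ε) * u)) ≤ cnt RobEx (Real.exp (2 * Real.exp u)) := by
  filter_upwards [eventually_ge_atTop 5, good_eventually, errs (b := b) (by linarith), errs_rob hb1,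
    quarter (κ := 1 - b) (by linarith), two_pow_floor hε (κ := 1 - b) (by linarith),
    exp_dom' (show 1 - b - ε / 2 < 1 - b by linarith) 8,
    exp_dom' (show (0 : ℝ) < 1 - b - ε / 2 by linarith) 1] with u h1 h2 h3 h3' h4 h5 h7 h8 hk
  obtain ⟨f1, f2, f3, f4⟩ := floor_facts h1
  obtain ⟨e1, e2⟩ := h3
  obtain ⟨e3, e4, e5⟩ := h3'
  have hF := point_F h1 h2
  have hp := Real.exp_pos (-b * u)
  set j := ⌊Real.exp u⌋₊ with hj
  have hj' : (100 : ℝ) ≤ j := by exact_mod_cast f3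
  set k := ⌊Real.exp ((1 - b) * u) / 8⌋₊ with hkd
  have hk1 : (k : ℝ) ≤ Real.exp ((1 - b) * u) / 8 := Nat.floor_le (by positivity)
  have hk2 : 2 * (k : ℝ) / j ≤ 1 / 3 * Real.exp (-b * u) := by
    rw [div_le_iff₀ (by linarith)]
    have e6 : Real.exp ((1 - b) * u) = Real.exp (-b * u) * Real.exp u := by
      rw [← Real.exp_add]; congr 1; ring
    rw [e6] at hk1
    have := Real.exp_pos u
    nlinarith
  have key := remove_rob (k := k) h2 e4 e5 (by linarith) h4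
  refine h5.trans ?_
  have hkk : ⌊Real.exp ((1 - b - ε / 2) * u)⌋₊ ≤ k := Nat.floor_le_floor (by linarith)
  have h6 : ((2 ^ ⌊Real.exp ((1 - b - ε / 2) * u)⌋₊ : ℕ) : ℝ) ≤
      (cnt RobEx (Real.exp (2 * Real.exp u)) : ℝ) := by
    refine Nat.cast_le.2 ((Nat.pow_le_pow_right (by norm_num) hkk).trans (key.trans (cnt_mono_x _ ?_)))
    exact Real.exp_le_exp.2 (by linarith)
  push_cast at h6
  exact h6

end Q239.RN
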