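import Pool.Agent.Q239.RN.Mert2

set_option autoImplicit false

/-! # Upper bounds for the counting function -/

open Finset Filter Topology MeasureTheory

namespace Q239.RN

theorem rpow_eventually {κ1 κ C : ℝ} (h : κ1 < κ) : ∀ᶠ X : ℝ in atTop, C * X ^ κ1 ≤ X ^ κ := by
  have h1 : Tendsto (fun X : ℝ => X ^ (κ - κ1)) atTop atTop := tendsto_rpow_atTop (by linarith)
  filter_upwards [h1.eventually_ge_atTop C, eventually_gt_atTop 0] with X h2 h3
  calc C * X ^ κ1 ≤ X ^ (κ - κ1) * X ^ κ1 := by gcongr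
    _ = X ^ κ := by rw [← Real.rpow_add h3]; congr 1; ring

/-- combining the pieces -/
theorem combine {X B K : ℝ} {J : ℕ} (hX : 0 ≤ X) (h1 : B ≤ K / 3) (h2 : Real.log (X + 2) ≤ K / 3)
    (h3 : (J : ℝ) ≤ K / 3) (h4 : 3 ≤ K) :
    Real.exp J + (X + 2) * Real.exp B ≤ Real.exp K := by
  have e1 : Real.exp 1 * Real.exp (K - 1) = Real.exp K := by rw [← Real.exp_add]; congr 1; ring
  have hex := Real.exp_one_gt_d9
  have hp := Real.exp_pos (K - 1)
  have a1 : Real.exp J ≤ Real.exp (K - 1) := Real.exp_le_exp.2 (by linarith)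
  have a2 : (X + 2) * Real.exp B ≤ Real.exp (K - 1) := by
    have : X + 2 = Real.exp (Real.log (X + 2)) := (Real.exp_log (by linarith)).symm
    rw [this, ← Real.exp_add]
    exact Real.exp_le_exp.2 (by linarith)
  nlinarith

theorem upper_free {θ : ℝ} (h0 : 1 / 2 ≤ θ) (hθ1 : θ < 1) (hz : ∀ s : ℂ, θ < s.re → riemannZeta s ≠ 0)
    {ε : ℝ} (hε : 0 < ε) :
    ∀ᶠ x : ℝ in atTop, (cnt NicEx x : ℝ) ≤ Real.exp (Real.log x ^ ((1 + θ) / 2 + ε)) := by
  set θ' := min (θ + ε) ((θ + 1) / 2) with hθ'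
  have a1 : θ < θ' := lt_min (by linarith) (by linarith)
  have a2 : θ' < 1 := (min_le_right _ _).trans_lt (by linarith)
  have a3 : θ' ≤ θ + ε := min_le_left _ _
  obtain ⟨C, hC, hb⟩ := eT_free h0 hz a1 a2.le
  set a := 1 - θ' with ha
  have ha0 : 0 < a := by linarith
  have ha1 : a ≤ 1 := by linarith
  have hb' : ∀ v : ℝ, 1 ≤ v → |eT v| ≤ C * Real.exp (-a * v) := fun v hv => by
    have := hb v (by linarith)
    rwa [show (θ' - 1) = -a by rw [ha]; ring] at this
  set C' := 1 + C + 2 * C / a with hC'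
  have hC'1 : 1 ≤ C' := by
    have : 0 ≤ 2 * C / a := by positivity
    linarith
  have hC'0 : 0 < C' := by linarith
  set D : ℕ → ℝ := fun j => C' * (j : ℝ) ^ (-a) with hD
  have hexp : ∀ j : ℕ, 1 ≤ j → Real.exp (-a * Real.log j) = (j : ℝ) ^ (-a) := by
    intro j hj
    have hNp : (0 : ℝ) < j := by exact_mod_cast hj
    rw [Real.rpow_def_of_pos hNp]
    congr 1
    ring
  have herr : ErrHyp D 100 := by
    refine errHyp_of le_rfl fun j hj => ?_
    have hj1 : 1 ≤ j := by omega
    have hjp : (1 : ℝ) ≤ j := by exact_mod_cast hj1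
    have hlj : 1 < Real.log j := log_gt_one (by omega)
    have hl0 : 0 < Real.log j := by linarith
    constructor
    · rw [hD]
      simp only
      have h1 : (j : ℝ) ^ (-1 : ℝ) ≤ (j : ℝ) ^ (-a) := Real.rpow_le_rpow_of_exponent_le hjp (by linarith)
      rw [Real.rpow_neg_one] at h1
      have h2 : 0 < (j : ℝ) ^ (-a) := by positivity
      rw [one_div]
      nlinarith
    · have h1 := hb' (Real.log j) hlj.le
      have h2 := kbound_exp ha0 hC.le hb' hlj.le
      rw [hexp j hj1] at h1 h2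
      have h3 : |kT (Real.log j)| ≤ 2 * C / a * (j : ℝ) ^ (-a) := by
        unfold kT
        rw [abs_neg]
        exact h2.trans (div_le_self (by positivity) hlj.le)
      have h4 : |eT (Real.log j)| / Real.log j ≤ C * (j : ℝ) ^ (-a) :=
        (div_le_self (abs_nonneg _) hlj.le).trans h1
      rw [hD]
      simp only
      have h5 : 0 < (j : ℝ) ^ (-a) := by positivity
      have e : C' * (j : ℝ) ^ (-a) = (j : ℝ) ^ (-a) + C * (j : ℝ) ^ (-a) + 2 * C / a * (j : ℝ) ^ (-a) := by
        rw [hC']; ring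
      rw [e]
      linarith
  -- exponents
  set δ := ε / 2 with hδ
  have hδ0 : 0 < δ := by rw [hδ]; linarith
  set κ1 := (1 + θ') / 2 + δ / 2 with hκ1
  set κ := (1 + θ) / 2 + ε with hκ
  have hκκ : κ1 < κ := by rw [hκ1, hκ, hδ]; linarith
  have hκ10 : 0 < κ1 := by rw [hκ1]; linarith
  have hκ0 : 0 < κ := by linarith
  set C3 := 30 * Real.sqrt (C' / δ) with hC3
  have hC30 : 0 ≤ C3 := by positivity
  have hB : ∀ (Y : ℝ) (j : ℕ), 100 < j → (j : ℝ) < Y →
      30 * (j * Real.sqrt (D j * Real.log j)) ≤ C3 * Y ^ κ1 := by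
    intro Y j hj hjY
    have hj1 : 1 ≤ j := by omega
    have hjp : (1 : ℝ) ≤ j := by exact_mod_cast hj1
    have hjp0 : (0 : ℝ) < j := by linarith
    have hl : Real.log j ≤ (j : ℝ) ^ δ / δ := Real.log_le_rpow_div hjp0.le hδ0
    have h1 : D j * Real.log j ≤ C' / δ * (j : ℝ) ^ (δ - a) := by
      rw [hD]
      simp only
      have e : (j : ℝ) ^ (δ - a) = (j : ℝ) ^ δ * (j : ℝ) ^ (-a) := by
        rw [← Real.rpow_add hjp0]; congr 1
      rw [e]
      calc C' * (j : ℝ) ^ (-a) * Real.log j ≤ C' * (j : ℝ) ^ (-a) * ((j : ℝ) ^ δ / δ) := by gcongr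
        _ = _ := by ring
    have h2 : Real.sqrt (D j * Real.log j) ≤ Real.sqrt (C' / δ) * (j : ℝ) ^ ((δ - a) / 2) := by
      refine (Real.sqrt_le_sqrt h1).trans (le_of_eq ?_)
      rw [Real.sqrt_mul (by positivity), Real.sqrt_eq_rpow ((j : ℝ) ^ (δ - a)), ← Real.rpow_mul hjp0.le]
      congr 2
      ring
    have h3 : (j : ℝ) * (j : ℝ) ^ ((δ - a) / 2) = (j : ℝ) ^ κ1 := by
      have : (j : ℝ) * (j : ℝ) ^ ((δ - a) / 2) = (j : ℝ) ^ (1 : ℝ) * (j : ℝ) ^ ((δ - a) / 2) := by
        rw [Real.rpow_one]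
      rw [this, ← Real.rpow_add hjp0]
      congr 1
      rw [hκ1, ha]
      ring
    calc 30 * (j * Real.sqrt (D j * Real.log j)) ≤
          30 * (j * (Real.sqrt (C' / δ) * (j : ℝ) ^ ((δ - a) / 2))) := by gcongr
      _ = C3 * ((j : ℝ) * (j : ℝ) ^ ((δ - a) / 2)) := by rw [hC3]; ring
      _ = C3 * (j : ℝ) ^ κ1 := by rw [h3]
      _ ≤ _ := by gcongr
  have e1 := rpow_eventually (κ1 := κ1) (κ := κ) (C := 3 * (C3 * 2 ^ κ1)) hκκ
  have e2 := rpow_eventually (κ1 := κ / 2) (κ := κ) (C := 3 * (4 / κ * 1) * 3) (by linarith)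
  have e3 : ∀ᶠ X : ℝ in atTop, (300 : ℝ) ≤ X ^ κ := (tendsto_rpow_atTop hκ0).eventually_ge_atTop _
  filter_upwards [Real.tendsto_log_atTop.eventually e1, Real.tendsto_log_atTop.eventually e2,
    Real.tendsto_log_atTop.eventually e3, Real.tendsto_log_atTop.eventually (eventually_ge_atTop 2),
    eventually_ge_atTop 1] with x h1 h2 h3 h4 h5
  set X := Real.log x with hX
  have hX0 : 0 < X := by linarith
  have hfin := cnt_le_of_err (B := C3 * (X + 1) ^ κ1) le_rfl herr h5 (fun j hj1 hj2 => hB (X + 1) j hj1 hj2)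
  refine hfin.trans (combine hX0.le ?_ ?_ ?_ ?_)
  · have h6 : (X + 1) ^ κ1 ≤ (2 * X) ^ κ1 := by gcongr; linarith
    rw [Real.mul_rpow (by norm_num) hX0.le] at h6
    have h7 : C3 * (X + 1) ^ κ1 ≤ C3 * (2 ^ κ1 * X ^ κ1) := by gcongr
    linarith
  · have h6 : Real.log (X + 2) ≤ Real.log (X * X) := Real.log_le_log (by linarith) (by nlinarith)
    rw [Real.log_mul hX0.ne' hX0.ne'] at h6
    have h7 : Real.log X ≤ X ^ (κ / 2) / (κ / 2) := Real.log_le_rpow_div hX0.le (by linarith)
    have h8 : X ^ (κ / 2) / (κ / 2) = 2 / κ * X ^ (κ / 2) := by field_simp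
    rw [h8] at h7
    have h9 : 0 < X ^ (κ / 2) := by positivity
    have h10 : 0 < 2 / κ * X ^ (κ / 2) := by positivity
    have h11 : 3 * (4 / κ * 1) * 3 * X ^ (κ / 2) = 18 * (2 / κ * X ^ (κ / 2)) := by ring
    rw [h11] at h2
    linarith
  · push_cast
    linarith
  · linarith

/-- unconditional upper bound -/
theorem upper_all (U : ℕ) :
    ∀ᶠ x : ℝ in atTop, (cnt NicEx x : ℝ) ≤ Real.exp (Real.log x / Real.log (Real.log x) ^ U) := by
  set V := 2 * (U + 1) + 1 with hV
  obtain ⟨C1, hC1, h1⟩ := eT_pnt V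
  obtain ⟨C2, hC2, h2⟩ := kT_pow V (by omega)
  set C' : ℝ := C1 + C2 + V.factorial with hC'
  have hfac : (1 : ℝ) ≤ V.factorial := by exact_mod_cast Nat.one_le_iff_ne_zero.2 (Nat.factorial_ne_zero V)
  have hC'0 : 0 < C' := by positivity
  set D : ℕ → ℝ := fun j => C' / Real.log j ^ V with hD
  have herr : ErrHyp D 100 := by
    refine errHyp_of le_rfl fun j hj => ?_
    have hj1 : 1 ≤ j := by omega
    have hjp : (1 : ℝ) ≤ j := by exact_mod_cast hj1
    have hlj : 1 < Real.log j := log_gt_one (by omega)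
    have hl0 : 0 < Real.log j := by linarith
    have hV0 : 0 < Real.log j ^ V := by positivity
    constructor
    · rw [hD]
      simp only
      have h3 := exp_neg_le_pow V hl0
      rw [Real.exp_neg, Real.exp_log (by linarith), ← one_div] at h3
      refine h3.trans ?_
      gcongr
      rw [hC']
      linarith
    · have h3 := h1 _ hlj.le
      have h4 := h2 _ hlj.le
      have h5 : |eT (Real.log j)| / Real.log j ≤ C1 / Real.log j ^ V :=
        (div_le_self (abs_nonneg _) hlj.le).trans h3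
      rw [hD]
      simp only
      have e : C' / Real.log j ^ V = C1 / Real.log j ^ V + C2 / Real.log j ^ V +
          V.factorial / Real.log j ^ V := by rw [hC']; ring
      have h6 : (0 : ℝ) ≤ V.factorial / Real.log j ^ V := by positivity
      rw [e]
      linarith
  set C3 := 30 * Real.sqrt C' with hC3
  have hC30 : 0 ≤ C3 := by positivity
  have hB : ∀ (X : ℝ) (j : ℕ), Real.exp 4 ≤ X → 100 < j → (j : ℝ) < X + 1 →
      30 * (j * Real.sqrt (D j * Real.log j)) ≤
        C3 * Real.sqrt X + C3 * ((2 * X) * (2 ^ (U + 1) / Real.log X ^ (U + 1))) := by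
    intro X j hX4 hj hjY
    have hX1 : 1 < X := lt_of_lt_of_le (by rw [Real.one_lt_exp_iff]; norm_num) hX4
    have hX0 : 0 < X := by linarith
    have hLX : 4 ≤ Real.log X := (Real.le_log_iff_exp_le hX0).2 hX4
    have hj1 : 1 ≤ j := by omega
    have hjp : (1 : ℝ) ≤ j := by exact_mod_cast hj1
    have hlj : 1 < Real.log j := log_gt_one (by omega)
    have hl0 : 0 < Real.log j := by linarith
    have e1 : Real.sqrt (D j * Real.log j) = Real.sqrt C' / Real.log j ^ (U + 1) := by
      have : D j * Real.log j = C' / (Real.log j ^ (U + 1)) ^ 2 := by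
        rw [hD]
        simp only
        rw [hV, ← pow_mul, pow_succ]
        field_simp
        ring
      rw [this, Real.sqrt_div hC'0.le, Real.sqrt_sq (by positivity)]
    rw [e1]
    have hterm2 : 0 ≤ C3 * ((2 * X) * (2 ^ (U + 1) / Real.log X ^ (U + 1))) := by positivity
    by_cases hc : (j : ℝ) ≤ Real.sqrt X
    · have h3 : Real.sqrt C' / Real.log j ^ (U + 1) ≤ Real.sqrt C' :=
        div_le_self (Real.sqrt_nonneg _) (one_le_pow₀ hlj.le)
      have h4 : 30 * (j * (Real.sqrt C' / Real.log j ^ (U + 1))) ≤ 30 * (Real.sqrt X * Real.sqrt C') := by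
        gcongr
      have h5 : 30 * (Real.sqrt X * Real.sqrt C') = C3 * Real.sqrt X := by rw [hC3]; ring
      linarith
    · rw [not_le] at hc
      have h3 : Real.log X / 2 ≤ Real.log j := by
        have h4 := Real.log_le_log (Real.sqrt_pos.2 hX0) hc.le
        rwa [Real.log_sqrt hX0.le] at h4
      have h4 : Real.sqrt C' / Real.log j ^ (U + 1) ≤ Real.sqrt C' / (Real.log X / 2) ^ (U + 1) := by
        gcongr
      have h5 : (j : ℝ) ≤ 2 * X := by linarith
      have h6 : 30 * (j * (Real.sqrt C' / Real.log j ^ (U + 1))) ≤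
          30 * ((2 * X) * (Real.sqrt C' / (Real.log X / 2) ^ (U + 1))) := by gcongr
      have h7 : 30 * ((2 * X) * (Real.sqrt C' / (Real.log X / 2) ^ (U + 1))) =
          C3 * ((2 * X) * (2 ^ (U + 1) / Real.log X ^ (U + 1))) := by
        rw [hC3, div_pow]; field_simp
      have h8 : 0 ≤ C3 * Real.sqrt X := by positivity
      linarith
  -- asymptotics
  have t1 : Tendsto (fun X : ℝ => Real.log X) atTop atTop := Real.tendsto_log_atTop
  have lit : ∀ K : ℝ, ∀ᶠ X : ℝ in atTop, K * (Real.sqrt X) * Real.log X ^ U ≤ X := by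
    intro K
    have h3 : (fun X : ℝ => Real.log X ^ U) =o[atTop] fun X : ℝ => X ^ (1 / 4 : ℝ) := by
      have := isLittleO_log_rpow_rpow_atTop (U : ℝ) (show (0 : ℝ) < 1 / 4 by norm_num)
      simpa using this
    have h4 := h3.bound (show (0:ℝ) < 1 by norm_num)
    have h5 : ∀ᶠ X : ℝ in atTop, |K| ≤ X ^ (1 / 4 : ℝ) := (tendsto_rpow_atTop (by norm_num)).eventually_ge_atTop _
    filter_upwards [h4, h5, eventually_ge_atTop 1] with X g1 g2 g3
    have hX0 : 0 < X := by linarith
    have hl : 0 ≤ Real.log X := Real.log_nonneg g3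
    rw [Real.norm_of_nonneg (by positivity), Real.norm_of_nonneg (by positivity), one_mul] at g1
    have g4 : X ^ (1 / 4 : ℝ) * X ^ (1 / 4 : ℝ) = Real.sqrt X := by
      rw [← Real.rpow_add hX0, Real.sqrt_eq_rpow]; norm_num
    calc K * Real.sqrt X * Real.log X ^ U ≤ |K| * Real.sqrt X * Real.log X ^ U := by
          gcongr; exact le_abs_self K
      _ ≤ X ^ (1 / 4 : ℝ) * Real.sqrt X * X ^ (1 / 4 : ℝ) := by gcongr
      _ = (X ^ (1 / 4 : ℝ) * X ^ (1 / 4 : ℝ)) * Real.sqrt X := by ring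
      _ = X := by rw [g4, Real.mul_self_sqrt hX0.le]
  have q1 := lit (6 * C3)
  have q2 := lit 1000
  have q3 : ∀ᶠ X : ℝ in atTop, 12 * C3 * 2 ^ (U + 1) ≤ Real.log X := t1.eventually_ge_atTop _
  filter_upwards [Real.tendsto_log_atTop.eventually q1, Real.tendsto_log_atTop.eventually q2,
    Real.tendsto_log_atTop.eventually q3,
    Real.tendsto_log_atTop.eventually (eventually_ge_atTop (Real.exp 4)), eventually_ge_atTop 1]
    with x r1 r2 r3 r4 r5
  set X := Real.log x with hX
  have hX1 : 1 < X := lt_of_lt_of_le (by rw [Real.one_lt_exp_iff]; norm_num) r4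
  have hX0 : 0 < X := by linarith
  have hLX : 4 ≤ Real.log X := (Real.le_log_iff_exp_le hX0).2 r4
  have hLX0 : 0 < Real.log X := by linarith
  have hLU : 0 < Real.log X ^ U := by positivity
  have hfin := cnt_le_of_err (B := C3 * Real.sqrt X + C3 * ((2 * X) * (2 ^ (U + 1) / Real.log X ^ (U + 1))))
    le_rfl herr r5 (fun j hj1 hj2 => hB X j r4 hj1 hj2)
  have hs1 : 1 ≤ Real.sqrt X := Real.one_le_sqrt.2 hX1.le
  have hK : 1000 * Real.sqrt X ≤ X / Real.log X ^ U := by
    rw [le_div_iff₀ hLU]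
    exact r2
  refine hfin.trans (combine hX0.le ?_ ?_ ?_ ?_)
  · have g1 : C3 * Real.sqrt X ≤ X / Real.log X ^ U / 6 := by
      have : 6 * C3 * Real.sqrt X ≤ X / Real.log X ^ U := by
        rw [le_div_iff₀ hLU]
        exact r1
      linarith
    have g2 : C3 * ((2 * X) * (2 ^ (U + 1) / Real.log X ^ (U + 1))) ≤ X / Real.log X ^ U / 6 := by
      have e : C3 * ((2 * X) * (2 ^ (U + 1) / Real.log X ^ (U + 1))) =
          (12 * C3 * 2 ^ (U + 1) / Real.log X) * (X / Real.log X ^ U / 6) := by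
        rw [pow_succ (Real.log X)]
        field_simp
        ring
      rw [e]
      have h3 : 12 * C3 * 2 ^ (U + 1) / Real.log X ≤ 1 := by
        rw [div_le_one hLX0]
        exact r3
      have h4 : 0 ≤ X / Real.log X ^ U / 6 := by positivity
      nlinarith
    linarith
  · have h6 : Real.log (X + 2) ≤ Real.log (4 * X) := Real.log_le_log (by linarith) (by nlinarith)
    have h7 : Real.log (4 * X) = 2 * Real.log 2 + 2 * Real.log (Real.sqrt X) := by
      rw [Real.log_mul (by norm_num) hX0.ne', Real.log_sqrt hX0.le]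
      have : (4 : ℝ) = 2 ^ 2 := by norm_num
      rw [this, Real.log_pow]
      push_cast
      ring
    have h8 := Real.log_le_sub_one_of_pos (show 0 < Real.sqrt X by linarith)
    have h9 := Real.log_two_lt_d9
    linarith
  · push_cast
    linarith
  · linarith

end Q239.RN
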