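import Pool.Agent.Q239.RN.Osc4
import Pool.Agent.Q239.RN.LB3
import Pool.Agent.Q239.RN.UB

set_option autoImplicit false

/-! # Lower bounds for the number of exceptions -/

open Filter Topology MeasureTheory Set

namespace Q239.RN

noncomputable section

/-- from windows to all large `x` -/
theorem transfer {P : ℕ → Prop} {b δ κ κ' : ℝ} (hδ : 0 < δ) (hδ1 : δ ≤ 1 / 2) (hκ : 0 < κ)
    (hκ' : κ' < κ * ((1 - δ) / (1 + δ)))
    (h1 : ∀ᶠ U : ℝ in atTop, ∃ u ∈ Icc ((1 - δ) * U) ((1 + δ) * U), Real.exp (-b * u) < kT u)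
    (h2 : ∀ᶠ u : ℝ in atTop, Real.exp (-b * u) < kT u →
      Real.exp (Real.exp (κ * u)) ≤ cnt P (Real.exp (2 * Real.exp u))) :
    ∀ᶠ x : ℝ in atTop, Real.exp (Real.log x ^ κ') ≤ cnt P x := by
  obtain ⟨N, hN⟩ := eventually_atTop.1 h2
  set r := κ * ((1 - δ) / (1 + δ)) with hr
  have hll : Tendsto (fun x : ℝ => Real.log (Real.log x)) atTop atTop :=
    Real.tendsto_log_atTop.comp Real.tendsto_log_atTop
  have hU : Tendsto (fun x : ℝ => (Real.log (Real.log x) - Real.log 2) / (1 + δ)) atTop atTop :=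
    (tendsto_atTop_add_const_right _ (-Real.log 2) hll).atTop_div_const (by linarith)
  filter_upwards [hU.eventually h1, hU.eventually_ge_atTop (2 * N), hU.eventually_ge_atTop 0,
    eventually_ge_atTop 3, hll.eventually_ge_atTop (r * Real.log 2 / (r - κ'))] with x ⟨u, hu, hk⟩ a2 a3 a4 a5
  set U := (Real.log (Real.log x) - Real.log 2) / (1 + δ) with hUd
  have hlx : 0 < Real.log x := Real.log_pos (by linarith)
  have huN : N ≤ u := by
    have h5 := hu.1
    have : (1 - δ) * U ≥ 1 / 2 * U := by gcongr; linarith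
    linarith
  have h3 := hN u huN hk
  have hUe : (1 + δ) * U = Real.log (Real.log x) - Real.log 2 := by
    rw [hUd]
    field_simp
  have hux : Real.exp (2 * Real.exp u) ≤ x := by
    have h6 : u ≤ Real.log (Real.log x) - Real.log 2 := hUe ▸ hu.2
    have h7 : Real.exp u ≤ Real.log x / 2 := by
      calc Real.exp u ≤ Real.exp (Real.log (Real.log x) - Real.log 2) := Real.exp_le_exp.2 h6
        _ = Real.log x / 2 := by
          rw [Real.exp_sub, Real.exp_log hlx, Real.exp_log (by norm_num)]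
    calc Real.exp (2 * Real.exp u) ≤ Real.exp (Real.log x) := Real.exp_le_exp.2 (by linarith)
      _ = x := Real.exp_log (by linarith)
  refine le_trans (Real.exp_le_exp.2 ?_) (h3.trans (by exact_mod_cast cnt_mono_x P hux))
  rw [Real.rpow_def_of_pos hlx, Real.exp_le_exp]
  have h8 : r * ((1 + δ) * U) ≤ κ * u := by
    have h9 : r * ((1 + δ) * U) = κ * ((1 - δ) * U) := by
      rw [hr]
      have : (1 + δ) ≠ 0 := by positivity
      field_simp
    rw [h9]
    have := hu.1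
    gcongr
  rw [hUe] at h8
  have hrk : 0 < r - κ' := by linarith
  rw [div_le_iff₀ hrk] at a5
  nlinarith

/-- smaller exponent, weaker bound -/
theorem weaken {P : ℕ → Prop} {κ κ' : ℝ} (h : κ' ≤ κ)
    (h1 : ∀ᶠ x : ℝ in atTop, Real.exp (Real.log x ^ κ) ≤ cnt P x) :
    ∀ᶠ x : ℝ in atTop, Real.exp (Real.log x ^ κ') ≤ cnt P x := by
  filter_upwards [h1, eventually_ge_atTop 3] with x h2 h3
  refine le_trans (Real.exp_le_exp.2 ?_) h2
  have : 1 ≤ Real.log x := by
    rw [Real.le_log_iff_exp_le (by linarith)]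
    linarith [Real.exp_one_lt_d9]
  exact Real.rpow_le_rpow_of_exponent_le this h

/-- choice of the window width -/
theorem exists_delta {κ κ' : ℝ} (h : κ' < κ) :
    ∃ δ : ℝ, 0 < δ ∧ δ ≤ 1 / 2 ∧ κ' < κ * ((1 - δ) / (1 + δ)) := by
  have h1 : Tendsto (fun δ : ℝ => κ * ((1 - δ) / (1 + δ))) (𝓝[>] 0) (𝓝 (κ * ((1 - 0) / (1 + 0)))) := by
    have : ContinuousAt (fun δ : ℝ => κ * ((1 - δ) / (1 + δ))) 0 := by
      refine continuousAt_const.mul ((continuousAt_const.sub continuousAt_id).div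
        (continuousAt_const.add continuousAt_id) (by norm_num))
    exact this.tendsto.mono_left nhdsWithin_le_nhds
  have e : κ * ((1 - 0) / (1 + 0)) = κ := by norm_num
  rw [e] at h1
  obtain ⟨δ, h2, h3, h4⟩ := ((h1.eventually (lt_mem_nhds h)).and
    ((eventually_nhdsWithin_of_forall fun x hx => hx).and
      (nhdsWithin_le_nhds (Iic_mem_nhds (show (0 : ℝ) < 1 / 2 by norm_num))))).exists
  exact ⟨δ, h3, h4, h2⟩

/-- lower bound for the exceptions to the inequality of Nicolas, `θ < 1` -/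
theorem nic_lower1 {θ : ℝ} (h1 : 1 / 2 ≤ θ) (h2 : θ < 1) (hz : ∀ s : ℂ, θ < s.re → riemannZeta s ≠ 0)
    (hs : ∀ β : ℝ, 1 / 2 < β → β < θ → ∃ ρ : ℂ, riemannZeta ρ = 0 ∧ β < ρ.re) {ε : ℝ} (hε : 0 < ε) :
    ∀ᶠ x : ℝ in atTop, Real.exp (Real.log x ^ ((1 + θ) / 2 - ε)) ≤ cnt NicEx x := by
  set η := min ε ((1 - θ) / 4) with hη
  have hη0 : 0 < η := lt_min hε (by linarith)
  have hη1 : η ≤ ε := min_le_left _ _
  have hη2 : η ≤ (1 - θ) / 4 := min_le_right _ _
  obtain ⟨θ', h3, h4⟩ : ∃ θ', θ < θ' ∧ θ' < 1 - (1 - θ + η) / 2 := exists_between (by linarith)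
  obtain ⟨C, hC, hb⟩ := eT_free h1 hz h3 (by linarith)
  obtain ⟨δ, d1, d2, d3⟩ := exists_delta (κ := 1 - (1 - θ + η) / 2 - η / 4) (κ' := (1 + θ) / 2 - η)
    (by linarith)
  refine weaken (κ := (1 + θ) / 2 - η) (by linarith) ?_
  exact transfer d1 d2 (by linarith) d3 (osc h1 h2.le hz hs d1 d2 (b := 1 - θ + η) (by linarith))
    (lower_nic (by linarith) (by linarith) hC (by linarith) h4 (by linarith) (by linarith) hb)

/-- lower bound for the exceptions to the inequality of Robin, `1/2 < θ < 1` -/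
theorem rob_lower1 {θ : ℝ} (h1 : 1 / 2 < θ) (h2 : θ < 1) (hz : ∀ s : ℂ, θ < s.re → riemannZeta s ≠ 0)
    (hs : ∀ β : ℝ, 1 / 2 < β → β < θ → ∃ ρ : ℂ, riemannZeta ρ = 0 ∧ β < ρ.re) {ε : ℝ} (hε : 0 < ε) :
    ∀ᶠ x : ℝ in atTop, Real.exp (Real.log x ^ ((1 + θ) / 2 - ε)) ≤ cnt RobEx x := by
  set η := min ε (min ((1 - θ) / 4) ((θ - 1 / 2) / 2)) with hη
  have hη0 : 0 < η := lt_min hε (lt_min (by linarith) (by linarith))
  have hη1 : η ≤ ε := min_le_left _ _
  have hη2 : η ≤ (1 - θ) / 4 := (min_le_right _ _).trans (min_le_left _ _)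
  have hη3 : η ≤ (θ - 1 / 2) / 2 := (min_le_right _ _).trans (min_le_right _ _)
  obtain ⟨θ', h3, h4⟩ : ∃ θ', θ < θ' ∧ θ' < 1 - (1 - θ + η) / 2 := exists_between (by linarith)
  obtain ⟨C, hC, hb⟩ := eT_free h1.le hz h3 (by linarith)
  obtain ⟨δ, d1, d2, d3⟩ := exists_delta (κ := 1 - (1 - θ + η) / 2 - η / 4) (κ' := (1 + θ) / 2 - η)
    (by linarith)
  refine weaken (κ := (1 + θ) / 2 - η) (by linarith) ?_
  exact transfer d1 d2 (by linarith) d3 (osc h1.le h2.le hz hs d1 d2 (b := 1 - θ + η) (by linarith))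
    (lower_rob (by linarith) (by linarith) hC (by linarith) h4 (by linarith) (by linarith) hb)

/-- lower bound for the exceptions to the inequality of Robin, `θ = 1` -/
theorem rob_lower2 (hs : ∀ β : ℝ, 1 / 2 < β → β < 1 → ∃ ρ : ℂ, riemannZeta ρ = 0 ∧ β < ρ.re)
    {ε : ℝ} (hε : 0 < ε) :
    ∀ᶠ x : ℝ in atTop, Real.exp (Real.log x ^ (1 - ε)) ≤ cnt RobEx x := by
  set η := min (ε / 4) (1 / 8) with hη
  have hη0 : 0 < η := lt_min (by linarith) (by norm_num)
  have hη1 : η ≤ ε / 4 := min_le_left _ _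
  have hη2 : η ≤ 1 / 8 := min_le_right _ _
  obtain ⟨δ, d1, d2, d3⟩ := exists_delta (κ := 1 - η - η) (κ' := 1 - 4 * η) (by linarith)
  refine weaken (κ := 1 - 4 * η) (by linarith) ?_
  exact transfer d1 d2 (by linarith) d3
    (osc (θ := 1) (by norm_num) le_rfl (fun s hs => riemannZeta_ne_zero_of_one_le_re hs.le) hs d1 d2
      (b := η) (by linarith))
    (lower_rem hη0 (by linarith) hη0 (by linarith))

end

end Q239.RN
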