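import Pool.Agent.Q239.RN.KV

set_option autoImplicit false

/-! # Lower bound for the `L¹` norm of the tail integral on windows -/

open Filter Topology MeasureTheory Set
open Pool.Agent.W190

namespace Q239.RN

noncomputable section

/-- the relative error, multiplied by `exp v`, as a complex function -/
def ff (v : ℝ) : ℂ := ((Real.exp v * eP v : ℝ) : ℂ)

/-- coefficients of the main term -/
def cc (k : ℕ) : ℂ := if k = 1 then 1 else 0

/-- the coefficients -/
def La (n : ℕ) : ℂ := ((ArithmeticFunction.vonMangoldt n : ℝ) : ℂ)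

theorem TT_ff : TT La = fun v => ff v + PE 1 cc v := by
  funext v
  have h1 : TT La v = ((SF (fun n => ArithmeticFunction.vonMangoldt n) (Real.exp v) : ℝ) : ℂ) :=
    TT_real _ v
  rw [h1, SF_psi]
  unfold ff PE cc eP
  rw [Finset.sum_range_succ, Finset.sum_range_succ, Finset.sum_range_zero]
  have h2 : Real.exp v * Real.exp (-v) = 1 := by rw [← Real.exp_add]; simp
  have h3 : Real.exp v * (Chebyshev.psi (Real.exp v) * Real.exp (-v) - 1) =
      Chebyshev.psi (Real.exp v) - Real.exp v := by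
    calc Real.exp v * (Chebyshev.psi (Real.exp v) * Real.exp (-v) - 1) =
        Chebyshev.psi (Real.exp v) * (Real.exp v * Real.exp (-v)) - Real.exp v := by ring
      _ = _ := by rw [h2, mul_one]
  rw [h3]
  push_cast
  simp

theorem ff_LI : LI ff := by
  have h1 := TT_LI La
  have h2 : LI (PE 1 cc) := LI.of_continuous (PE_cont 1 cc)
  intro a b
  have h3 := (h1 a b).sub (h2 a b)
  refine h3.congr (fun v _ => ?_)
  rw [TT_ff]
  simp

theorem Op_ff {h d u : ℝ} (hh : 0 < h) (N : ℕ) (L : List ℂ) (hL : (1 : ℂ) ∈ L) :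
    Op h d N L (TT La) u = Op h d N L ff u := by
  have hP : LI (PE 1 cc) := LI.of_continuous (PE_cont 1 cc)
  rw [TT_ff, Op_add ff_LI hP, Op_PE 1 cc hh d N L]
  · simp
  · intro k hk
    rw [Finset.mem_Icc] at hk
    have : k = 1 := by omega
    subst this
    simpa using hL

theorem avgs_succ' (h : ℝ) (f : ℝ → ℂ) (n : ℕ) : avgs h (n + 1) f = avgs h n (avg h f) := by
  induction n with
  | zero => rfl
  | succ n ih =>
    simp only [avgs] at ih ⊢
    rw [ih]

theorem absK_cont : ContinuousOn (fun v => |kP v|) (Ici 1) := kP_contOn.abs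

theorem absK_ii {a b : ℝ} (ha : 1 ≤ a) (hab : a ≤ b) : IntervalIntegrable (fun v => |kP v|) volume a b :=
  (absK_cont.mono (by
    rw [uIcc_of_le hab]
    intro v hv
    have : (1:ℝ) ≤ v := ha.trans hv.1
    exact this)).intervalIntegrable

theorem absK_sub {a b c d : ℝ} (ha : 1 ≤ a) (hac : a ≤ c) (hcd : c ≤ d) (hdb : d ≤ b) :
    ∫ v in c..d, |kP v| ≤ ∫ v in a..b, |kP v| := by
  rw [intervalIntegral.integral_of_le hcd, intervalIntegral.integral_of_le (hac.trans (hcd.trans hdb))]
  refine setIntegral_mono_set ?_ (Eventually.of_forall fun v => abs_nonneg _)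
    (Ioc_subset_Ioc hac hdb).eventuallyLE
  have := absK_ii ha (hac.trans (hcd.trans hdb))
  rwa [intervalIntegrable_iff_integrableOn_Ioc_of_le (hac.trans (hcd.trans hdb))] at this

/-- the average of `ff` -/
theorem avg_ff {u s h : ℝ} (hu : 1 ≤ u) (hh : 0 < h) (h1 : u ≤ s) (h2 : s + h ≤ u + 1) :
    ‖avg h ff s‖ ≤ h⁻¹ * ((Real.exp (u + 1) * (u + 2)) * (|kP (s + h)| + |kP s| +
      ∫ v in u..(u + 1), |kP v|)) := by
  set G := Real.exp (u + 1) * (u + 2) with hG
  have hG0 : 0 < G := by positivity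
  have hGv : ∀ v : ℝ, u ≤ v → v ≤ u + 1 → Real.exp v * (v + 1) ≤ G := by
    intro v hv1 hv2
    have : Real.exp v ≤ Real.exp (u + 1) := Real.exp_le_exp.2 hv2
    have hv3 : v + 1 ≤ u + 2 := by linarith
    have hv4 : 0 ≤ v + 1 := by linarith
    rw [hG]
    gcongr
  unfold avg
  rw [norm_mul, norm_inv, Complex.norm_real, Real.norm_eq_abs, abs_of_pos hh]
  refine mul_le_mul_of_nonneg_left ?_ (by positivity)
  have e : ∫ v in s..(s + h), ff v = ((∫ v in s..(s + h), Real.exp v * eP v : ℝ) : ℂ) := by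
    unfold ff
    exact intervalIntegral.integral_ofReal
  rw [e, Complex.norm_real, Real.norm_eq_abs, parts (by linarith) hh.le]
  have hs0 : 0 < s := by linarith
  have b1 : |gg (s + h) * kP (s + h)| ≤ G * |kP (s + h)| := by
    rw [abs_mul, abs_of_nonneg (gg_nonneg (by linarith))]
    gcongr
    exact (gg_le (by linarith)).trans (hGv _ (by linarith) h2)
  have b2 : |gg s * kP s| ≤ G * |kP s| := by
    rw [abs_mul, abs_of_nonneg (gg_nonneg hs0)]
    gcongr
    exact (gg_le hs0).trans (hGv _ h1 (by linarith))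
  have b3 : |∫ v in s..(s + h), gg' v * kP v| ≤ G * ∫ v in u..(u + 1), |kP v| := by
    have c1 : |∫ v in s..(s + h), gg' v * kP v| ≤ ∫ v in s..(s + h), G * |kP v| := by
      rw [← Real.norm_eq_abs]
      refine intervalIntegral.norm_integral_le_of_norm_le (by linarith) ?_
        ((absK_ii (by linarith) (by linarith)).const_mul G)
      refine Eventually.of_forall fun v hv => ?_
      have hv0 : 0 < v := by linarith [hv.1]
      rw [Real.norm_eq_abs, abs_mul, abs_of_nonneg (gg'_nonneg hv0)]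
      gcongr
      exact (gg'_le hv0).trans (hGv _ (by linarith [hv.1]) (by linarith [hv.2]))
    refine c1.trans ?_
    rw [intervalIntegral.integral_const_mul]
    gcongr
    exact absK_sub hu h1 (by linarith) h2
  have e2 : gg (s + h) * kP (s + h) - gg s * kP s - ∫ v in s..(s + h), gg' v * kP v =
      gg (s + h) * kP (s + h) + (-(gg s * kP s)) + (-∫ v in s..(s + h), gg' v * kP v) := by ring
  rw [e2]
  refine (abs_add_three _ _ _).trans ?_
  rw [abs_neg, abs_neg]
  linarith

theorem avg_avg_ff {u h : ℝ} (hu : 1 ≤ u) (hh : 0 < h) (hh1 : h ≤ 1) :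
    BD (avg h (avg h ff)) (3 * h⁻¹ ^ 2 * (Real.exp (u + 1) * (u + 2)) * ∫ v in u..(u + 1), |kP v|) u
      (u + 1 - 2 * h) := by
  intro w hw1 hw2
  set G := Real.exp (u + 1) * (u + 2) with hG
  have hG0 : 0 < G := by positivity
  set I := ∫ v in u..(u + 1), |kP v| with hI
  have hI0 : 0 ≤ I := intervalIntegral.integral_nonneg (by linarith) fun v _ => abs_nonneg _
  have hshift : IntervalIntegrable (fun s => |kP (s + h)|) volume w (w + h) := by
    refine ContinuousOn.intervalIntegrable ?_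
    rw [uIcc_of_le (by linarith)]
    refine absK_cont.comp (by fun_prop) fun s hs => ?_
    have : (1:ℝ) ≤ s + h := by linarith [hs.1]
    exact this
  have hbase : IntervalIntegrable (fun s => |kP s|) volume w (w + h) := absK_ii (by linarith) (by linarith)
  conv_lhs => unfold avg
  rw [norm_mul, norm_inv, Complex.norm_real, Real.norm_eq_abs, abs_of_pos hh]
  have h1 : ‖∫ s in w..(w + h), avg h ff s‖ ≤
      ∫ s in w..(w + h), h⁻¹ * (G * (|kP (s + h)| + |kP s| + I)) := by
    refine intervalIntegral.norm_integral_le_of_norm_le (by linarith) ?_ ?_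
    · refine Eventually.of_forall fun s hs => ?_
      exact avg_ff hu hh (by linarith [hs.1]) (by linarith [hs.2])
    · exact (((hshift.add hbase).add intervalIntegrable_const).const_mul G).const_mul h⁻¹
  have h2 : ∫ s in w..(w + h), h⁻¹ * (G * (|kP (s + h)| + |kP s| + I)) =
      h⁻¹ * (G * ((∫ s in w..(w + h), |kP (s + h)|) + (∫ s in w..(w + h), |kP s|) + h * I)) := by
    rw [intervalIntegral.integral_const_mul, intervalIntegral.integral_const_mul,
      intervalIntegral.integral_add (hshift.add hbase) intervalIntegrable_const,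
      intervalIntegral.integral_add hshift hbase, intervalIntegral.integral_const, smul_eq_mul]
    congr 3
    ring
  have h3 : ∫ s in w..(w + h), |kP (s + h)| ≤ I := by
    rw [intervalIntegral.integral_comp_add_right (fun s => |kP s|) h]
    exact absK_sub hu (by linarith) (by linarith) (by linarith)
  have h4 : ∫ s in w..(w + h), |kP s| ≤ I := absK_sub hu hw1 (by linarith) (by linarith)
  have h5 : h * I ≤ I := by nlinarith
  rw [h2] at h1
  calc h⁻¹ * ‖∫ s in w..(w + h), avg h ff s‖ ≤ h⁻¹ * (h⁻¹ * (G * (I + I + I))) := by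
        gcongr
        refine h1.trans ?_
        gcongr
    _ = _ := by ring

theorem Op_ff_bound {u h d : ℝ} (hu : 1 ≤ u) (hh : 0 < h) (hh1 : h ≤ 1) (hd : 0 ≤ d) (N : ℕ) (hN : 1 ≤ N)
    (L : List ℂ) (hL : ∀ r ∈ L, 0 ≤ r.re) (hlen : ((N : ℝ) + 3) * h + L.length * d ≤ 1) :
    ‖Op h d N L ff u‖ ≤ 2 ^ L.length * (6 * h⁻¹ ^ 3 * (Real.exp (u + 1) * (u + 2)) *
      ∫ v in u..(u + 1), |kP v|) := by
  obtain ⟨M, rfl⟩ := Nat.exists_eq_add_of_le' hN
  have h1 := (((avg_avg_ff hu hh hh1).avgs hh M).dif hh).shfs hd L hL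
  have h2 := h1 u le_rfl (by push_cast at hlen; linarith)
  unfold Op
  rw [avgs_succ']
  refine h2.trans (le_of_eq ?_)
  have : h ≠ 0 := hh.ne'
  field_simp
  ring

/-- the `L¹` norm of the tail integral is large on every window -/
theorem kP_L1 {θ : ℝ} (hθ : 1 / 2 ≤ θ) {ρ₀ : ℂ} (hρ0 : riemannZeta ρ₀ = 0) (hρθ : θ < ρ₀.re)
    {ε : ℝ} (hε : 0 < ε) :
    ∀ᶠ u : ℝ in atTop, Real.exp ((ρ₀.re - 1 - ε) * u) ≤ ∫ v in u..(u + 1), |kP v| := by
  obtain ⟨q, hq, h⟩ := mangoldt_u3 hθ ρ₀ hρ0 hρθ (ε / 2) (by linarith)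
  have hS := (hf_SP (c := 1) (κ := 0) (q := q) one_pos le_rfl hq)
  have hP : SP (fun u => 6 * (hf 1 0 q u)⁻¹ ^ 3 * (Real.exp 1 * (u + 2))) := by
    refine ((SP.const (by norm_num)).mul (hS.pow 3)).mul ((SP.const (Real.exp_pos 1).le).mul ?_)
    refine SP.add ?_ (SP.const (by norm_num))
    refine ⟨eventually_ge_atTop 0, ?_⟩
    have := SE.id_rpow 1
    simpa using this
  filter_upwards [h, hP.2 (ε / 2) (by linarith), eventually_ge_atTop 1,
    hf_small (c := 1) (κ := 0) (q := q) one_pos le_rfl hq 1 one_pos] with u h1 h2 h3 h4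
  set I := ∫ v in u..(u + 1), |kP v| with hI
  have hI0 : 0 ≤ I := intervalIntegral.integral_nonneg (by linarith) fun v _ => abs_nonneg _
  have hh : 0 < hf 1 0 q u := hf_pos one_pos le_rfl (by linarith) h3
  have hd : 0 ≤ df 1 0 q u := by unfold df; positivity
  have hN : 1 ≤ Nn u := by
    have := Nn_lower u
    have h5 : (1 : ℝ) ≤ Nn u := by linarith
    exact_mod_cast h5
  have het : et 1 0 u ≤ 1 := et_upper one_pos le_rfl h3
  have h5 := h1 (6 * (hf 1 0 q u)⁻¹ ^ 3 * (Real.exp (u + 1) * (u + 2)) * I) (by positivity) (by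
    intro L hL1 hL2 hL3
    have h6 := Op_ff_bound h3 hh h4 hd (Nn u) hN L hL1 (hL3.trans het)
    rw [← Op_ff hh (Nn u) L hL2] at h6
    exact h6)
  have e1 : 6 * (hf 1 0 q u)⁻¹ ^ 3 * (Real.exp (u + 1) * (u + 2)) * I =
      (6 * (hf 1 0 q u)⁻¹ ^ 3 * (Real.exp 1 * (u + 2))) * (Real.exp u * I) := by
    rw [Real.exp_add]; ring
  rw [e1] at h5
  have h6 : (6 * (hf 1 0 q u)⁻¹ ^ 3 * (Real.exp 1 * (u + 2))) * (Real.exp u * I) ≤
      Real.exp (ε / 2 * u) * (Real.exp u * I) := by
    have : 0 ≤ Real.exp u * I := by positivity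
    gcongr
  have h7 := h5.trans h6
  have e2 : Real.exp ((ρ₀.re - 1 - ε) * u) =
      (Real.exp (ε / 2 * u) * Real.exp u)⁻¹ * Real.exp ((ρ₀.re - ε / 2) * u) := by
    rw [← Real.exp_add, ← Real.exp_neg, ← Real.exp_add]; congr 1; ring
  rw [e2, inv_mul_le_iff₀ (by positivity)]
  linarith

end

end Q239.RN
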