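import Pool.Agent.Q239.RN.Mert

set_option autoImplicit false

/-! # The third theorem of Mertens with an exact error term, continued -/

open Finset Filter Topology MeasureTheory

namespace Q239.RN

theorem kbound_pow {g : ℝ → ℝ} {C : ℝ} {U : ℕ} (hU : 1 ≤ U) (hC : 0 ≤ C)
    (h : ∀ v : ℝ, 1 ≤ v → |g v| ≤ C / v ^ U) {u : ℝ} (hu : 1 ≤ u) :
    |∫ v in Set.Ioi u, g v * om v| ≤ 2 * C / u ^ U := by
  have hu0 : 0 < u := by linarith
  have hU' : (1 : ℝ) ≤ U := by exact_mod_cast hU
  have hlt : (-(U : ℝ) - 1) < -1 := by linarith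
  have h1 : IntegrableOn (fun v : ℝ => 2 * C * v ^ (-(U : ℝ) - 1)) (Set.Ioi u) :=
    (integrableOn_Ioi_rpow_of_lt hlt hu0).const_mul _
  have h2 : ‖∫ v in Set.Ioi u, g v * om v‖ ≤ ∫ v in Set.Ioi u, 2 * C * v ^ (-(U : ℝ) - 1) := by
    refine norm_integral_le_of_norm_le h1 ?_
    refine (ae_restrict_iff' measurableSet_Ioi).2 (Eventually.of_forall fun v hv => ?_)
    have hv1 : 1 ≤ v := hu.trans (le_of_lt hv)
    have hv0 : 0 < v := by linarith
    rw [Real.norm_eq_abs, abs_mul, abs_of_pos (om_pos hv0)]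
    have h2 := h v hv1
    have h3 := om_le hv1
    have h4 := (om_pos hv0).le
    calc |g v| * om v ≤ (C / v ^ U) * (2 / v) := by gcongr
      _ = _ := by
        rw [Real.rpow_sub hv0, Real.rpow_neg hv0.le, Real.rpow_one, Real.rpow_natCast]
        field_simp
  rw [Real.norm_eq_abs] at h2
  refine h2.trans ?_
  rw [integral_const_mul, integral_Ioi_rpow_of_lt hlt hu0]
  have e1 : -u ^ (-(U : ℝ) - 1 + 1) / (-(U : ℝ) - 1 + 1) = u ^ (-(U : ℝ)) / U := by
    have : -(U : ℝ) - 1 + 1 = -U := by ring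
    rw [this, neg_div_neg_eq]
  rw [e1, Real.rpow_neg hu0.le, Real.rpow_natCast]
  have e2 : 2 * C * ((u ^ U)⁻¹ / U) = 2 * C / u ^ U / U := by field_simp
  rw [e2]
  exact div_le_self (by positivity) hU'

theorem kbound_exp {g : ℝ → ℝ} {C a : ℝ} (ha : 0 < a) (hC : 0 ≤ C)
    (h : ∀ v : ℝ, 1 ≤ v → |g v| ≤ C * Real.exp (-a * v)) {u : ℝ} (hu : 1 ≤ u) :
    |∫ v in Set.Ioi u, g v * om v| ≤ 2 * C / a * Real.exp (-a * u) / u := by
  have hu0 : 0 < u := by linarith
  have hna : -a < 0 := by linarith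
  have h1 : IntegrableOn (fun v : ℝ => 2 * C / u * Real.exp (-a * v)) (Set.Ioi u) :=
    (integrableOn_exp_mul_Ioi hna u).const_mul _
  have h2 : ‖∫ v in Set.Ioi u, g v * om v‖ ≤ ∫ v in Set.Ioi u, 2 * C / u * Real.exp (-a * v) := by
    refine norm_integral_le_of_norm_le h1 ?_
    refine (ae_restrict_iff' measurableSet_Ioi).2 (Eventually.of_forall fun v hv => ?_)
    have hv1 : 1 ≤ v := hu.trans (le_of_lt hv)
    have hv0 : 0 < v := by linarith
    have hvu : u ≤ v := le_of_lt hv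
    rw [Real.norm_eq_abs, abs_mul, abs_of_pos (om_pos hv0)]
    have h2 := h v hv1
    have h3 := om_le hv1
    have h4 := (om_pos hv0).le
    calc |g v| * om v ≤ (C * Real.exp (-a * v)) * (2 / v) := by gcongr
      _ ≤ (C * Real.exp (-a * v)) * (2 / u) := by gcongr
      _ = _ := by ring
  rw [Real.norm_eq_abs] at h2
  refine h2.trans (le_of_eq ?_)
  rw [integral_const_mul, integral_exp_mul_Ioi hna u]
  field_simp

theorem kT_pow (U : ℕ) (hU : 1 ≤ U) : ∃ C : ℝ, 0 < C ∧ ∀ u : ℝ, 1 ≤ u → |kT u| ≤ C / u ^ U := by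
  obtain ⟨C, hC, h⟩ := eT_pnt U
  refine ⟨2 * C, by positivity, fun u hu => ?_⟩
  unfold kT
  rw [abs_neg]
  exact kbound_pow hU hC.le h hu

theorem kP_pow (U : ℕ) (hU : 1 ≤ U) : ∃ C : ℝ, 0 < C ∧ ∀ u : ℝ, 1 ≤ u → |kP u| ≤ C / u ^ U := by
  obtain ⟨C, hC, h⟩ := eP_pnt U
  refine ⟨2 * C, by positivity, fun u hu => ?_⟩
  unfold kP
  rw [abs_neg]
  exact kbound_pow hU hC.le h hu

theorem tendsto_zero_of_inv {g : ℝ → ℝ} {C : ℝ} (h : ∀ u : ℝ, 1 ≤ u → |g u| ≤ C / u ^ 1) :
    Tendsto g atTop (𝓝 0) := by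
  rw [tendsto_zero_iff_abs_tendsto_zero]
  refine squeeze_zero' (Eventually.of_forall fun u => abs_nonneg _) ?_
    (tendsto_const_nhds.div_atTop tendsto_id : Tendsto (fun u : ℝ => C / u) atTop (𝓝 0))
  filter_upwards [eventually_ge_atTop 1] with u hu
  have := h u hu
  simpa using this

/-- the third theorem of Mertens with an exact error term -/
theorem mertens_exact {u : ℝ} (hu : 1 ≤ u) :
    SL ⌊Real.exp u⌋₊ ≤ Real.eulerMascheroniConstant + Real.log u + eT u / u + kT u ∧
    Real.eulerMascheroniConstant + Real.log u + eT u / u + kT u - 2 * Real.exp (-u) ≤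
      SL ⌊Real.exp u⌋₊ := by
  obtain ⟨C1, hC1, h1⟩ := kT_pow 1 le_rfl
  obtain ⟨C2, hC2, h2⟩ := eT_pnt 1
  have t1 : Tendsto kT atTop (𝓝 0) := tendsto_zero_of_inv h1
  have t2 : Tendsto (fun u => eT u / u) atTop (𝓝 0) := by
    refine tendsto_zero_of_inv (C := C2) fun u hu => ?_
    have h3 := h2 u hu
    have hu0 : 0 < u := by linarith
    rw [abs_div, abs_of_pos hu0, pow_one]
    rw [pow_one] at h3
    have h4 : C2 / u ≤ C2 := div_le_self hC2.le hu
    have h5 : |eT u| ≤ C2 := h3.trans h4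
    gcongr
  -- along the integers
  have tl : Tendsto (fun N : ℕ => Real.log N) atTop atTop :=
    Real.tendsto_log_atTop.comp tendsto_natCast_atTop_atTop
  have t3 : Tendsto (fun N : ℕ => (SL N - Real.log (Real.log N)) - eT (Real.log N) / Real.log N -
      kT (Real.log N)) atTop (𝓝 Real.eulerMascheroniConstant) := by
    have := (SL_tendsto.sub (t2.comp tl)).sub (t1.comp tl)
    simpa using this
  set N0 := ⌊Real.exp u⌋₊ with hN0
  set A := SL N0 - Real.log u - eT u / u - kT u with hA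
  have hexp1 : 2.7 ≤ Real.exp u := by
    have h3 : Real.exp 1 ≤ Real.exp u := Real.exp_le_exp.2 hu
    have := Real.exp_one_gt_d9
    linarith
  have hN02 : 2 ≤ N0 := Nat.le_floor (by norm_num; linarith)
  have hinv : 1 / (N0 : ℝ) ≤ 2 * Real.exp (-u) := by
    have h4 : Real.exp u < N0 + 1 := Nat.lt_floor_add_one _
    have h5 : Real.exp u ≤ 2 * N0 := by
      have : (2 : ℝ) ≤ N0 := by exact_mod_cast hN02
      linarith
    rw [Real.exp_neg]
    have h6 : (2 * (N0 : ℝ))⁻¹ ≤ (Real.exp u)⁻¹ := inv_anti₀ (Real.exp_pos u) h5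
    calc 1 / (N0 : ℝ) = 2 * (2 * (N0 : ℝ))⁻¹ := by
          rw [mul_inv]; ring
      _ ≤ _ := by gcongr
  have key : ∀ᶠ N : ℕ in atTop,
      0 ≤ ((SL N - Real.log (Real.log N)) - eT (Real.log N) / Real.log N - kT (Real.log N)) - A ∧
      ((SL N - Real.log (Real.log N)) - eT (Real.log N) / Real.log N - kT (Real.log N)) - A ≤
        2 * Real.exp (-u) := by
    filter_upwards [tl.eventually_ge_atTop u, eventually_ge_atTop N0, eventually_ge_atTop 3] with N hN1 hN2 hN3
    have hNp : (0 : ℝ) < N := by exact_mod_cast (by omega : 0 < N)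
    have h3 := S1_diff' hu hN1
    have hfl : ⌊Real.exp (Real.log N)⌋₊ = N := by
      rw [Real.exp_log hNp, Nat.floor_natCast]
    rw [hfl, ← hN0] at h3
    obtain ⟨h4, h5⟩ := SL_S1_diff (by omega : 1 ≤ N0) hN2
    rw [hA]
    constructor <;> linarith
  have g1 : 0 ≤ Real.eulerMascheroniConstant - A :=
    ge_of_tendsto (t3.sub_const A) (key.mono fun N h => h.1)
  have g2 : Real.eulerMascheroniConstant - A ≤ 2 * Real.exp (-u) :=
    le_of_tendsto (t3.sub_const A) (key.mono fun N h => h.2)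
  rw [hA] at g1 g2
  constructor <;> linarith

/-- comparison with `log log θ` -/
theorem SL_ge_theta {u : ℝ} (hu : 1 ≤ u) (hθ : 1 < Chebyshev.theta (Real.exp u)) :
    Real.eulerMascheroniConstant + Real.log (Real.log (Chebyshev.theta (Real.exp u))) + kT u -
      2 * Real.exp (-u) ≤ SL ⌊Real.exp u⌋₊ := by
  obtain ⟨-, h⟩ := mertens_exact hu
  have hu0 : 0 < u := by linarith
  set t := Chebyshev.theta (Real.exp u) with ht
  have h1 : eT u = t * Real.exp (-u) - 1 := rfl
  have h2 : Real.log t ≤ u + eT u := by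
    have h3 : 0 < t * Real.exp (-u) := by have := Real.exp_pos (-u); nlinarith
    have h4 := Real.log_le_sub_one_of_pos h3
    rw [Real.log_mul (by linarith) (Real.exp_pos _).ne', Real.log_exp] at h4
    rw [h1]
    linarith
  have h3 : 0 < Real.log t := Real.log_pos hθ
  have h4 : Real.log (Real.log t) ≤ Real.log u + eT u / u := by
    have h5 : Real.log (Real.log t) ≤ Real.log (u + eT u) := Real.log_le_log h3 h2
    have h6 : 0 < u + eT u := by linarith
    have h7 := Real.log_le_sub_one_of_pos (show 0 < (u + eT u) / u by positivity)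
    rw [Real.log_div h6.ne' hu0.ne'] at h7
    have h8 : (u + eT u) / u - 1 = eT u / u := by field_simp; ring
    linarith
  linarith

/-- comparison of the two tail integrals -/
theorem kT_sub_kP : ∃ c v0 : ℝ, 0 < c ∧ 1 ≤ v0 ∧ ∀ u : ℝ, v0 ≤ u →
    c * Real.exp (-(u / 2)) / u ≤ kT u - kP u := by
  obtain ⟨c, v0, hc, hv0, h⟩ := diff_ge
  refine ⟨c * Real.exp (-(1 / 2)) / 2, v0, by positivity, hv0, fun u hu => ?_⟩
  have hu1 : 1 ≤ u := hv0.trans hu
  have hu0 : 0 < u := by linarith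
  have e : kT u - kP u = ∫ v in Set.Ioi u, (eP v - eT v) * om v := by
    unfold kT kP
    rw [sub_neg_eq_add, neg_add_eq_sub, ← integral_sub (eP_int hu1) (eT_int hu1)]
    refine setIntegral_congr_fun measurableSet_Ioi fun v _ => ?_
    ring
  have hint : IntegrableOn (fun v => (eP v - eT v) * om v) (Set.Ioi u) := by
    refine ((eP_int hu1).sub (eT_int hu1)).congr (Eventually.of_forall fun v => ?_)
    simp only [Pi.sub_apply]
    ring
  rw [e]
  have h1 : ∫ v in Set.Ioc u (u + 1), (eP v - eT v) * om v ≤ ∫ v in Set.Ioi u, (eP v - eT v) * om v := by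
    refine setIntegral_mono_set hint ?_ (Set.Ioc_subset_Ioi_self.eventuallyLE)
    refine (ae_restrict_iff' measurableSet_Ioi).2 (Eventually.of_forall fun v hv => ?_)
    have hv0' : 0 < v := by have : u < v := hv; linarith
    exact mul_nonneg (diff_nonneg v) (om_pos hv0').le
  refine le_trans ?_ h1
  have h2 : ∫ v in Set.Ioc u (u + 1), c * Real.exp (-((u + 1) / 2)) * (1 / (u + 1)) ≤
      ∫ v in Set.Ioc u (u + 1), (eP v - eT v) * om v := by
    refine setIntegral_mono_on ?_ (hint.mono_set Set.Ioc_subset_Ioi_self) measurableSet_Ioc fun v hv => ?_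
    · exact continuous_const.integrableOn_Ioc
    · have hv0' : 0 < v := by linarith [hv.1]
      have h3 := h v (hu.trans hv.1.le)
      have h4 := om_ge hv0'
      have h5 : 1 / (u + 1) ≤ 1 / v := one_div_le_one_div_of_le hv0' hv.2
      have h6 : Real.exp (-((u + 1) / 2)) ≤ Real.exp (-(v / 2)) := Real.exp_le_exp.2 (by linarith [hv.2])
      have h7 : c * Real.exp (-((u + 1) / 2)) ≤ eP v - eT v := le_trans (by gcongr) h3
      have h8 : 1 / (u + 1) ≤ om v := h5.trans h4
      exact mul_le_mul h7 h8 (by positivity) (diff_nonneg v)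
  refine le_trans ?_ h2
  rw [setIntegral_const]
  simp only [Measure.real, Real.volume_Ioc, add_sub_cancel_left, ENNReal.toReal_ofReal zero_le_one,
    one_smul]
  have e3 : Real.exp (-((u + 1) / 2)) = Real.exp (-(1 / 2)) * Real.exp (-(u / 2)) := by
    rw [← Real.exp_add]; congr 1; ring
  rw [e3]
  have h9 : 1 / (2 * u) ≤ 1 / (u + 1) := one_div_le_one_div_of_le (by linarith) (by linarith)
  calc c * Real.exp (-(1 / 2)) / 2 * Real.exp (-(u / 2)) / u =
      c * (Real.exp (-(1 / 2)) * Real.exp (-(u / 2))) * (1 / (2 * u)) := by field_simp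
    _ ≤ _ := by gcongr

theorem floor_exp_log {j : ℕ} (hj : 1 ≤ j) : ⌊Real.exp (Real.log j)⌋₊ = j := by
  have hNp : (0 : ℝ) < j := by exact_mod_cast hj
  rw [Real.exp_log hNp, Nat.floor_natCast]

theorem theta_eq_eT {j : ℕ} (hj : 1 ≤ j) : Chebyshev.theta (j : ℝ) - j = j * eT (Real.log j) := by
  have hNp : (0 : ℝ) < j := by exact_mod_cast hj
  unfold eT
  rw [Real.exp_log hNp, Real.exp_neg, Real.exp_log hNp]
  field_simp

/-- the error hypothesis from bounds of `eT`, `kT` -/
theorem errHyp_of {D : ℕ → ℝ} {J : ℕ} (hJ : 100 ≤ J)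
    (h : ∀ j : ℕ, J < j → 1 / (j : ℝ) ≤ D j ∧ |eT (Real.log j)| / Real.log j + |kT (Real.log j)| ≤ D j) :
    ErrHyp D J := by
  intro j hj
  obtain ⟨h1, h2⟩ := h j hj
  have hj1 : 1 ≤ j := by omega
  have hjp : (0 : ℝ) < j := by exact_mod_cast hj1
  have hlj : 1 < Real.log j := log_gt_one (by omega)
  have hl0 : 0 < Real.log j := by linarith
  refine ⟨h1, ?_, ?_⟩
  · obtain ⟨h3, -⟩ := mertens_exact hlj.le
    rw [floor_exp_log hj1] at h3
    have h4 : eT (Real.log j) / Real.log j ≤ |eT (Real.log j)| / Real.log j := by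
      gcongr
      exact le_abs_self _
    have h5 := le_abs_self (kT (Real.log j))
    linarith
  · rw [theta_eq_eT hj1, abs_mul, abs_of_pos hjp]
    have h4 : |eT (Real.log j)| / Real.log j ≤ D j := by
      have := abs_nonneg (kT (Real.log j))
      linarith
    rw [div_le_iff₀ hl0] at h4
    calc (j : ℝ) * |eT (Real.log j)| ≤ j * (D j * Real.log j) := by gcongr
      _ = _ := by ring

end Q239.RN
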