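import Pool.Agent.Q239.RN.Mang2
import Pool.Agent.Q239.RN.Mert2

set_option autoImplicit false

/-! # Lower bound for the variation of the tail integral on windows -/

open Filter Topology MeasureTheory Set
open Pool.Agent.W190

namespace Q239.RN

theorem kP_diff {u1 u2 : ℝ} (h1 : 1 ≤ u1) (h : u1 ≤ u2) :
    kP u2 - kP u1 = ∫ v in u1..u2, eP v * om v := by
  have h5 := tail_diff h (eP_int h1)
  unfold kP
  rw [h5, intervalIntegral.integral_of_le h]
  ring

theorem eP_right (x : ℝ) : ContinuousWithinAt eP (Ioi x) x := by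
  have h1 : ∀ᶠ v in 𝓝[>] x, eP v = Chebyshev.psi (Real.exp x) * Real.exp (-v) - 1 := by
    have h2 : ∀ᶠ v in 𝓝[>] x, Real.exp v < ⌊Real.exp x⌋₊ + 1 := by
      refine nhdsWithin_le_nhds ?_
      exact Real.continuous_exp.continuousAt.eventually (gt_mem_nhds (Nat.lt_floor_add_one _))
    filter_upwards [h2, self_mem_nhdsWithin] with v h3 h4
    have h5 : Real.exp x ≤ Real.exp v := Real.exp_le_exp.2 (le_of_lt h4)
    have h6 : ⌊Real.exp v⌋₊ = ⌊Real.exp x⌋₊ := by
      refine le_antisymm ?_ (Nat.floor_le_floor h5)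
      rw [← Nat.lt_succ_iff]
      refine (Nat.floor_lt (Real.exp_pos v).le).2 ?_
      push_cast
      exact h3
    unfold eP
    rw [Chebyshev.psi_eq_psi_coe_floor (Real.exp v), h6, ← Chebyshev.psi_eq_psi_coe_floor]
  have h7 : ContinuousWithinAt (fun v => Chebyshev.psi (Real.exp x) * Real.exp (-v) - 1) (Ioi x) x := by
    refine Continuous.continuousWithinAt ?_
    fun_prop
  refine h7.congr_of_eventuallyEq h1 ?_
  unfold eP
  rfl

theorem eP_ii {a b : ℝ} (ha : 1 ≤ a) (hab : a ≤ b) : IntervalIntegrable (fun v => eP v * om v) volume a b := by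
  rw [intervalIntegrable_iff_integrableOn_Ioc_of_le hab]
  exact (eP_int ha).mono_set Ioc_subset_Ioi_self

theorem kP_eq {u : ℝ} (hu : 1 ≤ u) : kP u = kP 1 + ∫ v in (1:ℝ)..u, eP v * om v := by
  have := kP_diff le_rfl hu
  linarith

theorem kP_deriv {x : ℝ} (hx : 1 ≤ x) : HasDerivWithinAt kP (eP x * om x) (Ioi x) x := by
  have h1 : HasDerivWithinAt (fun u => ∫ v in (1:ℝ)..u, eP v * om v) (eP x * om x) (Ici x) x := by
    refine intervalIntegral.integral_hasDerivWithinAt_right (eP_ii le_rfl hx) (t := Ioi x) ?_ ?_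
    · exact ((eP_meas.mul om_meas).stronglyMeasurable).stronglyMeasurableAtFilter
    · refine (eP_right x).mul ?_
      exact (om_cont.continuousAt (Ioi_mem_nhds (by linarith))).continuousWithinAt
  have h2 := (h1.const_add (kP 1)).mono Ioi_subset_Ici_self
  refine h2.congr (fun u hu => ?_) (kP_eq hx)
  exact kP_eq (hx.trans (le_of_lt hu))

theorem kP_contOn : ContinuousOn kP (Ici 1) := by
  intro x hx
  have hx1 : (1:ℝ) ≤ x := hx
  have h1 : ContinuousOn (fun u => ∫ v in (1:ℝ)..u, eP v * om v) (uIcc 1 (x + 1)) := by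
    refine intervalIntegral.continuousOn_primitive_interval ?_
    rw [uIcc_of_le (by linarith)]
    rw [integrableOn_Icc_iff_integrableOn_Ioc]
    exact (eP_int le_rfl).mono_set Ioc_subset_Ioi_self
  rw [uIcc_of_le (by linarith)] at h1
  have h2 : ContinuousWithinAt (fun u => kP 1 + ∫ v in (1:ℝ)..u, eP v * om v) (Icc 1 (x + 1)) x :=
    (h1 x ⟨hx1, by linarith⟩).const_add _
  have h3 : ContinuousWithinAt kP (Icc 1 (x + 1)) x :=
    h2.congr (fun u hu => kP_eq hu.1) (kP_eq hx1)
  have h4 : Icc 1 (x + 1) ∈ 𝓝[Ici 1] x := by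
    have h5 : Icc 1 (x + 1) = Ici 1 ∩ Iic (x + 1) := by
      ext y; simp
    rw [h5]
    exact inter_mem_nhdsWithin _ (Iic_mem_nhds (by linarith))
  exact h3.mono_of_mem_nhdsWithin h4

/-- the multiplier -/
noncomputable def gg (v : ℝ) : ℝ := Real.exp v * (v ^ 2 / (v + 1))

noncomputable def gg' (v : ℝ) : ℝ := Real.exp v * (v ^ 2 / (v + 1)) + Real.exp v * ((v ^ 2 + 2 * v) / (v + 1) ^ 2)

theorem gg_deriv {v : ℝ} (hv : 0 < v) : HasDerivAt gg (gg' v) v := by
  unfold gg gg'
  have h0 : v + 1 ≠ 0 := by linarith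
  have h1 : HasDerivAt (fun v : ℝ => v ^ 2) (2 * v) v := by simpa using hasDerivAt_pow 2 v
  have h2 : HasDerivAt (fun v : ℝ => v + 1) 1 v := (hasDerivAt_id v).add_const 1
  have h3 := h1.div h2 h0
  have h4 := (Real.hasDerivAt_exp v).mul h3
  have e : (2 * v * (v + 1) - v ^ 2 * 1) / (v + 1) ^ 2 = (v ^ 2 + 2 * v) / (v + 1) ^ 2 := by
    congr 1; ring
  rw [e] at h4
  exact h4

theorem gg_om {v : ℝ} (hv : 0 < v) : gg v * om v = Real.exp v := by
  unfold gg om
  have h0 : v + 1 ≠ 0 := by linarith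
  field_simp

theorem gg_nonneg {v : ℝ} (hv : 0 < v) : 0 ≤ gg v := by
  unfold gg
  positivity

theorem gg_le {v : ℝ} (hv : 0 < v) : gg v ≤ Real.exp v * (v + 1) := by
  unfold gg
  have h1 : v ^ 2 / (v + 1) ≤ v + 1 := by
    rw [div_le_iff₀ (by linarith)]
    nlinarith
  have := Real.exp_pos v
  gcongr

theorem gg'_nonneg {v : ℝ} (hv : 0 < v) : 0 ≤ gg' v := by
  unfold gg'
  positivity

theorem gg'_le {v : ℝ} (hv : 0 < v) : gg' v ≤ Real.exp v * (v + 1) := by
  unfold gg'
  have h1 : v ^ 2 / (v + 1) ≤ v := by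
    rw [div_le_iff₀ (by linarith)]
    nlinarith
  have h2 : (v ^ 2 + 2 * v) / (v + 1) ^ 2 ≤ 1 := by
    rw [div_le_one (by positivity)]
    nlinarith
  have := Real.exp_pos v
  rw [← mul_add]
  gcongr

theorem gg'_cont : ContinuousOn gg' (Ioi 0) := by
  unfold gg'
  have h0 : ∀ v ∈ Ioi (0:ℝ), v + 1 ≠ 0 := fun v hv => by
    have : (0:ℝ) < v := hv
    linarith
  refine ContinuousOn.add ?_ ?_
  · refine Real.continuous_exp.continuousOn.mul (ContinuousOn.div (by fun_prop) (by fun_prop) h0)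
  · refine Real.continuous_exp.continuousOn.mul (ContinuousOn.div (by fun_prop) (by fun_prop) ?_)
    intro v hv
    exact pow_ne_zero 2 (h0 v hv)

/-- integration by parts -/
theorem parts {w h : ℝ} (hw : 1 ≤ w) (hh : 0 ≤ h) :
    ∫ v in w..(w + h), Real.exp v * eP v =
      gg (w + h) * kP (w + h) - gg w * kP w - ∫ v in w..(w + h), gg' v * kP v := by
  have hle : w ≤ w + h := by linarith
  have hsub : uIcc w (w + h) ⊆ Ioi 0 := by
    rw [uIcc_of_le hle]
    intro v hv
    have : (0:ℝ) < v := by linarith [hv.1]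
    exact this
  have hsub1 : uIcc w (w + h) ⊆ Ici 1 := by
    rw [uIcc_of_le hle]
    intro v hv
    have : (1:ℝ) ≤ v := by linarith [hv.1]
    exact this
  have key := intervalIntegral.integral_mul_deriv_eq_deriv_mul_of_hasDeriv_right (a := w) (b := w + h)
    (u := gg) (v := kP) (u' := gg') (v' := fun v => eP v * om v)
    (fun v hv => (gg_deriv (hsub hv)).continuousAt.continuousWithinAt)
    (kP_contOn.mono hsub1)
    (fun v hv => by
      rw [min_eq_left hle, max_eq_right hle] at hv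
      exact (gg_deriv (by linarith [hv.1])).hasDerivWithinAt)
    (fun v hv => by
      rw [min_eq_left hle, max_eq_right hle] at hv
      exact kP_deriv (by linarith [hv.1]))
    (gg'_cont.mono hsub).intervalIntegrable
    (eP_ii hw hle)
  rw [← key]
  refine intervalIntegral.integral_congr fun v hv => ?_
  have hv0 : (0:ℝ) < v := hsub hv
  rw [← gg_om hv0]
  ring

end Q239.RN
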