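import Pool.Agent.Q239.RN.KL

set_option autoImplicit false

/-! # The Laplace transform of the relative error -/

open Filter Topology MeasureTheory Set Complex

namespace Q239.RN

noncomputable section

/-- the Laplace transform -/
def LT (z : ℂ) : ℂ := ∫ v in Ioi (0:ℝ), (eP v : ℂ) * cexp (-(z * v))

/-- its analytic continuation -/
def Gh (z : ℂ) : ℂ := -(deriv riemannZeta₁ (1 + z) / riemannZeta₁ (1 + z) + 1) / (1 + z)

/-- exponential bound -/
def EB (C a : ℝ) : Prop := ∀ v : ℝ, 0 ≤ v → |eP v| ≤ C * Real.exp (a * v)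

theorem eP_c_meas : Measurable (fun v : ℝ => (eP v : ℂ)) := Complex.measurable_ofReal.comp eP_meas

theorem norm_term (z : ℂ) (v : ℝ) : ‖(eP v : ℂ) * cexp (-(z * v))‖ = |eP v| * Real.exp (-(z.re * v)) := by
  rw [norm_mul, Complex.norm_real, Real.norm_eq_abs, Complex.norm_exp]
  simp

theorem term_meas (z : ℂ) : Measurable (fun v : ℝ => (eP v : ℂ) * cexp (-(z * v))) :=
  eP_c_meas.mul (by fun_prop)

theorem term_int {C a : ℝ} (h : EB C a) {z : ℂ} (hz : a < z.re) :
    IntegrableOn (fun v : ℝ => (eP v : ℂ) * cexp (-(z * v))) (Ioi 0) := by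
  have h1 : IntegrableOn (fun v : ℝ => C * Real.exp ((a - z.re) * v)) (Ioi 0) :=
    (integrableOn_exp_mul_Ioi (by linarith) 0).const_mul _
  refine Integrable.mono' h1 (term_meas z).aestronglyMeasurable ?_
  refine (ae_restrict_iff' measurableSet_Ioi).2 (Eventually.of_forall fun v hv => ?_)
  rw [norm_term]
  have h2 := h v (le_of_lt hv)
  calc |eP v| * Real.exp (-(z.re * v)) ≤ (C * Real.exp (a * v)) * Real.exp (-(z.re * v)) := by gcongr
    _ = C * Real.exp ((a - z.re) * v) := by
      rw [mul_assoc, ← Real.exp_add]; congr 2; ring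

theorem LT_norm {C a : ℝ} (h : EB C a) {z : ℂ} (hz : a < z.re) : ‖LT z‖ ≤ C / (z.re - a) := by
  have h1 : IntegrableOn (fun v : ℝ => C * Real.exp ((a - z.re) * v)) (Ioi 0) :=
    (integrableOn_exp_mul_Ioi (by linarith) 0).const_mul _
  have h2 : ‖LT z‖ ≤ ∫ v in Ioi (0:ℝ), C * Real.exp ((a - z.re) * v) := by
    refine norm_integral_le_of_norm_le h1 ?_
    refine (ae_restrict_iff' measurableSet_Ioi).2 (Eventually.of_forall fun v hv => ?_)
    rw [norm_term]
    have h2 := h v (le_of_lt hv)
    calc |eP v| * Real.exp (-(z.re * v)) ≤ (C * Real.exp (a * v)) * Real.exp (-(z.re * v)) := by gcongr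
      _ = C * Real.exp ((a - z.re) * v) := by
        rw [mul_assoc, ← Real.exp_add]; congr 2; ring
  refine h2.trans (le_of_eq ?_)
  rw [integral_const_mul, integral_exp_mul_Ioi (by linarith) 0, mul_zero, Real.exp_zero]
  rw [show a - z.re = -(z.re - a) by ring, neg_div_neg_eq]
  ring

theorem LT_diff {C a : ℝ} (hC : 0 ≤ C) (h : EB C a) {z : ℂ} (hz : a < z.re) : DifferentiableAt ℂ LT z := by
  set r := (z.re - a) / 2 with hr
  have hr0 : 0 < r := by rw [hr]; linarith
  have hbound : IntegrableOn (fun v : ℝ => C * (2 / r) * Real.exp (-(r / 2) * v)) (Ioi 0) :=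
    (integrableOn_exp_mul_Ioi (by linarith) 0).const_mul _
  have key := hasDerivAt_integral_of_dominated_loc_of_deriv_le (𝕜 := ℂ) (μ := volume.restrict (Ioi (0:ℝ)))
    (F := fun z v => (eP v : ℂ) * cexp (-(z * v)))
    (F' := fun z v => (eP v : ℂ) * (-(v : ℂ) * cexp (-(z * v))))
    (x₀ := z) (s := Metric.ball z r) (bound := fun v => C * (2 / r) * Real.exp (-(r / 2) * v))
    (Metric.ball_mem_nhds z hr0)
    (Eventually.of_forall fun w => (term_meas w).aestronglyMeasurable)
    (term_int h hz)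
    ((eP_c_meas.mul (by fun_prop)).aestronglyMeasurable)
    ((ae_restrict_iff' measurableSet_Ioi).2 (Eventually.of_forall fun v hv w hw => by
      have hv0 : 0 < v := hv
      have hw1 : z.re - r < w.re := by
        rw [Metric.mem_ball, dist_eq_norm] at hw
        have h1 := (abs_le.1 ((Complex.abs_re_le_norm (w - z)).trans hw.le)).1
        have h2 := (Complex.abs_re_le_norm (w - z)).trans_lt hw
        rw [Complex.sub_re] at h2
        linarith [neg_abs_le (w.re - z.re)]
      rw [norm_mul, norm_mul, norm_neg, Complex.norm_real, Complex.norm_real, Real.norm_eq_abs,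
        Real.norm_eq_abs, abs_of_pos hv0, Complex.norm_exp]
      have e1 : (-(w * (v:ℂ))).re = -(w.re * v) := by simp
      rw [e1]
      have h2 := h v hv0.le
      have h3 : v ≤ 2 / r * Real.exp (r / 2 * v) := by
        have h4 := Real.add_one_le_exp (r / 2 * v)
        have h5 : v = 2 / r * (r / 2 * v) := by field_simp
        calc v = 2 / r * (r / 2 * v) := h5
          _ ≤ _ := by gcongr; linarith
      have h6 : Real.exp (-(w.re * v)) ≤ Real.exp (-((a + r) * v)) := by
        refine Real.exp_le_exp.2 ?_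
        have : a + r ≤ w.re := by linarith
        nlinarith
      calc |eP v| * (v * Real.exp (-(w.re * v))) ≤
            (C * Real.exp (a * v)) * ((2 / r * Real.exp (r / 2 * v)) * Real.exp (-((a + r) * v))) := by
            gcongr
        _ = C * (2 / r) * (Real.exp (a * v) * Real.exp (r / 2 * v) * Real.exp (-((a + r) * v))) := by ring
        _ = _ := by
          rw [← Real.exp_add, ← Real.exp_add]
          congr 2
          ring))
    hbound
    (Eventually.of_forall fun v w _ => by
      have h1 : HasDerivAt (fun w : ℂ => -(w * (v:ℂ))) (-(1 * (v:ℂ))) w :=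
        ((hasDerivAt_id w).mul_const (v:ℂ)).neg
      have h2 := h1.cexp.const_mul (eP v : ℂ)
      have e : (eP v : ℂ) * (-(v : ℂ) * cexp (-(w * v))) = (eP v : ℂ) * (cexp (-(w * v)) * -(1 * (v : ℂ))) := by
        ring
      rw [e]
      exact h2)
  exact key.2.differentiableAt

theorem Z1_ne {s : ℂ} (hs : s ≠ 1) : riemannZeta₁ s = (s - 1) * riemannZeta s := by
  rw [riemannZeta_eq_inv_sub_mul hs]
  have : s - 1 ≠ 0 := sub_ne_zero.2 hs
  field_simp

theorem Z1_ne_zero {s : ℂ} (h : s ≠ 1 → riemannZeta s ≠ 0) : riemannZeta₁ s ≠ 0 := by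
  by_cases hs : s = 1
  · rw [hs]
    simp
  · rw [Z1_ne hs]
    exact mul_ne_zero (sub_ne_zero.2 hs) (h hs)

theorem Gh_diff {z : ℂ} (h1 : 1 + z ≠ 0) (h2 : riemannZeta₁ (1 + z) ≠ 0) : DifferentiableAt ℂ Gh z := by
  unfold Gh
  have h3 : Differentiable ℂ (deriv riemannZeta₁) := differentiable_riemannZeta₁.deriv
  have h4 : DifferentiableAt ℂ (fun z : ℂ => riemannZeta₁ (1 + z)) z :=
    (differentiable_riemannZeta₁.differentiableAt).comp z (by fun_prop)
  have h5 : DifferentiableAt ℂ (fun z : ℂ => deriv riemannZeta₁ (1 + z)) z :=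
    (h3.differentiableAt).comp z (by fun_prop)
  exact (((h5.div h4 h2).add_const 1).neg).div (by fun_prop) h1

/-- change of variables to the logarithmic scale -/
theorem exp_change_Ioi (g : ℝ → ℂ) : ∫ t in Ioi (1:ℝ), g t = ∫ v in Ioi (0:ℝ), (Real.exp v : ℂ) * g (Real.exp v) := by
  have himg : Real.exp '' Ioi 0 = Ioi 1 := by
    ext y
    constructor
    · rintro ⟨v, hv, rfl⟩
      exact Real.one_lt_exp_iff.2 hv
    · intro hy
      have hy1 : (1:ℝ) < y := hy
      exact ⟨Real.log y, Real.log_pos hy1, Real.exp_log (by linarith)⟩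
  rw [← himg, integral_image_eq_integral_abs_deriv_smul measurableSet_Ioi
    (fun x _ => (Real.hasDerivAt_exp x).hasDerivWithinAt) Real.exp_injective.injOn]
  refine setIntegral_congr_fun measurableSet_Ioi fun v _ => ?_
  simp only [abs_of_pos (Real.exp_pos v), Complex.real_smul]

theorem LT_eq_Gh_right {z : ℂ} (hz : 0 < z.re) : LT z = Gh z := by
  have hs : 1 < (1 + z).re := by simp; exact hz
  have hz0 : z ≠ 0 := by rintro rfl; simp at hz
  have hs0 : (1 + z) ≠ 0 := by
    intro h
    rw [h] at hs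
    simp at hs
    linarith
  have hs1 : (1 + z) ≠ 1 := by
    intro h
    apply hz0
    linear_combination h
  -- the L-series
  have hO : (fun n : ℕ => ∑ k ∈ Finset.Icc 1 n, ArithmeticFunction.vonMangoldt k) =O[atTop]
      fun n : ℕ => (n : ℝ) ^ (1 : ℝ) := by
    obtain ⟨C, hC⟩ : ∃ C : ℝ, ∀ x : ℝ, 0 ≤ x → Chebyshev.psi x ≤ C * x :=
      ⟨Real.log 4 + 4, fun x hx => Chebyshev.psi_le_const_mul_self hx⟩
    refine Asymptotics.IsBigO.of_bound C (Eventually.of_forall fun n => ?_)
    have h1 := hC n (Nat.cast_nonneg n)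
    rw [Real.rpow_one, Real.norm_of_nonneg (Finset.sum_nonneg fun _ _ =>
      ArithmeticFunction.vonMangoldt_nonneg), Real.norm_of_nonneg (Nat.cast_nonneg n)]
    refine le_trans (le_of_eq ?_) h1
    unfold Chebyshev.psi
    rw [Nat.floor_natCast]
    rfl
  have key := LSeries_eq_mul_integral_of_nonneg (fun n => ArithmeticFunction.vonMangoldt n) (r := 1)
    zero_le_one (s := 1 + z) hs hO (fun n => ArithmeticFunction.vonMangoldt_nonneg)
  rw [ArithmeticFunction.LSeries_vonMangoldt_eq_deriv_riemannZeta_div hs] at key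
  rw [exp_change_Ioi] at key
  have hI : ∫ v in Ioi (0:ℝ), (Real.exp v : ℂ) * ((∑ k ∈ Finset.Icc 1 ⌊Real.exp v⌋₊,
      ((ArithmeticFunction.vonMangoldt k : ℝ) : ℂ)) * ((Real.exp v : ℝ) : ℂ) ^ (-((1 + z) + 1))) =
      ∫ v in Ioi (0:ℝ), ((eP v : ℂ) * cexp (-(z * v)) + cexp (-z * v)) := by
    refine setIntegral_congr_fun measurableSet_Ioi fun v _ => ?_
    have h1 : (∑ k ∈ Finset.Icc 1 ⌊Real.exp v⌋₊, ((ArithmeticFunction.vonMangoldt k : ℝ) : ℂ)) =
        (Chebyshev.psi (Real.exp v) : ℂ) := by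
      unfold Chebyshev.psi
      push_cast
      rfl
    have h2 : ((Real.exp v : ℝ) : ℂ) ^ (-((1 + z) + 1)) = cexp (-(z + 2) * v) := by
      rw [Complex.cpow_def_of_ne_zero (by exact_mod_cast (Real.exp_pos v).ne'), ← Complex.ofReal_log
        (Real.exp_pos v).le, Real.log_exp]
      congr 1
      ring
    rw [h1, h2]
    unfold eP
    push_cast
    have e1 : cexp (-(z + 2) * v) = cexp (-v) * cexp (-v) * cexp (-(z * v)) := by
      rw [← Complex.exp_add, ← Complex.exp_add]; congr 1; ring
    have e2 : cexp (v : ℂ) * cexp (-(v : ℂ)) = 1 := by rw [← Complex.exp_add]; simp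
    rw [e1]
    have e3 : cexp (-z * v) = cexp (-(z * v)) := by congr 1; ring
    rw [e3]
    linear_combination (Chebyshev.psi (Real.exp v) : ℂ) * cexp (-(v:ℂ)) * cexp (-(z * v)) * e2
  rw [hI] at key
  obtain ⟨C, hC, hb⟩ := eP_pnt 0
  have hEB : EB (C + |Chebyshev.psi (Real.exp 1)| + 1) 0 := by
    intro v hv
    rw [zero_mul, Real.exp_zero, mul_one]
    by_cases h1 : 1 ≤ v
    · have := hb v h1
      rw [pow_zero, div_one] at this
      have := abs_nonneg (Chebyshev.psi (Real.exp 1))
      linarith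
    · rw [not_le] at h1
      unfold eP
      have h2 : Chebyshev.psi (Real.exp v) ≤ Chebyshev.psi (Real.exp 1) :=
        Chebyshev.psi_mono (Real.exp_le_exp.2 h1.le)
      have h3 := Chebyshev.psi_nonneg (Real.exp v)
      have h4 : Real.exp (-v) ≤ 1 := Real.exp_le_one_iff.2 (by linarith)
      have h5 := Real.exp_pos (-v)
      have h6 := le_abs_self (Chebyshev.psi (Real.exp 1))
      rw [abs_le]
      constructor
      · nlinarith
      · nlinarith
  have hi1 := term_int hEB hz
  have hi2 : IntegrableOn (fun v : ℝ => cexp (-z * v)) (Ioi 0) :=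
    integrableOn_exp_mul_complex_Ioi (by simpa using hz) 0
  rw [integral_add hi1 hi2, integral_exp_mul_complex_Ioi (by simpa using hz) 0] at key
  have hLT : LT z = ∫ v in Ioi (0:ℝ), (eP v : ℂ) * cexp (-(z * v)) := rfl
  rw [← hLT] at key
  -- the formula
  have hzeta : riemannZeta (1 + z) ≠ 0 := riemannZeta_ne_zero_of_one_lt_re hs
  have hZ1 := Z1_ne hs1
  have hdZ : deriv riemannZeta₁ (1 + z) = riemannZeta (1 + z) + z * deriv riemannZeta (1 + z) := by
    have h4 : riemannZeta₁ =ᶠ[𝓝 (1 + z)] fun w => (w - 1) * riemannZeta w := by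
      filter_upwards [isOpen_ne.mem_nhds hs1] with w hw
      exact Z1_ne hw
    rw [h4.deriv_eq]
    have h5 := ((hasDerivAt_id (1 + z)).sub_const 1).mul (differentiableAt_riemannZeta hs1).hasDerivAt
    have h6 : HasDerivAt (fun z => (z - 1) * riemannZeta z)
      (1 * riemannZeta (1 + z) + ((1 + z) - 1) * deriv riemannZeta (1 + z)) (1 + z) := h5
    rw [h6.deriv]
    ring
  unfold Gh
  rw [hdZ, hZ1]
  have e4 : (1 + z) - 1 = z := by ring
  rw [e4]
  have e5 : -cexp (-z * ((0:ℝ) : ℂ)) / -z = 1 / z := by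
    simp
  rw [e5] at key
  field_simp at key ⊢
  linear_combination -key

end

end Q239.RN
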