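import Pool.Agent.Q239.RN.Lap
import Pool.Agent.H307R2.Sg6

set_option autoImplicit false

/-! # The Laplace transform of the relative error: continuation -/

open Filter Topology MeasureTheory Set Complex

namespace Q239.RN

noncomputable section

/-- the continuation is correct on the half plane of convergence -/
theorem LT_eq_Gh {C a : ℝ} (hC : 0 ≤ C) (ha : -1 < a) (h : EB C a)
    (hz : ∀ s : ℂ, 1 + a < s.re → riemannZeta s ≠ 0) {z : ℂ} (hza : a < z.re) : LT z = Gh z := by
  set U : Set ℂ := {w | a < w.re} with hU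
  have hUo : IsOpen U := isOpen_lt continuous_const Complex.continuous_re
  have hUc : Convex ℝ U := convex_halfSpace_re_gt a
  have h1 : DifferentiableOn ℂ LT U := fun w hw => (LT_diff hC h hw).differentiableWithinAt
  have h2 : DifferentiableOn ℂ Gh U := fun w hw => by
    have hw' : a < w.re := hw
    refine (Gh_diff ?_ ?_).differentiableWithinAt
    · intro h0
      have := congrArg Complex.re h0
      simp at this
      linarith
    · exact Z1_ne_zero fun _ => hz _ (by simp; linarith)
  have h3 := (h1.analyticOnNhd hUo).eqOn_of_preconnected_of_eventuallyEq (h2.analyticOnNhd hUo)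
    hUc.isPreconnected (z₀ := ((|a| + 1 : ℝ) : ℂ)) (by
      have : a < |a| + 1 := by linarith [le_abs_self a]
      simpa [hU] using this) (by
      have h4 : {w : ℂ | 0 < w.re} ∈ 𝓝 ((|a| + 1 : ℝ) : ℂ) := by
        refine (isOpen_lt continuous_const Complex.continuous_re).mem_nhds ?_
        have : 0 < |a| + 1 := by positivity
        simpa using this
      filter_upwards [h4] with w hw
      exact LT_eq_Gh_right hw)
  exact h3 hza

/-- the zero-free neighbourhood of the real segment -/
theorem near_real : ∃ h0 : ℝ, 0 < h0 ∧ h0 ≤ 1 ∧ ∀ z : ℂ, -(3 / 4) - h0 < z.re → z.re < 3 → |z.im| < 2 * h0 →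
    DifferentiableAt ℂ Gh z := by
  set U : Set ℂ := {z | 1 + z ≠ 0} ∩ {z | riemannZeta₁ (1 + z) ≠ 0} with hU
  have hUo : IsOpen U := by
    refine IsOpen.inter ?_ ?_
    · exact isOpen_ne_fun (by fun_prop) continuous_const
    · have hc : Continuous fun z : ℂ => riemannZeta₁ (1 + z) :=
        differentiable_riemannZeta₁.continuous.comp (by fun_prop)
      exact isOpen_ne_fun hc continuous_const
  set K : Set ℂ := (fun x : ℝ => (x : ℂ)) '' Icc (-(3 / 4)) 3 with hK
  have hKc : IsCompact K := isCompact_Icc.image Complex.continuous_ofReal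
  have hKU : K ⊆ U := by
    rintro z ⟨x, hx, rfl⟩
    constructor
    · intro h0
      have h1 := congrArg Complex.re h0
      simp at h1
      linarith [hx.1]
    · refine Z1_ne_zero fun hne => ?_
      rcases lt_trichotomy (1 + x) 1 with h1 | h1 | h1
      · have h2 := (Pool.Agent.H307R2.zeta_neg (x := 1 + x) (by linarith [hx.1]) h1).1
        intro h3
        have e : ((1 + x : ℝ) : ℂ) = 1 + (x : ℂ) := by push_cast; ring
        rw [e, h3] at h2
        simp at h2
      · exfalso
        apply hne
        have : x = 0 := by linarith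
        rw [this]
        simp
      · refine riemannZeta_ne_zero_of_one_lt_re ?_
        simp only [add_re, one_re, ofReal_re]
        exact h1
  obtain ⟨δ, hδ, hth⟩ := hKc.exists_thickening_subset_open hUo hKU
  refine ⟨min (δ / 8) 1, lt_min (by linarith) one_pos, min_le_right _ _, fun z h1 h2 h3 => ?_⟩
  have hm : min (δ / 8) 1 ≤ δ / 8 := min_le_left _ _
  have hmem : z ∈ Metric.thickening δ K := by
    rw [Metric.mem_thickening_iff]
    refine ⟨((max (-(3 / 4)) z.re : ℝ) : ℂ), ⟨max (-(3 / 4)) z.re, ⟨le_max_left _ _, max_le (by norm_num) h2.le⟩, rfl⟩, ?_⟩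
    rw [dist_eq_norm]
    refine (Complex.norm_le_abs_re_add_abs_im _).trans_lt ?_
    rw [Complex.sub_re, Complex.sub_im, Complex.ofReal_re, Complex.ofReal_im, sub_zero]
    have h4 : |z.re - max (-(3 / 4)) z.re| ≤ δ / 8 := by
      rcases le_total (-(3 / 4)) z.re with h5 | h5
      · rw [max_eq_right h5, sub_self, abs_zero]
        linarith
      · rw [max_eq_left h5, abs_le]
        constructor <;> linarith
    linarith
  obtain ⟨h5, h6⟩ := hth hmem
  exact Gh_diff h5 h6

/-! ## tails and their transforms -/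

/-- the transform of a tail integral -/
theorem tailQ {g : ℝ → ℂ} (hg : Measurable g) (hgi : IntegrableOn g (Ioi 0)) {z : ℂ} (hc : z.re ≠ 0)
    (hgz : IntegrableOn (fun v => g v * cexp (-(z * v))) (Ioi 0)) :
    IntegrableOn (fun u : ℝ => (∫ v in Ioi u, g v) * cexp (-(z * u))) (Ioi 0) ∧
    ∫ u in Ioi (0:ℝ), (∫ v in Ioi u, g v) * cexp (-(z * u)) =
      ((∫ v in Ioi (0:ℝ), g v) - ∫ v in Ioi (0:ℝ), g v * cexp (-(z * v))) / z := by
  have hz0 : z ≠ 0 := by
    rintro rfl
    simp at hc
  set c := z.re with hcdef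
  set H : ℝ × ℝ → ℂ := fun p => indicator {p : ℝ × ℝ | p.1 < p.2} (fun p => g p.2 * cexp (-(z * p.1))) p
    with hH
  have hset : MeasurableSet {p : ℝ × ℝ | p.1 < p.2} := measurableSet_lt measurable_fst measurable_snd
  have hHm : Measurable H := by
    refine Measurable.indicator ?_ hset
    exact (hg.comp measurable_snd).mul (by fun_prop)
  have hnorm : ∀ u : ℝ, ‖cexp (-(z * u))‖ = Real.exp (-c * u) := by
    intro u
    rw [Complex.norm_exp]
    congr 1
    simp [hcdef]
  -- the inner integrals
  have hin1 : ∀ u : ℝ, u ∈ Ioi (0:ℝ) → ∫ v in Ioi (0:ℝ), H (u, v) = (∫ v in Ioi u, g v) * cexp (-(z * u)) := by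
    intro u hu
    have e1 : ∀ v : ℝ, H (u, v) = indicator (Ioi u) (fun v => g v * cexp (-(z * u))) v := by
      intro v
      simp only [hH, indicator, mem_ofPred_eq, mem_Ioi]
    simp only [e1]
    rw [setIntegral_indicator measurableSet_Ioi]
    have e2 : Ioi (0:ℝ) ∩ Ioi u = Ioi u := by
      rw [Ioi_inter_Ioi, max_eq_right (le_of_lt hu)]
    rw [e2, integral_mul_const]
  have hexpint : ∀ v : ℝ, ∫ u in (0:ℝ)..v, cexp (-(z * u)) = (1 - cexp (-(z * v))) / z := by
    intro v
    have h1 : ∫ u in (0:ℝ)..v, cexp (-z * u) = (cexp (-z * v) - cexp (-z * (0:ℝ))) / -z :=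
      integral_exp_mul_complex (neg_ne_zero.2 hz0)
    have e1 : ∀ u : ℝ, cexp (-(z * u)) = cexp (-z * u) := fun u => by congr 1; ring
    simp only [e1]
    rw [h1]
    simp only [ofReal_zero, mul_zero, Complex.exp_zero]
    field_simp
    ring
  have hin2 : ∀ v : ℝ, v ∈ Ioi (0:ℝ) → ∫ u in Ioi (0:ℝ), H (u, v) = g v * ((1 - cexp (-(z * v))) / z) := by
    intro v hv
    have e1 : ∀ u : ℝ, H (u, v) = indicator (Iio v) (fun u => g v * cexp (-(z * u))) u := by
      intro u
      simp only [hH, indicator, mem_ofPred_eq, mem_Iio]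
    simp only [e1]
    rw [setIntegral_indicator measurableSet_Iio]
    have e2 : Ioi (0:ℝ) ∩ Iio v = Ioo 0 v := rfl
    rw [e2, integral_const_mul, ← integral_Ioc_eq_integral_Ioo, ← intervalIntegral.integral_of_le (le_of_lt hv),
      hexpint]
  have hin3 : ∀ v : ℝ, v ∈ Ioi (0:ℝ) → ∫ u in Ioi (0:ℝ), ‖H (u, v)‖ = ‖g v‖ * ((1 - Real.exp (-c * v)) / c) := by
    intro v hv
    have e1 : ∀ u : ℝ, ‖H (u, v)‖ = indicator (Iio v) (fun u => ‖g v‖ * Real.exp (-c * u)) u := by
      intro u
      simp only [hH, indicator, mem_ofPred_eq, mem_Iio]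
      split_ifs
      · rw [norm_mul, hnorm]
      · simp
    simp only [e1]
    rw [setIntegral_indicator measurableSet_Iio]
    have e2 : Ioi (0:ℝ) ∩ Iio v = Ioo 0 v := rfl
    rw [e2, integral_const_mul, ← integral_Ioc_eq_integral_Ioo, ← intervalIntegral.integral_of_le (le_of_lt hv)]
    congr 1
    rw [intervalIntegral.integral_comp_mul_left (fun x => Real.exp x) (neg_ne_zero.2 hc), integral_exp]
    simp only [mul_zero, Real.exp_zero, smul_eq_mul]
    field_simp
    ring
  have hHi : Integrable H ((volume.restrict (Ioi (0:ℝ))).prod (volume.restrict (Ioi (0:ℝ)))) := by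
    rw [integrable_prod_iff' hHm.aestronglyMeasurable]
    constructor
    · refine (ae_restrict_iff' measurableSet_Ioi).2 (Eventually.of_forall fun v hv => ?_)
      have e1 : (fun u : ℝ => H (u, v)) = indicator (Iio v) (fun u => g v * cexp (-(z * u))) := by
        funext u
        simp only [hH, indicator, mem_ofPred_eq, mem_Iio]
      rw [e1, integrable_indicator_iff measurableSet_Iio]
      unfold IntegrableOn
      rw [Measure.restrict_restrict measurableSet_Iio]
      have h3 : IntegrableOn (fun u : ℝ => g v * cexp (-(z * u))) (Icc 0 v) :=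
        (Continuous.continuousOn (by fun_prop)).integrableOn_compact isCompact_Icc
      refine h3.mono_set ?_
      rintro u ⟨h4, h5⟩
      exact ⟨le_of_lt h5, le_of_lt h4⟩
    · have h1 : IntegrableOn (fun v => ‖g v‖ * ((1 - Real.exp (-c * v)) / c)) (Ioi 0) := by
        have h2 : IntegrableOn (fun v => (‖g v‖ - ‖g v * cexp (-(z * v))‖) * c⁻¹) (Ioi 0) :=
          (hgi.norm.sub hgz.norm).mul_const _
        refine h2.congr (Eventually.of_forall fun v => ?_)
        simp only
        rw [norm_mul, hnorm]
        field_simp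
      refine Integrable.congr h1 ?_
      refine (ae_restrict_iff' measurableSet_Ioi).2 (Eventually.of_forall fun v hv => ?_)
      exact (hin3 v hv).symm
  constructor
  · have h1 := hHi.integral_prod_left
    refine Integrable.congr h1 ?_
    refine (ae_restrict_iff' measurableSet_Ioi).2 (Eventually.of_forall fun u hu => ?_)
    exact hin1 u hu
  · have h1 := integral_integral_swap (f := fun u v => H (u, v)) hHi
    have h2 : ∫ u in Ioi (0:ℝ), (∫ v in Ioi u, g v) * cexp (-(z * u)) =
        ∫ u in Ioi (0:ℝ), ∫ v in Ioi (0:ℝ), H (u, v) :=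
      setIntegral_congr_fun measurableSet_Ioi fun u hu => (hin1 u hu).symm
    have h3 : ∫ v in Ioi (0:ℝ), ∫ u in Ioi (0:ℝ), H (u, v) =
        ∫ v in Ioi (0:ℝ), g v * ((1 - cexp (-(z * v))) / z) :=
      setIntegral_congr_fun measurableSet_Ioi fun v hv => hin2 v hv
    rw [h2, h1, h3, ← integral_sub hgi hgz, ← integral_div]
    refine setIntegral_congr_fun measurableSet_Ioi fun v _ => ?_
    ring

end

end Q239.RN
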