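import Pool.Agent.Q239.RN.Core2

/-! # The theorem of `Pool.Agent.W190` in the logarithmic scale, with a general bound for the operator

The proof is the one of `Pool.Agent.W190.main_u`; only the way the operator is estimated is left open. -/

set_option autoImplicit false
set_option maxHeartbeats 4000000

open Complex Filter Topology Set Metric MeasureTheory
open H353 (FF mu mu_cast FF_anal FF_order_ne_top zeros_finite FF_bound ln ln_re ln_im ln_cont ln_ne)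
open Pool.Agent.W190

namespace Q239.RN

noncomputable section

theorem main_u2 {a : ℕ → ℂ} (ha0 : a 0 = 0) (hs : Summable fun n : ℕ => ‖a n‖ / (n : ℝ) ^ 2)
    {σ θ κ c α δ : ℝ} (hσ : 1 / 2 ≤ σ) (hθ : σ < θ) (hκ : 0 ≤ κ) (hc : 0 < c) (hα : 0 ≤ α)
    (hακ : (κ + 1) * α < 1) (hdens : Dens σ α)
    (ρ₀ : ℂ) (hρ0 : FF ρ₀ = 0) (hρθ : θ < ρ₀.re) (e : ℂ → ℕ) (D : ℝ → ℕ) (hδ1 : δ < 1)
    (hDu : ∀ᶠ u in atTop, (D u : ℝ) ≤ u ^ δ) (B : ℂ → ℂ)
    (hB : Differentiable ℂ B) (b : ℕ)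
    (heb : mu ρ₀ = 1 + e ρ₀ + b) (he : ∀ ρ, ρ ≠ ρ₀ → e ρ = mu ρ)
    (hb : (b : ℕ∞) ≤ analyticOrderAt B ρ₀)
    (F1 B1 : ℂ → ℂ) (hF1 : AnalyticAt ℂ F1 ρ₀) (hB1 : AnalyticAt ℂ B1 ρ₀) (hF10 : F1 ρ₀ ≠ 0)
    (hB10 : B1 ρ₀ ≠ 0)
    (hF : ∀ᶠ z in 𝓝 ρ₀, FF z = (z - ρ₀) ^ mu ρ₀ • F1 z)
    (hBB : ∀ᶠ z in 𝓝 ρ₀, B z = (z - ρ₀) ^ b • B1 z)
    (hA : ∀ s : ℂ, s.re = 2 → LSeries a s * ((s - 1) * FF s) = B s)
    (CB : ℝ) (hCB0 : 0 ≤ CB) (kB : ℕ)
    (hCB : ∀ z : ℂ, 1 / 2 ≤ z.re → z.re ≤ 2 → ‖B z‖ ≤ CB * (3 + |z.im|) ^ kB)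
    (ε : ℝ) (hε : 0 < ε) :
    ∃ q : ℝ, 1 ≤ q ∧ ∀ᶠ u in atTop, ∀ X : ℝ, 0 ≤ X →
      (∀ L : List ℂ, (∀ r ∈ L, 0 ≤ r.re) → (∀ k ∈ Finset.Icc 1 (D u + 1), (k : ℂ) ∈ L) →
        ((Nn u : ℝ) + 3) * hf c κ q u + L.length * df c κ q u ≤ et c κ u →
        ‖Op (hf c κ q u) (df c κ q u) (Nn u) L (TT a) u‖ ≤ 2 ^ L.length * X) →
      Real.exp ((ρ₀.re - ε) * u) ≤ X := by
  have hρ1 : ρ₀.re < 1 := ZU.J_g2b.FF_zero_re hρ0
  have hθ1 : θ < 1 := hρθ.trans hρ1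
  obtain ⟨c₀, hc₀, hc1, hgap⟩ := exists_gap ρ₀
  set r : ℝ := (ρ₀.re - θ) / 2 with hrdef
  have hr : 0 < r := by rw [hrdef]; linarith
  set q : ℝ := 4 * (1 + c) * (1 + ‖ρ₀‖) with hqdef
  have hn0 := norm_nonneg ρ₀
  have hq4 : 4 ≤ q := by
    rw [hqdef]
    nlinarith [mul_nonneg hc.le hn0]
  have hq1 : 1 ≤ q := by linarith
  have hq0 : 0 < q := by linarith
  have hqρ : c * ‖ρ₀‖ ≤ q * (1 / 2) := by
    rw [hqdef]
    nlinarith [mul_nonneg hc.le hn0]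
  set K1 : ℝ := ‖B1 ρ₀‖ / ‖F1 ρ₀‖ with hK1
  have hK1p : 0 < K1 := div_pos (norm_pos_iff.2 hB10) (norm_pos_iff.2 hF10)
  set CA := ∑' n : ℕ, ‖a n‖ / (n : ℝ) ^ 2 with hCA
  have hCA0 : 0 ≤ CA := tsum_nonneg fun n => by positivity
  set n : ℝ → ℕ := fun u => nz σ (Tf c κ q u) with hn
  set Mf : ℝ → ℝ := fun u => Mc σ θ (df c κ q u) (Tf c κ q u) r
    (CB * (3 + (Tf c κ q u + 1)) ^ kB) b (n u) (D u) with hMf
  have hMSP : SP Mf := Mc_SP hc hκ hq1 hα hακ hdens hδ1 hDu hσ hθ hθ1 hr hCB0 kB b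
  set A0 : ℝ := 384 / c₀ with hA0
  set W : ℝ → ℝ := fun u => (A0 * (hf c κ q u)⁻¹) ^ (n u + D u + 1) with hW
  have hWSP : SP W := pow_nz_SP hc hκ hq1 hα hακ hdens hδ1 hDu A0 (by positivity)
  have h2SP : SP (fun u => (2:ℝ) ^ (n u + D u + 1)) :=
    pow_nz_SP' hc hκ hq1 hα hακ hdens hδ1 hDu 2 (by norm_num)
  have h3SP : SP (fun u => (3:ℝ) ^ (n u + D u + 1)) :=
    pow_nz_SP' hc hκ hq1 hα hακ hdens hδ1 hDu 3 (by norm_num)
  have hTSP : SP (fun u => Tf c κ q u) := by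
    refine ((SP.const (by norm_num : (0:ℝ) ≤ 12)).mul (hf_SP hc hκ hq1)).congr ?_
    filter_upwards with u
    unfold Tf
    rw [div_eq_mul_inv]
  have hpi := Real.pi_pos
  have hIS := hf_SP (q := q) hc hκ hq1
  set Q1 : ℝ → ℝ := fun u => W u * ((2 * Real.pi) * (2:ℝ) ^ (n u + D u + 1))
    with hQ1
  have hQ1SP : SP Q1 := hWSP.mul ((SP.const (by positivity)).mul h2SP)
  set Q2 : ℝ → ℝ := fun u => W u * ((3:ℝ) ^ (n u + D u + 1) * (CA * (2 * Real.pi)) * Tf c κ q u ^ 2) +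
    (W u * (1 / (2 * r) * Real.exp c * Mf u * (2 * Tf c κ q u)) + W u * (1 / (2 * r) * Mf u * (2 * (2 - θ))))
    with hQ2
  have hQ2SP : SP Q2 := by
    refine SP.add (hWSP.mul ((h3SP.mul (SP.const (by positivity))).mul (hTSP.pow 2))) (SP.add ?_ ?_)
    · exact hWSP.mul (((SP.const (by positivity)).mul hMSP).mul ((SP.const (by norm_num)).mul hTSP))
    · exact hWSP.mul (((SP.const (by positivity)).mul hMSP).mul (SP.const (by linarith)))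
  obtain ⟨C3, a', hC3, ha', hnb⟩ := nD_bound (q := q) hc hκ hq1 hα hακ hdens hδ1 hDu
  -- the number of zeros is smaller than `N`
  have hnN : ∀ᶠ u in atTop, n u + D u + 1 ≤ Nn u + 3 := by
    filter_upwards [rpow_le_lin (K := 10 / C3) ha' (by positivity), hnb] with u a1 a2
    have a4 := Nn_lower u
    have a5 : C3 * u ^ a' ≤ 10 * u := by
      calc C3 * u ^ a' ≤ C3 * (10 / C3 * u) := mul_le_mul_of_nonneg_left a1 hC3.le
        _ = 10 * u := by field_simp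
    have : ((n u + D u + 1 : ℕ) : ℝ) ≤ ((Nn u + 3 : ℕ) : ℝ) := by
      push_cast at a2 ⊢
      linarith
    exact_mod_cast this
  refine ⟨q, hq1, ?_⟩
  filter_upwards [growth (mul_pos hpi hK1p) hρθ hε hQ1SP hQ2SP, eventually_ge_atTop 1, hnN,
    hf_small hc hκ hq1 (1 / 4) (by norm_num), hf_small hc hκ hq1 (12 / (‖ρ₀‖ + 2)) (by positivity),
    hDu, rpow_le_lin (K := 48 / c) hδ1 (by positivity), eventually_ge_atTop (c / 48 * (‖ρ₀‖ + 1))]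
    with u hg hu hnu hs1 hs2 hDu1 hs3 hs4 X hX hOpX
  have hu0 : 0 < u := by linarith
  set h := hf c κ q u with hh
  have hhp : 0 < h := hf_pos hc hκ hq0 hu
  set T := Tf c κ q u with hT
  have hTh : T * h = 12 := by
    rw [hT]
    unfold Tf
    rw [← hh]
    field_simp
  set d := df c κ q u with hd
  have hdh : d = h / 192 := rfl
  have hdp : 0 < d := by rw [hdh]; positivity
  have hTd : 16 * T * d ≤ 1 := by
    rw [hdh]
    nlinarith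
  have hetp := et_pos hc hκ hu
  have hetc := et_upper hc hκ hu
  have hNh : ((Nn u : ℝ) + 3) * h = et c κ u / q := hf_len hc hκ hq0 hu
  have hNh2 : ((Nn u : ℝ) + 3) * h ≤ et c κ u / 4 := by
    rw [hNh]
    exact div_le_div_of_nonneg_left hetp.le (by norm_num) hq4
  have hρT : ‖ρ₀‖ + 2 ≤ T := by
    rw [le_div_iff₀ (by positivity)] at hs2
    have : 0 < ‖ρ₀‖ + 2 := by positivity
    nlinarith
  have hN1 : (((Nn u) + 2 : ℕ) : ℝ) * (‖ρ₀‖ * h) ≤ 1 / 2 := by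
    have h1 : (((Nn u) + 2 : ℕ) : ℝ) * h ≤ c / q := by
      push_cast
      calc ((Nn u : ℝ) + 2) * h ≤ ((Nn u : ℝ) + 3) * h := by gcongr; norm_num
        _ = et c κ u / q := hNh
        _ ≤ c / q := by gcongr
    calc (((Nn u) + 2 : ℕ) : ℝ) * (‖ρ₀‖ * h) = ‖ρ₀‖ * ((((Nn u) + 2 : ℕ) : ℝ) * h) := by ring
      _ ≤ ‖ρ₀‖ * (c / q) := by gcongr
      _ = c * ‖ρ₀‖ / q := by ring
      _ ≤ 1 / 2 := by rw [div_le_iff₀ hq0]; linarith
  have hD1 : (‖ρ₀‖ + (D u + 1)) * d ≤ 1 / 2 := by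
    have h1 : ‖ρ₀‖ + ((D u : ℝ) + 1) ≤ 96 / c * u := by
      have h2 : ‖ρ₀‖ + 1 ≤ 48 / c * u := by
        rw [div_mul_eq_mul_div, le_div_iff₀ hc]
        linarith
      have h3 : 96 / c * u = 48 / c * u + 48 / c * u := by ring
      linarith
    have h4 : h ≤ c / u := hf_upper hc hκ hq1 hu
    calc (‖ρ₀‖ + ((D u : ℝ) + 1)) * d ≤ (96 / c * u) * (c / u / 192) := by
          rw [hdh]
          gcongr
      _ = 1 / 2 := by field_simp; norm_num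
  have hlen : ((Nn u : ℝ) + 3) * h + ((n u + D u + 1 : ℕ) : ℝ) * d ≤ et c κ u := by
    have h1 : ((n u + D u + 1 : ℕ) : ℝ) ≤ (Nn u : ℝ) + 3 := by exact_mod_cast hnu
    have h2 : ((n u + D u + 1 : ℕ) : ℝ) * d ≤ ((Nn u : ℝ) + 3) * h := by
      rw [hdh]
      have : h / 192 ≤ h := by linarith
      gcongr
    linarith
  have key := core2 ha0 hs hσ hθ hθ1 hdp hhp hs1 hTh hTd hu0.le (ZF σ T)
    (fun ρ h1 h2 h3 => mem_ZF.2 ⟨h1, h2, h3⟩) (fun ρ hρ => by linarith [(mem_ZF.1 hρ).2.1])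
    (fun ρ hρ => by
      obtain ⟨h1, h2, h3⟩ := mem_ZF.1 hρ
      have := Complex.norm_le_abs_re_add_abs_im ρ
      have h4 := ZU.J_g2b.FF_zero_re h1
      rw [abs_of_nonneg (by linarith)] at this
      linarith) e (D u) B hB ρ₀ hρ0 hρ1 b heb he hb F1 B1 hF1 hB1 hF10 hF hBB hA r
    (CB * (3 + (T + 1)) ^ kB) c₀ hr (by rw [hrdef]; linarith) (by rw [hrdef]; linarith) hρT
    (fun z z1 z2 z3 => (hCB z z1 z2).trans (by gcongr))
    hc₀ hc1 (fun ρ hρ hne => hgap ρ (mem_ZF.1 hρ).1 hne) (Nn u) hN1 (n u) rfl hD1 X hX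
    (fun L hL1 hL2 hL3 => hOpX L hL1 hL2 (le_trans (by
      have : (L.length : ℝ) ≤ ((n u + D u + 1 : ℕ) : ℝ) := by exact_mod_cast hL3
      gcongr) hlen))
  refine hg X hX ?_
  -- multiply by `W`
  have hWinv : (d / 2 * c₀) ^ (n u + D u + 1) * W u = 1 := by
    rw [hW]
    simp only
    rw [← mul_pow]
    have : d / 2 * c₀ * (A0 * (hf c κ q u)⁻¹) = 1 := by
      rw [hdh, hA0, ← hh]
      field_simp
      norm_num
    rw [this, one_pow]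
  have hW0 : 0 ≤ W u := by
    rw [hW]
    positivity
  have hM0 : 0 ≤ Mf u := by
    rw [hMf]
    simp only
    unfold Mc
    have : 0 ≤ T := by linarith
    rw [← hT, ← hd]
    positivity
  have hdecay : Real.exp (2 * u) * (1 / 4) ^ (Nn u + 2) ≤ Real.exp (θ * u) := by
    have h1 : ((1:ℝ) / 4) ^ (Nn u + 2) ≤ Real.exp (-(2 * u)) := by
      have h2 : (1:ℝ) / 4 ≤ Real.exp (-1) := by
        rw [Real.exp_neg, one_div]
        exact inv_anti₀ (Real.exp_pos 1) (by linarith [Real.exp_one_lt_d9])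
      calc ((1:ℝ) / 4) ^ (Nn u + 2) ≤ (Real.exp (-1)) ^ (Nn u + 2) := by gcongr
        _ = Real.exp (-((Nn u + 2 : ℕ) : ℝ)) := by
            rw [← Real.exp_nat_mul]; congr 1; ring
        _ ≤ Real.exp (-(2 * u)) := by
            refine Real.exp_le_exp.2 ?_
            have := Nn_lower u
            push_cast
            linarith
    calc Real.exp (2 * u) * (1 / 4) ^ (Nn u + 2) ≤ Real.exp (2 * u) * Real.exp (-(2 * u)) := by gcongr
      _ = 1 := by rw [← Real.exp_add]; simp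
      _ ≤ _ := Real.one_le_exp (by nlinarith)
  have hexph : Real.exp (h * ((Nn u + 2 : ℕ) : ℝ)) ≤ Real.exp c := by
    refine Real.exp_le_exp.2 ?_
    push_cast
    have : h * ((Nn u : ℝ) + 2) ≤ ((Nn u : ℝ) + 3) * h := by nlinarith
    linarith
  have hk2 := mul_le_mul_of_nonneg_right key hW0
  have e1 : Real.pi * (‖B1 ρ₀‖ / ‖F1 ρ₀‖ * (d / 2 * c₀) ^ (n u + D u + 1)) * Real.exp (ρ₀.re * u) * W u =
      Real.pi * K1 * Real.exp (ρ₀.re * u) * ((d / 2 * c₀) ^ (n u + D u + 1) * W u) := by ring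
  rw [e1, hWinv, mul_one] at hk2
  refine hk2.trans ?_
  have e2 : Mc σ θ d T r (CB * (3 + (T + 1)) ^ kB) b (n u) (D u) = Mf u := rfl
  rw [e2, ← hCA]
  have hT0 : 0 ≤ T := by linarith
  have hθe := Real.exp_pos (θ * u)
  have t1 : Real.exp (2 * u) * 3 ^ (n u + D u + 1) * CA * (1 / 4) ^ (Nn u + 2) * (2 * Real.pi * T ^ 2) * W u ≤
      W u * ((3:ℝ) ^ (n u + D u + 1) * (CA * (2 * Real.pi)) * T ^ 2) * Real.exp (θ * u) := by
    calc _ = W u * ((3:ℝ) ^ (n u + D u + 1) * (CA * (2 * Real.pi)) * T ^ 2) *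
          (Real.exp (2 * u) * (1 / 4) ^ (Nn u + 2)) := by ring
      _ ≤ _ := by gcongr
  have t2 : 1 / (2 * r) * Real.exp (θ * u) * Real.exp (h * ((Nn u + 2 : ℕ) : ℝ)) * Mf u * (2 * T) * W u ≤
      W u * (1 / (2 * r) * Real.exp c * Mf u * (2 * T)) * Real.exp (θ * u) := by
    calc _ = W u * (1 / (2 * r) * Real.exp (h * ((Nn u + 2 : ℕ) : ℝ)) * Mf u * (2 * T)) * Real.exp (θ * u) := by
          ring
      _ ≤ _ := by gcongr
  have t3 : 1 / (2 * r) * Real.exp (2 * u) * (1 / 4) ^ (Nn u + 2) * Mf u * (2 * (2 - θ)) * W u ≤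
      W u * (1 / (2 * r) * Mf u * (2 * (2 - θ))) * Real.exp (θ * u) := by
    have h2 : 0 ≤ 2 - θ := by linarith
    calc _ = W u * (1 / (2 * r) * Mf u * (2 * (2 - θ))) * (Real.exp (2 * u) * (1 / 4) ^ (Nn u + 2)) := by
          ring
      _ ≤ _ := by gcongr
  have t0 : 2 * Real.pi * (2 ^ (n u + D u + 1) * X) * W u = Q1 u * X := by
    rw [hQ1]
    ring
  have e3 : Q2 u * Real.exp (θ * u) =
      W u * ((3:ℝ) ^ (n u + D u + 1) * (CA * (2 * Real.pi)) * T ^ 2) * Real.exp (θ * u) +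
      (W u * (1 / (2 * r) * Real.exp c * Mf u * (2 * T)) * Real.exp (θ * u) +
      W u * (1 / (2 * r) * Mf u * (2 * (2 - θ))) * Real.exp (θ * u)) := by
    rw [hQ2]
    simp only
    rw [← hT]
    ring
  rw [e3]
  rw [add_mul, add_mul, add_mul, t0]
  linarith

end

end Q239.RN
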