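import Pool.Agent.Q239.RN.MainU2
import Pool.Agent.W190.A16

/-! # The Chebyshev function: the proof of `Pool.Agent.W190.mangoldt_u` with a general bound -/

set_option autoImplicit false
set_option maxHeartbeats 4000000

open Complex Filter Topology Set Metric MeasureTheory
open H353 (FF mu mu_cast mu_pos FF_anal FF_order_ne_top zeros_finite FF_bound)
open Pool.Agent.W190

namespace Q239.RN

noncomputable section

theorem mangoldt_u2 {σ θ κ c α δ : ℝ} (hσ : 1 / 2 ≤ σ) (hθ : σ < θ) (hκ : 0 ≤ κ) (hc : 0 < c) (hα : 0 ≤ α)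
    (hακ : (κ + 1) * α < 1) (hdens : Dens σ α) (ρ₀ : ℂ) (hρ0 : FF ρ₀ = 0) (hρθ : θ < ρ₀.re) (D : ℝ → ℕ)
    (hδ1 : δ < 1) (hDu : ∀ᶠ u in atTop, (D u : ℝ) ≤ u ^ δ)
    (ε : ℝ) (hε : 0 < ε) :
    ∃ q : ℝ, 1 ≤ q ∧ ∀ᶠ u in atTop, ∀ X : ℝ, 0 ≤ X →
      (∀ L : List ℂ, (∀ r ∈ L, 0 ≤ r.re) → (∀ k ∈ Finset.Icc 1 (D u + 1), (k : ℂ) ∈ L) →
        ((Nn u : ℝ) + 3) * hf c κ q u + L.length * df c κ q u ≤ et c κ u →
        ‖Op (hf c κ q u) (df c κ q u) (Nn u) L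
          (TT (fun n => ((ArithmeticFunction.vonMangoldt n : ℝ) : ℂ))) u‖ ≤ 2 ^ L.length * X) →
      Real.exp ((ρ₀.re - ε) * u) ≤ X := by
  classical
  obtain ⟨F1, hF1, hF10, hF⟩ := exists_F1 ρ₀
  have hρ1 : ρ₀.re < 1 := ZU.J_g2b.FF_zero_re hρ0
  have hmu := mu_pos ρ₀ hρ0
  have hρne : ρ₀ - 1 ≠ 0 := by
    intro h
    have := congrArg Complex.re h
    simp at this
    linarith
  set m := mu ρ₀ with hm
  set B1 : ℂ → ℂ := fun z => (z - ρ₀) * F1 z - (z - 1) * (m * F1 z + (z - ρ₀) * deriv F1 z) with hB1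
  have hB1a : AnalyticAt ℂ B1 ρ₀ := by
    have h1 := hF1.deriv
    rw [hB1]
    fun_prop
  have hB10 : B1 ρ₀ ≠ 0 := by
    rw [hB1]
    simp only [sub_self, zero_mul, add_zero, zero_sub, ne_eq, neg_eq_zero, mul_eq_zero, not_or]
    refine ⟨hρne, ?_, hF10⟩
    exact_mod_cast (by omega : m ≠ 0)
  have hFd : Differentiable ℂ FF := ZU.J_g2b.FF_diff
  have hBB : ∀ᶠ z in 𝓝 ρ₀, FF z - (z - 1) * deriv FF z = (z - ρ₀) ^ (m - 1) • B1 z := by
    have h1 : deriv FF =ᶠ[𝓝 ρ₀] deriv (fun z => (z - ρ₀) ^ m • F1 z) :=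
      EventuallyEq.deriv hF
    filter_upwards [h1, hF, hF1.eventually_analyticAt] with z z1 z2 z3
    have h2 : HasDerivAt (fun z => (z - ρ₀) ^ m • F1 z)
        ((m : ℂ) * (z - ρ₀) ^ (m - 1) * 1 * F1 z + (z - ρ₀) ^ m * deriv F1 z) z :=
      (((hasDerivAt_id z).sub_const ρ₀).pow m).mul z3.differentiableAt.hasDerivAt
    rw [z1, h2.deriv, z2]
    have h3 : (z - ρ₀) ^ m = (z - ρ₀) ^ (m - 1) * (z - ρ₀) := by
      rw [← pow_succ]
      congr 1
      omega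
    rw [h3, hB1]
    simp only [smul_eq_mul]
    ring
  refine main_u2 (a := fun n => ((ArithmeticFunction.vonMangoldt n : ℝ) : ℂ)) (by simp) mangoldt_sum hσ hθ
    hκ hc hα hακ hdens ρ₀ hρ0 hρθ (fun ρ => if ρ = ρ₀ then 0 else mu ρ) D hδ1 hDu
    (fun s => FF s - (s - 1) * deriv FF s) ?_ (m - 1) ?_ ?_ ?_ F1 B1 hF1 hB1a hF10 hB10 hF hBB ?_
    63 (by norm_num) 3 ?_ ε hε
  · have : Differentiable ℂ (deriv FF) := hFd.deriv
    fun_prop
  · simp only [if_true]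
    omega
  · intro ρ hρ
    simp only [if_neg hρ]
  · have hBd : Differentiable ℂ (fun s => FF s - (s - 1) * deriv FF s) := by
      have : Differentiable ℂ (deriv FF) := hFd.deriv
      fun_prop
    rw [natCast_le_analyticOrderAt (hBd.analyticAt ρ₀)]
    exact ⟨B1, hB1a, hBB⟩
  · intro s hs
    have h1 : 1 < s.re := by rw [hs]; norm_num
    have hs1 : s ≠ 1 := by
      rintro rfl
      norm_num at hs
    have h2 := ArithmeticFunction.LSeries_vonMangoldt_eq_deriv_riemannZeta_div h1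
    rw [h2]
    have hz : riemannZeta s ≠ 0 := riemannZeta_ne_zero_of_one_lt_re h1
    have h3 : deriv FF s = riemannZeta s + (s - 1) * deriv riemannZeta s := by
      have h4 : FF =ᶠ[𝓝 s] fun z => (z - 1) * riemannZeta z := by
        filter_upwards [isOpen_ne.mem_nhds hs1] with z hz
        exact FF_eq_ne hz
      rw [h4.deriv_eq]
      have h5 := ((hasDerivAt_id s).sub_const 1).mul (differentiableAt_riemannZeta hs1).hasDerivAt
      have h6 : HasDerivAt (fun z => (z - 1) * riemannZeta z)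
        (1 * riemannZeta s + (s - 1) * deriv riemannZeta s) s := h5
      rw [h6.deriv, one_mul]
    rw [h3, FF_eq_ne hs1]
    field_simp
    ring
  · intro z z1 z2
    have hz : ‖z‖ ≤ 2 + |z.im| := by
      have := Complex.norm_le_abs_re_add_abs_im z
      rw [abs_of_nonneg (by linarith)] at this
      linarith
    have hz1 : ‖z - 1‖ ≤ 1 + |z.im| := by
      have := Complex.norm_le_abs_re_add_abs_im (z - 1)
      rw [Complex.sub_re, Complex.sub_im, Complex.one_re, Complex.one_im, sub_zero] at this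
      have h3 : |z.re - 1| ≤ 1 := abs_le.2 ⟨by linarith, by linarith⟩
      linarith
    have h4 := FF_bound (1 / 2) (by norm_num) z z1
    have h5 := deriv_FF_bound z z1
    have hi := abs_nonneg z.im
    set t := |z.im| with ht
    have h6 : ‖FF z‖ ≤ 3 * (3 + t) ^ 2 := by
      refine h4.trans ?_
      have : (1 + ‖z‖) ^ 2 ≤ (3 + t) ^ 2 := pow_le_pow_left₀ (by positivity) (by linarith) 2
      norm_num
      linarith
    have h7 : ‖deriv FF z‖ ≤ 20 * (4 + t) ^ 2 := by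
      refine h5.trans ?_
      have : (2 + ‖z‖) ^ 2 ≤ (4 + t) ^ 2 := pow_le_pow_left₀ (by positivity) (by linarith) 2
      linarith
    refine (norm_sub_le _ _).trans ?_
    rw [norm_mul]
    have h8 : ‖z - 1‖ * ‖deriv FF z‖ ≤ (1 + t) * (20 * (4 + t) ^ 2) :=
      mul_le_mul hz1 h7 (norm_nonneg _) (by positivity)
    nlinarith [pow_nonneg hi 2, pow_nonneg hi 3]

theorem mangoldt_u3 {θ : ℝ} (hθ : 1 / 2 ≤ θ) (ρ₀ : ℂ) (hρ0 : riemannZeta ρ₀ = 0) (hρθ : θ < ρ₀.re)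
    (ε : ℝ) (hε : 0 < ε) :
    ∃ q : ℝ, 1 ≤ q ∧ ∀ᶠ u in atTop, ∀ X : ℝ, 0 ≤ X →
      (∀ L : List ℂ, (∀ r ∈ L, 0 ≤ r.re) → (1 : ℂ) ∈ L →
        ((Nn u : ℝ) + 3) * hf 1 0 q u + L.length * df 1 0 q u ≤ et 1 0 u →
        ‖Op (hf 1 0 q u) (df 1 0 q u) (Nn u) L
          (TT (fun n => ((ArithmeticFunction.vonMangoldt n : ℝ) : ℂ))) u‖ ≤ 2 ^ L.length * X) →
      Real.exp ((ρ₀.re - ε) * u) ≤ X := by
  obtain ⟨hF, hρ1⟩ := zero_FF hρ0
  obtain ⟨σ, α, h1, h2, h3, h4, h5⟩ := params (κ := 0) le_rfl hθ (by nlinarith) hρθ hρ1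
  obtain ⟨q, hq, h⟩ := mangoldt_u2 (θ := (σ + ρ₀.re) / 2) (δ := 0) (by linarith : 1 / 2 ≤ σ) (by linarith)
    le_rfl one_pos h3 h4 h5 ρ₀ hF (by linarith) (fun _ => 0) (by norm_num) (by
      filter_upwards with u
      simp) ε hε
  refine ⟨q, hq, ?_⟩
  filter_upwards [h] with u hu X hX hL
  refine hu X hX fun L hL1 hL2 hL3 => hL L hL1 ?_ hL3
  have := hL2 1 (by simp)
  simpa using this

end

end Q239.RN
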