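import Pool.Agent.Q239.RN.Count3

set_option autoImplicit false

/-! # Upper bounds for the counting function -/

open Finset Filter Topology

namespace Q239.RN

/-- the number of `n ≤ x` in a set -/
noncomputable def cnt (P : ℕ → Prop) (x : ℝ) : ℕ := {n : ℕ | (n : ℝ) ≤ x ∧ P n}.ncard

theorem cnt_finite (P : ℕ → Prop) (x : ℝ) : {n : ℕ | (n : ℝ) ≤ x ∧ P n}.Finite := by
  refine (Set.finite_Iic ⌊x⌋₊).subset ?_
  rintro n ⟨h1, -⟩
  rw [Set.mem_Iic]
  exact Nat.le_floor h1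

theorem cnt_mono {P Q : ℕ → Prop} (h : ∀ n, P n → Q n) (x : ℝ) : cnt P x ≤ cnt Q x :=
  Set.ncard_le_ncard (fun n hn => ⟨hn.1, h n hn.2⟩) (cnt_finite Q x)

theorem cnt_le_levels {x B : ℝ} (hx : 1 ≤ x) (J : ℕ)
    (hB : ∀ j : ℕ, J < j → (j : ℝ) < Real.log x + 1 → ((Lev j).card : ℝ) ≤ Real.exp B) :
    (cnt NicEx x : ℝ) ≤ Real.exp J + (Real.log x + 2) * Real.exp B := by
  classical
  have hl : 0 ≤ Real.log x := Real.log_nonneg hx
  set M := ⌈Real.log x⌉₊ with hM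
  have hM1 : (M : ℝ) < Real.log x + 1 := Nat.ceil_lt_add_one hl
  have hsub : {n : ℕ | (n : ℝ) ≤ x ∧ NicEx n} ⊆
      ((Finset.Icc 1 ⌊Real.exp J⌋₊ ∪ (Finset.Ioc J M).biUnion Lev : Finset ℕ) : Set ℕ) := by
    rintro n ⟨h1, h2⟩
    have h3 := h2.1
    have hn0 : (0 : ℝ) < n := by exact_mod_cast (by omega : 0 < n)
    rw [Finset.mem_coe, mem_union]
    by_cases hc : Real.log n ≤ J
    · left
      rw [Finset.mem_Icc]
      exact ⟨by omega, Nat.le_floor ((Real.log_le_iff_le_exp hn0).1 hc)⟩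
    · right
      rw [not_le] at hc
      rw [mem_biUnion]
      have hlx : Real.log n ≤ Real.log x := Real.log_le_log hn0 h1
      refine ⟨⌈Real.log n⌉₊, ?_, ?_⟩
      · rw [Finset.mem_Ioc]
        exact ⟨Nat.lt_ceil.2 hc, Nat.ceil_le_ceil hlx⟩
      · rw [mem_Lev]
        refine ⟨h2, ?_, Nat.le_ceil _⟩
        have := Nat.ceil_lt_add_one (a := Real.log n) (by linarith [(Nat.cast_nonneg J : (0:ℝ) ≤ J)])
        linarith
  have h1 : cnt NicEx x ≤ (Finset.Icc 1 ⌊Real.exp J⌋₊ ∪ (Finset.Ioc J M).biUnion Lev).card := by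
    unfold cnt
    rw [← Set.ncard_coe_finset]
    exact Set.ncard_le_ncard hsub (Finset.finite_toSet _)
  have h2 : (Finset.Icc 1 ⌊Real.exp J⌋₊ ∪ (Finset.Ioc J M).biUnion Lev).card ≤
      ⌊Real.exp J⌋₊ + ∑ j ∈ Finset.Ioc J M, (Lev j).card := by
    refine (Finset.card_union_le _ _).trans ?_
    rw [Nat.card_Icc]
    have := Finset.card_biUnion_le (s := Finset.Ioc J M) (t := Lev)
    simpa using this
  have h3 : (∑ j ∈ Finset.Ioc J M, ((Lev j).card : ℝ)) ≤ (Real.log x + 2) * Real.exp B := by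
    calc (∑ j ∈ Finset.Ioc J M, ((Lev j).card : ℝ)) ≤ ∑ j ∈ Finset.Ioc J M, Real.exp B := by
          refine Finset.sum_le_sum fun j hj => ?_
          rw [Finset.mem_Ioc] at hj
          refine hB j hj.1 ?_
          have : (j : ℝ) ≤ M := by exact_mod_cast hj.2
          linarith
      _ = ((M - J : ℕ) : ℝ) * Real.exp B := by
          rw [Finset.sum_const, Nat.card_Ioc, nsmul_eq_mul]
      _ ≤ _ := by
          gcongr
          have : ((M - J : ℕ) : ℝ) ≤ M := by exact_mod_cast Nat.sub_le _ _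
          linarith
  have h4 : (⌊Real.exp J⌋₊ : ℝ) ≤ Real.exp J := Nat.floor_le (Real.exp_pos _).le
  have h5 : (cnt NicEx x : ℝ) ≤ ⌊Real.exp J⌋₊ + ∑ j ∈ Finset.Ioc J M, ((Lev j).card : ℝ) := by
    have := h1.trans h2
    exact_mod_cast this
  linarith

/-- hypotheses on the error terms -/
def ErrHyp (D : ℕ → ℝ) (J : ℕ) : Prop := ∀ j : ℕ, J < j → 1 / (j : ℝ) ≤ D j ∧
    SL j ≤ Real.eulerMascheroniConstant + Real.log (Real.log j) + D j ∧
    |Chebyshev.theta (j : ℝ) - j| ≤ D j * (j * Real.log j)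

theorem cnt_le_of_err {D : ℕ → ℝ} {J : ℕ} (hJ : 100 ≤ J) (hD : ErrHyp D J) {x B : ℝ} (hx : 1 ≤ x)
    (hB : ∀ j : ℕ, J < j → (j : ℝ) < Real.log x + 1 → 30 * (j * Real.sqrt (D j * Real.log j)) ≤ B) :
    (cnt NicEx x : ℝ) ≤ Real.exp J + (Real.log x + 2) * Real.exp B := by
  refine cnt_le_levels hx J fun j h1 h2 => ?_
  obtain ⟨a1, a2, a3⟩ := hD j h1
  exact (card_Lev (by omega) a1 a2 a3).trans (Real.exp_le_exp.2 (hB j h1 h2))

end Q239.RN
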