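import Pool.Agent.Q239.RN.Err
import Pool.Agent.Q239.RN.Upper

set_option autoImplicit false

/-! # The third theorem of Mertens with an exact error term -/

open Finset Filter Topology MeasureTheory

namespace Q239.RN

theorem int_of_bound {g : ℝ → ℝ} (hg : Measurable g) {C : ℝ} (h : ∀ v : ℝ, 1 ≤ v → |g v| ≤ C / v)
    {u : ℝ} (hu : 1 ≤ u) : IntegrableOn (fun v => g v * om v) (Set.Ioi u) := by
  have h1 : IntegrableOn (fun v : ℝ => 2 * C * v ^ (-2 : ℝ)) (Set.Ioi u) :=
    (integrableOn_Ioi_rpow_of_lt (by norm_num) (by linarith)).const_mul _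
  refine Integrable.mono' h1 (hg.mul om_meas).aestronglyMeasurable ?_
  refine (ae_restrict_iff' measurableSet_Ioi).2 (Eventually.of_forall fun v hv => ?_)
  have hv1 : 1 ≤ v := hu.trans (le_of_lt hv)
  have hv0 : 0 < v := by linarith
  rw [Real.norm_eq_abs, abs_mul, abs_of_pos (om_pos hv0)]
  have h2 := h v hv1
  have h3 := om_le hv1
  have h4 : 0 ≤ C / v := (abs_nonneg _).trans h2
  calc |g v| * om v ≤ (C / v) * (2 / v) := by
        have := (om_pos hv0).le
        gcongr
    _ = _ := by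
      rw [Real.rpow_neg hv0.le, Real.rpow_two]
      field_simp

theorem eT_int {u : ℝ} (hu : 1 ≤ u) : IntegrableOn (fun v => eT v * om v) (Set.Ioi u) := by
  obtain ⟨C, hC, h⟩ := eT_pnt 1
  exact int_of_bound eT_meas (C := C) (by simpa using h) hu

theorem eP_int {u : ℝ} (hu : 1 ≤ u) : IntegrableOn (fun v => eP v * om v) (Set.Ioi u) := by
  obtain ⟨C, hC, h⟩ := eP_pnt 1
  exact int_of_bound eP_meas (C := C) (by simpa using h) hu

/-- increments of a tail integral -/
theorem tail_diff {g : ℝ → ℝ} {u1 u2 : ℝ} (h : u1 ≤ u2) (hg : IntegrableOn g (Set.Ioi u1)) :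
    (∫ v in Set.Ioi u1, g v) = (∫ v in Set.Ioc u1 u2, g v) + ∫ v in Set.Ioi u2, g v := by
  rw [← Set.Ioc_union_Ioi_eq_Ioi h]
  refine setIntegral_union (Set.Ioc_disjoint_Ioi le_rfl) measurableSet_Ioi ?_ ?_
  · exact hg.mono_set Set.Ioc_subset_Ioi_self
  · exact hg.mono_set (Set.Ioi_subset_Ioi h)

/-- sum of the reciprocals of the primes -/
noncomputable def S1 (j : ℕ) : ℝ := ∑ p ∈ PS j, 1 / (p : ℝ)

theorem om_deriv {v : ℝ} (hv : 0 < v) : HasDerivAt (fun v : ℝ => Real.log v - 1 / v) (om v) v := by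
  have h1 := Real.hasDerivAt_log hv.ne'
  have h2 := (hasDerivAt_inv hv.ne')
  have h3 := h1.sub h2
  have e : om v = v⁻¹ - -(v ^ 2)⁻¹ := by
    unfold om
    field_simp
    ring
  rw [e]
  refine h3.congr_of_eventuallyEq (Eventually.of_forall fun w => ?_)
  simp [one_div]

theorem om_cont : ContinuousOn om (Set.Ioi 0) := by
  unfold om
  refine ContinuousOn.add ?_ ?_
  · exact continuousOn_const.div continuousOn_id fun v hv => (ne_of_gt hv)
  · exact continuousOn_const.div (continuousOn_id.pow 2) fun v hv => (pow_ne_zero 2 (ne_of_gt hv))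

theorem om_integral {u1 u2 : ℝ} (h1 : 0 < u1) (h : u1 ≤ u2) :
    ∫ v in Set.Ioc u1 u2, om v = Real.log u2 - 1 / u2 - (Real.log u1 - 1 / u1) := by
  rw [← intervalIntegral.integral_of_le h]
  refine intervalIntegral.integral_eq_sub_of_hasDerivAt (f := fun v : ℝ => Real.log v - 1 / v) ?_ ?_
  · intro v hv
    rw [Set.uIcc_of_le h] at hv
    exact om_deriv (by linarith [hv.1])
  · refine ContinuousOn.intervalIntegrable ?_
    rw [Set.uIcc_of_le h]
    exact om_cont.mono fun v hv => by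
      rw [Set.mem_Ioi]
      linarith [hv.1]

/-- partial summation -/
theorem S1_diff {u1 u2 : ℝ} (h1 : 1 ≤ u1) (h : u1 ≤ u2) :
    S1 ⌊Real.exp u2⌋₊ - S1 ⌊Real.exp u1⌋₊ =
      (eT u2 + 1) / u2 - (eT u1 + 1) / u1 + ∫ v in Set.Ioc u1 u2, (eT v + 1) * om v := by
  set a := Real.exp u1 with ha
  set b := Real.exp u2 with hb
  have hab : a ≤ b := Real.exp_le_exp.2 h
  have ha1 : 1 < a := by
    rw [ha]
    exact Real.one_lt_exp_iff.2 (by linarith)
  set f : ℝ → ℝ := fun t => (t * Real.log t)⁻¹ with hf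
  have hder : ∀ t : ℝ, 1 < t → HasDerivAt f (-(Real.log t + 1) / (t * Real.log t) ^ 2) t := by
    intro t ht
    have hl : 0 < Real.log t := Real.log_pos ht
    have e1 : HasDerivAt (fun t : ℝ => t * Real.log t) (1 * Real.log t + t * t⁻¹) t :=
      (hasDerivAt_id t).mul (Real.hasDerivAt_log (by linarith))
    have e2 := e1.inv (by positivity : t * Real.log t ≠ 0)
    have e3 : 1 * Real.log t + t * t⁻¹ = Real.log t + 1 := by
      have : t ≠ 0 := by linarith
      field_simp
    rw [e3] at e2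
    exact e2
  have hderc : ContinuousOn (fun t : ℝ => -(Real.log t + 1) / (t * Real.log t) ^ 2) (Set.Icc a b) := by
    have hl : ContinuousOn Real.log (Set.Icc a b) :=
      Real.continuousOn_log.mono fun t ht => by
        simp only [Set.mem_compl_iff, Set.mem_singleton_iff]
        linarith [ht.1]
    refine ContinuousOn.div ((hl.add continuousOn_const).neg) ((continuousOn_id.mul hl).pow 2) ?_
    intro t ht
    have ht1 : 1 < t := lt_of_lt_of_le ha1 ht.1
    have := Real.log_pos ht1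
    have h2 : 0 < t := by linarith
    have h3 : (id t : ℝ) = t := rfl
    positivity
  have hdeq : ∀ t ∈ Set.Icc a b, deriv f t = -(Real.log t + 1) / (t * Real.log t) ^ 2 :=
    fun t ht => (hder t (lt_of_lt_of_le ha1 ht.1)).deriv
  have hkey := sum_mul_eq_sub_sub_integral_mul (𝕜 := ℝ) (fun n : ℕ => if n.Prime then Real.log n else 0)
    (f := f) (a := a) (b := b) (by linarith) hab
    (fun t ht => (hder t (lt_of_lt_of_le ha1 ht.1)).differentiableAt)
    ((hderc.integrableOn_compact isCompact_Icc).congr_fun (fun t ht => (hdeq t ht).symm) measurableSet_Icc)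
  have hth : ∀ t : ℝ, ∑ k ∈ Finset.Icc 0 ⌊t⌋₊, (if k.Prime then Real.log (k : ℝ) else 0) =
      Chebyshev.theta t := by
    intro t
    rw [Chebyshev.theta_eq_sum_Icc, Finset.sum_filter]
  simp only [hth] at hkey
  have hlhs : ∑ k ∈ Finset.Ioc ⌊a⌋₊ ⌊b⌋₊, f k * (if k.Prime then Real.log (k : ℝ) else 0) =
      S1 ⌊b⌋₊ - S1 ⌊a⌋₊ := by
    have hfl : ⌊a⌋₊ ≤ ⌊b⌋₊ := Nat.floor_le_floor hab
    have hS : ∀ j : ℕ, S1 j = ∑ k ∈ Finset.Ioc 0 j, (if k.Prime then 1 / (k : ℝ) else 0) := by
      intro j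
      unfold S1 PS
      rw [Finset.sum_filter]
      rfl
    rw [hS, hS, ← Finset.sum_Ioc_consecutive _ (Nat.zero_le _) hfl, add_sub_cancel_left]
    refine Finset.sum_congr rfl fun k _ => ?_
    split_ifs with hk
    · have hk1 := prime_gt hk
      have := Real.log_pos hk1
      simp only [hf]
      field_simp
    · simp
  rw [hlhs] at hkey
  have hfb : f b * Chebyshev.theta b = (eT u2 + 1) / u2 := by
    simp only [hf]
    unfold eT
    rw [← hb, Real.exp_neg, ← hb]
    have : Real.log b = u2 := Real.log_exp u2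
    rw [this, mul_inv]
    ring
  have hfa : f a * Chebyshev.theta a = (eT u1 + 1) / u1 := by
    simp only [hf]
    unfold eT
    rw [← ha, Real.exp_neg, ← ha]
    have : Real.log a = u1 := Real.log_exp u1
    rw [this, mul_inv]
    ring
  have hint : ∫ t in Set.Ioc a b, deriv f t * Chebyshev.theta t =
      -∫ v in Set.Ioc u1 u2, (eT v + 1) * om v := by
    rw [← integral_neg, ← intervalIntegral.integral_of_le hab, ha, hb,
      Pool.Agent.W190.exp_change _ h]
    refine setIntegral_congr_fun measurableSet_Ioc fun v hv => ?_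
    have hv0 : 0 < v := by linarith [hv.1]
    have hv1 : Real.exp v ∈ Set.Icc a b := ⟨Real.exp_le_exp.2 hv.1.le, Real.exp_le_exp.2 hv.2⟩
    rw [hdeq _ hv1, Real.log_exp]
    unfold eT om
    rw [Real.exp_neg]
    have := Real.exp_pos v
    field_simp
    ring
  rw [hkey, hfb, hfa, hint]
  ring

theorem S1_diff' {u1 u2 : ℝ} (h1 : 1 ≤ u1) (h : u1 ≤ u2) :
    (S1 ⌊Real.exp u2⌋₊ - Real.log u2 - eT u2 / u2) - (S1 ⌊Real.exp u1⌋₊ - Real.log u1 - eT u1 / u1) =
      kT u2 - kT u1 := by
  have h2 := S1_diff h1 h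
  have h3 := om_integral (by linarith : 0 < u1) h
  have hi : IntegrableOn (fun v => eT v * om v) (Set.Ioc u1 u2) :=
    (eT_int h1).mono_set Set.Ioc_subset_Ioi_self
  have hio : IntegrableOn om (Set.Ioc u1 u2) := by
    have : IntegrableOn om (Set.Icc u1 u2) :=
      (om_cont.mono fun v hv => by rw [Set.mem_Ioi]; linarith [hv.1]).integrableOn_compact isCompact_Icc
    exact this.mono_set Set.Ioc_subset_Icc_self
  have h4 : ∫ v in Set.Ioc u1 u2, (eT v + 1) * om v =
      (∫ v in Set.Ioc u1 u2, eT v * om v) + ∫ v in Set.Ioc u1 u2, om v := by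
    rw [← integral_add hi hio]
    refine setIntegral_congr_fun measurableSet_Ioc fun v _ => ?_
    ring
  have h5 := tail_diff h (eT_int h1)
  unfold kT
  rw [h4, h3] at h2
  rw [h5]
  have e1 : (eT u2 + 1) / u2 = eT u2 / u2 + 1 / u2 := by ring
  have e2 : (eT u1 + 1) / u1 = eT u1 / u1 + 1 / u1 := by ring
  rw [e1, e2] at h2
  linarith

/-! ## the prime powers -/

theorem PS_mono {a b : ℕ} (h : a ≤ b) : PS a ⊆ PS b := by
  intro p hp
  rw [mem_PS] at hp ⊢
  exact ⟨hp.1, hp.2.trans h⟩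

theorem tele (a b : ℕ) (ha : 1 ≤ a) (h : a ≤ b) :
    ∑ n ∈ Finset.Ioc a b, (1 / ((n : ℝ) - 1) - 1 / n) = 1 / a - 1 / b := by
  induction b, h using Nat.le_induction with
  | base => simp
  | succ b hb ih =>
    rw [Finset.sum_Ioc_succ_top hb, ih]
    push_cast
    have : (b : ℝ) ≠ 0 := by
      have : 0 < b := by omega
      positivity
    ring

theorem SL_S1_diff {a b : ℕ} (ha : 1 ≤ a) (h : a ≤ b) :
    0 ≤ (SL b - S1 b) - (SL a - S1 a) ∧ (SL b - S1 b) - (SL a - S1 a) ≤ 1 / a := by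
  have e : (SL b - S1 b) - (SL a - S1 a) = ∑ p ∈ PS b \ PS a, (ell p - 1 / p) := by
    have h1 : ∀ j, SL j - S1 j = ∑ p ∈ PS j, (ell p - 1 / p) := by
      intro j
      unfold SL S1
      rw [Finset.sum_sub_distrib]
    rw [h1, h1, ← Finset.sum_sdiff (PS_mono h)]
    ring
  rw [e]
  constructor
  · refine Finset.sum_nonneg fun p hp => ?_
    rw [Finset.mem_sdiff, mem_PS] at hp
    have := ell_lower (prime_gt hp.1.1)
    linarith
  · have hsub : PS b \ PS a ⊆ Finset.Ioc a b := by
      intro p hp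
      rw [Finset.mem_sdiff, mem_PS, mem_PS] at hp
      rw [Finset.mem_Ioc]
      refine ⟨?_, hp.1.2⟩
      by_contra h2
      exact hp.2 ⟨hp.1.1, not_lt.1 h2⟩
    calc ∑ p ∈ PS b \ PS a, (ell p - 1 / p) ≤ ∑ p ∈ PS b \ PS a, (1 / ((p : ℝ) - 1) - 1 / p) := by
          refine Finset.sum_le_sum fun p hp => ?_
          rw [Finset.mem_sdiff, mem_PS] at hp
          have := ell_upper (prime_gt hp.1.1)
          linarith
      _ ≤ ∑ n ∈ Finset.Ioc a b, (1 / ((n : ℝ) - 1) - 1 / n) := by
          refine Finset.sum_le_sum_of_subset_of_nonneg hsub fun n hn _ => ?_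
          rw [Finset.mem_Ioc] at hn
          have h1 : (a : ℝ) + 1 ≤ n := by exact_mod_cast hn.1
          have h2 : (1 : ℝ) ≤ a := by exact_mod_cast ha
          have : 1 / (n : ℝ) ≤ 1 / ((n : ℝ) - 1) := one_div_le_one_div_of_le (by linarith) (by linarith)
          linarith
      _ = 1 / a - 1 / b := tele a b ha h
      _ ≤ _ := by
          have : (0 : ℝ) ≤ 1 / (b : ℝ) := by positivity
          linarith

theorem SL_tendsto : Tendsto (fun N : ℕ => SL N - Real.log (Real.log N)) atTop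
    (𝓝 Real.eulerMascheroniConstant) := by
  have h1 := Pool.Agent.H305R2.mertens_three
  have h2 := (Real.continuousAt_log (Real.exp_pos Real.eulerMascheroniConstant).ne').tendsto.comp h1
  rw [Real.log_exp] at h2
  refine h2.congr' ?_
  filter_upwards [eventually_ge_atTop 3] with N hN
  have hl := log_gt_one hN
  have hpos : ∀ p ∈ (Finset.Icc 1 N).filter Nat.Prime, (0:ℝ) < (1 - (p : ℝ)⁻¹)⁻¹ := by
    intro p hp
    rw [mem_filter] at hp
    have h2 := prime_gt hp.2
    have : (p : ℝ)⁻¹ < 1 := inv_lt_one_of_one_lt₀ h2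
    exact inv_pos.2 (by linarith)
  simp only [Function.comp]
  rw [Real.log_div (Finset.prod_pos hpos).ne' (by linarith), Real.log_prod (fun p hp => (hpos p hp).ne')]
  congr 1
  unfold SL PS ell
  refine Finset.sum_congr rfl fun p _ => ?_
  rw [Real.log_inv, one_div]

end Q239.RN
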