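import Pool.Agent.Q239.RN.C1
import Pool.Agent.Q239.RN.LB2

set_option autoImplicit false

/-! # Gaussian averages of the tail integral are small: final form -/

open Filter Topology MeasureTheory Set Complex

namespace Q239.RN

noncomputable section

theorem wt_shift {S : ℝ} (hS : 0 < S) (U x u : ℝ) : Real.exp (x * u) * wt U S u =
    Real.exp (x * U + S * x ^ 2 / 2) * wt (U + S * x) S u := by
  unfold wt
  rw [← Real.exp_add, ← Real.exp_add]
  congr 1
  field_simp
  ring

theorem wt_integral {S : ℝ} (hS : 0 < S) (U : ℝ) : Integrable (wt U S) ∧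
    ∫ u : ℝ, wt U S u = Real.sqrt (2 * Real.pi * S) := by
  have h1 : ∀ u : ℝ, wt U S u = Real.exp (-(1 / (2 * S)) * (u - U) ^ 2) := by
    intro u
    unfold wt
    congr 1
    field_simp
  have h2 : Integrable (fun u : ℝ => Real.exp (-(1 / (2 * S)) * u ^ 2)) :=
    integrable_exp_neg_mul_sq (by positivity)
  have h3 := h2.comp_sub_right U
  have e : wt U S = fun u : ℝ => Real.exp (-(1 / (2 * S)) * (u - U) ^ 2) := funext h1
  constructor
  · rw [e]
    exact h3
  · rw [e, integral_sub_right_eq_self (fun u : ℝ => Real.exp (-(1 / (2 * S)) * u ^ 2)) U,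
      integral_gaussian]
    congr 1
    field_simp

theorem exp_wt_int {S : ℝ} (hS : 0 < S) (U x : ℝ) : Integrable (fun u => Real.exp (x * u) * wt U S u) ∧
    ∫ u : ℝ, Real.exp (x * u) * wt U S u =
      Real.sqrt (2 * Real.pi * S) * Real.exp (x * U + S * x ^ 2 / 2) := by
  have e : (fun u : ℝ => Real.exp (x * u) * wt U S u) =
      fun u => Real.exp (x * U + S * x ^ 2 / 2) * wt (U + S * x) S u := funext fun u => wt_shift hS U x u
  obtain ⟨h1, h2⟩ := wt_integral hS (U + S * x)
  rw [e]
  refine ⟨h1.const_mul _, ?_⟩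
  rw [integral_const_mul, h2]
  ring

/-- the remainder weight -/
def RR (v : ℝ) : ℝ := Real.exp (-v) * (2 / v + 1 / v ^ 2)

theorem RR_le {v : ℝ} (hv : 1 ≤ v) : 0 ≤ RR v ∧ RR v ≤ 3 * Real.exp (-v) := by
  unfold RR
  have h0 : 0 < v := by linarith
  have h1 : 2 / v ≤ 2 := div_le_self (by norm_num) hv
  have h2 : 1 / v ^ 2 ≤ 1 := div_le_self (by norm_num) (one_le_pow₀ hv)
  have h3 := Real.exp_pos (-v)
  have h4 : 0 < 2 / v := by positivity
  have h5 : 0 < 1 / v ^ 2 := by positivity
  constructor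
  · positivity
  · nlinarith

theorem eP_EB0 : ∃ C : ℝ, 0 < C ∧ EB C 0 := by
  obtain ⟨C, hC, hb⟩ := eP_pnt 0
  refine ⟨C + |Chebyshev.psi (Real.exp 1)| + 1, by positivity, ?_⟩
  intro v hv
  rw [zero_mul, Real.exp_zero, mul_one]
  by_cases h1 : 1 ≤ v
  · have := hb v h1
    rw [pow_zero, div_one] at this
    have := abs_nonneg (Chebyshev.psi (Real.exp 1))
    linarith
  · rw [not_le] at h1
    unfold eP
    have h2 : Chebyshev.psi (Real.exp v) ≤ Chebyshev.psi (Real.exp 1) :=
      Chebyshev.psi_mono (Real.exp_le_exp.2 h1.le)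
    have h3 := Chebyshev.psi_nonneg (Real.exp v)
    have h4 : Real.exp (-v) ≤ 1 := Real.exp_le_one_iff.2 (by linarith)
    have h5 := Real.exp_pos (-v)
    have h6 := le_abs_self (Chebyshev.psi (Real.exp 1))
    rw [abs_le]
    constructor
    · nlinarith
    · nlinarith

/-- the relative error is integrable -/
theorem eP_int0 : IntegrableOn eP (Ioi 0) := by
  obtain ⟨C0, hC0, h0⟩ := eP_EB0
  obtain ⟨C, hC, h⟩ := eP_pnt 2
  rw [← Ioc_union_Ioi_eq_Ioi (zero_le_one' ℝ)]
  refine IntegrableOn.union ?_ ?_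
  · have h1 : IntegrableOn (fun _ : ℝ => C0) (Ioc (0:ℝ) 1) := by simp
    refine Integrable.mono' h1 eP_meas.aestronglyMeasurable ?_
    refine (ae_restrict_iff' measurableSet_Ioc).2 (Eventually.of_forall fun v hv => ?_)
    have := h0 v hv.1.le
    simpa using this
  · have h1 : IntegrableOn (fun v : ℝ => C * v ^ (-2 : ℝ)) (Ioi (1:ℝ)) :=
      (integrableOn_Ioi_rpow_of_lt (by norm_num) one_pos).const_mul _
    refine Integrable.mono' h1 eP_meas.aestronglyMeasurable ?_
    refine (ae_restrict_iff' measurableSet_Ioi).2 (Eventually.of_forall fun v hv => ?_)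
    have hv1 : (1:ℝ) ≤ v := le_of_lt hv
    have hv0 : 0 < v := by linarith
    have := h v hv1
    rw [Real.norm_eq_abs]
    refine this.trans (le_of_eq ?_)
    rw [Real.rpow_neg hv0.le, Real.rpow_two]
    field_simp

theorem hi0 : IntegrableOn (fun v : ℝ => (eP v : ℂ) * cexp (-(((0:ℝ) : ℂ) * v))) (Ioi 0) := by
  have h1 : IntegrableOn (fun v : ℝ => (eP v : ℂ)) (Ioi 0) := eP_int0.ofReal
  refine h1.congr (Eventually.of_forall fun v => ?_)
  simp

/-- the parameter of the contour -/
theorem exists_c {θ : ℝ} (h1 : 1 / 2 ≤ θ) (h2 : θ ≤ 1) (hz : ∀ s : ℂ, θ < s.re → riemannZeta s ≠ 0)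
    {τ : ℝ} (hτ : 0 < τ) : ∃ c : ℝ, θ - 1 < c ∧ c < θ - 1 + τ ∧ c ≠ 0 ∧ -(3 / 4) < c ∧ c < 1 ∧
      IntegrableOn (fun v : ℝ => (eP v : ℂ) * cexp (-((c : ℂ) * v))) (Ioi 0) ∧
      (∀ z : ℂ, c < z.re → LT z = Gh z) := by
  rcases lt_or_eq_of_le h2 with h3 | h3
  · set t := min (τ / 2) ((1 - θ) / 2) with ht
    have ht0 : 0 < t := lt_min (by linarith) (by linarith)
    have ht1 : t ≤ τ / 2 := min_le_left _ _
    have ht2 : t ≤ (1 - θ) / 2 := min_le_right _ _
    obtain ⟨C, hC, hb⟩ := eP_free h1 hz (θ' := θ + t / 2) (by linarith) (by linarith)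
    have hEB : EB C (θ + t / 2 - 1) := hb
    refine ⟨θ - 1 + t, by linarith, by linarith, by linarith, by linarith, by linarith, ?_, ?_⟩
    · refine term_int hEB ?_
      rw [Complex.ofReal_re]
      linarith
    · intro z hz1
      refine LT_eq_Gh hC.le (by linarith) hEB (fun s hs => hz s (by linarith)) (by linarith)
  · obtain ⟨C, hC, hEB⟩ := eP_EB0
    set t := min (τ / 2) (1 / 2) with ht
    have ht0 : 0 < t := lt_min (by linarith) (by norm_num)
    have ht1 : t ≤ τ / 2 := min_le_left _ _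
    have ht2 : t ≤ 1 / 2 := min_le_right _ _
    refine ⟨t, by linarith, by linarith, by linarith, by linarith, by linarith, ?_, ?_⟩
    · refine term_int hEB ?_
      rw [Complex.ofReal_re]
      exact ht0
    · intro z hz1
      exact LT_eq_Gh_right (by linarith)

/-- the tail integral in terms of its main part -/
theorem kP_split : ∃ C : ℝ, 0 < C ∧ ∀ u : ℝ, 1 ≤ u → ‖((kP u : ℝ) : ℂ) + qq u‖ ≤ C * Real.exp (-u) := by
  obtain ⟨C, hC, hb⟩ := eP_EB0
  refine ⟨3 * C, by positivity, fun u hu => ?_⟩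
  have hgr : IntegrableOn (fun v => eP v * rho v) (Ioi u) := by
    have h1 : IntegrableOn (fun v => 2 * ‖eP v‖) (Ioi 0) := eP_int0.norm.const_mul 2
    have h2 : IntegrableOn (fun v => eP v * rho v) (Ioi 0) := by
      refine Integrable.mono' h1 (eP_meas.mul rho_cont.measurable).aestronglyMeasurable ?_
      refine (ae_restrict_iff' measurableSet_Ioi).2 (Eventually.of_forall fun v hv => ?_)
      have hv0 : 0 ≤ v := le_of_lt hv
      rw [norm_mul, Real.norm_of_nonneg (rho_nonneg hv0)]
      have := rho_le hv0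
      have := norm_nonneg (eP v)
      nlinarith
    exact h2.mono_set (Ioi_subset_Ioi (by linarith))
  have h1 : qq u = ((∫ v in Ioi u, eP v * rho v : ℝ) : ℂ) := by
    unfold qq gr
    exact integral_ofReal
  have h2 : kP u + ∫ v in Ioi u, eP v * rho v = -∫ v in Ioi u, eP v * RR v := by
    unfold kP
    have h3 : ∫ v in Ioi u, eP v * om v = (∫ v in Ioi u, eP v * rho v) + ∫ v in Ioi u, eP v * RR v := by
      rw [← integral_add hgr]
      · refine setIntegral_congr_fun measurableSet_Ioi fun v hv => ?_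
        have hv0 : 0 < v := by
          have : u < v := hv
          linarith
        rw [rho_eq hv0]
        unfold RR
        ring
      · have := (eP_int hu).sub hgr
        refine Integrable.congr this ?_
        refine (ae_restrict_iff' measurableSet_Ioi).2 (Eventually.of_forall fun v hv => ?_)
        have hv0 : 0 < v := by
          have : u < v := hv
          linarith
        simp only [Pi.sub_apply]
        rw [rho_eq hv0]
        unfold RR
        ring
    rw [h3]
    ring
  rw [h1, ← Complex.ofReal_add, h2, Complex.norm_real, norm_neg]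
  have h4 : IntegrableOn (fun v : ℝ => 3 * C * Real.exp (-v)) (Ioi u) :=
    (integrableOn_exp_neg_Ioi u).const_mul _
  refine (norm_integral_le_of_norm_le h4 ?_).trans (le_of_eq ?_)
  · refine (ae_restrict_iff' measurableSet_Ioi).2 (Eventually.of_forall fun v hv => ?_)
    have hv1 : 1 ≤ v := by
      have : u < v := hv
      linarith
    obtain ⟨h5, h6⟩ := RR_le hv1
    have h7 := hb v (by linarith)
    rw [zero_mul, Real.exp_zero, mul_one] at h7
    rw [norm_mul, Real.norm_of_nonneg h5, Real.norm_eq_abs]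
    calc |eP v| * RR v ≤ C * (3 * Real.exp (-v)) := by gcongr
      _ = _ := by ring
  · rw [integral_const_mul, integral_exp_neg_Ioi]

theorem kP_bdd : ∃ C : ℝ, 0 < C ∧ ∀ u : ℝ, 1 ≤ u → |kP u| ≤ C := by
  obtain ⟨C, hC, h⟩ := kP_pow 1 le_rfl
  refine ⟨C, hC, fun u hu => (h u hu).trans ?_⟩
  rw [pow_one]
  exact div_le_self hC.le hu

theorem kP_wt_int {S : ℝ} (hS : 0 < S) (U : ℝ) : IntegrableOn (fun u => kP u * wt U S u) (Ioi 1) := by
  obtain ⟨C, hC, h⟩ := kP_bdd
  have h1 : IntegrableOn (fun u => C * wt U S u) (Ioi 1) := ((wt_integral hS U).1.const_mul C).integrableOn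
  refine Integrable.mono' h1 ?_ ?_
  · refine AEStronglyMeasurable.mul ?_ (wt_cont U S).aestronglyMeasurable
    exact (kP_contOn.mono Ioi_subset_Ici_self).aestronglyMeasurable measurableSet_Ioi
  · refine (ae_restrict_iff' measurableSet_Ioi).2 (Eventually.of_forall fun v hv => ?_)
    rw [norm_mul, Real.norm_of_nonneg (wt_pos U S v).le, Real.norm_eq_abs]
    have := h v (le_of_lt hv)
    have := (wt_pos U S v).le
    gcongr

end

end Q239.RN
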