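import Pool.Agent.Q239.RN.Osc1

set_option autoImplicit false

/-! # Gaussian averages of the tail integral are small: final form -/

open Filter Topology MeasureTheory Set Complex

namespace Q239.RN

noncomputable section

/-- the exponent function -/
def EE (η x : ℝ) : ℝ := x + η * x ^ 2 / 2

theorem gr_int0 : IntegrableOn gr (Ioi 0) := by
  have := gr_int hi0
  refine this.congr (Eventually.of_forall fun v => ?_)
  simp

theorem qq_bdd {u : ℝ} (hu : 0 ≤ u) : ‖qq u‖ ≤ ∫ v in Ioi (0:ℝ), ‖gr v‖ := by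
  unfold qq
  refine (norm_integral_le_integral_norm _).trans ?_
  exact setIntegral_mono_set gr_int0.norm (Eventually.of_forall fun v => norm_nonneg _)
    (Ioi_subset_Ioi hu).eventuallyLE

theorem qq_meas : AEStronglyMeasurable qq (volume.restrict (Ioi 0)) := by
  obtain ⟨C, hC, hEB⟩ := eP_EB0
  have h1 : IntegrableOn (fun v : ℝ => (eP v : ℂ) * cexp (-(((1:ℝ) : ℂ) * v))) (Ioi 0) :=
    term_int hEB (by simp)
  have h2 := (tailQ gr_meas gr_int0 (z := ((1:ℝ) : ℂ)) (by simp) (gr_int h1)).1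
  have h3 := h2.aestronglyMeasurable.mul
    (Continuous.aestronglyMeasurable (f := fun u : ℝ => cexp (((1:ℝ) : ℂ) * u)) (by fun_prop))
  refine h3.congr (Eventually.of_forall fun u => ?_)
  simp only [Pi.mul_apply]
  rw [mul_assoc, ← Complex.exp_add]
  simp
  rfl

theorem qq_wt_int {S : ℝ} (hS : 0 < S) (U : ℝ) : IntegrableOn (fun u => qq u * (wt U S u : ℂ)) (Ioi 0) := by
  have h1 : IntegrableOn (fun u => (∫ v in Ioi (0:ℝ), ‖gr v‖) * wt U S u) (Ioi 0) :=
    ((wt_integral hS U).1.const_mul _).integrableOn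
  refine Integrable.mono' h1 ?_ ?_
  · exact qq_meas.mul (Complex.continuous_ofReal.comp (wt_cont U S)).aestronglyMeasurable
  · refine (ae_restrict_iff' measurableSet_Ioi).2 (Eventually.of_forall fun v hv => ?_)
    rw [norm_mul, Complex.norm_real, Real.norm_of_nonneg (wt_pos U S v).le]
    have := qq_bdd (le_of_lt hv)
    have := (wt_pos U S v).le
    gcongr

theorem EE_mono {η x y : ℝ} (hη : 0 < η) (hη1 : η ≤ 1 / 4) (hx : -1 ≤ x) (hxy : x ≤ y) : EE η x ≤ EE η y := by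
  unfold EE
  nlinarith [mul_nonneg hη.le (sub_nonneg.2 hxy), mul_nonneg (mul_nonneg hη.le (sub_nonneg.2 hxy))
    (by linarith : 0 ≤ x + y + 2)]

theorem EE_strict {η x y : ℝ} (hη : 0 < η) (hη1 : η ≤ 1 / 4) (hx : -1 ≤ x) (hxy : x < y) : EE η x < EE η y := by
  unfold EE
  nlinarith [mul_nonneg hη.le (sub_nonneg.2 hxy.le), mul_nonneg (mul_nonneg hη.le (sub_nonneg.2 hxy.le))
    (by linarith : 0 ≤ x + y + 2)]

/-- the Gaussian averages of the tail integral -/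
theorem C1fin {θ η : ℝ} (h1 : 1 / 2 ≤ θ) (h2 : θ ≤ 1) (hz : ∀ s : ℂ, θ < s.re → riemannZeta s ≠ 0)
    (hη : 0 < η) (hη1 : η ≤ 1 / 4) : ∃ κ : ℝ, 0 < κ ∧ κ ≤ 1 / 20 ∧ ∀ᶠ U : ℝ in atTop,
      |∫ u in Ioi (1:ℝ), kP u * wt U (η * U) u| ≤ Real.exp ((EE η (θ - 1) - κ) * U) := by
  obtain ⟨h0, hh0, hh1, hnear⟩ := near_real
  set κ := min (η * h0 ^ 2 / 16) (1 / 20) with hκ
  have hκ0 : 0 < κ := lt_min (by positivity) (by norm_num)
  have hκ1 : κ ≤ η * h0 ^ 2 / 16 := min_le_left _ _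
  have hκ2 : κ ≤ 1 / 20 := min_le_right _ _
  obtain ⟨c, c1, c2, c3, c4, c5, hic, hG⟩ := exists_c h1 h2 hz (τ := η * h0 ^ 2 / 32) (by positivity)
  obtain ⟨K, hK, hB⟩ := B_bound c3 c4 c5 hh0 hh1 hnear hi0 hic hG
  obtain ⟨C, hC, hsp⟩ := kP_split
  set G0 := ∫ v in Ioi (0:ℝ), ‖gr v‖ with hG0
  have hG00 : 0 ≤ G0 := integral_nonneg fun v => norm_nonneg _
  refine ⟨κ, hκ0, hκ2, ?_⟩
  have hE0 : -(1 / 2) ≤ EE η (θ - 1) := by
    unfold EE
    have : 0 ≤ η * (θ - 1) ^ 2 / 2 := by positivity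
    linarith
  have x1 : EE η c - η * h0 ^ 2 / 4 < EE η (θ - 1) - κ := by
    have h5 : EE η c ≤ EE η (θ - 1) + η * h0 ^ 2 / 16 := by
      unfold EE
      have e : c + η * c ^ 2 / 2 = (θ - 1) + η * (θ - 1) ^ 2 / 2 +
          (c - (θ - 1)) * (1 + η * (c + (θ - 1)) / 2) := by ring
      rw [e]
      have h6 : 1 + η * (c + (θ - 1)) / 2 ≤ 2 := by nlinarith
      have h7 : 0 ≤ c - (θ - 1) := by linarith
      nlinarith
    have h8 : 0 < η * h0 ^ 2 := by positivity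
    linarith
  have x2 : -(3 / 4) + η * (9 / 32) < EE η (θ - 1) - κ := by linarith
  have x3 : (-1 : ℝ) < EE η (θ - 1) - κ := by linarith
  have x4 : -1 + η / 2 < EE η (θ - 1) - κ := by linarith
  filter_upwards [eventually_ge_atTop 4, eventually_ge_atTop (1 / η), exp_dom x1 (4 * K), exp_dom x2 (4 * K),
    exp_dom x3 (4 * G0), exp_dom x4 (4 * (C * 3))] with U u1 u2 y1 y2 y3 y4
  have hU0 : 0 < U := by linarith
  set S := η * U with hSd
  have hS1 : 1 ≤ S := by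
    rw [div_le_iff₀ hη] at u2
    rw [hSd]
    linarith
  have hS : 0 < S := by linarith
  have hSU : S ≤ U := by rw [hSd]; nlinarith
  have hsS : Real.sqrt S ≤ U + 1 := by
    rw [Real.sqrt_le_left (by linarith)]
    nlinarith
  have hs2 : Real.sqrt (2 * Real.pi * S) ≤ 3 * (U + 1) := by
    rw [Real.sqrt_le_left (by linarith)]
    have := Real.pi_lt_d2
    nlinarith
  -- splitting
  have e1 : ((∫ u in Ioi (1:ℝ), kP u * wt U S u : ℝ) : ℂ) =
      (∫ u in Ioi (1:ℝ), (((kP u : ℝ) : ℂ) + qq u) * (wt U S u : ℂ)) -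
        ((∫ u in Ioi (0:ℝ), qq u * (wt U S u : ℂ)) - ∫ u in Ioc (0:ℝ) 1, qq u * (wt U S u : ℂ)) := by
    have hq := qq_wt_int hS U
    have s1 : (∫ u in Ioi (0:ℝ), qq u * (wt U S u : ℂ)) =
        (∫ u in Ioc (0:ℝ) 1, qq u * (wt U S u : ℂ)) + ∫ u in Ioi (1:ℝ), qq u * (wt U S u : ℂ) := by
      rw [← Ioc_union_Ioi_eq_Ioi (zero_le_one' ℝ)]
      refine setIntegral_union (Ioc_disjoint_Ioi le_rfl) measurableSet_Ioi ?_ ?_
      · exact hq.mono_set Ioc_subset_Ioi_self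
      · exact hq.mono_set (Ioi_subset_Ioi zero_le_one)
    have hk : IntegrableOn (fun u => ((kP u * wt U S u : ℝ) : ℂ)) (Ioi 1) := (kP_wt_int hS U).ofReal
    have s2 : (∫ u in Ioi (1:ℝ), (((kP u : ℝ) : ℂ) + qq u) * (wt U S u : ℂ)) =
        (∫ u in Ioi (1:ℝ), ((kP u * wt U S u : ℝ) : ℂ)) + ∫ u in Ioi (1:ℝ), qq u * (wt U S u : ℂ) := by
      rw [← integral_add hk (hq.mono_set (Ioi_subset_Ioi zero_le_one))]
      refine setIntegral_congr_fun measurableSet_Ioi fun u _ => ?_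
      push_cast
      ring
    have s3 : ∫ u in Ioi (1:ℝ), ((kP u * wt U S u : ℝ) : ℂ) =
        ((∫ u in Ioi (1:ℝ), kP u * wt U S u : ℝ) : ℂ) := integral_complex_ofReal
    rw [s1, s2, s3]
    ring
  have b1 : ‖∫ u in Ioi (1:ℝ), (((kP u : ℝ) : ℂ) + qq u) * (wt U S u : ℂ)‖ ≤
      C * (3 * (U + 1)) * Real.exp ((-1 + η / 2) * U) := by
    obtain ⟨i1, i2⟩ := exp_wt_int hS U (-1)
    have h5 : ‖∫ u in Ioi (1:ℝ), (((kP u : ℝ) : ℂ) + qq u) * (wt U S u : ℂ)‖ ≤
        ∫ u in Ioi (1:ℝ), C * (Real.exp (-1 * u) * wt U S u) := by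
      refine norm_integral_le_of_norm_le (i1.const_mul C).integrableOn ?_
      refine (ae_restrict_iff' measurableSet_Ioi).2 (Eventually.of_forall fun v hv => ?_)
      rw [norm_mul, Complex.norm_real, Real.norm_of_nonneg (wt_pos U S v).le]
      have h6 := hsp v (le_of_lt hv)
      have h7 := (wt_pos U S v).le
      rw [show -1 * v = -v by ring]
      calc ‖((kP v : ℝ) : ℂ) + qq v‖ * wt U S v ≤ (C * Real.exp (-v)) * wt U S v := by gcongr
        _ = _ := by ring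
    refine h5.trans ((setIntegral_le_integral (i1.const_mul C) (ae_of_all _ fun u => ?_)).trans ?_)
    · have := (wt_pos U S u).le
      simp only
      positivity
    · rw [integral_const_mul, i2]
      have h8 : (-1 : ℝ) * U + S * (-1) ^ 2 / 2 = (-1 + η / 2) * U := by rw [hSd]; ring
      rw [h8, ← mul_assoc]
      gcongr
  have b2 : ‖∫ u in Ioi (0:ℝ), qq u * (wt U S u : ℂ)‖ ≤ K * (U + 1) *
      (Real.exp ((EE η c - η * h0 ^ 2 / 4) * U) + Real.exp ((-(3 / 4) + η * (9 / 32)) * U)) := by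
    refine (hB U S hS1 hSU).trans ?_
    have h5 : c * U + S * c ^ 2 / 2 - S * h0 ^ 2 / 4 = (EE η c - η * h0 ^ 2 / 4) * U := by
      rw [hSd]; unfold EE; ring
    have h6 : -(3 / 4) * U + S * (9 / 32) = (-(3 / 4) + η * (9 / 32)) * U := by
      rw [hSd]; ring
    rw [h5, h6]
    gcongr
  have b3 : ‖∫ u in Ioc (0:ℝ) 1, qq u * (wt U S u : ℂ)‖ ≤ G0 * Real.exp (-1 * U) := by
    have h5 : ‖∫ u in Ioc (0:ℝ) 1, qq u * (wt U S u : ℂ)‖ ≤ G0 * Real.exp (-1 * U) * volume.real (Ioc (0:ℝ) 1) := by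
      refine norm_setIntegral_le_of_norm_le_const (by simp) fun u hu => ?_
      rw [norm_mul, Complex.norm_real, Real.norm_of_nonneg (wt_pos U S u).le]
      have h6 := qq_bdd hu.1.le
      have h7 : wt U S u ≤ Real.exp (-1 * U) := by
        unfold wt
        refine Real.exp_le_exp.2 ?_
        have h8 : (U - 1) ^ 2 ≤ (u - U) ^ 2 := by nlinarith [hu.1, hu.2]
        have h9 : U ≤ (u - U) ^ 2 / (2 * S) := by
          rw [le_div_iff₀ (by positivity), hSd]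
          have : U * (2 * (η * U)) ≤ U ^ 2 / 2 := by nlinarith [sq_nonneg U]
          nlinarith
        linarith
      have h8 := (wt_pos U S u).le
      gcongr
    simpa using h5
  have e2 : |∫ u in Ioi (1:ℝ), kP u * wt U S u| = ‖((∫ u in Ioi (1:ℝ), kP u * wt U S u : ℝ) : ℂ)‖ := by
    rw [Complex.norm_real, Real.norm_eq_abs]
  rw [e2, e1]
  refine (norm_sub_le _ _).trans ?_
  have b4 := norm_sub_le (∫ u in Ioi (0:ℝ), qq u * (wt U S u : ℂ)) (∫ u in Ioc (0:ℝ) 1, qq u * (wt U S u : ℂ))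
  have z1 : K * (U + 1) * (Real.exp ((EE η c - η * h0 ^ 2 / 4) * U) +
      Real.exp ((-(3 / 4) + η * (9 / 32)) * U)) ≤ Real.exp ((EE η (θ - 1) - κ) * U) / 2 := by
    nlinarith
  have z2 : G0 * Real.exp (-1 * U) ≤ Real.exp ((EE η (θ - 1) - κ) * U) / 4 := by
    have h5 : G0 * (1 * Real.exp (-1 * U)) ≤ G0 * ((U + 1) * Real.exp (-1 * U)) := by
      gcongr
      linarith
    linarith
  have z3 : C * (3 * (U + 1)) * Real.exp ((-1 + η / 2) * U) ≤ Real.exp ((EE η (θ - 1) - κ) * U) / 4 := by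
    linarith
  linarith

end

end Q239.RN
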