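import Pool.Agent.Q239.RN.Osc2

set_option autoImplicit false

/-! # Oscillation of the tail integral on every window -/

open Filter Topology MeasureTheory Set Complex

namespace Q239.RN

noncomputable section

/-- the core of the argument: one-sided bound, small Gaussian average and large `L¹` norm contradict
each other -/
theorem osc_core {θ b δ : ℝ} (h1 : 1 / 2 ≤ θ) (h2 : θ ≤ 1) (hz : ∀ s : ℂ, θ < s.re → riemannZeta s ≠ 0)
    (hδ : 0 < δ) (hδ1 : δ ≤ 1 / 2) (hb : 1 - θ < b) (hb1 : b ≤ 1) :
    ∃ β0 : ℝ, β0 < θ ∧ ∀ β' : ℝ, β0 < β' → β' < θ → ∀ᶠ U : ℝ in atTop,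
      (∀ u ∈ Icc ((1 - δ) * U) ((1 + δ) * U), kP u ≤ Real.exp (-b * u)) →
      Real.exp ((β' - 1) * ((1 - δ ^ 2 / 16 * (1 - β')) * U)) ≤
        ∫ v in ((1 - δ ^ 2 / 16 * (1 - β')) * U)..((1 - δ ^ 2 / 16 * (1 - β')) * U + 1), |kP v| → False := by
  set η := δ ^ 2 / 16 with hηd
  have hη : 0 < η := by positivity
  have hη1 : η ≤ 1 / 4 := by rw [hηd]; nlinarith
  have hη2 : η ≤ δ / 16 := by rw [hηd]; nlinarith
  obtain ⟨κ, hκ, hκ1, hC1⟩ := C1fin h1 h2 hz hη hη1
  obtain ⟨Ck, hCk, hkb⟩ := kP_bdd
  refine ⟨max (θ - κ / 4) (1 - b), max_lt (by linarith) (by linarith), fun β' hβ1 hβ2 => ?_⟩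
  have hβ3 : θ - κ / 4 < β' := (le_max_left _ _).trans_lt hβ1
  have hβ4 : 1 - b < β' := (le_max_right _ _).trans_lt hβ1
  have x1 : EE η (-b) < EE η (β' - 1) := EE_strict hη hη1 (by linarith) (by linarith)
  have x2 : EE η (θ - 1) - κ < EE η (β' - 1) := by
    unfold EE
    have e : (θ - 1) + η * (θ - 1) ^ 2 / 2 = (β' - 1) + η * (β' - 1) ^ 2 / 2 +
        (θ - β') * (1 + η * ((β' - 1) + (θ - 1)) / 2) := by ring
    rw [e]
    have h6 : 1 + η * ((β' - 1) + (θ - 1)) / 2 ≤ 1 := by nlinarith
    have h7 : 0 ≤ θ - β' := by linarith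
    nlinarith
  have hEβ : -1 ≤ EE η (β' - 1) := by
    unfold EE
    have : 0 ≤ η * (β' - 1) ^ 2 / 2 := by positivity
    linarith
  have x3 : (-4 : ℝ) < EE η (β' - 1) := by linarith
  have hβ0 : 0 < 1 - β' := by linarith
  filter_upwards [hC1, exp_dom x1 (4 * 6), exp_dom' x2 4, exp_dom x3 (4 * (Ck * 4)), eventually_ge_atTop 4,
    eventually_ge_atTop (1 / η), eventually_ge_atTop (1 / (η * (1 - β'))), eventually_ge_atTop (2 / δ)]
    with U y1 y2 y3 y4 u1 u2 u3 u4 hup hlow
  have hU0 : 0 < U := by linarith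
  set S := η * U with hSd
  have hS : 0 < S := by positivity
  have hSU : S ≤ U := by rw [hSd]; nlinarith
  have hSβ : 1 ≤ S * (1 - β') := by
    rw [div_le_iff₀ (by positivity)] at u3
    rw [hSd]
    linarith
  have hδU : 2 ≤ δ * U := by
    rw [div_le_iff₀ hδ] at u4
    linarith
  set V := (1 - η * (1 - β')) * U with hV
  have hVU : V = U - S * (1 - β') := by rw [hV, hSd]; ring
  have hSδ : S * (1 - β') ≤ δ * U / 16 := by
    rw [hSd]
    have : η * U * (1 - β') ≤ (δ / 16) * U * 1 := by gcongr; linarith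
    linarith
  set a := (1 - δ) * U with ha
  set a' := (1 + δ) * U with ha'
  have hVa : a ≤ V := by rw [ha, hVU]; linarith
  have hVa' : V + 1 ≤ a' := by
    have : 0 ≤ S * (1 - β') := by positivity
    rw [ha', hVU]
    linarith
  have ha1 : 1 < a := by rw [ha]; nlinarith
  have hab : a ≤ a' := by linarith
  have hsub : Icc a a' ⊆ Ioi 1 := fun u hu => lt_of_lt_of_le ha1 hu.1
  -- integrability
  have hkw := kP_wt_int hS U
  have hkwI : IntegrableOn (fun u => kP u * wt U S u) (Icc a a') := hkw.mono_set hsub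
  obtain ⟨i1, i2⟩ := exp_wt_int hS U (-b)
  have habs : IntegrableOn (fun u => |kP u| * wt U S u) (Icc a a') := by
    refine hkwI.norm.congr (Eventually.of_forall fun u => ?_)
    simp only
    rw [norm_mul, Real.norm_eq_abs, Real.norm_of_nonneg (wt_pos U S u).le]
  -- lower bound
  have hl : Real.exp (EE η (β' - 1) * U) ≤ ∫ u in Icc a a', |kP u| * wt U S u := by
    have l1 : ∫ u in Ioc V (V + 1), |kP u| * Real.exp (-(S * (1 - β') ^ 2 / 2)) ≤
        ∫ u in Icc a a', |kP u| * wt U S u := by
      have l2 : ∫ u in Ioc V (V + 1), |kP u| * Real.exp (-(S * (1 - β') ^ 2 / 2)) ≤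
          ∫ u in Ioc V (V + 1), |kP u| * wt U S u := by
        refine setIntegral_mono_on ?_ (habs.mono_set ?_) measurableSet_Ioc fun u hu => ?_
        · have := absK_ii (a := V) (b := V + 1) (by linarith) (by linarith)
          rw [intervalIntegrable_iff_integrableOn_Ioc_of_le (by linarith)] at this
          exact this.mul_const _
        · intro u hu
          exact ⟨by linarith [hu.1], by linarith [hu.2]⟩
        · refine mul_le_mul_of_nonneg_left ?_ (abs_nonneg _)
          unfold wt
          refine Real.exp_le_exp.2 ?_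
          rw [neg_le_neg_iff, div_le_div_iff₀ (by positivity) (by norm_num)]
          have l3 : (u - U) ^ 2 ≤ (S * (1 - β')) ^ 2 := by
            rw [hVU] at hu
            have := hu.1
            have := hu.2
            nlinarith
          nlinarith
      refine l2.trans ?_
      refine setIntegral_mono_set habs (Eventually.of_forall fun u => ?_) ?_
      · have := (wt_pos U S u).le
        simp only [Pi.zero_apply]
        positivity
      · refine HasSubset.Subset.eventuallyLE ?_
        intro u hu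
        exact ⟨by linarith [hu.1], by linarith [hu.2]⟩
    refine le_trans ?_ l1
    rw [integral_mul_const, ← intervalIntegral.integral_of_le (by linarith)]
    have l4 : Real.exp (EE η (β' - 1) * U) =
        Real.exp ((β' - 1) * V) * Real.exp (-(S * (1 - β') ^ 2 / 2)) := by
      rw [← Real.exp_add]
      congr 1
      rw [hVU, hSd]
      unfold EE
      ring
    rw [l4]
    gcongr
  -- upper bound
  have hu1 : ∫ u in Icc a a', |kP u| * wt U S u ≤
      2 * (∫ u in Icc a a', Real.exp (-b * u) * wt U S u) - ∫ u in Icc a a', kP u * wt U S u := by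
    rw [← integral_const_mul, ← integral_sub (i1.integrableOn.const_mul 2) hkwI]
    refine setIntegral_mono_on habs ((i1.integrableOn.const_mul 2).sub hkwI) measurableSet_Icc fun u hu => ?_
    have g1 := hup u hu
    have g2 := (wt_pos U S u).le
    have g3 := Real.exp_pos (-b * u)
    have g4 : |kP u| ≤ 2 * Real.exp (-b * u) - kP u := by
      rw [abs_le]
      constructor <;> linarith
    calc |kP u| * wt U S u ≤ (2 * Real.exp (-b * u) - kP u) * wt U S u := by gcongr
      _ = _ := by ring
  have hs2 : Real.sqrt (2 * Real.pi * S) ≤ 3 * (U + 1) := by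
    rw [Real.sqrt_le_left (by linarith)]
    have := Real.pi_lt_d2
    nlinarith
  have hs4 : Real.sqrt (2 * Real.pi * (2 * S)) ≤ 4 * (U + 1) := by
    rw [Real.sqrt_le_left (by linarith)]
    have := Real.pi_lt_d2
    nlinarith
  have hu2 : ∫ u in Icc a a', Real.exp (-b * u) * wt U S u ≤ 3 * (U + 1) * Real.exp (EE η (-b) * U) := by
    refine (setIntegral_le_integral i1 (ae_of_all _ fun u => ?_)).trans ?_
    · have := (wt_pos U S u).le
      simp only
      positivity
    · rw [i2]
      have : -b * U + S * (-b) ^ 2 / 2 = EE η (-b) * U := by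
        rw [hSd]; unfold EE; ring
      rw [this]
      gcongr
  have hcompl : |∫ u in Ioi (1:ℝ) \ Icc a a', kP u * wt U S u| ≤ Ck * (4 * (U + 1)) * Real.exp (-4 * U) := by
    obtain ⟨j1, j2⟩ := wt_integral (S := 2 * S) (by positivity) U
    have g1 : ‖∫ u in Ioi (1:ℝ) \ Icc a a', kP u * wt U S u‖ ≤
        ∫ u in Ioi (1:ℝ) \ Icc a a', Ck * Real.exp (-4 * U) * wt U (2 * S) u := by
      refine norm_integral_le_of_norm_le (j1.const_mul _).integrableOn ?_
      refine (ae_restrict_iff' (measurableSet_Ioi.diff measurableSet_Icc)).2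
        (Eventually.of_forall fun u hu => ?_)
      obtain ⟨hu5, hu6⟩ := hu
      have g2 : δ * U ≤ |u - U| := by
        rw [mem_Icc, not_and_or, not_le, not_le, ha, ha'] at hu6
        rcases hu6 with h | h
        · rw [abs_of_neg (by nlinarith)]
          linarith
        · rw [abs_of_pos (by nlinarith)]
          linarith
      have g3 : (δ * U) ^ 2 ≤ (u - U) ^ 2 := by
        rw [← sq_abs (u - U)]
        have : 0 ≤ δ * U := by positivity
        gcongr
      have g4 : wt U S u ≤ Real.exp (-4 * U) * wt U (2 * S) u := by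
        unfold wt
        rw [← Real.exp_add]
        refine Real.exp_le_exp.2 ?_
        have g5 : (u - U) ^ 2 / (2 * S) = (u - U) ^ 2 / (4 * S) + (u - U) ^ 2 / (2 * (2 * S)) := by
          field_simp
          ring
        have g6 : 4 * U ≤ (u - U) ^ 2 / (4 * S) := by
          rw [le_div_iff₀ (by positivity)]
          refine le_trans (le_of_eq ?_) g3
          rw [hSd, hηd]
          ring
        rw [g5]
        linarith
      rw [norm_mul, Real.norm_eq_abs, Real.norm_of_nonneg (wt_pos U S u).le]
      have g7 := hkb u (le_of_lt hu5)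
      have g8 := (wt_pos U S u).le
      calc |kP u| * wt U S u ≤ Ck * (Real.exp (-4 * U) * wt U (2 * S) u) := by gcongr
        _ = _ := by ring
    rw [← Real.norm_eq_abs]
    refine g1.trans ((setIntegral_le_integral (j1.const_mul _) (ae_of_all _ fun u => ?_)).trans ?_)
    · have := (wt_pos U (2 * S) u).le
      simp only
      positivity
    · rw [integral_const_mul, j2]
      calc Ck * Real.exp (-4 * U) * Real.sqrt (2 * Real.pi * (2 * S)) ≤
            Ck * Real.exp (-4 * U) * (4 * (U + 1)) := by gcongr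
        _ = _ := by ring
  have hsplit : ∫ u in Ioi (1:ℝ), kP u * wt U S u =
      (∫ u in Icc a a', kP u * wt U S u) + ∫ u in Ioi (1:ℝ) \ Icc a a', kP u * wt U S u := by
    rw [← setIntegral_union disjoint_sdiff_right (measurableSet_Ioi.diff measurableSet_Icc) hkwI
      (hkw.mono_set sdiff_subset)]
    rw [union_sdiff_cancel hsub]
  have hfin : -(∫ u in Icc a a', kP u * wt U S u) ≤
      |∫ u in Ioi (1:ℝ), kP u * wt U S u| + |∫ u in Ioi (1:ℝ) \ Icc a a', kP u * wt U S u| := by
    have g1 := neg_abs_le (∫ u in Ioi (1:ℝ), kP u * wt U S u)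
    have g2 := le_abs_self (∫ u in Ioi (1:ℝ) \ Icc a a', kP u * wt U S u)
    linarith
  have hpos := Real.exp_pos (EE η (β' - 1) * U)
  nlinarith

end

end Q239.RN
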