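import Pool.Agent.Q239.RN.Osc3
import Pool.Agent.Q239.RN.KL
import Pool.Agent.Q239.RN.Mert2

set_option autoImplicit false

/-! # The Mertens tail integral exceeds `exp(-b u)` somewhere in every window -/

open Filter Topology MeasureTheory Set Complex

namespace Q239.RN

noncomputable section

/-- the oscillation theorem when some zero has real part larger than `1/2` -/
theorem oscA {θ b δ : ℝ} (h1 : 1 / 2 < θ) (h2 : θ ≤ 1) (hz : ∀ s : ℂ, θ < s.re → riemannZeta s ≠ 0)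
    (hs : ∀ β : ℝ, β < θ → ∃ ρ : ℂ, riemannZeta ρ = 0 ∧ β < ρ.re)
    (hδ : 0 < δ) (hδ1 : δ ≤ 1 / 2) (hb : 1 - θ < b) (hb1 : b ≤ 1) :
    ∀ᶠ U : ℝ in atTop, ∃ u ∈ Icc ((1 - δ) * U) ((1 + δ) * U), Real.exp (-b * u) < kT u := by
  obtain ⟨β0, hβ0, H⟩ := osc_core h1.le h2 hz hδ hδ1 hb hb1
  obtain ⟨c, v0, hc, hv0, hd⟩ := kT_sub_kP
  obtain ⟨β', hβ1, hβ2⟩ : ∃ β', max β0 (1 / 2) < β' ∧ β' < θ := exists_between (max_lt hβ0 h1)
  have hβ3 : β0 < β' := (le_max_left _ _).trans_lt hβ1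
  have hβ4 : 1 / 2 < β' := (le_max_right _ _).trans_lt hβ1
  obtain ⟨ρ, hρ, hρβ⟩ := hs β' hβ2
  have K := kP_L1 (θ := 1 / 2) le_rfl hρ (by linarith) (ε := ρ.re - β') (by linarith)
  have hc0 : 0 < 1 - δ ^ 2 / 16 * (1 - β') := by nlinarith
  have hV : Tendsto (fun U : ℝ => (1 - δ ^ 2 / 16 * (1 - β')) * U) atTop atTop :=
    tendsto_id.const_mul_atTop hc0
  filter_upwards [H β' hβ3 hβ2, hV.eventually K, eventually_ge_atTop (2 * v0)] with U a1 a2 a3
  by_contra hcon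
  push Not at hcon
  refine a1 (fun u hu => ?_) (le_of_eq_of_le ?_ a2)
  · have h5 : v0 ≤ u := by
      have := hu.1
      nlinarith
    have h6 := hd u h5
    have h7 := hcon u hu
    have hu0 : 0 < u := by linarith
    have h8 : 0 ≤ c * Real.exp (-(u / 2)) / u := by positivity
    linarith
  · congr 1
    ring

/-- the oscillation theorem when there is no zero with real part larger than `1/2` -/
theorem oscB {b δ : ℝ} (hz : ∀ s : ℂ, 1 / 2 < s.re → riemannZeta s ≠ 0)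
    (hδ : 0 < δ) (hδ1 : δ ≤ 1 / 2) (hb : 1 / 2 < b) (hb1 : b ≤ 1) :
    ∀ᶠ U : ℝ in atTop, ∃ u ∈ Icc ((1 - δ) * U) ((1 + δ) * U), Real.exp (-b * u) < kT u := by
  obtain ⟨β0, hβ0, H⟩ := osc_core (θ := 1 / 2) le_rfl (by norm_num) hz hδ hδ1 (by linarith) hb1
  obtain ⟨c, v0, hc, hv0, hd⟩ := kT_sub_kP
  obtain ⟨β', hβ1, hβ2⟩ : ∃ β', max β0 0 < β' ∧ β' < 1 / 2 :=
    exists_between (max_lt hβ0 (by norm_num))
  have hβ3 : β0 < β' := (le_max_left _ _).trans_lt hβ1
  have hβ4 : 0 < β' := (le_max_right _ _).trans_lt hβ1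
  have hc0 : 0 < 1 - δ ^ 2 / 16 * (1 - β') := by nlinarith
  have hV : Tendsto (fun U : ℝ => (1 - δ ^ 2 / 16 * (1 - β')) * U) atTop atTop :=
    tendsto_id.const_mul_atTop hc0
  have hV2 := hV.eventually (exp_dom (show β' - 1 < -(1 / 2 : ℝ) by linarith) (2 / c * Real.exp (1 / 2)))
  obtain ⟨N, hN⟩ := eventually_atTop.1 (exp_dom (show -b < -(1 / 2 : ℝ) by linarith) (2 / c))
  filter_upwards [H β' hβ3 hβ2, hV2, eventually_ge_atTop (2 * v0), eventually_ge_atTop (2 * N),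
    eventually_ge_atTop (1 / δ), eventually_ge_atTop (2 : ℝ)] with U a1 a2 a3 a4 a5 a6
  by_contra hcon
  push Not at hcon
  have key : ∀ u ∈ Icc ((1 - δ) * U) ((1 + δ) * U), 0 < u ∧ kP u ≤ Real.exp (-b * u) ∧
      c / 2 * Real.exp (-(u / 2)) / u ≤ |kP u| := by
    intro u hu
    have hu1 : U / 2 ≤ u := by
      have := hu.1
      nlinarith
    have h5 : v0 ≤ u := by linarith
    have h6 := hd u h5
    have h7 := hcon u hu
    have hu0 : 0 < u := by linarith
    have h8 : 0 ≤ c * Real.exp (-(u / 2)) / u := by positivity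
    refine ⟨hu0, by linarith, ?_⟩
    have h9 := hN u (by linarith)
    have h10 : Real.exp (-b * u) ≤ c / 2 * Real.exp (-(u / 2)) / u := by
      rw [le_div_iff₀ hu0]
      have h11 : (2 : ℝ) / c * (u * Real.exp (-b * u)) ≤ Real.exp (-(1 / 2) * u) := by
        refine le_trans ?_ h9
        have := Real.exp_pos (-b * u)
        gcongr
        linarith
      have e1 : -(1 / 2 : ℝ) * u = -(u / 2) := by ring
      rw [e1] at h11
      have h12 : c / 2 * ((2 : ℝ) / c * (u * Real.exp (-b * u))) ≤ c / 2 * Real.exp (-(u / 2)) := by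
        gcongr
      have e2 : c / 2 * ((2 : ℝ) / c * (u * Real.exp (-b * u))) = Real.exp (-b * u) * u := by
        field_simp
      linarith
    have e3 : c * Real.exp (-(u / 2)) / u = 2 * (c / 2 * Real.exp (-(u / 2)) / u) := by ring
    rw [e3] at h6
    rw [abs_of_nonpos (by linarith)]
    linarith
  refine a1 (fun u hu => (key u hu).2.1) ?_
  set V := (1 - δ ^ 2 / 16 * (1 - β')) * U with hVd
  have hVU : V ≤ U := by
    rw [hVd]
    have : 0 ≤ δ ^ 2 / 16 * (1 - β') := by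
      have : 0 < 1 - β' := by linarith
      positivity
    nlinarith
  have hVl : (1 - δ) * U ≤ V := by
    rw [hVd]
    have : δ ^ 2 / 16 * (1 - β') ≤ δ := by
      have h1 : 0 < 1 - β' := by linarith
      have h2 : δ ^ 2 / 16 * (1 - β') ≤ δ ^ 2 / 16 * 1 := by gcongr; linarith
      nlinarith
    gcongr
  have hδU : 1 ≤ δ * U := by
    rw [div_le_iff₀ hδ] at a5
    linarith
  have hVr : V + 1 ≤ (1 + δ) * U := by nlinarith
  have hV0 : 0 < V := by
    rw [hVd]
    positivity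
  have hlow : ∀ v ∈ Icc V (V + 1), c / 2 * Real.exp (-((V + 1) / 2)) / (V + 1) ≤ |kP v| := by
    intro v hv
    obtain ⟨h1, -, h3⟩ := key v ⟨hVl.trans hv.1, hv.2.trans hVr⟩
    refine le_trans ?_ h3
    have := hv.2
    have := hv.1
    gcongr
  have hfin : Real.exp ((β' - 1) * V) ≤ c / 2 * Real.exp (-((V + 1) / 2)) / (V + 1) := by
    rw [le_div_iff₀ (by linarith)]
    have e4 : Real.exp (-((V + 1) / 2)) = Real.exp (-(1 / 2) * V) / Real.exp (1 / 2) := by
      rw [← Real.exp_sub]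
      congr 1
      ring
    rw [e4]
    have h12 : c / 2 / Real.exp (1 / 2) * (2 / c * Real.exp (1 / 2) * ((V + 1) * Real.exp ((β' - 1) * V))) ≤
        c / 2 / Real.exp (1 / 2) * Real.exp (-(1 / 2) * V) := by
      gcongr
    have e5 : c / 2 / Real.exp (1 / 2) * (2 / c * Real.exp (1 / 2) * ((V + 1) * Real.exp ((β' - 1) * V))) =
        Real.exp ((β' - 1) * V) * (V + 1) := by
      have : Real.exp (1 / 2) ≠ 0 := (Real.exp_pos _).ne'
      field_simp
    have e6 : c / 2 / Real.exp (1 / 2) * Real.exp (-(1 / 2) * V) =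
        c / 2 * (Real.exp (-(1 / 2) * V) / Real.exp (1 / 2)) := by ring
    linarith
  refine hfin.trans ?_
  have h20 : ∫ v in V..(V + 1), c / 2 * Real.exp (-((V + 1) / 2)) / (V + 1) ≤ ∫ v in V..(V + 1), |kP v| := by
    refine intervalIntegral.integral_mono_on (by linarith) intervalIntegrable_const ?_ hlow
    exact absK_ii (by nlinarith) (by linarith)
  simpa using h20

/-- a supremum `θ` of real parts of zeros: the Mertens tail integral exceeds `exp(-b u)`, `b > 1 - θ`,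
somewhere in every window `[(1-δ)U, (1+δ)U]` -/
theorem osc {θ b δ : ℝ} (h1 : 1 / 2 ≤ θ) (h2 : θ ≤ 1) (hz : ∀ s : ℂ, θ < s.re → riemannZeta s ≠ 0)
    (hs : ∀ β : ℝ, 1 / 2 < β → β < θ → ∃ ρ : ℂ, riemannZeta ρ = 0 ∧ β < ρ.re)
    (hδ : 0 < δ) (hδ1 : δ ≤ 1 / 2) (hb : 1 - θ < b) :
    ∀ᶠ U : ℝ in atTop, ∃ u ∈ Icc ((1 - δ) * U) ((1 + δ) * U), Real.exp (-b * u) < kT u := by
  by_cases hb1 : b ≤ 1
  · rcases eq_or_lt_of_le h1 with h | h
    · subst h
      exact oscB hz hδ hδ1 (by linarith) hb1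
    · refine oscA h h2 hz (fun β hβ => ?_) hδ hδ1 hb hb1
      rcases lt_or_ge (1 / 2) β with h5 | h5
      · exact hs β h5 hβ
      · obtain ⟨β1, h6, h7⟩ := exists_between h
        obtain ⟨ρ, hρ, h8⟩ := hs β1 h6 h7
        exact ⟨ρ, hρ, by linarith⟩
  · push Not at hb1
    have h5 : ∀ᶠ U : ℝ in atTop, ∃ u ∈ Icc ((1 - δ) * U) ((1 + δ) * U), Real.exp (-(1 : ℝ) * u) < kT u := by
      rcases eq_or_lt_of_le h1 with h | h
      · subst h
        exact oscB hz hδ hδ1 (by norm_num) le_rfl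
      · refine oscA h h2 hz (fun β hβ => ?_) hδ hδ1 (by linarith) le_rfl
        rcases lt_or_ge (1 / 2) β with h5 | h5
        · exact hs β h5 hβ
        · obtain ⟨β1, h6, h7⟩ := exists_between h
          obtain ⟨ρ, hρ, h8⟩ := hs β1 h6 h7
          exact ⟨ρ, hρ, by linarith⟩
    filter_upwards [h5, eventually_ge_atTop (0 : ℝ)] with U ⟨u, hu, h6⟩ h7
    refine ⟨u, hu, lt_of_le_of_lt (Real.exp_le_exp.2 ?_) h6⟩
    have : 0 ≤ u := by
      have := hu.1
      nlinarith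
    nlinarith

end

end Q239.RN
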