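import Pool.Agent.Q239.RN.Lap2

set_option autoImplicit false

/-! # The weight as a superposition of exponentials -/

open Filter Topology MeasureTheory Set Complex

namespace Q239.RN

noncomputable section

/-- the main part of the weight -/
def rho (v : ℝ) : ℝ := ∫ α in (0:ℝ)..1, (1 + α) * Real.exp (-(α * v))

theorem rho_cont : Continuous rho := by
  unfold rho
  exact intervalIntegral.continuous_parametric_intervalIntegral_of_continuous' (by fun_prop) 0 1

theorem rho_eq {v : ℝ} (hv : 0 < v) : rho v = om v - Real.exp (-v) * (2 / v + 1 / v ^ 2) := by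
  unfold rho
  have hd : ∀ α : ℝ, HasDerivAt (fun α : ℝ => -((1 + α) / v + 1 / v ^ 2) * Real.exp (-(α * v)))
      ((1 + α) * Real.exp (-(α * v))) α := by
    intro α
    have h1 : HasDerivAt (fun α : ℝ => -(α * v)) (-(1 * v)) α := ((hasDerivAt_id α).mul_const v).neg
    have h2 : HasDerivAt (fun α : ℝ => -((1 + α) / v + 1 / v ^ 2)) (-(1 / v)) α :=
      ((((hasDerivAt_id α).const_add 1).div_const v).add_const _).neg
    have h3 := h2.mul h1.exp
    have e : -(1 / v) * Real.exp (-(α * v)) + -((1 + α) / v + 1 / v ^ 2) * (Real.exp (-(α * v)) * -(1 * v)) =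
        (1 + α) * Real.exp (-(α * v)) := by
      field_simp
      ring
    rw [e] at h3
    exact h3
  rw [intervalIntegral.integral_eq_sub_of_hasDerivAt (fun α _ => hd α)
    ((Continuous.intervalIntegrable (by fun_prop) _ _))]
  unfold om
  simp only [one_mul, zero_mul, neg_zero, Real.exp_zero]
  ring

theorem rho_nonneg {v : ℝ} (_hv : 0 ≤ v) : 0 ≤ rho v := by
  unfold rho
  refine intervalIntegral.integral_nonneg zero_le_one fun α hα => ?_
  have : 0 ≤ 1 + α := by linarith [hα.1]
  positivity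

theorem rho_le {v : ℝ} (hv : 0 ≤ v) : rho v ≤ 2 := by
  unfold rho
  calc ∫ α in (0:ℝ)..1, (1 + α) * Real.exp (-(α * v)) ≤ ∫ α in (0:ℝ)..1, (2:ℝ) := by
        refine intervalIntegral.integral_mono_on zero_le_one
          (Continuous.intervalIntegrable (by fun_prop) _ _) intervalIntegrable_const fun α hα => ?_
        have h1 : Real.exp (-(α * v)) ≤ 1 := Real.exp_le_one_iff.2 (by nlinarith [hα.1])
        have h2 := Real.exp_pos (-(α * v))
        nlinarith [hα.1, hα.2]
    _ = 2 := by simp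

/-- the density -/
def gr (v : ℝ) : ℂ := ((eP v * rho v : ℝ) : ℂ)

theorem gr_meas : Measurable gr := Complex.measurable_ofReal.comp (eP_meas.mul rho_cont.measurable)

/-- the transform of the density -/
def Lam1 (z : ℂ) : ℂ := ∫ v in Ioi (0:ℝ), gr v * cexp (-(z * v))

/-- the continuation of the transform -/
def Lamc (z : ℂ) : ℂ := ∫ α in (0:ℝ)..1, (1 + (α : ℂ)) * Gh (α + z)

theorem gr_int {z : ℂ} (h : IntegrableOn (fun v : ℝ => (eP v : ℂ) * cexp (-(z * v))) (Ioi 0)) :
    IntegrableOn (fun v : ℝ => gr v * cexp (-(z * v))) (Ioi 0) := by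
  refine Integrable.mono' (h.norm.const_mul 2) ((gr_meas.mul (by fun_prop)).aestronglyMeasurable) ?_
  refine (ae_restrict_iff' measurableSet_Ioi).2 (Eventually.of_forall fun v hv => ?_)
  have hv0 : 0 ≤ v := le_of_lt hv
  unfold gr
  rw [norm_mul, norm_mul, Complex.norm_real, Complex.norm_real, Real.norm_eq_abs, Real.norm_eq_abs, abs_mul,
    abs_of_nonneg (rho_nonneg hv0)]
  have h1 := rho_le hv0
  have h2 := abs_nonneg (eP v)
  have h3 := norm_nonneg (cexp (-(z * v)))
  calc |eP v| * rho v * ‖cexp (-(z * v))‖ ≤ |eP v| * 2 * ‖cexp (-(z * v))‖ := by gcongr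
    _ = _ := by ring

theorem Lam1_eq {z : ℂ} (h : IntegrableOn (fun v : ℝ => (eP v : ℂ) * cexp (-(z * v))) (Ioi 0)) :
    Lam1 z = ∫ α in (0:ℝ)..1, (1 + (α : ℂ)) * LT (α + z) := by
  set H : ℝ × ℝ → ℂ := fun p => ((eP p.1 : ℂ) * cexp (-(z * p.1))) * ((1 + (p.2 : ℂ)) * cexp (-(p.2 * p.1)))
    with hH
  have hmeas : Measurable H := by
    refine Measurable.mul ?_ (by fun_prop)
    exact (eP_c_meas.comp measurable_fst).mul (by fun_prop)
  have hint : Integrable H ((volume.restrict (Ioi (0:ℝ))).prod (volume.restrict (Ioc (0:ℝ) 1))) := by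
    have h1 : Integrable (fun _ : ℝ => (2:ℝ)) (volume.restrict (Ioc (0:ℝ) 1)) := integrable_const _
    have h2 := Integrable.mul_prod h.norm h1
    refine Integrable.mono' h2 hmeas.aestronglyMeasurable ?_
    rw [Measure.prod_restrict]
    refine (ae_restrict_iff' (measurableSet_Ioi.prod measurableSet_Ioc)).2
      (Eventually.of_forall fun p hp => ?_)
    obtain ⟨hp1, hp2, hp3⟩ := hp
    have hp1' : 0 < p.1 := hp1
    simp only [hH]
    rw [norm_mul]
    refine mul_le_mul_of_nonneg_left ?_ (norm_nonneg _)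
    rw [norm_mul]
    have e1 : ‖(1 + (p.2 : ℂ))‖ = 1 + p.2 := by
      have : (1 + (p.2 : ℂ)) = ((1 + p.2 : ℝ) : ℂ) := by push_cast; ring
      rw [this, Complex.norm_real, Real.norm_of_nonneg (by linarith)]
    have e2 : ‖cexp (-((p.2 : ℂ) * p.1))‖ = Real.exp (-(p.2 * p.1)) := by
      rw [Complex.norm_exp]
      congr 1
      simp
    have e3 : Real.exp (-(p.2 * p.1)) ≤ 1 := Real.exp_le_one_iff.2 (by nlinarith)
    have e4 := Real.exp_pos (-(p.2 * p.1))
    rw [e1, e2]
    nlinarith
  have hswap := integral_integral_swap (f := fun v α => H (v, α)) hint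
  have hL : ∫ v in Ioi (0:ℝ), ∫ α in Ioc (0:ℝ) 1, H (v, α) = Lam1 z := by
    unfold Lam1
    refine setIntegral_congr_fun measurableSet_Ioi fun v _ => ?_
    simp only [hH]
    rw [integral_const_mul]
    unfold gr rho
    rw [intervalIntegral.integral_of_le zero_le_one]
    have e1 : ((∫ α in Ioc (0:ℝ) 1, (1 + α) * Real.exp (-(α * v)) : ℝ) : ℂ) =
        ∫ α in Ioc (0:ℝ) 1, (1 + (α : ℂ)) * cexp (-(α * v)) := by
      rw [← integral_complex_ofReal]
      refine setIntegral_congr_fun measurableSet_Ioc fun α _ => ?_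
      push_cast
      rfl
    rw [Complex.ofReal_mul, e1]
    ring
  have hR : ∫ α in Ioc (0:ℝ) 1, ∫ v in Ioi (0:ℝ), H (v, α) = ∫ α in (0:ℝ)..1, (1 + (α : ℂ)) * LT (α + z) := by
    rw [intervalIntegral.integral_of_le zero_le_one]
    refine setIntegral_congr_fun measurableSet_Ioc fun α _ => ?_
    simp only [hH]
    unfold LT
    rw [← integral_const_mul]
    refine setIntegral_congr_fun measurableSet_Ioi fun v _ => ?_
    have e1 : cexp (-((α + z) * v)) = cexp (-(z * v)) * cexp (-(α * v)) := by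
      rw [← Complex.exp_add]; congr 1; ring
    simp only [e1]
    ring
  rw [← hL, hswap, hR]

/-- analyticity of the continuation -/
theorem Lamc_diff {U : Set ℂ} (hU : IsOpen U) (hG : DifferentiableOn ℂ Gh U) {z : ℂ}
    (hz : ∀ α ∈ Icc (0:ℝ) 1, (α : ℂ) + z ∈ U) : DifferentiableAt ℂ Lamc z := by
  set K : Set ℂ := (fun α : ℝ => (α : ℂ) + z) '' Icc 0 1 with hK
  have hKc : IsCompact K := isCompact_Icc.image (by fun_prop)
  have hKU : K ⊆ U := by
    rintro w ⟨α, hα, rfl⟩
    exact hz α hα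
  obtain ⟨δ, hδ, hth⟩ := hKc.exists_thickening_subset_open hU hKU
  have hmem : ∀ α ∈ Icc (0:ℝ) 1, ∀ w ∈ Metric.closedBall z (δ / 2), (α : ℂ) + w ∈ U := by
    intro α hα w hw
    refine hth ?_
    rw [Metric.mem_thickening_iff]
    refine ⟨(α : ℂ) + z, ⟨α, hα, rfl⟩, ?_⟩
    rw [dist_add_left]
    rw [Metric.mem_closedBall] at hw
    linarith
  have hdc : ContinuousOn (deriv Gh) U := (hG.deriv hU).continuousOn
  have hcomp : IsCompact (Icc (0:ℝ) 1 ×ˢ Metric.closedBall z (δ / 2)) :=
    isCompact_Icc.prod (isCompact_closedBall _ _)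
  have hcont : ContinuousOn (fun p : ℝ × ℂ => deriv Gh ((p.1 : ℂ) + p.2))
      (Icc (0:ℝ) 1 ×ˢ Metric.closedBall z (δ / 2)) := by
    refine hdc.comp (by fun_prop) ?_
    rintro ⟨α, w⟩ ⟨h1, h2⟩
    exact hmem α h1 w h2
  obtain ⟨M, hM⟩ := hcomp.exists_bound_of_continuousOn hcont
  have hcontF : ∀ w ∈ Metric.closedBall z (δ / 2), ContinuousOn (fun α : ℝ => (1 + (α : ℂ)) * Gh (α + w))
      (Icc 0 1) := by
    intro w hw
    refine ContinuousOn.mul (by fun_prop) ?_
    refine hG.continuousOn.comp (by fun_prop) fun α hα => hmem α hα w hw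
  have hcontF' : ContinuousOn (fun α : ℝ => (1 + (α : ℂ)) * deriv Gh (α + z)) (Icc 0 1) := by
    refine ContinuousOn.mul (by fun_prop) ?_
    refine hdc.comp (by fun_prop) fun α hα => hz α hα
  have hball : Metric.ball z (δ / 2) ∈ 𝓝 z := Metric.ball_mem_nhds z (by linarith)
  have hIcc : uIoc (0:ℝ) 1 = Ioc 0 1 := uIoc_of_le zero_le_one
  have key := intervalIntegral.hasDerivAt_integral_of_dominated_loc_of_deriv_le (𝕜 := ℂ) (μ := volume)
    (a := 0) (b := 1) (F := fun w (α : ℝ) => (1 + (α : ℂ)) * Gh (α + w))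
    (F' := fun w (α : ℝ) => (1 + (α : ℂ)) * deriv Gh (α + w)) (x₀ := z) (s := Metric.ball z (δ / 2))
    (bound := fun _ => 2 * M) hball
    (by
      filter_upwards [hball] with w hw
      rw [hIcc]
      refine ContinuousOn.aestronglyMeasurable ?_ measurableSet_Ioc
      exact (hcontF w (Metric.ball_subset_closedBall hw)).mono Ioc_subset_Icc_self)
    (by
      refine ContinuousOn.intervalIntegrable ?_
      rw [uIcc_of_le zero_le_one]
      exact hcontF z (Metric.mem_closedBall_self (by linarith)))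
    (by
      rw [hIcc]
      refine ContinuousOn.aestronglyMeasurable ?_ measurableSet_Ioc
      exact hcontF'.mono Ioc_subset_Icc_self)
    (Eventually.of_forall fun α hα w hw => by
      rw [hIcc] at hα
      have hα' : α ∈ Icc (0:ℝ) 1 := ⟨hα.1.le, hα.2⟩
      have h1 := hM (α, w) ⟨hα', Metric.ball_subset_closedBall hw⟩
      have h2 : ‖(1 + (α : ℂ))‖ ≤ 2 := by
        have : (1 + (α : ℂ)) = ((1 + α : ℝ) : ℂ) := by push_cast; ring
        rw [this, Complex.norm_real, Real.norm_of_nonneg (by linarith [hα.1])]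
        linarith [hα.2]
      rw [norm_mul]
      exact mul_le_mul h2 h1 (norm_nonneg _) (by norm_num))
    intervalIntegrable_const
    (Eventually.of_forall fun α hα w hw => by
      rw [hIcc] at hα
      have hα' : α ∈ Icc (0:ℝ) 1 := ⟨hα.1.le, hα.2⟩
      have h1 : DifferentiableAt ℂ Gh ((α : ℂ) + w) :=
        (hG _ (hmem α hα' w (Metric.ball_subset_closedBall hw))).differentiableAt
          (hU.mem_nhds (hmem α hα' w (Metric.ball_subset_closedBall hw)))
      have h2 := h1.hasDerivAt.comp_const_add (α : ℂ) w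
      exact h2.const_mul _)
  exact key.2.differentiableAt

end

end Q239.RN
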