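import Pool.Agent.Q239.RN.Mert2

set_option autoImplicit false

/-! # Lower bounds for the counting function: exchanging primes -/

open Finset Filter Topology

namespace Q239.RN

theorem choose_ge (a b m : ℕ) (ha : m ≤ a) (hb : m ≤ b) : 2 ^ m ≤ (a + b).choose a := by
  have h1 : ∀ m : ℕ, 2 ^ m ≤ (m + m).choose m := by
    intro m
    have h := Nat.centralBinom_eq_two_mul_choose m
    rw [two_mul] at h
    rw [← h]
    induction m with
    | zero => simp
    | succ m ih =>
      have h2 := Nat.succ_mul_centralBinom_succ m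
      have h3 := ih (by rw [Nat.centralBinom_eq_two_mul_choose, two_mul])
      have h4 : (m + 1) * 2 ^ (m + 1) ≤ (m + 1) * Nat.centralBinom (m + 1) := by
        rw [h2, pow_succ]
        nlinarith
      exact Nat.le_of_mul_le_mul_left h4 (by omega)
  have h2 : ∀ k n c : ℕ, n.choose c ≤ (n + k).choose (c + k) := by
    intro k n c
    induction k with
    | zero => simp
    | succ k ih =>
      refine ih.trans ?_
      rw [← add_assoc, ← add_assoc, Nat.choose_succ_succ]
      omega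
  obtain ⟨d, rfl⟩ := Nat.exists_eq_add_of_le ha
  refine (h1 m).trans ?_
  refine (Nat.choose_le_choose m (by omega : m + m ≤ m + b)).trans ?_
  have := h2 d (m + b) m
  rwa [show m + b + d = m + d + b by ring] at this

/-- `ell` differences -/
theorem ell_diff {a b : ℝ} (ha : 1 < a) (hab : a ≤ b) : ell a - ell b ≤ (b - a) / (b * (a - 1)) := by
  unfold ell
  have h0 : 0 < 1 - 1 / a := by
    rw [sub_pos, div_lt_one (by linarith)]
    exact ha
  have h1 : 0 < 1 - 1 / b := by
    rw [sub_pos, div_lt_one (by linarith)]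
    linarith
  have h2 := Real.log_le_sub_one_of_pos (show 0 < (1 - 1 / b) / (1 - 1 / a) by positivity)
  rw [Real.log_div h1.ne' h0.ne'] at h2
  have h3 : (1 - 1 / b) / (1 - 1 / a) - 1 = (b - a) / (b * (a - 1)) := by
    have e1 : a ≠ 0 := by linarith
    have e2 : b ≠ 0 := by linarith
    have e3 : a - 1 ≠ 0 := by linarith
    have e4 : (1 - 1 / a) ≠ 0 := h0.ne'
    have e5 : 1 - 1 / a = (a - 1) / a := by field_simp
    rw [e5]
    field_simp
    ring
  linarith

/-- the integers of the construction -/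
def nU (j h Q : ℕ) (U : Finset ℕ) : ℕ := Q * ∏ p ∈ PS (j - h) ∪ U, p

/-- the primes of the window -/
def Win (j h : ℕ) : Finset ℕ := PS (j + h) \ PS (j - h)

theorem mem_Win {j h p : ℕ} (hhj : h ≤ j) : p ∈ Win j h ↔ p.Prime ∧ j - h < p ∧ p ≤ j + h := by
  unfold Win
  rw [Finset.mem_sdiff, mem_PS, mem_PS]
  constructor
  · rintro ⟨⟨h1, h2⟩, h3⟩
    refine ⟨h1, ?_, h2⟩
    by_contra h4
    exact h3 ⟨h1, not_lt.1 h4⟩
  · rintro ⟨h1, h2, h3⟩
    exact ⟨⟨h1, h3⟩, fun h4 => by omega⟩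

section

variable {j h Q : ℕ} (hQ0 : Q ≠ 0) (hQ : Q.primeFactors ⊆ PS (j - h)) {U : Finset ℕ} (hU : U ⊆ Win j h)

include hU in
theorem disj_U (hhj : h ≤ j) : Disjoint (PS (j - h)) U := by
  rw [Finset.disjoint_left]
  intro p hp1 hp2
  have h2 := (mem_Win hhj).1 (hU hp2)
  rw [mem_PS] at hp1
  omega

include hU in
theorem prime_U (hhj : h ≤ j) {p : ℕ} (hp : p ∈ PS (j - h) ∪ U) : p.Prime := by
  rw [mem_union] at hp
  rcases hp with h1 | h1
  · exact (mem_PS.1 h1).1
  · exact ((mem_Win hhj).1 (hU h1)).1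

include hQ0 hQ hU in
theorem nU_factors (hhj : h ≤ j) : (nU j h Q U).primeFactors = PS (j - h) ∪ U := by
  unfold nU
  have h1 : (∏ p ∈ PS (j - h) ∪ U, p) ≠ 0 :=
    Finset.prod_ne_zero_iff.2 fun p hp => (prime_U hU hhj hp).ne_zero
  rw [Nat.primeFactors_mul hQ0 h1, Nat.primeFactors_prod fun p hp => prime_U hU hhj hp]
  refine Finset.union_eq_right.2 ?_
  exact hQ.trans Finset.subset_union_left

include hQ0 hU in
theorem log_nU (hhj : h ≤ j) : Real.log (nU j h Q U) = Real.log Q + (∑ p ∈ PS (j - h), Real.log p +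
    ∑ p ∈ U, Real.log p) := by
  unfold nU
  push_cast
  have h1 : (∏ p ∈ PS (j - h) ∪ U, (p : ℝ)) ≠ 0 :=
    Finset.prod_ne_zero_iff.2 fun p hp => by
      have := prime_gt (prime_U hU hhj hp)
      linarith
  rw [Real.log_mul (by exact_mod_cast hQ0) h1, Real.log_prod (fun p hp => by
      have := prime_gt (prime_U hU hhj hp)
      linarith), Finset.sum_union (disj_U hU hhj)]

end

/-- the left part of the window -/
theorem PS_split {j h : ℕ} : PS j = PS (j - h) ∪ (PS j \ PS (j - h)) := by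
  rw [Finset.union_sdiff_of_subset (PS_mono (Nat.sub_le j h))]

theorem left_card (j h : ℕ) : (PS j \ PS (j - h)).card ≤ h := by
  have : PS j \ PS (j - h) ⊆ Finset.Ioc (j - h) j := by
    intro p hp
    rw [Finset.mem_sdiff, mem_PS, mem_PS] at hp
    rw [Finset.mem_Ioc]
    refine ⟨?_, hp.1.2⟩
    by_contra h2
    exact hp.2 ⟨hp.1.1, not_lt.1 h2⟩
  have := Finset.card_le_card this
  rw [Nat.card_Ioc] at this
  omega

/-- the sum over the prime factors -/
theorem ell_nU {j h : ℕ} (hj : 100 ≤ j) (h4 : 4 * h ≤ j) {U : Finset ℕ}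
    (hU : U ⊆ Win j h) (hc : U.card = (PS j \ PS (j - h)).card) :
    SL j - 4 * (h : ℝ) ^ 2 / (j : ℝ) ^ 2 ≤ ∑ p ∈ PS (j - h) ∪ U, ell p := by
  have hhj : h ≤ j := by omega
  have hj' : (100 : ℝ) ≤ j := by exact_mod_cast hj
  have h4' : 4 * (h : ℝ) ≤ j := by exact_mod_cast h4
  have hh0 : (0 : ℝ) ≤ h := Nat.cast_nonneg h
  have hsub : ((j - h : ℕ) : ℝ) = j - h := by push_cast [Nat.cast_sub hhj]; ring
  have h1 : SL j ≤ ∑ p ∈ PS (j - h), ell p + (PS j \ PS (j - h)).card * ell ((j : ℝ) - h) := by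
    unfold SL
    rw [PS_split (j := j) (h := h), Finset.sum_union Finset.disjoint_sdiff,
      Finset.union_sdiff_left, Finset.sdiff_sdiff_left', Finset.inter_self]
    refine add_le_add_right ?_ _
    rw [← nsmul_eq_mul]
    refine Finset.sum_le_card_nsmul _ _ _ fun p hp => ?_
    rw [Finset.mem_sdiff, mem_PS, mem_PS] at hp
    have h2 : j - h < p := by
      by_contra h2
      exact hp.2 ⟨hp.1.1, not_lt.1 h2⟩
    refine ell_anti (by linarith) ?_
    have h3 : ((j - h : ℕ) : ℝ) ≤ p := by exact_mod_cast h2.le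
    linarith
  have h2 : ∑ p ∈ PS (j - h), ell p + (PS j \ PS (j - h)).card * ell ((j : ℝ) + h) ≤
      ∑ p ∈ PS (j - h) ∪ U, ell p := by
    rw [Finset.sum_union (disj_U hU hhj), ← hc]
    refine add_le_add_right ?_ _
    rw [← nsmul_eq_mul]
    refine Finset.card_nsmul_le_sum _ _ _ fun p hp => ?_
    obtain ⟨h3, h5, h6⟩ := (mem_Win hhj).1 (hU hp)
    refine ell_anti (prime_gt h3) ?_
    exact_mod_cast h6
  have h3 : ell ((j : ℝ) - h) - ell ((j : ℝ) + h) ≤ 4 * h / (j : ℝ) ^ 2 := by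
    refine (ell_diff (by linarith) (by linarith)).trans ?_
    rw [div_le_div_iff₀ (by nlinarith) (by positivity)]
    have e1 : (j : ℝ) + h - (j - h) = 2 * h := by ring
    rw [e1]
    have e2 : (j : ℝ) ^ 2 ≤ 2 * ((j + h) * (j - h - 1)) := by nlinarith
    nlinarith
  have h5 : ((PS j \ PS (j - h)).card : ℝ) ≤ h := by exact_mod_cast left_card j h
  have h6 : ((PS j \ PS (j - h)).card : ℝ) * (ell ((j : ℝ) - h) - ell ((j : ℝ) + h)) ≤
      4 * (h : ℝ) ^ 2 / (j : ℝ) ^ 2 := by
    calc ((PS j \ PS (j - h)).card : ℝ) * (ell ((j : ℝ) - h) - ell ((j : ℝ) + h)) ≤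
          ((PS j \ PS (j - h)).card : ℝ) * (4 * h / (j : ℝ) ^ 2) := by gcongr
      _ ≤ h * (4 * h / (j : ℝ) ^ 2) := by gcongr
      _ = _ := by ring
  linarith

/-- the size -/
theorem log_nU_le {j h Q : ℕ} (hQ0 : Q ≠ 0) (hj : 100 ≤ j) (h4 : 4 * h ≤ j) {U : Finset ℕ}
    (hU : U ⊆ Win j h) (hc : U.card = (PS j \ PS (j - h)).card) :
    Real.log (nU j h Q U) ≤ Real.log Q + Chebyshev.theta j + 3 * (h : ℝ) ^ 2 / j ∧
    Chebyshev.theta (j - h : ℕ) ≤ Real.log (nU j h Q U) := by
  have hhj : h ≤ j := by omega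
  have hj' : (100 : ℝ) ≤ j := by exact_mod_cast hj
  have h4' : 4 * (h : ℝ) ≤ j := by exact_mod_cast h4
  have hh0 : (0 : ℝ) ≤ h := Nat.cast_nonneg h
  have hsub : ((j - h : ℕ) : ℝ) = j - h := by push_cast [Nat.cast_sub hhj]; ring
  rw [log_nU hQ0 hU hhj]
  have hlQ : 0 ≤ Real.log Q := Real.log_natCast_nonneg Q
  constructor
  · have h1 : ∑ p ∈ PS (j - h), Real.log (p : ℝ) + (PS j \ PS (j - h)).card * Real.log ((j : ℝ) - h) ≤
        Chebyshev.theta j := by
      rw [theta_PS, PS_split (j := j) (h := h), Finset.sum_union Finset.disjoint_sdiff,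
        Finset.union_sdiff_left, Finset.sdiff_sdiff_left', Finset.inter_self]
      refine add_le_add_right ?_ _
      rw [← nsmul_eq_mul]
      refine Finset.card_nsmul_le_sum _ _ _ fun p hp => ?_
      rw [Finset.mem_sdiff, mem_PS, mem_PS] at hp
      have h2 : j - h < p := by
        by_contra h2
        exact hp.2 ⟨hp.1.1, not_lt.1 h2⟩
      refine Real.log_le_log (by linarith) ?_
      have h3 : ((j - h : ℕ) : ℝ) ≤ p := by exact_mod_cast h2.le
      linarith
    have h2 : ∑ p ∈ U, Real.log (p : ℝ) ≤ (PS j \ PS (j - h)).card * Real.log ((j : ℝ) + h) := by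
      rw [← hc, ← nsmul_eq_mul]
      refine Finset.sum_le_card_nsmul _ _ _ fun p hp => ?_
      obtain ⟨h3, h5, h6⟩ := (mem_Win hhj).1 (hU hp)
      have := prime_gt h3
      refine Real.log_le_log (by linarith) ?_
      exact_mod_cast h6
    have h3 : Real.log ((j : ℝ) + h) - Real.log ((j : ℝ) - h) ≤ 3 * h / j := by
      rw [← Real.log_div (by linarith) (by linarith)]
      have h5 : 0 < ((j : ℝ) + h) / (j - h) := div_pos (by linarith) (by linarith)
      have h6 := Real.log_le_sub_one_of_pos h5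
      have h7 : ((j : ℝ) + h) / (j - h) - 1 = 2 * h / (j - h) := by
        have : (j : ℝ) - h ≠ 0 := by linarith
        field_simp
        ring
      have h8 : 2 * (h : ℝ) / (j - h) ≤ 3 * h / j := by
        rw [div_le_div_iff₀ (by linarith) (by linarith)]
        nlinarith
      linarith
    have h5 : ((PS j \ PS (j - h)).card : ℝ) ≤ h := by exact_mod_cast left_card j h
    have h6 : ((PS j \ PS (j - h)).card : ℝ) * (Real.log ((j : ℝ) + h) - Real.log ((j : ℝ) - h)) ≤
        3 * (h : ℝ) ^ 2 / j := by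
      calc ((PS j \ PS (j - h)).card : ℝ) * (Real.log ((j : ℝ) + h) - Real.log ((j : ℝ) - h)) ≤
            ((PS j \ PS (j - h)).card : ℝ) * (3 * h / j) := by gcongr
        _ ≤ h * (3 * h / j) := by gcongr
        _ = _ := by ring
    linarith
  · rw [theta_PS]
    have : 0 ≤ ∑ p ∈ U, Real.log (p : ℝ) := Finset.sum_nonneg fun p hp => Real.log_natCast_nonneg p
    linarith

/-- the count -/
theorem cnt_ge {j h Q m : ℕ} (hQ0 : Q ≠ 0) (hQ : Q.primeFactors ⊆ PS (j - h)) (h4 : 4 * h ≤ j)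
    (P : ℕ → Prop) (x : ℝ)
    (hP : ∀ U ⊆ Win j h, U.card = (PS j \ PS (j - h)).card → P (nU j h Q U) ∧ (nU j h Q U : ℝ) ≤ x)
    (hm1 : m ≤ (PS j \ PS (j - h)).card) (hm2 : m ≤ (PS (j + h) \ PS j).card) :
    2 ^ m ≤ cnt P x := by
  have hhj : h ≤ j := by omega
  have h1 : (Win j h).card = (PS j \ PS (j - h)).card + (PS (j + h) \ PS j).card := by
    have e : Win j h = (PS j \ PS (j - h)) ∪ (PS (j + h) \ PS j) := by
      ext p
      rw [mem_Win hhj, mem_union, Finset.mem_sdiff, Finset.mem_sdiff, mem_PS, mem_PS, mem_PS]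
      constructor
      · rintro ⟨h1, h2, h3⟩
        by_cases hc : p ≤ j
        · left; exact ⟨⟨h1, hc⟩, fun h5 => by omega⟩
        · right; exact ⟨⟨h1, h3⟩, fun h5 => hc h5.2⟩
      · rintro (⟨⟨h1, h2⟩, h3⟩ | ⟨⟨h1, h2⟩, h3⟩)
        · refine ⟨h1, ?_, by omega⟩
          by_contra h5
          exact h3 ⟨h1, not_lt.1 h5⟩
        · refine ⟨h1, ?_, h2⟩
          by_contra h5
          exact h3 ⟨h1, by omega⟩
    rw [e, Finset.card_union_of_disjoint]
    rw [Finset.disjoint_left]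
    intro p hp1 hp2
    rw [Finset.mem_sdiff] at hp1 hp2
    exact hp2.2 hp1.1
  set a := (PS j \ PS (j - h)).card with ha
  have h2 : 2 ^ m ≤ ((Win j h).powersetCard a).card := by
    rw [Finset.card_powersetCard, h1]
    exact choose_ge _ _ _ hm1 hm2
  refine h2.trans ?_
  unfold cnt
  rw [← Set.ncard_coe_finset]
  refine Set.ncard_le_ncard_of_injOn (nU j h Q) ?_ ?_ (cnt_finite P x)
  · intro U hU
    rw [Finset.mem_coe, Finset.mem_powersetCard] at hU
    obtain ⟨h5, h6⟩ := hP U hU.1 hU.2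
    exact ⟨h6, h5⟩
  · intro U hU V hV hUV
    rw [Finset.mem_coe, Finset.mem_powersetCard] at hU hV
    have e1 := nU_factors hQ0 hQ hU.1 hhj
    have e2 := nU_factors hQ0 hQ hV.1 hhj
    rw [hUV, e2] at e1
    have d1 := disj_U hU.1 hhj
    have d2 := disj_U hV.1 hhj
    ext p
    constructor
    · intro hp
      have h5 : p ∈ PS (j - h) ∪ V := by rw [e1]; exact mem_union_right _ hp
      rw [mem_union] at h5
      rcases h5 with h5 | h5
      · exact absurd hp (Finset.disjoint_left.1 d1 h5)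
      · exact h5
    · intro hp
      have h5 : p ∈ PS (j - h) ∪ U := by rw [← e1]; exact mem_union_right _ hp
      rw [mem_union] at h5
      rcases h5 with h5 | h5
      · exact absurd hp (Finset.disjoint_left.1 d2 h5)
      · exact h5

end Q239.RN
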